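import Pool.Agent.Lib.H85A.AD

/-!
# H85A, A1: the basic inequality and integrability
-/

namespace Pool.Agent.Lib.H85A

open MeasureTheory Filter Topology

noncomputable section

variable {k : ℕ}

theorem a1_one (B : ℝ) (hB : 0 ≤ B) (u : ℝ) :
    (B + 1) * |u| - Real.pi * Real.exp (-2 * u) ≤ (B + 1) * u + (2 * (B + 1)) ^ 2 := by
  have hpi : (3 : ℝ) < Real.pi := Real.pi_gt_three
  have he : 0 < Real.exp (-2 * u) := Real.exp_pos _
  have h1 : Real.exp (-2 * u) ≤ Real.pi * Real.exp (-2 * u) := by nlinarith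
  rcases le_or_gt 0 u with hu | hu
  · rw [abs_of_nonneg hu]
    nlinarith [sq_nonneg (2 * (B + 1))]
  · rw [abs_of_neg hu]
    have h2 : (-2 * u) ^ 2 / 2 ≤ Real.exp (-2 * u) := by
      have := Real.quadratic_le_exp_of_nonneg (show (0:ℝ) ≤ -2 * u by linarith)
      nlinarith
    nlinarith [sq_nonneg (-u - (B + 1)), sq_nonneg (B + 1)]

/-- PROOF. Let `u_i` be the numbers `x_l` and `L - ∑ x`, `∑ u_i = L`. With `Q = ∑ max 0 (-u_i)`: `∑ |u_i| = L + 2 Q ≤ |L| + 2 Q`. `exp (-2 u) ≥ c * max 0 (-u) - c²` for all `c ≥ 0` (`exp w ≥ 1 + w`-type; e.g. `exp (2 v) ≥ 2 v ^ 2 ≥ c v - c ^ 2`), so `π ∑ exp (-2 u_i) ≥ ∑ exp (-2 u_i) ≥ c Q - (k+1) c²`, `c = 2 (B + 1)`. -/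
theorem a_core (k : ℕ) (B : ℝ) (hB : 0 ≤ B) (L : ℝ) : ∃ C : ℝ, ∀ x : Fin k → ℝ,
    B * (∑ l, |x l| + |L - ∑ l, x l|) - Real.pi * (∑ l, Real.exp (-2 * x l) + Real.exp (-2 * (L - ∑ l, x l))) ≤ C - ∑ l, |x l| := by
  refine ⟨(B + 1) * L + ((k : ℝ) + 1) * (2 * (B + 1)) ^ 2, fun x => ?_⟩
  have h1 : ∑ l, ((B + 1) * |x l| - Real.pi * Real.exp (-2 * x l)) ≤
      ∑ l : Fin k, ((B + 1) * x l + (2 * (B + 1)) ^ 2) :=
    Finset.sum_le_sum fun l _ => a1_one B hB (x l)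
  have h2 := a1_one B hB (L - ∑ l, x l)
  rw [Finset.sum_sub_distrib, Finset.sum_add_distrib, ← Finset.mul_sum, ← Finset.mul_sum,
    ← Finset.mul_sum, Finset.sum_const, Finset.card_univ, Fintype.card_fin, nsmul_eq_mul] at h1
  have h3 := abs_nonneg (L - ∑ l, x l)
  nlinarith

theorem a1_abs1 : Integrable fun x : ℝ => Real.exp (-|x|) := by
  by_contra h
  have h1 := integral_undef h
  have h2 : ∫ x : ℝ, Real.exp (-|x|) = 2 := by
    have := integral_comp_abs (f := fun x => Real.exp (-x))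
    rw [this, integral_exp_neg_Ioi_zero]
    norm_num
  rw [h2] at h1
  norm_num at h1

/-- PROOF. `Integrable.fintype_prod` for `x ↦ exp (-|x|)`. -/
theorem a_expabs (k : ℕ) : Integrable fun x : Fin k → ℝ => Real.exp (-∑ l, |x l|) := by
  have h := Integrable.fintype_prod (ι := Fin k) (𝕜 := ℝ) (E := ℝ) (μ := fun _ => volume)
    (f := fun _ x => Real.exp (-|x|)) (fun _ => a1_abs1)
  refine h.congr (Eventually.of_forall fun x => ?_)
  show ∏ i, Real.exp (-|x i|) = Real.exp (-∑ l, |x l|)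
  rw [← Real.exp_sum, Finset.sum_neg_distrib]

/-- PROOF. `‖th μ u‖ = exp (Re μ u) EE1 u ≤ exp (‖μ‖ |u|) EE1 u`. -/
theorem th_norm (μ : ℂ) (u : ℝ) : ‖th μ u‖ = Real.exp (μ.re * u) * EE1 u := by
  unfold th
  rw [norm_mul, Complex.norm_exp, Complex.norm_real, Real.norm_of_nonneg (by unfold EE1; positivity)]
  congr 2
  simp

theorem th_cont (μ : ℂ) : Continuous (th μ) := by
  unfold th EE1
  fun_prop

theorem a1_th_le (μ : ℂ) (B : ℝ) (hB : ‖μ‖ ≤ B) (u : ℝ) :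
    ‖th μ u‖ ≤ Real.exp (B * |u| - Real.pi * Real.exp (-2 * u)) := by
  rw [th_norm, EE1, ← Real.exp_add]
  refine Real.exp_le_exp.2 ?_
  have h1 : μ.re * u ≤ B * |u| := by
    calc μ.re * u ≤ |μ.re * u| := le_abs_self _
      _ = |μ.re| * |u| := abs_mul _ _
      _ ≤ B * |u| := mul_le_mul_of_nonneg_right ((Complex.abs_re_le_norm μ).trans hB) (abs_nonneg _)
  linarith

theorem hI_cont (L : ℝ) (s : Fin (k + 1) → ℂ) : Continuous (hI L s) := by
  unfold hI
  refine Continuous.mul ?_ ?_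
  · exact continuous_finset_prod _ fun l _ => (th_cont _).comp (continuous_apply l)
  · exact (th_cont _).comp (by fun_prop)

/-- PROOF. Continuous, and `‖hI L s x‖ ≤ e^C exp (-∑ |x_l|)` by `a_core` (`B = max ‖s_j‖` or the sum of the norms) and `th_norm`. -/
theorem hI_int (L : ℝ) (s : Fin (k + 1) → ℂ) : Integrable (hI L s) := by
  obtain ⟨C, hC⟩ := a_core k (∑ j, ‖s j‖) (Finset.sum_nonneg fun j _ => norm_nonneg _) L
  refine Integrable.mono' ((a_expabs k).const_mul (Real.exp C)) (hI_cont L s).aestronglyMeasurable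
    (Eventually.of_forall fun x => ?_)
  have hs : ∀ j, ‖s j‖ ≤ ∑ j, ‖s j‖ := fun j =>
    Finset.single_le_sum (f := fun j => ‖s j‖) (fun j _ => norm_nonneg _) (Finset.mem_univ j)
  unfold hI
  rw [norm_mul, norm_prod, ← Real.exp_add]
  calc (∏ l : Fin k, ‖th (s l.castSucc) (x l)‖) * ‖th (s (Fin.last k)) (L - ∑ l, x l)‖
      ≤ (∏ l : Fin k, Real.exp ((∑ j, ‖s j‖) * |x l| - Real.pi * Real.exp (-2 * x l))) *
        Real.exp ((∑ j, ‖s j‖) * |L - ∑ l, x l| - Real.pi * Real.exp (-2 * (L - ∑ l, x l))) := by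
        refine mul_le_mul ?_ (a1_th_le _ _ (hs _) _) (norm_nonneg _)
          (Finset.prod_nonneg fun _ _ => (Real.exp_pos _).le)
        exact Finset.prod_le_prod (fun _ _ => norm_nonneg _) fun l _ => a1_th_le _ _ (hs _) _
    _ = Real.exp ((∑ j, ‖s j‖) * (∑ l, |x l| + |L - ∑ l, x l|) -
        Real.pi * (∑ l, Real.exp (-2 * x l) + Real.exp (-2 * (L - ∑ l, x l)))) := by
        rw [← Real.exp_sum, ← Real.exp_add, Finset.sum_sub_distrib, ← Finset.mul_sum,
          ← Finset.mul_sum]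
        congr 1
        ring
    _ ≤ Real.exp (C + -∑ l, |x l|) := by
        refine Real.exp_le_exp.2 ?_
        have := hC x
        linarith

/-- PROOF. `x ↦ x + v` preserves the Lebesgue measure and `∏ th (s_l) (x_l + v_l) * th (s_k) (L - ∑ x) = hI (L + ∑ v) s (x + v)`. -/
theorem hI_shift (L : ℝ) (s : Fin (k + 1) → ℂ) (v : Fin k → ℝ) :
    Integrable (fun x : Fin k → ℝ => (∏ l : Fin k, th (s l.castSucc) (x l + v l)) * th (s (Fin.last k)) (L - ∑ l, x l)) ∧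
    ∫ x : Fin k → ℝ, (∏ l : Fin k, th (s l.castSucc) (x l + v l)) * th (s (Fin.last k)) (L - ∑ l, x l) = HL (L + ∑ l, v l) s := by
  have h : (fun x : Fin k → ℝ => (∏ l : Fin k, th (s l.castSucc) (x l + v l)) * th (s (Fin.last k)) (L - ∑ l, x l)) =
      fun x => hI (L + ∑ l, v l) s (x + v) := by
    funext x
    unfold hI
    simp only [Pi.add_apply, Finset.sum_add_distrib]
    congr 2
    ring
  rw [h]
  refine ⟨(hI_int _ s).comp_add_right v, ?_⟩
  rw [integral_add_right_eq_self (fun x => hI (L + ∑ l, v l) s x) v]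
  rfl

end

end Pool.Agent.Lib.H85A
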