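import Pool.Agent.Lib.H85A.Stm
import Pool.Agent.Lib.H33W.U4

/-!
# H85A, D0: coordinates of `SL_(k+1)(ℝ)`, the integral over the Borel group, the Gaussian kernel; basic lemmas
-/

namespace Pool.Agent.Lib.H85A

open MeasureTheory Matrix NumberField
open Pool.Agent.Lib.H89N Pool.Agent.Lib.H85S Pool.Agent.Lib.H33W

noncomputable section

variable {n k : ℕ}

/-- `exp(t_j)` for `j < k` and `exp(-∑ t)` for `j = k`. -/
def av (t : Fin k → ℝ) (j : Fin (k + 1)) : ℝ := if h : (j : ℕ) < k then Real.exp (t ⟨j, h⟩) else Real.exp (-∑ i, t i)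

theorem av_cs (t : Fin k → ℝ) (l : Fin k) : av t l.castSucc = Real.exp (t l) := by
  unfold av
  rw [dif_pos (show ((l.castSucc : Fin (k + 1)) : ℕ) < k from l.2)]
  rfl

theorem av_last (t : Fin k → ℝ) : av t (Fin.last k) = Real.exp (-∑ i, t i) := by
  unfold av
  rw [dif_neg (by simp)]

theorem av_pos (t : Fin k → ℝ) (j : Fin (k + 1)) : 0 < av t j := by
  unfold av
  split_ifs <;> exact Real.exp_pos _

theorem av_ne (t : Fin k → ℝ) (j : Fin (k + 1)) : av t j ≠ 0 := (av_pos t j).ne'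

theorem av_prod (t : Fin k → ℝ) : ∏ j, av t j = 1 := by
  rw [Fin.prod_univ_castSucc, av_last]
  have h : ∀ l : Fin k, av t l.castSucc = Real.exp (t l) := av_cs t
  rw [Finset.prod_congr rfl fun l _ => h l, ← Real.exp_sum, ← Real.exp_add, add_neg_cancel, Real.exp_zero]

theorem av_add (s t : Fin k → ℝ) (j : Fin (k + 1)) : av (s + t) j = av s j * av t j := by
  refine Fin.lastCases ?_ (fun l => ?_) j
  · rw [av_last, av_last, av_last, ← Real.exp_add]
    congr 1
    simp only [Pi.add_apply, Finset.sum_add_distrib]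
    ring
  · rw [av_cs, av_cs, av_cs, ← Real.exp_add]
    rfl

theorem av_zero (j : Fin (k + 1)) : av (0 : Fin k → ℝ) j = 1 := by
  refine Fin.lastCases ?_ (fun l => ?_) j
  · rw [av_last]
    simp
  · rw [av_cs]
    simp

theorem av_neg (t : Fin k → ℝ) (j : Fin (k + 1)) : av (-t) j = (av t j)⁻¹ := by
  have h := av_add (-t) t j
  rw [neg_add_cancel, av_zero] at h
  exact eq_inv_of_mul_eq_one_left h.symm

theorem av_cont (j : Fin (k + 1)) : Continuous fun t : Fin k → ℝ => av t j := by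
  refine Fin.lastCases ?_ (fun l => ?_) j
  · simp only [av_last]
    fun_prop
  · simp only [av_cs]
    fun_prop

/-- Every vector of positive numbers with product one. -/
theorem av_surj {a : Fin (k + 1) → ℝ} (ha : ∀ i, 0 < a i) (h : ∏ i, a i = 1) : ∃ t : Fin k → ℝ, ∀ j, av t j = a j := by
  refine ⟨fun l => Real.log (a l.castSucc), fun j => ?_⟩
  refine Fin.lastCases ?_ (fun l => ?_) j
  · rw [av_last, Real.exp_neg, Real.exp_sum]
    rw [Fin.prod_univ_castSucc] at h
    rw [Finset.prod_congr rfl fun l _ => Real.exp_log (ha (Fin.castSucc l))]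
    rw [eq_inv_of_mul_eq_one_left h, inv_inv]
  · rw [av_cs]
    exact Real.exp_log (ha _)

/-- `diag(av t)` in `SL_(k+1)(ℝ)`. -/
def aG (t : Fin k → ℝ) : GG (k + 1) ℚ :=
  ⟨Matrix.diagonal fun i => iq (av t i), by rw [Matrix.det_diagonal, ← map_prod, av_prod, map_one]⟩

theorem aG_coe (t : Fin k → ℝ) : (aG t).1 = Matrix.diagonal fun i => iq (av t i) := rfl

theorem aG_add (s t : Fin k → ℝ) : aG (s + t) = aG s * aG t := by
  refine Subtype.ext ?_
  show Matrix.diagonal _ = Matrix.diagonal _ * Matrix.diagonal _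
  rw [Matrix.diagonal_mul_diagonal]
  congr 1
  funext i
  rw [av_add, map_mul]

theorem aG_zero : aG (0 : Fin k → ℝ) = 1 := by
  refine Subtype.ext ?_
  show Matrix.diagonal _ = 1
  rw [← Matrix.diagonal_one]
  congr 1
  funext i
  rw [av_zero, map_one]

theorem aG_neg (t : Fin k → ℝ) : aG (-t) = (aG t)⁻¹ := by
  refine eq_inv_of_mul_eq_one_left ?_
  rw [← aG_add, neg_add_cancel, aG_zero]

theorem aG_cont : Continuous (aG : (Fin k → ℝ) → GG (k + 1) ℚ) := by
  refine Continuous.subtype_mk ?_ _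
  refine Continuous.matrix_diagonal ?_
  exact continuous_pi fun i => iq_cont.comp (av_cont i)

/-- The unipotent upper triangular matrix with the real entries `σ`. -/
def upr (σ : UI n → ℝ) : GG n ℚ := up fun p => iq (σ p)

theorem upr_cont : Continuous (upr : (UI n → ℝ) → GG n ℚ) :=
  u4_cont_up.comp (continuous_pi fun p => iq_cont.comp (continuous_apply p))

theorem upr_coe (σ : UI n → ℝ) : (upr σ).1 = (upM σ).map iq := by
  refine Matrix.ext fun a b => ?_
  show upM (fun p => iq (σ p)) a b = iq (upM σ a b)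
  unfold upM
  simp only [Matrix.of_apply]
  split_ifs with h1 h2
  · rfl
  · exact (map_one iq).symm
  · exact (map_zero iq).symm

theorem upr_surj (τ : UI n → EE ℚ) : ∃ σ : UI n → ℝ, (up τ : GG n ℚ) = upr σ := by
  refine ⟨fun p => rq (τ p), ?_⟩
  unfold upr
  congr 1
  funext p
  exact (iq_rq _).symm

/-- `∏_(i<l) a_i / a_l` for `a = av t`: the module `a^(2ρ)`. -/
def dl (t : Fin k → ℝ) : ℝ := ∏ p : UI (k + 1), av t p.1.1 / av t p.1.2

theorem dl_pos (t : Fin k → ℝ) : 0 < dl t := Finset.prod_pos fun _ _ => div_pos (av_pos _ _) (av_pos _ _)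

theorem dl_add (s t : Fin k → ℝ) : dl (s + t) = dl s * dl t := by
  unfold dl
  rw [← Finset.prod_mul_distrib]
  refine Finset.prod_congr rfl fun p _ => ?_
  rw [av_add, av_add, mul_div_mul_comm]

theorem dl_neg (t : Fin k → ℝ) : dl (-t) = (dl t)⁻¹ := by
  unfold dl
  rw [← Finset.prod_inv_distrib]
  refine Finset.prod_congr rfl fun p _ => ?_
  rw [av_neg, av_neg, inv_div_inv, inv_div]

theorem dl_cont : Continuous (dl : (Fin k → ℝ) → ℝ) := by
  refine continuous_finsetProd _ fun p _ => ?_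
  exact (av_cont _).div (av_cont _) fun t => av_ne t _

/-- The sum of the squares of the entries. -/
def fro (g : GG n ℚ) : ℝ := ∑ i, ∑ l, rq (g.1 i l) ^ 2

theorem fro_nonneg (g : GG n ℚ) : 0 ≤ fro g := Finset.sum_nonneg fun _ _ => Finset.sum_nonneg fun _ _ => sq_nonneg _

theorem fro_cont : Continuous (fro : GG n ℚ → ℝ) := by
  refine continuous_finsetSum _ fun i _ => continuous_finsetSum _ fun l _ => ?_
  exact (rq_cont.comp (continuous_subtype_val.matrix_elem i l)).pow 2

/-- The group `SO(n)`. -/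
def IsK (k : GG n ℚ) : Prop := k.1 * k.1ᵀ = 1

/-- Right `SO(n)`-invariant functions. -/
def RK {α : Type} (F : GG n ℚ → α) : Prop := ∀ k : GG n ℚ, IsK k → ∀ x, F (x * k) = F x

/-- **The integral over the Borel group**, in the coordinates `(up σ)⁻¹ diag(av t)`. -/
def IB (F : GG (k + 1) ℚ → ENNReal) : ENNReal :=
  ∫⁻ t : Fin k → ℝ, ∫⁻ σ : UI (k + 1) → ℝ, F ((upr σ)⁻¹ * aG t) * ENNReal.ofReal (dl t)⁻¹

/-- **The Gaussian kernel** `exp(-π y² |z⁻¹|²)`. -/
def GK (y : ℝ) (z : GG n ℚ) : ℝ := Real.exp (-(Real.pi * y ^ 2 * fro z⁻¹))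

/-- **The spherical transform of the Gaussian kernel** (up to a constant): `∫ ∏ a_i ^ (s_i) exp(-π y² ∑ a_i⁻²)` over the diagonal matrices. -/
def HX (y : ℝ) (s : Fin (k + 1) → ℂ) : ℂ :=
  ∫ t : Fin k → ℝ, (∏ i, (av t i : ℂ) ^ s i) * (Real.exp (-(Real.pi * y ^ 2 * ∑ i, (av t i ^ 2)⁻¹)) : ℂ)

end

end Pool.Agent.Lib.H85A
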