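import Pool.Agent.Lib.H85A.A1
import Pool.Agent.Lib.H85A.D0

/-!
# H85A, A2: `HX` in terms of `HL`
-/

namespace Pool.Agent.Lib.H85A

open MeasureTheory Filter Topology

noncomputable section

variable {k : ℕ}

theorem a2_pt {s : Fin (k + 1) → ℂ} (hs : ∑ i, s i = 0) {y : ℝ} (hy : 0 < y) (t : Fin k → ℝ) :
    (∏ i, (av t i : ℂ) ^ s i) * (Real.exp (-(Real.pi * y ^ 2 * ∑ i, (av t i ^ 2)⁻¹)) : ℂ) =
      hI (-((k : ℝ) + 1) * Real.log y) s (t - fun _ => Real.log y) := by
  have h1 : hI (-((k : ℝ) + 1) * Real.log y) s (t - fun _ => Real.log y) =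
      ∏ i, th (s i) (Real.log (av t i) - Real.log y) := by
    unfold hI
    rw [Fin.prod_univ_castSucc]
    congr 1
    · refine Finset.prod_congr rfl fun l _ => ?_
      rw [av_cs, Real.log_exp]
      rfl
    · rw [av_last, Real.log_exp]
      congr 1
      simp only [Pi.sub_apply, Finset.sum_sub_distrib, Finset.sum_const, Finset.card_univ,
        Fintype.card_fin, nsmul_eq_mul]
      ring
  rw [h1]
  unfold th EE1
  rw [Finset.prod_mul_distrib]
  congr 1
  · have h2 : ∀ i, (av t i : ℂ) ^ s i = Complex.exp (s i * ((Real.log (av t i) : ℝ) : ℂ)) := by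
      intro i
      rw [Complex.cpow_def_of_ne_zero (by exact_mod_cast av_ne t i),
        ← Complex.ofReal_log (av_pos t i).le, mul_comm]
    rw [Finset.prod_congr rfl fun i _ => h2 i, ← Complex.exp_sum, ← Complex.exp_sum]
    congr 1
    have h3 : ∀ i, s i * ((Real.log (av t i) - Real.log y : ℝ) : ℂ) =
        s i * ((Real.log (av t i) : ℝ) : ℂ) - s i * ((Real.log y : ℝ) : ℂ) := by
      intro i
      push_cast
      ring
    rw [Finset.sum_congr rfl fun i _ => h3 i, Finset.sum_sub_distrib, ← Finset.sum_mul, hs,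
      zero_mul, sub_zero]
  · rw [← Complex.ofReal_prod, ← Real.exp_sum]
    congr 2
    rw [Finset.sum_neg_distrib, Finset.mul_sum]
    congr 1
    refine Finset.sum_congr rfl fun i _ => ?_
    have h4 : Real.exp (-2 * (Real.log (av t i) - Real.log y)) = y ^ 2 * (av t i ^ 2)⁻¹ := by
      have h5 : -2 * (Real.log (av t i) - Real.log y) =
          Real.log y + Real.log y + -(Real.log (av t i) + Real.log (av t i)) := by ring
      rw [h5, Real.exp_add, Real.exp_neg, Real.exp_add, Real.exp_add, Real.exp_log hy,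
        Real.exp_log (av_pos t i)]
      ring
    rw [h4]
    ring

/-- PROOF. Substitute `x_l = t_l - log y` (`integral_sub_right_eq_self` or `integral_add_right_eq_self`): `av t l / y = exp (x_l)` for `l < k`, `av t k / y = exp (-∑ t - log y) = exp (L - ∑ x)`, `L = -(k+1) log y`; `∏ (av t i) ^ (s i) = ∏ (av t i / y) ^ (s i)` because `∑ s = 0`;
`(exp x : ℂ) ^ s = exp (s x)` (`Complex.cpow_def`/`Complex.ofReal_cpow`, `Complex.log_ofReal`...). -/
theorem hx_hl {s : Fin (k + 1) → ℂ} (hs : ∑ i, s i = 0) {y : ℝ} (hy : 0 < y) : HX y s = HL (-((k : ℝ) + 1) * Real.log y) s := by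
  unfold HX HL
  rw [← integral_sub_right_eq_self
    (fun x : Fin k → ℝ => hI (-((k : ℝ) + 1) * Real.log y) s x) (fun _ => Real.log y)]
  refine integral_congr_ae (Filter.Eventually.of_forall fun t => ?_)
  exact a2_pt hs hy t

end

end Pool.Agent.Lib.H85A
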