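import Pool.Agent.Lib.H85A.A1

/-!
# H85A, A3: symmetry
-/

namespace Pool.Agent.Lib.H85A

open MeasureTheory Filter Topology

noncomputable section

variable {k : ℕ}

theorem a3_sum (j : Fin k) (x : Fin k → ℝ) (b : ℝ) : ∑ l, Function.update x j b l = b + (∑ l, x l - x j) := by
  rw [Finset.sum_update_of_mem (Finset.mem_univ j)]
  congr 1
  have := Finset.sum_sdiff (f := x) (Finset.subset_univ {j})
  rw [Finset.sum_singleton] at this
  linarith

/-- The linear part of the substitution. -/
def a3M (j : Fin k) : (Fin k → ℝ) →ₗ[ℝ] (Fin k → ℝ) where
  toFun x := Function.update x j (-∑ l, x l)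
  map_add' x y := by
    ext l
    by_cases h : l = j
    · subst h
      simp only [Function.update_self, Pi.add_apply, Finset.sum_add_distrib]
      ring
    · simp [Function.update_of_ne h]
  map_smul' c x := by
    ext l
    by_cases h : l = j
    · subst h
      simp only [Function.update_self, Pi.smul_apply, smul_eq_mul, RingHom.id_apply,
        ← Finset.mul_sum]
      ring
    · simp [Function.update_of_ne h]

theorem a3M_apply (j : Fin k) (x : Fin k → ℝ) : a3M j x = Function.update x j (-∑ l, x l) := rfl

theorem a3M_invol (j : Fin k) (x : Fin k → ℝ) : a3M j (a3M j x) = x := by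
  rw [a3M_apply, a3M_apply, a3_sum]
  ext l
  by_cases h : l = j
  · subst h
    rw [Function.update_self]
    ring
  · rw [Function.update_of_ne h, Function.update_of_ne h]

theorem a3M_map (j : Fin k) : Measure.map (a3M j) (volume : Measure (Fin k → ℝ)) = volume := by
  have h1 : (a3M j).comp (a3M j) = LinearMap.id := LinearMap.ext fun x => a3M_invol j x
  have h2 : LinearMap.det (a3M j) * LinearMap.det (a3M j) = 1 := by
    rw [← LinearMap.det_comp, h1, LinearMap.det_id]
  have h3 : LinearMap.det (a3M j) ≠ 0 := by
    intro h
    rw [h, zero_mul] at h2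
    exact zero_ne_one h2
  have h4 : |(LinearMap.det (a3M j))⁻¹| = 1 := by
    rcases mul_self_eq_one_iff.1 h2 with h | h <;> rw [h] <;> norm_num
  rw [Real.map_linearMap_volume_pi_eq_smul_volume_pi h3, h4, ENNReal.ofReal_one, one_smul]

/-- PROOF. For `j = last` nothing to prove. For `j = castSucc j'` substitute `x_(j') ↦ L - ∑ x` (the other coordinates fixed): this affine involution preserves the Lebesgue measure (determinant `-1`: e.g. `MeasurePreserving` of `x ↦ M x + c` with `|det M| = 1`, `Real.map_linearMap_volume_pi_eq_smul_volume_pi`;
or `measurePreserving_piFinSuccAbove`/`MeasurableEquiv.piFinSuccAbove` at `j'` and for fixed other coordinates `integral_sub_left_eq_self`: `∫ f (c - x) dx = ∫ f x dx`), and it exchanges the factors `th (s j')` and `th (s last)`. -/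
theorem hl_swap (L : ℝ) (s : Fin (k + 1) → ℂ) (j : Fin (k + 1)) : HL L (s ∘ Equiv.swap j (Fin.last k)) = HL L s := by
  refine Fin.lastCases ?_ (fun j => ?_) j
  · rw [Equiv.swap_self]
    rfl
  · have h1 : ∀ x : Fin k → ℝ, hI L (s ∘ Equiv.swap j.castSucc (Fin.last k)) x =
        hI L s (a3M j x + Pi.single j L) := by
      intro x
      have h2 : a3M j x + Pi.single j L = Function.update x j (L - ∑ l, x l) := by
        ext l
        by_cases h : l = j
        · subst h
          rw [a3M_apply, Pi.add_apply, Function.update_self, Function.update_self, Pi.single_eq_same]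
          ring
        · rw [a3M_apply, Pi.add_apply, Function.update_of_ne h, Function.update_of_ne h,
            Pi.single_eq_of_ne h, add_zero]
      rw [h2]
      unfold hI
      have h3 : L - ∑ l, Function.update x j (L - ∑ l, x l) l = x j := by
        rw [a3_sum]
        ring
      rw [h3]
      have hmem : j ∈ (Finset.univ : Finset (Fin k)) := Finset.mem_univ j
      rw [← Finset.mul_prod_erase _ _ hmem, ← Finset.mul_prod_erase _ (fun l => th (s l.castSucc) _) hmem]
      have h4 : ∏ l ∈ Finset.univ.erase j, th ((s ∘ Equiv.swap j.castSucc (Fin.last k)) l.castSucc) (x l) =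
          ∏ l ∈ Finset.univ.erase j, th (s l.castSucc) (Function.update x j (L - ∑ l, x l) l) := by
        refine Finset.prod_congr rfl fun l hl => ?_
        have hlj := Finset.ne_of_mem_erase hl
        rw [Function.update_of_ne hlj, Function.comp_apply, Equiv.swap_apply_of_ne_of_ne]
        · intro h
          exact hlj (Fin.castSucc_injective _ h)
        · exact (Fin.castSucc_lt_last l).ne
      rw [h4, Function.update_self, Function.comp_apply, Function.comp_apply, Equiv.swap_apply_left,
        Equiv.swap_apply_right]
      ring
    unfold HL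
    rw [integral_congr_ae (Eventually.of_forall h1)]
    have h5 : ∫ x : Fin k → ℝ, hI L s (a3M j x + Pi.single j L) =
        ∫ y : Fin k → ℝ, hI L s (y + Pi.single j L) ∂(Measure.map (a3M j) volume) := by
      rw [integral_map]
      · exact (LinearMap.continuous_on_pi _).measurable.aemeasurable
      · exact ((hI_cont L s).comp (by fun_prop)).aestronglyMeasurable
    rw [h5, a3M_map, integral_add_right_eq_self (fun y => hI L s y)]

end

end Pool.Agent.Lib.H85A
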