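import Pool.Agent.Lib.H85A.A1

/-!
# H85A, A4: the difference operators
-/

namespace Pool.Agent.Lib.H85A

open MeasureTheory Filter Topology

noncomputable section

variable {k : ℕ}

/-- PROOF. `kp h μ u = th μ (u + h) + (-e^(hμ)) th μ u`; `Finset.prod_add`: the product over `l` is the sum over the subsets `A` of `∏_(l ∈ A) th (s_l) (x_l + h) * ∏_(l ∉ A) (-e^(h s_l)) th (s_l) (x_l)`, i.e. `∏_(l ∉ A) (-e^(h s_l)) * ∏_l th (s_l) (x_l + v_l)` with `v_l = h` for `l ∈ A`, `0` otherwise;
integrate term by term (`hI_shift`, `∑ v = |A| h`). -/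
theorem kp_expand (h L : ℝ) (s : Fin (k + 1) → ℂ) :
    ∫ x : Fin k → ℝ, (∏ l : Fin k, kp h (s l.castSucc) (x l)) * th (s (Fin.last k)) (L - ∑ l, x l) =
      ∑ A ∈ (Finset.univ : Finset (Fin k)).powerset, (∏ l ∈ Finset.univ \ A, -Complex.exp (h * s l.castSucc)) * HL (L + A.card * h) s := by
  have h1 : ∀ x : Fin k → ℝ, (∏ l : Fin k, kp h (s l.castSucc) (x l)) * th (s (Fin.last k)) (L - ∑ l, x l) =
      ∑ A ∈ (Finset.univ : Finset (Fin k)).powerset,
        (∏ l ∈ Finset.univ \ A, -Complex.exp (h * s l.castSucc)) *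
          ((∏ l : Fin k, th (s l.castSucc) (x l + (if l ∈ A then h else 0))) *
            th (s (Fin.last k)) (L - ∑ l, x l)) := by
    intro x
    have h2 : ∀ l : Fin k, kp h (s l.castSucc) (x l) =
        th (s l.castSucc) (x l + h) + -Complex.exp (h * s l.castSucc) * th (s l.castSucc) (x l) := by
      intro l
      unfold kp
      ring
    rw [Finset.prod_congr rfl fun l _ => h2 l, Finset.prod_add, Finset.sum_mul]
    refine Finset.sum_congr rfl fun A hA => ?_
    rw [Finset.prod_mul_distrib]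
    have h3 : ∏ l : Fin k, th (s l.castSucc) (x l + (if l ∈ A then h else 0)) =
        (∏ l ∈ A, th (s l.castSucc) (x l + h)) * ∏ l ∈ Finset.univ \ A, th (s l.castSucc) (x l) := by
      rw [← Finset.prod_sdiff (Finset.subset_univ A), mul_comm]
      congr 1
      · refine Finset.prod_congr rfl fun l hl => ?_
        rw [if_pos hl]
      · refine Finset.prod_congr rfl fun l hl => ?_
        rw [if_neg (Finset.mem_sdiff.1 hl).2, add_zero]
    rw [h3]
    ring
  simp_rw [h1]
  rw [integral_finsetSum]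
  · refine Finset.sum_congr rfl fun A hA => ?_
    rw [integral_const_mul, (hI_shift L s fun l => if l ∈ A then h else 0).2]
    congr 2
    rw [Finset.sum_ite_mem, Finset.univ_inter, Finset.sum_const, nsmul_eq_mul]
  · intro A hA
    exact (hI_shift L s fun l => if l ∈ A then h else 0).1.const_mul _

/-- PROOF. `kp_expand` and the triangle inequality: if all `‖HL (L + r h) s‖ ≤ M` for `r ≤ k` then the integral is at most `∑_A exp (h T) ^ (k - |A|) M ≤ 2 ^ k exp (h T) ^ k M` (`h ≥ 0`, `‖exp (h μ)‖ = exp (h Re μ) ≤ exp (h T)`). -/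
theorem kp_bound {h L T : ℝ} (hh : 0 ≤ h) (hT : 0 ≤ T) {s : Fin (k + 1) → ℂ} (hs : ∀ j, ‖s j‖ ≤ T) : ∃ r : ℕ, r ≤ k ∧
    ‖∫ x : Fin k → ℝ, (∏ l : Fin k, kp h (s l.castSucc) (x l)) * th (s (Fin.last k)) (L - ∑ l, x l)‖ ≤
      (2 * Real.exp (h * T)) ^ k * ‖HL (L + r * h) s‖ := by
  obtain ⟨r, hr, hmax⟩ := Finset.exists_max_image (Finset.range (k + 1))
    (fun r : ℕ => ‖HL (L + r * h) s‖) ⟨0, by simp⟩
  refine ⟨r, by simpa [Nat.lt_succ_iff] using Finset.mem_range.1 hr, ?_⟩
  rw [kp_expand]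
  have hE : 1 ≤ Real.exp (h * T) := Real.one_le_exp (mul_nonneg hh hT)
  have h1 : ∀ A ∈ (Finset.univ : Finset (Fin k)).powerset,
      ‖(∏ l ∈ Finset.univ \ A, -Complex.exp (h * s l.castSucc)) * HL (L + A.card * h) s‖ ≤
        Real.exp (h * T) ^ k * ‖HL (L + r * h) s‖ := by
    intro A hA
    rw [norm_mul]
    have h2 : ‖∏ l ∈ Finset.univ \ A, -Complex.exp (h * s l.castSucc)‖ ≤ Real.exp (h * T) ^ k := by
      rw [norm_prod]
      have h3 : ∀ l ∈ Finset.univ \ A, ‖-Complex.exp (h * s l.castSucc)‖ ≤ Real.exp (h * T) := by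
        intro l _
        rw [norm_neg, Complex.norm_exp]
        refine Real.exp_le_exp.2 ?_
        rw [Complex.re_ofReal_mul]
        exact mul_le_mul_of_nonneg_left ((Complex.re_le_norm _).trans (hs _)) hh
      refine (Finset.prod_le_prod (fun _ _ => norm_nonneg _) h3).trans ?_
      rw [Finset.prod_const]
      refine pow_le_pow_right₀ hE ?_
      refine (Finset.card_le_univ _).trans ?_
      rw [Fintype.card_fin]
    have h4 : ‖HL (L + A.card * h) s‖ ≤ ‖HL (L + r * h) s‖ := by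
      refine hmax A.card ?_
      rw [Finset.mem_range, Nat.lt_succ_iff]
      refine (Finset.card_le_univ _).trans ?_
      rw [Fintype.card_fin]
    exact mul_le_mul h2 h4 (norm_nonneg _) (pow_nonneg (Real.exp_pos _).le _)
  refine (norm_sum_le _ _).trans ((Finset.sum_le_sum h1).trans ?_)
  rw [Finset.sum_const, Finset.card_powerset, Finset.card_univ, Fintype.card_fin, nsmul_eq_mul,
    mul_pow]
  push_cast
  rw [mul_assoc]

end

end Pool.Agent.Lib.H85A
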