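import Pool.Agent.Lib.H85A.A1

/-!
# H85A, A5: the function `Zh`
-/

namespace Pool.Agent.Lib.H85A

open MeasureTheory Filter Topology

noncomputable section

variable {k : ℕ}

theorem a5_mono : Monotone EE1 := by
  intro a b hab
  unfold EE1
  refine Real.exp_le_exp.2 (neg_le_neg ?_)
  refine mul_le_mul_of_nonneg_left ?_ Real.pi_pos.le
  exact Real.exp_le_exp.2 (by linarith)

theorem a5_pos (u : ℝ) : 0 < EE1 u := Real.exp_pos _

theorem a5_le_one (u : ℝ) : EE1 u ≤ 1 := by
  unfold EE1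
  exact Real.exp_le_one_iff.2 (neg_nonpos.2 (by positivity))

theorem a5_cont : Continuous EE1 := by
  unfold EE1
  fun_prop

/-- PROOF. For `x ≥ 0`: `0 ≤ EE1 (x + h) - EE1 x ≤ 1 - EE1 x ≤ π e^(-2x)`. For `x ≤ 0`: `EE1 (x + h) ≤ exp (-π e^(-2h) e^(2|x|))`, which is `≤ C e^(-(B + 2)|x|)` (`e^(2v) ≥ 2 v²`). -/
theorem dE_bound (h B : ℝ) (hh : 0 ≤ h) (hB : 0 ≤ B) : ∃ C : ℝ, 1 ≤ C ∧ ∀ x : ℝ, 0 ≤ EE1 (x + h) - EE1 x ∧
    EE1 (x + h) - EE1 x ≤ C * min (Real.exp (-2 * x)) (Real.exp ((B + 1) * x)) := by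
  have hpi : (3 : ℝ) < Real.pi := Real.pi_gt_three
  set a : ℝ := Real.pi * Real.exp (-2 * h) with ha
  have ha0 : 0 < a := by positivity
  set D : ℝ := (B + 1) ^ 2 / (8 * a) with hD
  refine ⟨Real.pi + Real.exp D, by have := Real.exp_pos D; linarith, fun x => ⟨?_, ?_⟩⟩
  · exact sub_nonneg.2 (a5_mono (by linarith))
  · have hexp := Real.exp_pos D
    rcases le_total 0 x with hx | hx
    · have h1 : Real.exp (-2 * x) ≤ Real.exp ((B + 1) * x) :=
        Real.exp_le_exp.2 (by nlinarith)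
      rw [min_eq_left h1]
      have h2 : 1 - EE1 x ≤ Real.pi * Real.exp (-2 * x) := by
        have := Real.add_one_le_exp (-(Real.pi * Real.exp (-2 * x)))
        unfold EE1
        linarith
      have h3 := a5_le_one (x + h)
      have h4 : 0 < Real.exp (-2 * x) := Real.exp_pos _
      nlinarith [mul_pos hexp h4]
    · have h1 : Real.exp ((B + 1) * x) ≤ Real.exp (-2 * x) :=
        Real.exp_le_exp.2 (by nlinarith)
      rw [min_eq_right h1]
      have h2 : EE1 (x + h) ≤ Real.exp D * Real.exp ((B + 1) * x) := by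
        unfold EE1
        rw [← Real.exp_add]
        refine Real.exp_le_exp.2 ?_
        have h3 : Real.pi * Real.exp (-2 * (x + h)) = a * Real.exp (-2 * x) := by
          rw [ha, mul_assoc, ← Real.exp_add]
          congr 2
          ring
        rw [h3]
        have h4 : 2 * x ^ 2 ≤ Real.exp (-2 * x) := by
          have := Real.quadratic_le_exp_of_nonneg (show (0:ℝ) ≤ -2 * x by linarith)
          nlinarith
        have h5 : a * (2 * x ^ 2) ≤ a * Real.exp (-2 * x) := mul_le_mul_of_nonneg_left h4 ha0.le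
        have h6 : -(a * (2 * x ^ 2)) ≤ D + (B + 1) * x := by
          have h7 : D + (B + 1) * x + a * (2 * x ^ 2) = (4 * a * x + (B + 1)) ^ 2 / (8 * a) := by
            rw [hD]
            field_simp
            ring
          have h8 : 0 ≤ (4 * a * x + (B + 1)) ^ 2 / (8 * a) := by positivity
          linarith
        linarith
      have h3 := a5_pos x
      have h4 : 0 < Real.exp ((B + 1) * x) := Real.exp_pos _
      nlinarith [mul_pos Real.pi_pos h4]

/-- PROOF. `‖e^(zx)‖ = e^(Re z x)`; for `x ≥ 0`: `≤ 1`, times `e^x` times `C e^(-2x)`; for `x ≤ 0`: `≤ e^(B |x|)` times `C e^(-(B+1)|x|)` (`dE_bound`). -/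
theorem dE_dom (h B : ℝ) (hh : 0 ≤ h) (hB : 0 ≤ B) : ∃ C : ℝ, 1 ≤ C ∧ ∀ z : ℂ, z.re ≤ 0 → ‖z‖ ≤ B → ∀ x : ℝ,
    (1 + Real.exp x) * ‖Complex.exp (z * x) * ((EE1 (x + h) - EE1 x : ℝ) : ℂ)‖ ≤ C * Real.exp (-|x|) := by
  obtain ⟨C, hC1, hC⟩ := dE_bound h B hh hB
  refine ⟨2 * C, by linarith, fun z hz hzB x => ?_⟩
  obtain ⟨h0, h1⟩ := hC x
  have hre : (z * (x : ℂ)).re = z.re * x := by simp
  rw [norm_mul, Complex.norm_exp, Complex.norm_real, Real.norm_of_nonneg h0, hre]
  have hex := Real.exp_pos x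
  rcases le_total 0 x with hx | hx
  · rw [abs_of_nonneg hx]
    have h2 : Real.exp (z.re * x) ≤ 1 := Real.exp_le_one_iff.2 (by nlinarith)
    have h3 : EE1 (x + h) - EE1 x ≤ C * Real.exp (-2 * x) :=
      h1.trans (mul_le_mul_of_nonneg_left (min_le_left _ _) (by linarith))
    have h4 : (1 + Real.exp x) ≤ 2 * Real.exp x := by
      have := Real.one_le_exp hx
      linarith
    calc (1 + Real.exp x) * (Real.exp (z.re * x) * (EE1 (x + h) - EE1 x))
        ≤ (2 * Real.exp x) * (1 * (C * Real.exp (-2 * x))) := by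
          refine mul_le_mul h4 ?_ (by positivity) (by positivity)
          exact mul_le_mul h2 h3 h0 zero_le_one
      _ = 2 * C * (Real.exp x * Real.exp (-2 * x)) := by ring
      _ = 2 * C * Real.exp (-x) := by
          rw [← Real.exp_add]
          congr 2
          ring
  · rw [abs_of_nonpos hx, neg_neg]
    have h2 : Real.exp (z.re * x) ≤ Real.exp (-B * x) := by
      refine Real.exp_le_exp.2 ?_
      have h5 : -B ≤ z.re := by
        have := (abs_le.1 ((Complex.abs_re_le_norm z).trans hzB)).1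
        exact this
      nlinarith
    have h3 : EE1 (x + h) - EE1 x ≤ C * Real.exp ((B + 1) * x) :=
      h1.trans (mul_le_mul_of_nonneg_left (min_le_right _ _) (by linarith))
    have h4 : (1 + Real.exp x) ≤ 2 := by
      have := Real.exp_le_one_iff.2 hx
      linarith
    calc (1 + Real.exp x) * (Real.exp (z.re * x) * (EE1 (x + h) - EE1 x))
        ≤ 2 * (Real.exp (-B * x) * (C * Real.exp ((B + 1) * x))) := by
          refine mul_le_mul h4 ?_ (by positivity) (by positivity)
          exact mul_le_mul h2 h3 h0 (Real.exp_pos _).le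
      _ = 2 * C * (Real.exp (-B * x) * Real.exp ((B + 1) * x)) := by ring
      _ = 2 * C * Real.exp x := by
          rw [← Real.exp_add]
          congr 2
          ring

theorem a5_dom' (h B : ℝ) (hh : 0 ≤ h) (hB : 0 ≤ B) : ∃ C : ℝ, 1 ≤ C ∧ ∀ z : ℂ, z.re ≤ 0 → ‖z‖ ≤ B → ∀ x : ℝ,
    ‖Complex.exp (z * x) * ((EE1 (x + h) - EE1 x : ℝ) : ℂ)‖ ≤ C * Real.exp (-|x|) := by
  obtain ⟨C, h1, h2⟩ := dE_dom h B hh hB
  refine ⟨C, h1, fun z hz hzB x => ?_⟩
  refine le_trans ?_ (h2 z hz hzB x)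
  have h3 := norm_nonneg (Complex.exp (z * x) * ((EE1 (x + h) - EE1 x : ℝ) : ℂ))
  have h4 := Real.exp_pos x
  nlinarith [mul_nonneg h4.le h3]

theorem a5_icont (h : ℝ) (z : ℂ) : Continuous fun x : ℝ => Complex.exp (z * x) * ((EE1 (x + h) - EE1 x : ℝ) : ℂ) := by
  refine Continuous.mul (by fun_prop) ?_
  refine Complex.continuous_ofReal.comp ?_
  exact (a5_cont.comp (by fun_prop)).sub a5_cont

/-- PROOF. `continuousOn` by dominated convergence (`continuousWithinAt_of_dominated`), `dE_dom`. -/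
theorem zh_cont (h B : ℝ) (hh : 0 ≤ h) (hB : 0 ≤ B) : ContinuousOn (Zh h) {z : ℂ | z.re ≤ 0 ∧ ‖z‖ ≤ B} := by
  obtain ⟨C, hC1, hC⟩ := a5_dom' h B hh hB
  refine continuousOn_of_dominated (bound := fun x => C * Real.exp (-|x|)) ?_ ?_ ?_ ?_
  · exact fun z _ => (a5_icont h z).aestronglyMeasurable
  · exact fun z hz => Eventually.of_forall fun x => hC z hz.1 hz.2 x
  · exact a1_abs1.const_mul C
  · refine Eventually.of_forall fun x => Continuous.continuousOn ?_
    fun_prop

theorem a5_top : Tendsto EE1 atTop (𝓝 1) := by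
  have h1 : Tendsto (fun u : ℝ => -(Real.pi * Real.exp (-2 * u))) atTop (𝓝 (-(Real.pi * 0))) := by
    refine Tendsto.neg (Tendsto.const_mul _ ?_)
    refine Real.tendsto_exp_atBot.comp ?_
    exact tendsto_id.const_mul_atTop_of_neg (by norm_num)
  have h2 := (Real.continuous_exp.tendsto _).comp h1
  rw [mul_zero, neg_zero, Real.exp_zero] at h2
  exact h2

theorem a5_bot : Tendsto EE1 atBot (𝓝 0) := by
  have h1 : Tendsto (fun u : ℝ => -(Real.pi * Real.exp (-2 * u))) atBot atBot := by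
    refine tendsto_neg_atTop_atBot.comp ?_
    refine Tendsto.const_mul_atTop Real.pi_pos ?_
    refine Real.tendsto_exp_atTop.comp ?_
    exact tendsto_id.const_mul_atBot_of_neg (by norm_num)
  exact Real.tendsto_exp_atBot.comp h1

/-- PROOF. `∫ (EE1 (x + h) - EE1 x) dx`: `EE1` is increasing with the limits `0` at `-∞` and `1` at `+∞`: `∫_(-R)^R (EE1 (x + h) - EE1 x) = ∫_R^(R+h) EE1 - ∫_(-R)^(-R+h) EE1 → h`. -/
theorem zh_zero (h : ℝ) (hh : 0 ≤ h) : Zh h 0 = h := by
  obtain ⟨C, hC1, hC⟩ := a5_dom' h 0 hh le_rfl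
  have hint : Integrable fun x : ℝ => EE1 (x + h) - EE1 x := by
    refine Integrable.mono' (a1_abs1.const_mul C) ?_ (Eventually.of_forall fun x => ?_)
    · exact ((a5_cont.comp (by fun_prop)).sub a5_cont).aestronglyMeasurable
    · have := hC 0 (by simp) (by simp) x
      rw [zero_mul, Complex.exp_zero, one_mul, Complex.norm_real] at this
      exact this
  have hd : ∀ x : ℝ, HasDerivAt (fun x => ∫ t in (0:ℝ)..x, EE1 t) (EE1 x) x := fun x =>
    (a5_cont.integral_hasStrictDerivAt 0 x).hasDerivAt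
  have hF : ∀ x : ℝ, HasDerivAt (fun x => (∫ t in (0:ℝ)..(x + h), EE1 t) - ∫ t in (0:ℝ)..x, EE1 t)
      (EE1 (x + h) - EE1 x) x := by
    intro x
    refine HasDerivAt.sub ?_ (hd x)
    have := (hd (x + h)).comp_add_const x h
    exact this
  have hI : ∀ a b : ℝ, IntervalIntegrable EE1 volume a b := fun a b => a5_cont.intervalIntegrable a b
  have heq : ∀ x : ℝ, (∫ t in (0:ℝ)..(x + h), EE1 t) - (∫ t in (0:ℝ)..x, EE1 t) = ∫ t in x..(x + h), EE1 t :=
    fun x => intervalIntegral.integral_interval_sub_left (hI _ _) (hI _ _)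
  have hlow : ∀ x : ℝ, h * EE1 x ≤ ∫ t in x..(x + h), EE1 t := by
    intro x
    have h1 : ∫ t in x..(x + h), EE1 x ≤ ∫ t in x..(x + h), EE1 t := by
      refine intervalIntegral.integral_mono_on (by linarith) (by simp) (hI _ _) ?_
      intro t ht
      exact a5_mono ht.1
    rw [intervalIntegral.integral_const, smul_eq_mul] at h1
    linarith
  have hup : ∀ x : ℝ, ∫ t in x..(x + h), EE1 t ≤ h * EE1 (x + h) := by
    intro x
    have h1 : ∫ t in x..(x + h), EE1 t ≤ ∫ t in x..(x + h), EE1 (x + h) := by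
      refine intervalIntegral.integral_mono_on (by linarith) (hI _ _) (by simp) ?_
      intro t ht
      exact a5_mono ht.2
    rw [intervalIntegral.integral_const, smul_eq_mul] at h1
    linarith
  have htop : Tendsto (fun x : ℝ => (∫ t in (0:ℝ)..(x + h), EE1 t) - ∫ t in (0:ℝ)..x, EE1 t) atTop (𝓝 h) := by
    have h1 : Tendsto (fun x : ℝ => h * EE1 x) atTop (𝓝 (h * 1)) := a5_top.const_mul h
    have h2 : Tendsto (fun x : ℝ => h * EE1 (x + h)) atTop (𝓝 (h * 1)) :=
      (a5_top.comp (tendsto_atTop_add_const_right atTop h tendsto_id)).const_mul h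
    rw [mul_one] at h1 h2
    refine tendsto_of_tendsto_of_tendsto_of_le_of_le h1 h2 ?_ ?_
    · intro x
      beta_reduce
      rw [heq]
      exact hlow x
    · intro x
      beta_reduce
      rw [heq]
      exact hup x
  have hbot : Tendsto (fun x : ℝ => (∫ t in (0:ℝ)..(x + h), EE1 t) - ∫ t in (0:ℝ)..x, EE1 t) atBot (𝓝 0) := by
    have h1 : Tendsto (fun x : ℝ => h * EE1 x) atBot (𝓝 (h * 0)) := a5_bot.const_mul h
    have h2 : Tendsto (fun x : ℝ => h * EE1 (x + h)) atBot (𝓝 (h * 0)) :=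
      (a5_bot.comp (tendsto_atBot_add_const_right atBot h tendsto_id)).const_mul h
    rw [mul_zero] at h1 h2
    refine tendsto_of_tendsto_of_tendsto_of_le_of_le h1 h2 ?_ ?_
    · intro x
      beta_reduce
      rw [heq]
      exact hlow x
    · intro x
      beta_reduce
      rw [heq]
      exact hup x
  have hfin := integral_of_hasDerivAt_of_tendsto hF hint hbot htop
  unfold Zh
  have h3 : (fun x : ℝ => Complex.exp (0 * x) * ((EE1 (x + h) - EE1 x : ℝ) : ℂ)) =
      fun x : ℝ => ((EE1 (x + h) - EE1 x : ℝ) : ℂ) := by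
    funext x
    rw [zero_mul, Complex.exp_zero, one_mul]
  rw [h3, integral_complex_ofReal, hfin, sub_zero]

end

end Pool.Agent.Lib.H85A
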