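import Pool.Agent.Lib.H85A.A5

/-!
# H85A, A6: `Zh` does not vanish
-/

namespace Pool.Agent.Lib.H85A

open MeasureTheory Filter Topology

noncomputable section

variable {k : ℕ}

/-- The Mellin transform. -/
theorem a6_J {z : ℂ} (hz : z.re < 0) :
    ∫ x : ℝ, Complex.exp (z * x) * (EE1 x : ℂ) =
      (1 / 2) * ((Real.pi : ℂ) ^ (z / 2) * Complex.Gamma (-(z / 2))) := by
  have hz2 : 0 < (-(z / 2)).re := by
    have : (-(z / 2)).re = -z.re / 2 := by
      simp [Complex.neg_re]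
      ring
    rw [this]
    linarith
  have h1 := Complex.integral_cpow_mul_exp_neg_mul_Ioi hz2 Real.pi_pos
  have himg : (fun x : ℝ => Real.exp (-2 * x)) '' Set.univ = Set.Ioi 0 := by
    ext t
    simp only [Set.image_univ, Set.mem_range, Set.mem_Ioi]
    constructor
    · rintro ⟨x, rfl⟩
      exact Real.exp_pos _
    · intro ht
      refine ⟨-(Real.log t) / 2, ?_⟩
      have : -2 * (-(Real.log t) / 2) = Real.log t := by ring
      rw [this, Real.exp_log ht]
  have hinj : Set.InjOn (fun x : ℝ => Real.exp (-2 * x)) Set.univ := by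
    intro x _ y _ hxy
    have := Real.exp_injective hxy
    linarith
  have hder : ∀ x ∈ (Set.univ : Set ℝ), HasDerivWithinAt (fun x : ℝ => Real.exp (-2 * x))
      (Real.exp (-2 * x) * (-2)) Set.univ x := by
    intro x _
    have h2 : HasDerivAt (fun x : ℝ => -2 * x) (-2) x := by
      simpa using (hasDerivAt_id x).const_mul (-2 : ℝ)
    exact (h2.exp).hasDerivWithinAt
  have h2 := integral_image_eq_integral_abs_deriv_smul MeasurableSet.univ hder hinj
    (fun t : ℝ => (t : ℂ) ^ (-(z / 2) - 1) * Complex.exp (-((Real.pi : ℂ) * t)))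
  rw [himg, h1, setIntegral_univ] at h2
  have h3 : ∀ x : ℝ, |Real.exp (-2 * x) * (-2)| •
      (((Real.exp (-2 * x) : ℝ) : ℂ) ^ (-(z / 2) - 1) *
        Complex.exp (-((Real.pi : ℂ) * ((Real.exp (-2 * x) : ℝ) : ℂ)))) =
      2 * (Complex.exp (z * x) * (EE1 x : ℂ)) := by
    intro x
    have e1 : |Real.exp (-2 * x) * (-2)| = 2 * Real.exp (-2 * x) := by
      rw [abs_mul, abs_of_pos (Real.exp_pos _)]
      norm_num
      ring
    have e2 : Complex.exp (-((Real.pi : ℂ) * ((Real.exp (-2 * x) : ℝ) : ℂ))) = (EE1 x : ℂ) := by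
      unfold EE1
      push_cast
      rfl
    have e3 : ((Real.exp (-2 * x) : ℝ) : ℂ) ^ (-(z / 2) - 1) =
        Complex.exp ((-2 * x : ℝ) * (-(z / 2) - 1)) := by
      rw [Complex.cpow_def_of_ne_zero (by exact_mod_cast (Real.exp_pos _).ne'),
        ← Complex.ofReal_log (Real.exp_pos _).le, Real.log_exp]
    rw [e1, e2, e3, Complex.real_smul]
    push_cast
    have e4 : Complex.exp (z * x) = Complex.exp (-2 * x) * Complex.exp (-2 * x * (-(z / 2) - 1)) := by
      rw [← Complex.exp_add]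
      congr 1
      ring
    rw [e4]
    ring
  rw [integral_congr_ae (Eventually.of_forall h3), integral_const_mul] at h2
  have h4 : (1 / (Real.pi : ℂ)) ^ (-(z / 2)) = (Real.pi : ℂ) ^ (z / 2) := by
    rw [one_div, Complex.inv_cpow _ _ (by
      rw [Complex.arg_ofReal_of_nonneg Real.pi_pos.le]
      exact Real.pi_pos.ne), Complex.cpow_neg, inv_inv]
  rw [h4] at h2
  rw [h2]
  ring

theorem a6_int {z : ℂ} (hz : z.re < 0) :
    Integrable fun x : ℝ => Complex.exp (z * x) * (EE1 x : ℂ) := by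
  apply Integrable.of_integral_ne_zero
  rw [a6_J hz]
  have hz2 : 0 < (-(z / 2)).re := by
    have : (-(z / 2)).re = -z.re / 2 := by
      simp [Complex.neg_re]
      ring
    rw [this]
    linarith
  refine mul_ne_zero (by norm_num) (mul_ne_zero ?_ (Complex.Gamma_ne_zero_of_re_pos hz2))
  rw [Complex.cpow_def_of_ne_zero (by exact_mod_cast Real.pi_pos.ne')]
  exact Complex.exp_ne_zero _

/-- PROOF. `Re z < 0`. Both integrals converge separately: `Zh h z = (e^(-zh) - 1) ∫ e^(zx) EE1 x dx`, and with `v = π e^(-2x)` (`integral_comp_mul_deriv`-type substitutions; or `Complex.Gamma` Mellin transform: `Complex.GammaIntegral`, `integral_comp_rpow_Ioi`, and `x = -log(v/π)/2`: `MeasureTheory.integral_comp_exp`...)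
`∫ e^(zx) EE1 x dx = (1/2) π^(z/2) ∫_0^∞ v^(-z/2 - 1) e^(-v) dv = (1/2) π^(z/2) Γ(-z/2)`; `Γ(1 - z/2) = (-z/2) Γ(-z/2)` (`Complex.Gamma_add_one`). -/
theorem zh_formula {h : ℝ} (hh : 0 ≤ h) {z : ℂ} (hz : z.re < 0) :
    z * Zh h z = (1 - Complex.exp (-(z * h))) * (Real.pi : ℂ) ^ (z / 2) * Complex.Gamma (1 - z / 2) := by
  have hz0 : z ≠ 0 := by
    rintro rfl
    simp at hz
  have hi := a6_int hz
  have hsh : ∀ x : ℝ, Complex.exp (z * x) * (EE1 (x + h) : ℂ) =
      Complex.exp (-(z * h)) * (Complex.exp (z * ((x + h : ℝ) : ℂ)) * (EE1 (x + h) : ℂ)) := by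
    intro x
    rw [← mul_assoc, ← Complex.exp_add]
    congr 2
    push_cast
    ring
  have hi2 : Integrable fun x : ℝ => Complex.exp (z * x) * (EE1 (x + h) : ℂ) := by
    simp_rw [hsh]
    exact (hi.comp_add_right h).const_mul _
  have hJ2 : ∫ x : ℝ, Complex.exp (z * x) * (EE1 (x + h) : ℂ) =
      Complex.exp (-(z * h)) * ∫ x : ℝ, Complex.exp (z * x) * (EE1 x : ℂ) := by
    simp_rw [hsh]
    rw [integral_const_mul]
    congr 1
    exact integral_add_right_eq_self (fun x : ℝ => Complex.exp (z * x) * (EE1 x : ℂ)) h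
  have hZ : Zh h z = (Complex.exp (-(z * h)) - 1) *
      ((1 / 2) * ((Real.pi : ℂ) ^ (z / 2) * Complex.Gamma (-(z / 2)))) := by
    unfold Zh
    rw [← a6_J hz, sub_mul, one_mul, ← hJ2, ← integral_sub hi2 hi]
    congr 1
    ext x
    push_cast
    ring
  have hG : Complex.Gamma (1 - z / 2) = -(z / 2) * Complex.Gamma (-(z / 2)) := by
    rw [← Complex.Gamma_add_one _ (neg_ne_zero.2 (div_ne_zero hz0 two_ne_zero))]
    congr 1
    ring
  rw [hZ, hG]
  ring

/-- PROOF. By continuity (`zh_cont`, the right side is continuous on `Re z ≤ 0`, where `Re (1 - z/2) ≥ 1 > 0`: `Complex.differentiableAt_Gamma`), or with `z - ε`, `ε → 0`. -/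
theorem zh_formula' {h : ℝ} (hh : 0 ≤ h) {z : ℂ} (hz : z.re ≤ 0) :
    z * Zh h z = (1 - Complex.exp (-(z * h))) * (Real.pi : ℂ) ^ (z / 2) * Complex.Gamma (1 - z / 2) := by
  rcases lt_or_eq_of_le hz with hlt | heq
  · exact zh_formula hh hlt
  set u : ℕ → ℂ := fun n => z - ((1 / ((n : ℝ) + 1) : ℝ) : ℂ) with hu
  have hu1 : Tendsto u atTop (𝓝 z) := by
    have h1 : Tendsto (fun n : ℕ => ((1 / ((n : ℝ) + 1) : ℝ) : ℂ)) atTop (𝓝 ((0 : ℝ) : ℂ)) :=
      (Complex.continuous_ofReal.tendsto 0).comp tendsto_one_div_add_atTop_nhds_zero_nat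
    have h2 := (tendsto_const_nhds (x := z) (f := (atTop : Filter ℕ))).sub h1
    rw [Complex.ofReal_zero, sub_zero] at h2
    exact h2
  have hure : ∀ n, (u n).re < 0 := by
    intro n
    have : (0 : ℝ) < 1 / ((n : ℝ) + 1) := by positivity
    simp only [hu, Complex.sub_re, Complex.ofReal_re, heq]
    linarith
  have hun : ∀ n, ‖u n‖ ≤ ‖z‖ + 1 := by
    intro n
    refine (norm_sub_le _ _).trans ?_
    have : ‖((1 / ((n : ℝ) + 1) : ℝ) : ℂ)‖ ≤ 1 := by
      rw [Complex.norm_real, Real.norm_eq_abs, abs_of_pos (by positivity)]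
      rw [div_le_one (by positivity)]
      have : (0 : ℝ) ≤ n := Nat.cast_nonneg n
      linarith
    linarith
  have hc := zh_cont h (‖z‖ + 1) hh (by positivity)
  have hzmem : z ∈ {w : ℂ | w.re ≤ 0 ∧ ‖w‖ ≤ ‖z‖ + 1} := ⟨hz, by simp⟩
  have hL : Tendsto (fun n => u n * Zh h (u n)) atTop (𝓝 (z * Zh h z)) := by
    refine hu1.mul ?_
    exact (hc z hzmem).tendsto.comp (tendsto_nhdsWithin_iff.2
      ⟨hu1, Eventually.of_forall fun n => ⟨(hure n).le, hun n⟩⟩)
  have hpi : (Real.pi : ℂ) ≠ 0 := by exact_mod_cast Real.pi_pos.ne'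
  have hRc : ContinuousAt (fun w : ℂ => (1 - Complex.exp (-(w * h))) * (Real.pi : ℂ) ^ (w / 2) *
      Complex.Gamma (1 - w / 2)) z := by
    have hg : ContinuousAt Complex.Gamma (1 - z / 2) := by
      refine (Complex.differentiableAt_Gamma _ ?_).continuousAt
      intro m hm
      have h1 := congrArg Complex.re hm
      have h2 : (1 - z / 2).re = 1 := by
        simp [Complex.sub_re, heq]
      rw [h2] at h1
      have h3 : (-(m : ℂ)).re = -(m : ℝ) := by simp
      rw [h3] at h1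
      have : (0 : ℝ) ≤ m := Nat.cast_nonneg m
      linarith
    have hg2 : ContinuousAt (fun w : ℂ => Complex.Gamma (1 - w / 2)) z :=
      ContinuousAt.comp (f := fun w : ℂ => 1 - w / 2) hg (by fun_prop)
    have hp : ContinuousAt (fun w : ℂ => (Real.pi : ℂ) ^ (w / 2)) z :=
      ContinuousAt.const_cpow (by fun_prop) (Or.inl hpi)
    have he : ContinuousAt (fun w : ℂ => 1 - Complex.exp (-(w * h))) z := by fun_prop
    exact (he.mul hp).mul hg2
  have hR := hRc.tendsto.comp hu1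
  refine tendsto_nhds_unique hL ?_
  refine hR.congr fun n => ?_
  exact (zh_formula hh (hure n)).symm

/-- PROOF. `z = 0`: `zh_zero`. `z ≠ 0`: `zh_formula'`: `π ^ (z/2) ≠ 0`, `Complex.Gamma_ne_zero_of_re_pos`, and `exp (-(z h)) = 1` would give `z h ∈ 2πiℤ` (`Complex.exp_eq_one_iff`), `0 < ‖z h‖ < 2π`. -/
theorem zh_ne {h : ℝ} (hh : 0 < h) {z : ℂ} (hz : z.re ≤ 0) (h2 : ‖z‖ * h < 2 * Real.pi) : Zh h z ≠ 0 := by
  by_cases hz0 : z = 0
  · rw [hz0, zh_zero h hh.le]
    exact_mod_cast hh.ne'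
  intro h0
  have h1 := zh_formula' hh.le hz
  rw [h0, mul_zero] at h1
  have hpi : (Real.pi : ℂ) ^ (z / 2) ≠ 0 := by
    rw [Complex.cpow_def_of_ne_zero (by exact_mod_cast Real.pi_pos.ne')]
    exact Complex.exp_ne_zero _
  have hG : Complex.Gamma (1 - z / 2) ≠ 0 := by
    apply Complex.Gamma_ne_zero_of_re_pos
    have h3 : (1 - z / 2).re = 1 - z.re / 2 := by
      simp [Complex.sub_re]
    rw [h3]
    linarith
  have h3 : (1 - Complex.exp (-(z * h))) ≠ 0 := by
    intro h4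
    have h5 : Complex.exp (-(z * h)) = 1 := (sub_eq_zero.1 h4).symm
    obtain ⟨m, hm⟩ := Complex.exp_eq_one_iff.1 h5
    have h6 : ‖-(z * h)‖ = ‖z‖ * h := by
      rw [norm_neg, norm_mul, Complex.norm_real, Real.norm_eq_abs, abs_of_pos hh]
    rw [hm] at h6
    have h7 : ‖(m : ℂ) * (2 * Real.pi * Complex.I)‖ = |(m : ℝ)| * (2 * Real.pi) := by
      rw [norm_mul, norm_mul, norm_mul, Complex.norm_I, mul_one, Complex.norm_real,
        Real.norm_eq_abs, abs_of_pos Real.pi_pos]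
      simp
    rw [h7] at h6
    have hm0 : m ≠ 0 := by
      rintro rfl
      simp at h6
      rcases h6 with h6 | h6
      · exact hz0 h6
      · exact hh.ne' h6
    have h8 : (1 : ℝ) ≤ |(m : ℝ)| := by
      have : (1 : ℤ) ≤ |m| := Int.one_le_abs hm0
      exact_mod_cast this
    nlinarith [Real.pi_pos]
  exact mul_ne_zero (mul_ne_zero h3 hpi) hG h1.symm

/-- PROOF. The set `{z | Re z ≤ 0, ‖z‖ ≤ B}` is compact and not empty, `‖Zh h z‖` is continuous and positive on it. -/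
theorem zh_low {h B : ℝ} (hh : 0 < h) (hB : 0 ≤ B) (h2 : B * h < 2 * Real.pi) : ∃ c : ℝ, 0 < c ∧ ∀ z : ℂ, z.re ≤ 0 → ‖z‖ ≤ B → c ≤ ‖Zh h z‖ := by
  have hcl : {z : ℂ | z.re ≤ 0 ∧ ‖z‖ ≤ B} = {z : ℂ | z.re ≤ 0} ∩ Metric.closedBall 0 B := by
    ext z
    simp
  have hK : IsCompact {z : ℂ | z.re ≤ 0 ∧ ‖z‖ ≤ B} := by
    rw [hcl]
    exact (isCompact_closedBall _ _).inter_left (isClosed_le Complex.continuous_re continuous_const)
  have hne : {z : ℂ | z.re ≤ 0 ∧ ‖z‖ ≤ B}.Nonempty := ⟨0, by simpa using hB⟩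
  obtain ⟨z₀, hz₀, hmin⟩ := hK.exists_isMinOn hne (zh_cont h B hh.le hB).norm
  refine ⟨‖Zh h z₀‖, norm_pos_iff.2 (zh_ne hh hz₀.1 ?_), fun z h1 h3 => hmin ⟨h1, h3⟩⟩
  exact (mul_le_mul_of_nonneg_right hz₀.2 hh.le).trans_lt h2

end

end Pool.Agent.Lib.H85A
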