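import Pool.Agent.Lib.H85A.A6
import Pool.Agent.Lib.H85A.A4

/-!
# H85A, A7: the main term and the error term
-/

namespace Pool.Agent.Lib.H85A

open MeasureTheory Filter Topology

noncomputable section

variable {k : ℕ}

/-- PROOF. `kp h μ u = e^(hμ) e^(μu) (EE1 (u + h) - EE1 u)`, and `th κ (L - ∑ x) = e^(κL) ∏ e^(-κ x_l) EE1 (L - ∑ x)`. -/
theorem kp_fac (h L : ℝ) (s : Fin (k + 1) → ℂ) (x : Fin k → ℝ) :
    (∏ l : Fin k, kp h (s l.castSucc) (x l)) * th (s (Fin.last k)) (L - ∑ l, x l) =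
      Complex.exp (s (Fin.last k) * L) * (∏ l : Fin k, Complex.exp (h * s l.castSucc)) *
        ((∏ l : Fin k, (Complex.exp ((s l.castSucc - s (Fin.last k)) * x l) * ((EE1 (x l + h) - EE1 (x l) : ℝ) : ℂ))) * (EE1 (L - ∑ l, x l) : ℂ)) := by
  have e1 : ∀ l : Fin k, kp h (s l.castSucc) (x l) = Complex.exp (h * s l.castSucc) *
      (Complex.exp ((s l.castSucc - s (Fin.last k)) * x l) * ((EE1 (x l + h) - EE1 (x l) : ℝ) : ℂ)) *
        Complex.exp (s (Fin.last k) * x l) := by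
    intro l
    unfold kp th
    have h1 : Complex.exp (s l.castSucc * ((x l + h : ℝ) : ℂ)) =
        Complex.exp (h * s l.castSucc) * Complex.exp (s l.castSucc * x l) := by
      rw [← Complex.exp_add]
      congr 1
      push_cast
      ring
    have h2 : Complex.exp (s l.castSucc * x l) =
        Complex.exp ((s l.castSucc - s (Fin.last k)) * x l) * Complex.exp (s (Fin.last k) * x l) := by
      rw [← Complex.exp_add]
      congr 1
      ring
    rw [h1, h2]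
    push_cast
    ring
  have e2 : th (s (Fin.last k)) (L - ∑ l, x l) = Complex.exp (s (Fin.last k) * L) *
      (∏ l : Fin k, Complex.exp (s (Fin.last k) * x l))⁻¹ * (EE1 (L - ∑ l, x l) : ℂ) := by
    unfold th
    congr 1
    rw [← Complex.exp_sum, ← Complex.exp_neg, ← Complex.exp_add]
    congr 1
    push_cast
    rw [← Finset.mul_sum]
    ring
  have hne : (∏ l : Fin k, Complex.exp (s (Fin.last k) * x l)) ≠ 0 :=
    Finset.prod_ne_zero_iff.2 fun l _ => Complex.exp_ne_zero _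
  rw [Finset.prod_congr rfl fun l _ => e1 l, Finset.prod_mul_distrib, Finset.prod_mul_distrib, e2]
  field_simp

theorem a7_expabs : Integrable (fun x : ℝ => Real.exp (-|x|)) ∧ ∫ x : ℝ, Real.exp (-|x|) = 2 := by
  have h1 : ∫ x : ℝ, Real.exp (-|x|) = 2 := by
    have h2 := integral_comp_abs (f := fun x : ℝ => Real.exp (-x))
    rw [h2, integral_exp_neg_Ioi_zero]
    norm_num
  exact ⟨Integrable.of_integral_ne_zero (by rw [h1]; norm_num), h1⟩

theorem a7_EE1_cont : Continuous EE1 := by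
  unfold EE1
  fun_prop

theorem a7_one_sub (u : ℝ) : 0 ≤ 1 - EE1 u ∧ 1 - EE1 u ≤ 2 * Real.exp (-u) := by
  have h0 : EE1 u ≤ 1 := by
    unfold EE1
    rw [Real.exp_le_one_iff]
    have := Real.exp_pos (-2 * u)
    have := Real.pi_pos
    have := mul_pos Real.pi_pos (Real.exp_pos (-2 * u))
    linarith
  have h1 : 0 < EE1 u := Real.exp_pos _
  refine ⟨by linarith, ?_⟩
  have h2 : 1 - Real.pi * Real.exp (-2 * u) ≤ EE1 u := by
    unfold EE1
    have := Real.add_one_le_exp (-(Real.pi * Real.exp (-2 * u)))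
    linarith
  have h3 : Real.exp (-2 * u) = Real.exp (-u) ^ 2 := by
    rw [← Real.exp_nat_mul]
    congr 1
    push_cast
    ring
  rw [h3] at h2
  have h4 := Real.exp_pos (-u)
  set y := Real.exp (-u)
  have hpi := Real.pi_lt_d2
  by_cases hy : 2 * y ≤ 1
  · nlinarith
  · linarith

/-- the factor -/
def a7p (h : ℝ) (z : ℂ) (x : ℝ) : ℂ := Complex.exp (z * x) * ((EE1 (x + h) - EE1 x : ℝ) : ℂ)

theorem a7p_cont (h : ℝ) (z : ℂ) : Continuous (a7p h z) := by
  unfold a7p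
  have := a7_EE1_cont
  fun_prop

theorem a7_main (k : ℕ) {B h c0 C : ℝ} (hc0 : 0 ≤ c0) (hC : 1 ≤ C)
    (h1 : ∀ z : ℂ, z.re ≤ 0 → ‖z‖ ≤ B → c0 ≤ ‖Zh h z‖)
    (h2 : ∀ z : ℂ, z.re ≤ 0 → ‖z‖ ≤ B → ∀ x : ℝ, (1 + Real.exp x) * ‖a7p h z x‖ ≤ C * Real.exp (-|x|))
    (z : Fin k → ℂ) (hz : ∀ l, (z l).re ≤ 0) (hzB : ∀ l, ‖z l‖ ≤ B) (L : ℝ) :
    c0 ^ k - 2 * Real.exp (-L) * (2 * C) ^ k ≤
      ‖∫ x : Fin k → ℝ, (∏ l : Fin k, a7p h (z l) (x l)) * (EE1 (L - ∑ l, x l) : ℂ)‖ := by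
  have hp : ∀ l : Fin k, ∀ x : ℝ, ‖a7p h (z l) x‖ ≤ C * Real.exp (-|x|) := by
    intro l x
    have h3 := h2 (z l) (hz l) (hzB l) x
    have h4 := norm_nonneg (a7p h (z l) x)
    have h5 := Real.exp_pos x
    nlinarith
  have hpe : ∀ l : Fin k, ∀ x : ℝ, ‖a7p h (z l) x‖ * Real.exp x ≤ C * Real.exp (-|x|) := by
    intro l x
    have h3 := h2 (z l) (hz l) (hzB l) x
    have h4 := norm_nonneg (a7p h (z l) x)
    nlinarith
  have hpi : ∀ l : Fin k, Integrable (a7p h (z l)) := fun l =>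
    (a7_expabs.1.const_mul C).mono' (a7p_cont h (z l)).aestronglyMeasurable
      (Eventually.of_forall (hp l))
  have hPi : Integrable (fun x : Fin k → ℝ => ∏ l : Fin k, a7p h (z l) (x l)) :=
    Integrable.fintype_prod hpi
  have hI1 : ∫ x : Fin k → ℝ, ∏ l : Fin k, a7p h (z l) (x l) = ∏ l : Fin k, Zh h (z l) :=
    integral_fintype_prod_volume_eq_prod (fun l => a7p h (z l))
  have hb : Integrable (fun x : Fin k → ℝ => ∏ l : Fin k, (C * Real.exp (-|x l|))) :=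
    Integrable.fintype_prod (f := fun _ x => C * Real.exp (-|x|)) fun l => a7_expabs.1.const_mul C
  have hbI : ∫ x : Fin k → ℝ, ∏ l : Fin k, (C * Real.exp (-|x l|)) = (2 * C) ^ k := by
    rw [integral_fintype_prod_volume_eq_prod (fun (_ : Fin k) x => C * Real.exp (-|x|)),
      integral_const_mul, a7_expabs.2, Finset.prod_const, Finset.card_univ, Fintype.card_fin]
    ring
  have hcE : Continuous fun x : Fin k → ℝ => (EE1 (L - ∑ l, x l)) := by
    have := a7_EE1_cont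
    fun_prop
  have hcP : Continuous fun x : Fin k → ℝ => ∏ l : Fin k, a7p h (z l) (x l) :=
    continuous_finsetProd _ fun l _ => (a7p_cont h (z l)).comp (continuous_apply l)
  have hptw : ∀ x : Fin k → ℝ, ‖(∏ l : Fin k, a7p h (z l) (x l)) *
      ((1 - EE1 (L - ∑ l, x l) : ℝ) : ℂ)‖ ≤
      2 * Real.exp (-L) * ∏ l : Fin k, (C * Real.exp (-|x l|)) := by
    intro x
    have h3 := a7_one_sub (L - ∑ l, x l)
    rw [norm_mul, norm_prod, Complex.norm_real, Real.norm_eq_abs, abs_of_nonneg h3.1]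
    have h4 : Real.exp (-(L - ∑ l, x l)) = Real.exp (-L) * ∏ l, Real.exp (x l) := by
      rw [← Real.exp_sum, ← Real.exp_add]
      congr 1
      ring
    have h5 : 0 ≤ ∏ l, ‖a7p h (z l) (x l)‖ := Finset.prod_nonneg fun l _ => norm_nonneg _
    calc (∏ l, ‖a7p h (z l) (x l)‖) * (1 - EE1 (L - ∑ l, x l))
        ≤ (∏ l, ‖a7p h (z l) (x l)‖) * (2 * Real.exp (-(L - ∑ l, x l))) :=
          mul_le_mul_of_nonneg_left h3.2 h5
      _ = 2 * Real.exp (-L) * ∏ l, (‖a7p h (z l) (x l)‖ * Real.exp (x l)) := by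
          rw [h4, Finset.prod_mul_distrib]
          ring
      _ ≤ 2 * Real.exp (-L) * ∏ l : Fin k, (C * Real.exp (-|x l|)) := by
          refine mul_le_mul_of_nonneg_left ?_ (by positivity)
          exact Finset.prod_le_prod (fun l _ => mul_nonneg (norm_nonneg _) (Real.exp_pos _).le)
            fun l _ => hpe l (x l)
  have hI2i : Integrable (fun x : Fin k → ℝ => (∏ l : Fin k, a7p h (z l) (x l)) *
      ((1 - EE1 (L - ∑ l, x l) : ℝ) : ℂ)) := by
    refine (hb.const_mul (2 * Real.exp (-L))).mono' ?_ (Eventually.of_forall hptw)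
    exact (hcP.mul (Complex.continuous_ofReal.comp (continuous_const.sub hcE))).aestronglyMeasurable
  have hI2 : ‖∫ x : Fin k → ℝ, (∏ l : Fin k, a7p h (z l) (x l)) *
      ((1 - EE1 (L - ∑ l, x l) : ℝ) : ℂ)‖ ≤ 2 * Real.exp (-L) * (2 * C) ^ k := by
    refine (norm_integral_le_of_norm_le (hb.const_mul (2 * Real.exp (-L)))
      (Eventually.of_forall hptw)).trans ?_
    rw [integral_const_mul, hbI]
  have hI : ∫ x : Fin k → ℝ, (∏ l : Fin k, a7p h (z l) (x l)) * (EE1 (L - ∑ l, x l) : ℂ) =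
      (∏ l : Fin k, Zh h (z l)) - ∫ x : Fin k → ℝ, (∏ l : Fin k, a7p h (z l) (x l)) *
        ((1 - EE1 (L - ∑ l, x l) : ℝ) : ℂ) := by
    rw [← hI1, ← integral_sub hPi hI2i]
    congr 1
    ext x
    push_cast
    ring
  have hlow : c0 ^ k ≤ ‖∏ l : Fin k, Zh h (z l)‖ := by
    rw [norm_prod]
    calc c0 ^ k = ∏ _l : Fin k, c0 := by
          rw [Finset.prod_const, Finset.card_univ, Fintype.card_fin]
      _ ≤ ∏ l : Fin k, ‖Zh h (z l)‖ :=
          Finset.prod_le_prod (fun _ _ => hc0) fun l _ => h1 (z l) (hz l) (hzB l)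
  rw [hI]
  have h6 := norm_sub_norm_le (∏ l : Fin k, Zh h (z l))
    (∫ x : Fin k → ℝ, (∏ l : Fin k, a7p h (z l) (x l)) * ((1 - EE1 (L - ∑ l, x l) : ℝ) : ℂ))
  linarith

/-- PROOF. With `P x` the product over `l` in `kp_fac`: `∫ P = ∏ Zh h (s_l - s_k)` (`integral_fintype_prod_eq_prod`), of norm `≥ c ^ k` (`zh_low`, `B = 2 T`), and `‖∫ P (1 - EE1 (L - ∑ x))‖ ≤ ∫ ‖P‖ 2 e^(-(L - ∑ x)) ≤ 2 e^(-L) ∏ ∫ ‖..‖ e^(x_l) ≤ C e^(-L)` (`0 ≤ 1 - EE1 u ≤ min 1 (π e^(-2u)) ≤ 2 e^(-u)`,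
`dE_dom`; `∫ e^(-|x|) dx = 2`). So for `L ≥ L0` the integral of `P * EE1 (L - ∑ x)` is at least `c ^ k / 2` in absolute value; `‖exp (s_k L)‖ = exp (L Re s_k)`, `‖exp (h s_l)‖ ≥ exp (-h T)`. -/
theorem kp_low (k : ℕ) {T h : ℝ} (hT : 0 ≤ T) (hh : 0 < h) (h2 : 2 * T * h < 2 * Real.pi) : ∃ c L0 : ℝ, 0 < c ∧ ∀ s : Fin (k + 1) → ℂ, (∀ j, ‖s j‖ ≤ T) →
    (∀ j, (s j).re ≤ (s (Fin.last k)).re) → ∀ L : ℝ, L0 ≤ L →
    c * Real.exp (L * (s (Fin.last k)).re) ≤
      ‖∫ x : Fin k → ℝ, (∏ l : Fin k, kp h (s l.castSucc) (x l)) * th (s (Fin.last k)) (L - ∑ l, x l)‖ := by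
  obtain ⟨c0, hc0, hlow⟩ := zh_low hh (by positivity : (0 : ℝ) ≤ 2 * T) h2
  obtain ⟨C, hC, hdom⟩ := dE_dom h (2 * T) hh.le (by positivity)
  have hK : 0 < (2 * C) ^ k := by positivity
  have hc0k : 0 < c0 ^ k := by positivity
  refine ⟨Real.exp (-(h * T)) ^ k * (c0 ^ k / 2),
    Real.log (4 * (2 * C) ^ k / c0 ^ k), by positivity, ?_⟩
  intro s hs hre L hL
  have hmain := a7_main k hc0.le hC hlow hdom (fun l => s l.castSucc - s (Fin.last k))
    (fun l => by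
      rw [Complex.sub_re]
      linarith [hre l.castSucc])
    (fun l => (norm_sub_le _ _).trans (by linarith [hs l.castSucc, hs (Fin.last k)])) L
  have hexp : 2 * Real.exp (-L) * (2 * C) ^ k ≤ c0 ^ k / 2 := by
    have h3 : 4 * (2 * C) ^ k / c0 ^ k ≤ Real.exp L := by
      rw [← Real.exp_log (show 0 < 4 * (2 * C) ^ k / c0 ^ k by positivity)]
      exact Real.exp_le_exp.2 hL
    rw [div_le_iff₀ hc0k] at h3
    rw [Real.exp_neg]
    have h4 := Real.exp_pos L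
    rw [mul_assoc, ← div_eq_inv_mul, mul_div_assoc', div_le_iff₀ h4]
    linarith
  have hlow2 : c0 ^ k / 2 ≤ ‖∫ x : Fin k → ℝ,
      (∏ l : Fin k, a7p h (s l.castSucc - s (Fin.last k)) (x l)) * (EE1 (L - ∑ l, x l) : ℂ)‖ := by
    linarith
  have hI : ∫ x : Fin k → ℝ, (∏ l : Fin k, kp h (s l.castSucc) (x l)) *
        th (s (Fin.last k)) (L - ∑ l, x l) =
      Complex.exp (s (Fin.last k) * L) * (∏ l : Fin k, Complex.exp (h * s l.castSucc)) *
        ∫ x : Fin k → ℝ, (∏ l : Fin k, a7p h (s l.castSucc - s (Fin.last k)) (x l)) *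
          (EE1 (L - ∑ l, x l) : ℂ) := by
    rw [← integral_const_mul]
    congr 1
    ext x
    exact kp_fac h L s x
  rw [hI, norm_mul, norm_mul, Complex.norm_exp, norm_prod]
  have h5 : (s (Fin.last k) * L).re = L * (s (Fin.last k)).re := by
    simp [Complex.mul_re]
    ring
  rw [h5]
  have h6 : Real.exp (-(h * T)) ^ k ≤ ∏ l : Fin k, ‖Complex.exp (h * s l.castSucc)‖ := by
    calc Real.exp (-(h * T)) ^ k = ∏ _l : Fin k, Real.exp (-(h * T)) := by
          rw [Finset.prod_const, Finset.card_univ, Fintype.card_fin]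
      _ ≤ _ := by
          refine Finset.prod_le_prod (fun _ _ => (Real.exp_pos _).le) fun l _ => ?_
          rw [Complex.norm_exp, Real.exp_le_exp]
          have h7 : ((h : ℂ) * s l.castSucc).re = h * (s l.castSucc).re := by
            simp [Complex.mul_re]
          rw [h7]
          have h8 := (Complex.abs_re_le_norm (s l.castSucc)).trans (hs l.castSucc)
          have h9 := (abs_le.1 h8).1
          nlinarith
  have h10 : 0 < Real.exp (L * (s (Fin.last k)).re) := Real.exp_pos _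
  calc Real.exp (-(h * T)) ^ k * (c0 ^ k / 2) * Real.exp (L * (s (Fin.last k)).re)
      = Real.exp (L * (s (Fin.last k)).re) * Real.exp (-(h * T)) ^ k * (c0 ^ k / 2) := by ring
    _ ≤ Real.exp (L * (s (Fin.last k)).re) * (∏ l : Fin k, ‖Complex.exp (h * s l.castSucc)‖) *
        (c0 ^ k / 2) :=
      mul_le_mul_of_nonneg_right (mul_le_mul_of_nonneg_left h6 h10.le) (by positivity)
    _ ≤ _ := mul_le_mul_of_nonneg_left hlow2 (by
      refine mul_nonneg h10.le ?_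
      exact Finset.prod_nonneg fun l _ => norm_nonneg _)

/-- **The amplifier.** PROOF. `h = π / (T + 1)`; for `s` with `Re s_(j0)` maximal apply `kp_low` and `kp_bound` to `s ∘ swap j0 last` and `hl_swap` (A3). -/
theorem amp_aux (k : ℕ) (T : ℝ) (hT : 0 ≤ T) : ∃ h c L0 : ℝ, 0 < h ∧ 0 < c ∧ ∀ s : Fin (k + 1) → ℂ, (∀ j, ‖s j‖ ≤ T) →
    (∀ j, (s j).re ≤ (s (Fin.last k)).re) → ∀ L : ℝ, L0 ≤ L → ∃ r : ℕ, r ≤ k ∧
    c * Real.exp (L * (s (Fin.last k)).re) ≤ ‖HL (L + r * h) s‖ := by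
  have hT1 : 0 < T + 1 := by linarith
  have hh : 0 < Real.pi / (T + 1) := div_pos Real.pi_pos hT1
  have h2 : 2 * T * (Real.pi / (T + 1)) < 2 * Real.pi := by
    rw [mul_div_assoc', div_lt_iff₀ hT1]
    nlinarith [Real.pi_pos]
  obtain ⟨c, L0, hc, hlow⟩ := kp_low k hT hh h2
  set h := Real.pi / (T + 1) with hdef
  have hD : 0 < (2 * Real.exp (h * T)) ^ k := by positivity
  refine ⟨h, c / (2 * Real.exp (h * T)) ^ k, L0, hh, by positivity, ?_⟩
  intro s hs hre L hL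
  obtain ⟨r, hr, hb⟩ := kp_bound (L := L) hh.le hT hs
  refine ⟨r, hr, ?_⟩
  rw [div_mul_eq_mul_div, div_le_iff₀ hD, mul_comm ‖_‖]
  exact (hlow s hs hre L hL).trans hb

end

end Pool.Agent.Lib.H85A
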