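import Pool.Agent.Lib.H85A.A7
import Pool.Agent.Lib.H85A.A3
import Pool.Agent.Lib.H85A.A2

/-!
# H85A, A8: **the amplifier**
-/

namespace Pool.Agent.Lib.H85A

open MeasureTheory Filter Topology

noncomputable section

variable {k : ℕ}

/-- PROOF. `amp_aux` for `s ∘ swap j0 last`, `hl_swap`. -/
theorem amp (k : ℕ) (T : ℝ) (hT : 0 ≤ T) : ∃ h c L0 : ℝ, 0 < h ∧ 0 < c ∧ ∀ s : Fin (k + 1) → ℂ, (∀ j, ‖s j‖ ≤ T) →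
    ∀ j0, (∀ j, (s j).re ≤ (s j0).re) → ∀ L : ℝ, L0 ≤ L → ∃ r : ℕ, r ≤ k ∧
    c * Real.exp (L * (s j0).re) ≤ ‖HL (L + r * h) s‖ := by
  obtain ⟨h, c, L0, hh, hc, H⟩ := amp_aux k T hT
  refine ⟨h, c, L0, hh, hc, fun s hs j0 hj0 L hL => ?_⟩
  have hlast : (s ∘ Equiv.swap j0 (Fin.last k)) (Fin.last k) = s j0 := by
    simp [Function.comp]
  obtain ⟨r, hr, h1⟩ := H (s ∘ Equiv.swap j0 (Fin.last k)) (fun j => hs _) (fun j => by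
    rw [hlast]
    exact hj0 _) L hL
  refine ⟨r, hr, ?_⟩
  rw [hl_swap, hlast] at h1
  exact h1

/-- The same for `HX`: `X = y ^ (-(k+1)) = e^L`. PROOF. `amp`, `hx_hl` for `y = exp (-(L + r h) / (k + 1))`. -/
theorem amp_hx (k : ℕ) (T : ℝ) (hT : 0 ≤ T) : ∃ h c L0 : ℝ, 0 < h ∧ 0 < c ∧ ∀ s : Fin (k + 1) → ℂ, ∑ j, s j = 0 → (∀ j, ‖s j‖ ≤ T) →
    ∀ j0, (∀ j, (s j).re ≤ (s j0).re) → ∀ L : ℝ, L0 ≤ L → ∃ r : ℕ, r ≤ k ∧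
    c * Real.exp (L * (s j0).re) ≤ ‖HX (Real.exp (-(L + r * h) / ((k : ℝ) + 1))) s‖ := by
  obtain ⟨h, c, L0, hh, hc, H⟩ := amp k T hT
  refine ⟨h, c, L0, hh, hc, fun s hs0 hs j0 hj0 L hL => ?_⟩
  obtain ⟨r, hr, h1⟩ := H s hs j0 hj0 L hL
  refine ⟨r, hr, ?_⟩
  rw [hx_hl hs0 (Real.exp_pos _), Real.log_exp]
  have hk : (k : ℝ) + 1 ≠ 0 := by positivity
  have e : -((k : ℝ) + 1) * (-(L + r * h) / ((k : ℝ) + 1)) = L + r * h := by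
    field_simp
  rw [e]
  exact h1

end

end Pool.Agent.Lib.H85A
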