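import Mathlib

/-!
# H85A, module A (the archimedean amplifier): definitions. Pure analysis.

`EE1 u = exp(-π e^(-2u))`, `th μ u = e^(μ u) EE1 u`, and `HL L s = ∫ ∏_(l<k) th (s_l) (x_l) * th (s_k) (L - ∑ x) dx` is the convolution of the functions `th (s_j)`, `j = 0, .., k`, at `L`.
The aim (`amp`, A9): for `L` large one of the numbers `HL (L + r h) s`, `r = 0, .., k`, is at least `c e^(L max Re s_j)` in absolute value, uniformly for `|s_j| ≤ T`.
-/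

namespace Pool.Agent.Lib.H85A

open MeasureTheory

noncomputable section

/-- `exp(-π e^(-2u))`. -/
def EE1 (u : ℝ) : ℝ := Real.exp (-(Real.pi * Real.exp (-2 * u)))

/-- `e^(μ u) exp(-π e^(-2u))`. -/
def th (μ : ℂ) (u : ℝ) : ℂ := Complex.exp (μ * u) * (EE1 u : ℂ)

variable {k : ℕ}

/-- The integrand of `HL`. -/
def hI (L : ℝ) (s : Fin (k + 1) → ℂ) (x : Fin k → ℝ) : ℂ := (∏ l : Fin k, th (s l.castSucc) (x l)) * th (s (Fin.last k)) (L - ∑ l, x l)

/-- The convolution of the `th (s_j)` at `L`. -/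
def HL (L : ℝ) (s : Fin (k + 1) → ℂ) : ℂ := ∫ x : Fin k → ℝ, hI L s x

/-- `th μ (u + h) - e^(h μ) th μ u`. -/
def kp (h : ℝ) (μ : ℂ) (u : ℝ) : ℂ := th μ (u + h) - Complex.exp (h * μ) * th μ u

/-- `∫ e^(zx) (EE1 (x + h) - EE1 x) dx`. -/
def Zh (h : ℝ) (z : ℂ) : ℂ := ∫ x : ℝ, Complex.exp (z * x) * ((EE1 (x + h) - EE1 x : ℝ) : ℂ)

end

end Pool.Agent.Lib.H85A
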