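import Pool.Agent.Lib.H85A.Stm
import Pool.Agent.Lib.H33N.BM1

/-!
# H85A, B1: the space of spherical forms with parameter `s` on the product
-/

namespace Pool.Agent.Lib.H85A

open MeasureTheory Matrix NumberField IsDedekindDomain
open Pool.Agent.Lib.H89N Pool.Agent.Lib.H85S Pool.Agent.Lib.H33W Pool.Agent.Lib.H33N Pool.Agent.Lib.H85N
open scoped ENNReal

noncomputable section

variable {n k N : ℕ}

/-- `Sph` without the condition on the sum. -/
structure SphE (μ : Measure (GG n ℚ)) (s : Fin n → ℂ) (f : GG n ℚ → ℂ) : Prop where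
  inv : ∀ k : GG n ℚ, k.1 * k.1ᵀ = 1 → ∀ x, f (x * k) = f x
  eig : ∀ φ : GG n ℚ → ℂ, Continuous φ → HasCompactSupport φ → BiK φ →
    ∀ x, ∫ y, f (x * y) * φ y ∂μ = (∫ y, hcf s y * φ y ∂μ) * f x

theorem Sph.e {μ : Measure (GG n ℚ)} {s : Fin n → ℂ} {f : GG n ℚ → ℂ} (h : Sph μ s f) : SphE μ s f := ⟨h.inv, h.eig⟩

theorem SphE.left {μ : Measure (GG n ℚ)} {s : Fin n → ℂ} {f : GG n ℚ → ℂ} (h : SphE μ s f) (a : GG n ℚ) : SphE μ s (fun g => f (a * g)) := by
  refine ⟨fun k hk x => ?_, fun φ hφ hφc hφk x => ?_⟩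
  · show f (a * (x * k)) = f (a * x)
    rw [← mul_assoc]
    exact h.inv k hk _
  · have h1 := h.eig φ hφ hφc hφk (a * x)
    simp only [mul_assoc] at h1
    exact h1

/-- PROOF. Linearity of the integral (continuous functions times `φ` with compact support are integrable). -/
theorem SphE.sum {μ : Measure (GG n ℚ)} [μ.IsHaarMeasure] {s : Fin n → ℂ} {ι : Type} (S : Finset ι) (c : ι → ℂ) (f : ι → GG n ℚ → ℂ)
    (hc : ∀ i ∈ S, Continuous (f i)) (h : ∀ i ∈ S, SphE μ s (f i)) : SphE μ s (fun g => ∑ i ∈ S, c i * f i g) := by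
  refine ⟨fun k hk x => Finset.sum_congr rfl fun i hi => ?_, fun φ hφ hφc hφk x => ?_⟩
  · rw [(h i hi).inv k hk]
  · have h1 : ∀ i ∈ S, Integrable (fun y => c i * (f i (x * y) * φ y)) μ := by
      intro i hi
      refine Integrable.const_mul ?_ _
      refine Continuous.integrable_of_hasCompactSupport ?_ hφc.mul_left
      exact ((hc i hi).comp (continuous_const_mul x)).mul hφ
    have h2 : (fun y => (∑ i ∈ S, c i * f i (x * y)) * φ y) = fun y => ∑ i ∈ S, c i * (f i (x * y) * φ y) := by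
      funext y
      rw [Finset.sum_mul]
      exact Finset.sum_congr rfl fun i _ => mul_assoc _ _ _
    rw [h2, integral_finsetSum _ h1, Finset.mul_sum]
    refine Finset.sum_congr rfl fun i hi => ?_
    rw [integral_const_mul, (h i hi).eig φ hφ hφc hφk x]
    ring

/-- The spherical cusp forms with parameter `s` on the product. PROOF. As `MXs` in `H33N.BM1` (`bm_fcusp`, `bm_fl2`, `SphE.sum`). -/
def MXp (N : ℕ) [NeZero N] (μ : Measure (GG n ℚ)) [μ.IsHaarMeasure] (s : Fin n → ℂ) : Submodule ℂ (XX n N → ℂ) where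
  carrier := {F | FCusp F ∧ FL2 μ F ∧ ∀ κ, SphE μ s (fun g => F (κ, g))}
  add_mem' := by
    rintro F G ⟨hF1, hF2, hF3⟩ ⟨hG1, hG2, hG3⟩
    have hN : 0 < N := Nat.pos_of_ne_zero (NeZero.ne N)
    let W : Fin 2 → XX n N → ℂ := ![F, G]
    have h1 : ∀ i ∈ (Finset.univ : Finset (Fin 2)), FCusp (W i) := by
      intro i _
      fin_cases i
      · exact hF1
      · exact hG1
    have h2 : ∀ i ∈ (Finset.univ : Finset (Fin 2)), FL2 μ (W i) := by
      intro i _
      fin_cases i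
      · exact hF2
      · exact hG2
    have e : F + G = fun x => ∑ i : Fin 2, (fun _ => (1 : ℂ)) i * W i x := by
      funext x
      rw [Fin.sum_univ_two, one_mul, one_mul]
      rfl
    rw [e]
    refine ⟨bm_fcusp hN _ _ _ h1, bm_fl2 μ _ _ _ (fun i hi => (h1 i hi).toFInv) h2, fun κ => ?_⟩
    refine SphE.sum Finset.univ (fun _ => (1 : ℂ)) (fun i g => W i (κ, g)) (fun i hi => (h1 i hi).toFInv.cont κ) ?_
    intro i _
    fin_cases i
    · exact hF3 κ
    · exact hG3 κ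
  zero_mem' := by
    have hN : 0 < N := Nat.pos_of_ne_zero (NeZero.ne N)
    have e : (0 : XX n N → ℂ) = fun x => ∑ i ∈ (∅ : Finset (Fin 1)), (0 : ℂ) * (fun (_ : Fin 1) (_ : XX n N) => (0 : ℂ)) i x := by
      funext x
      rw [Finset.sum_empty]
      rfl
    rw [e]
    refine ⟨bm_fcusp hN _ _ _ fun i hi => absurd hi (Finset.notMem_empty i),
      bm_fl2 μ _ _ _ (fun i hi => absurd hi (Finset.notMem_empty i)) (fun i hi => absurd hi (Finset.notMem_empty i)), fun κ => ?_⟩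
    exact SphE.sum ∅ (fun _ => (0 : ℂ)) (fun _ _ => 0) (fun i hi => absurd hi (Finset.notMem_empty i)) fun i hi => absurd hi (Finset.notMem_empty i)
  smul_mem' := by
    rintro c F ⟨hF1, hF2, hF3⟩
    have hN : 0 < N := Nat.pos_of_ne_zero (NeZero.ne N)
    have e : c • F = fun x => ∑ i : Fin 1, (fun _ => c) i * (fun _ => F) i x := by
      funext x
      rw [Fin.sum_univ_one]
      rfl
    rw [e]
    refine ⟨bm_fcusp hN _ _ _ fun i _ => hF1, bm_fl2 μ _ _ _ (fun i _ => hF1.toFInv) (fun i _ => hF2), fun κ => ?_⟩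
    exact SphE.sum Finset.univ (fun _ => c) (fun (_ : Fin 1) g => F (κ, g)) (fun i _ => hF1.toFInv.cont κ) fun i _ => hF3 κ

theorem mxp_mem [NeZero N] {μ : Measure (GG n ℚ)} [μ.IsHaarMeasure] {s : Fin n → ℂ} {F : XX n N → ℂ} :
    F ∈ MXp N μ s ↔ FCusp F ∧ FL2 μ F ∧ ∀ κ, SphE μ s (fun g => F (κ, g)) := Iff.rfl

/-- PROOF. As `mxs_lf`, `mxs_maass` in `H33N.BM1`. -/
theorem mxp_maass [NeZero N] {μ : Measure (GG n ℚ)} [μ.IsHaarMeasure] {s : Fin n → ℂ} (hs : ∑ i, s i = 0) {F : XX n N → ℂ} (h : F ∈ MXp N μ s) (κ : KG n N) :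
    MaassS (nI N) μ s (fun g => F (κ, g)) := by
  have hN : 0 < N := Nat.pos_of_ne_zero (NeZero.ne N)
  exact ⟨lf_cusp hN μ h.1 h.2.1 κ, hs, (h.2.2 κ).inv, (h.2.2 κ).eig⟩

theorem mxp_lf [NeZero N] {μ : Measure (GG n ℚ)} [μ.IsHaarMeasure] {s : Fin n → ℂ} {f : GG n ℚ → ℂ} (h : MaassS (nI N) μ s f) :
    lf N f ∈ MXp N μ s := by
  have hN : 0 < N := Nat.pos_of_ne_zero (NeZero.ne N)
  refine ⟨lf_fcusp hN h.cusp, lf_fl2 hN μ h.cusp, fun κ => ?_⟩
  exact (Sph.e h.sph).left (emb (zq (lg κ))⁻¹)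

/-- The Hecke operators preserve the space. PROOF. As `mxs_ts`. -/
theorem mxp_ts [NeZero N] (hn : 0 < n) {μ : Measure (GG n ℚ)} [μ.IsHaarMeasure] {s : Fin n → ℂ} {S : Set (HH n N)} (hS : BS (GH n N) S)
    {F : XX n N → ℂ} (h : F ∈ MXp N μ s) : TS (GH n N) S F ∈ MXp N μ s := by
  refine ⟨ts_fcusp hn hS h.1, ts_fl2 μ hS h.1.toFInv h.2.1, fun κ => ?_⟩
  have e : (fun g => TS (GH n N) S F (κ, g)) = fun g => ∑ r ∈ rep (GH n N) S, (fun _ => (1 : ℂ)) r * (fun r g => F (hK r κ, hG r * g)) r g := by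
    funext g
    unfold TS
    refine Finset.sum_congr rfl fun r _ => ?_
    rw [one_mul]
    rfl
  rw [e]
  exact SphE.sum _ (fun _ => (1 : ℂ)) (fun (r : HH n N) g => F (hK r κ, hG r * g))
    (fun r _ => (h.1.toFInv.cont (hK r κ)).comp (continuous_const_mul (hG r))) fun r _ => (h.2.2 (hK r κ)).left (hG r)

end

end Pool.Agent.Lib.H85A
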