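import Pool.Agent.Lib.H85A.S1
import Pool.Agent.Lib.H33N.L4

/-!
# H85A, L2: a kernel whose spherical transform is at least one for all parameters of norm at most `T`
-/

namespace Pool.Agent.Lib.H85A

open MeasureTheory Matrix NumberField IsDedekindDomain
open Pool.Agent.Lib.H89N Pool.Agent.Lib.H85S Pool.Agent.Lib.H85N Pool.Agent.Lib.H33W Pool.Agent.Lib.H33N
open scoped ENNReal

noncomputable section

variable {n k : ℕ}

theorem l2_sum_ort_left {m : ℕ} (A B : Matrix (Fin m) (Fin m) ℝ) (h : Bᵀ * B = 1) :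
    ∑ i, ∑ j, (B * A) i j ^ 2 = ∑ i, ∑ j, A i j ^ 2 := by
  have e : ∀ M : Matrix (Fin m) (Fin m) ℝ, ∑ i, ∑ j, M i j ^ 2 = (Mᵀ * M).trace := by
    intro M
    rw [Finset.sum_comm]
    refine Finset.sum_congr rfl fun j _ => ?_
    show _ = (Mᵀ * M) j j
    rw [Matrix.mul_apply]
    refine Finset.sum_congr rfl fun i _ => ?_
    rw [Matrix.transpose_apply, sq]
  rw [e, e, Matrix.transpose_mul, Matrix.mul_assoc, ← Matrix.mul_assoc Bᵀ, h, Matrix.one_mul]

theorem l2_sum_tr {m : ℕ} (A : Matrix (Fin m) (Fin m) ℝ) : ∑ i, ∑ j, Aᵀ i j ^ 2 = ∑ i, ∑ j, A i j ^ 2 := by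
  rw [Finset.sum_comm]
  rfl

theorem l2_sum_ort_right {m : ℕ} (A B : Matrix (Fin m) (Fin m) ℝ) (h : B * Bᵀ = 1) :
    ∑ i, ∑ j, (A * B) i j ^ 2 = ∑ i, ∑ j, A i j ^ 2 := by
  rw [← l2_sum_tr, Matrix.transpose_mul, l2_sum_ort_left _ _ (by rw [Matrix.transpose_transpose]; exact h), l2_sum_tr]

/-- The matrix over the real numbers. -/
def l2R (g : GG n ℚ) : Matrix (Fin n) (Fin n) ℝ := g.1.map rq

theorem l2R_mul (g x : GG n ℚ) : l2R (g * x) = l2R g * l2R x := by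
  unfold l2R
  exact Matrix.map_mul (f := rq)

theorem l2R_ort {κ : GG n ℚ} (h : κ.1 * κ.1ᵀ = 1) : l2R κ * (l2R κ)ᵀ = 1 := by
  have h1 : (κ.1 * κ.1ᵀ).map rq = (1 : Matrix (Fin n) (Fin n) (EE ℚ)).map rq := by rw [h]
  rw [Matrix.map_mul, Matrix.map_one _ (map_zero rq) (map_one rq)] at h1
  exact h1

theorem l2_dev (g : GG n ℚ) : dev g = ∑ i, ∑ l, (l2R g * (l2R g)ᵀ - 1) i l ^ 2 := by
  unfold dev
  refine Finset.sum_congr rfl fun i _ => Finset.sum_congr rfl fun l _ => ?_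
  rw [norm_rq, sq_abs]
  congr 1
  rw [Matrix.sub_apply, Matrix.sub_apply, map_sub, Matrix.mul_apply, Matrix.mul_apply, map_sum]
  have e1 : ∑ k, rq (g.1 i k * g.1ᵀ k l) = ∑ k, l2R g i k * (l2R g)ᵀ k l :=
    Finset.sum_congr rfl fun k _ => map_mul rq _ _
  have e2 : rq ((1 : Matrix (Fin n) (Fin n) (EE ℚ)) i l) = (1 : Matrix (Fin n) (Fin n) ℝ) i l := by
    rw [Matrix.one_apply, Matrix.one_apply]
    split_ifs
    · exact map_one rq
    · exact map_zero rq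
  rw [e1, e2]

theorem l2_dev_right {κ : GG n ℚ} (h : κ.1 * κ.1ᵀ = 1) (x : GG n ℚ) : dev (x * κ) = dev x := by
  rw [l2_dev, l2_dev, l2R_mul, Matrix.transpose_mul, Matrix.mul_assoc, ← Matrix.mul_assoc (l2R κ), l2R_ort h, Matrix.one_mul]

theorem l2_dev_left {κ : GG n ℚ} (h : κ.1 * κ.1ᵀ = 1) (x : GG n ℚ) : dev (κ * x) = dev x := by
  have h1 := l2R_ort h
  have h2 : (l2R κ)ᵀ * l2R κ = 1 := mul_eq_one_comm.1 h1
  have e : l2R κ * l2R x * (l2R κ * l2R x)ᵀ - 1 = l2R κ * ((l2R x * (l2R x)ᵀ - 1) * (l2R κ)ᵀ) := by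
    rw [Matrix.transpose_mul, Matrix.sub_mul, Matrix.mul_sub, Matrix.one_mul, h1]
    congr 1
    simp only [Matrix.mul_assoc]
  rw [l2_dev, l2_dev, l2R_mul, e, l2_sum_ort_left _ _ h2, l2_sum_ort_right _ _ (by rw [Matrix.transpose_transpose]; exact h2)]

theorem l2_dev_zero {z : GG n ℚ} (h : dev z = 0) : z.1 * z.1ᵀ = 1 := by
  have h1 : z.1 * z.1ᵀ - 1 = 0 := by
    ext1 i l
    unfold dev at h
    have h2 := (Finset.sum_eq_zero_iff_of_nonneg (fun i _ => Finset.sum_nonneg fun l _ => sq_nonneg _)).1 h i (Finset.mem_univ i)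
    have h3 := (Finset.sum_eq_zero_iff_of_nonneg (fun l _ => sq_nonneg _)).1 h2 l (Finset.mem_univ l)
    exact norm_eq_zero.1 (pow_eq_zero_iff (two_ne_zero)|>.1 h3)
  exact sub_eq_zero.1 h1

theorem l2_gm_one (j : ℕ) : gm (1 : GG n ℚ) j = 1 := by
  unfold gm
  have h : ((1 : GG n ℚ).1 * (1 : GG n ℚ).1ᵀ : Matrix (Fin n) (Fin n) (EE ℚ)) = 1 := by
    show (1 : Matrix (Fin n) (Fin n) (EE ℚ)) * (1 : Matrix (Fin n) (Fin n) (EE ℚ))ᵀ = 1
    rw [Matrix.transpose_one, Matrix.mul_one]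
  rw [h, Matrix.map_one _ (map_zero rq) (map_one rq), Matrix.submatrix_one _ Subtype.val_injective, Matrix.det_one]

theorem l2_ia_one (i : Fin n) : ia (1 : GG n ℚ) i = 1 := by
  unfold ia
  rw [l2_gm_one, l2_gm_one, div_one, Real.sqrt_one]

theorem l2_ia (z : GG (k + 1) ℚ) (h : dev z = 0) (i : Fin (k + 1)) : ia z i = 1 := by
  have h1 := ia_rk i z (l2_dev_zero h) 1
  rw [one_mul] at h1
  exact h1.trans (l2_ia_one i)

/-- The sum of the absolute values of the logarithms. -/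
def l2L (z : GG (k + 1) ℚ) : ℝ := ∑ i, |Real.log (ia z i)|

theorem l2L_cont : Continuous (l2L : GG (k + 1) ℚ → ℝ) := by
  unfold l2L
  refine continuous_finsetSum _ fun i _ => ?_
  exact (Continuous.log (ia_cont i) fun g => (ia_pos g i).ne').abs

theorem l2L_nonneg (z : GG (k + 1) ℚ) : 0 ≤ l2L z := Finset.sum_nonneg fun _ _ => abs_nonneg _

theorem l2_delta {ε : ℝ} (hε : 0 < ε) : ∃ δ : ℝ, 0 < δ ∧ δ ≤ 1 ∧ ∀ z : GG (k + 1) ℚ, dev z ≤ δ → l2L z ≤ ε := by
  have hK : IsCompact ({z : GG (k + 1) ℚ | dev z ≤ 1} ∩ {z | ε ≤ l2L z}) :=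
    td_compact.inter_right (isClosed_le continuous_const l2L_cont)
  rcases Set.eq_empty_or_nonempty ({z : GG (k + 1) ℚ | dev z ≤ 1} ∩ {z | ε ≤ l2L z}) with h | h
  · refine ⟨1, one_pos, le_rfl, fun z hz => ?_⟩
    by_contra hc
    have : z ∈ ({z : GG (k + 1) ℚ | dev z ≤ 1} ∩ {z | ε ≤ l2L z}) := ⟨hz, (not_le.1 hc).le⟩
    rw [h] at this
    exact this
  · obtain ⟨z0, hz0, hmin⟩ := hK.exists_isMinOn h dev_cont.continuousOn
    have h0 : 0 < dev z0 := by
      refine lt_of_le_of_ne (dev_nonneg z0) fun h1 => ?_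
      have h2 : ε ≤ l2L z0 := hz0.2
      have h3 : l2L z0 = 0 := by
        unfold l2L
        refine Finset.sum_eq_zero fun i _ => ?_
        rw [l2_ia z0 h1.symm i, Real.log_one, abs_zero]
      rw [h3] at h2
      linarith
    refine ⟨min 1 (dev z0 / 2), lt_min one_pos (by linarith), min_le_left _ _, fun z hz => ?_⟩
    by_contra hc
    have h4 : z ∈ ({z : GG (k + 1) ℚ | dev z ≤ 1} ∩ {z | ε ≤ l2L z}) := ⟨hz.trans (min_le_left _ _), (not_le.1 hc).le⟩
    have h5 : dev z0 ≤ dev z := hmin h4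
    have h6 : dev z ≤ dev z0 / 2 := hz.trans (min_le_right _ _)
    linarith

theorem l2_hcf (s : Fin (k + 1) → ℂ) (z : GG (k + 1) ℚ) :
    hcf s z = Complex.exp (∑ i, (Real.log (ia z i) : ℂ) * (s i + ((((k + 1 : ℕ) : ℂ) - 1) / 2 - (i : ℕ)))) := by
  unfold hcf
  rw [Complex.exp_sum]
  refine Finset.prod_congr rfl fun i _ => ?_
  rw [Complex.cpow_def_of_ne_zero (by exact_mod_cast (ia_pos z i).ne'), Complex.ofReal_log (ia_pos z i).le]

theorem l2_bound {T : ℝ} (s : Fin (k + 1) → ℂ) (hs : ∀ j, ‖s j‖ ≤ T) (z : GG (k + 1) ℚ) :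
    ‖∑ i, (Real.log (ia z i) : ℂ) * (s i + ((((k + 1 : ℕ) : ℂ) - 1) / 2 - (i : ℕ)))‖ ≤ l2L z * (T + 2 * (k + 1)) := by
  refine (norm_sum_le _ _).trans ?_
  unfold l2L
  rw [Finset.sum_mul]
  refine Finset.sum_le_sum fun i _ => ?_
  rw [norm_mul, Complex.norm_real, Real.norm_eq_abs]
  refine mul_le_mul_of_nonneg_left ?_ (abs_nonneg _)
  refine (norm_add_le _ _).trans (add_le_add (hs i) ?_)
  refine (norm_sub_le _ _).trans ?_
  have e : ((((k + 1 : ℕ) : ℂ) - 1) / 2) = ((k / 2 : ℝ) : ℂ) := by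
    push_cast
    ring
  rw [e, Complex.norm_real, Complex.norm_natCast, Real.norm_eq_abs, abs_of_nonneg (by positivity)]
  have h1 : ((i : ℕ) : ℝ) ≤ k := by exact_mod_cast Nat.lt_succ_iff.1 i.2
  have h2 : (0 : ℝ) ≤ k := Nat.cast_nonneg k
  linarith

/-- PROOF. Let `dev z = |z zᵀ - 1|²` (`H85S`), `φ₀ z = max 0 (δ - dev z)`, `0 < δ ≤ 1`: continuous, bi-invariant under `SO(n)` (`k z zᵀ kᵀ - 1 = k (z zᵀ - 1) kᵀ`, the sum of the squares of the entries is invariant; right invariance is clear), supported in the compact set `{dev ≤ 1} ⊆ Om (k+1) 1` (`dev_om` in `H33N.BM7`; or `eN` of `H33N.L4` directly).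
The function `z ↦ ∑ |log (ia z i)|` is continuous (`ia_cont`, `ia_pos`) and vanishes where `dev z = 0` (`z ∈ SO(n)`: `ia_iwa` with `τ = 0`, `t = 0`), so by compactness it is at most `ε` on `{dev ≤ δ}` for `δ` small, and then `‖hcf s z - 1‖ ≤ 1/2` for all `s` with `‖s_j‖ ≤ T` (`hcf s z = exp (∑ (s_i + k/2 - i) log (ia z i))`).
So `‖∫ hcf s φ₀‖ ≥ (1/2) ∫ φ₀ > 0`; multiply `φ₀` by a constant. -/
theorem l_ker (μ : Measure (GG (k + 1) ℚ)) [μ.IsHaarMeasure] {T : ℝ} (hT : 0 ≤ T) : ∃ φ : GG (k + 1) ℚ → ℂ, Continuous φ ∧ HasCompactSupport φ ∧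
    BiK φ ∧ (∀ z, φ z ≠ 0 → z ∈ Om (k + 1) 1) ∧ ∀ s : Fin (k + 1) → ℂ, (∀ j, ‖s j‖ ≤ T) → 1 ≤ ‖∫ y, hcf s y * φ y ∂μ‖ := by
  set M : ℝ := T + 2 * (k + 1) with hM
  have hM0 : 0 < M := by positivity
  obtain ⟨δ, hδ, hδ1, hL⟩ := l2_delta (k := k) (ε := 1 / (4 * M)) (by positivity)
  set φ₀ : GG (k + 1) ℚ → ℝ := fun z => max 0 (δ - dev z) with hφ₀
  have c0 : Continuous φ₀ := continuous_const.max (continuous_const.sub dev_cont)
  have n0 : ∀ z, 0 ≤ φ₀ z := fun z => le_max_left _ _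
  have s0 : ∀ z, φ₀ z ≠ 0 → dev z ≤ δ := by
    intro z hz
    by_contra hc
    exact hz (max_eq_left (by linarith [not_le.1 hc]))
  have hc0 : HasCompactSupport φ₀ := HasCompactSupport.intro td_compact fun z hz => by
    by_contra h
    exact hz ((s0 z h).trans hδ1)
  have p0 : 0 < ∫ z, φ₀ z ∂μ := by
    refine c0.integral_pos_of_hasCompactSupport_nonneg_nonzero hc0 n0 (x := 1) ?_
    show max 0 (δ - dev 1) ≠ 0
    rw [dev_one, sub_zero, max_eq_right hδ.le]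
    exact hδ.ne'
  set c : ℝ := ∫ z, φ₀ z ∂μ with hc
  have i0 : Integrable φ₀ μ := c0.integrable_of_hasCompactSupport hc0
  have key : ∀ s : Fin (k + 1) → ℂ, (∀ j, ‖s j‖ ≤ T) → c / 2 ≤ ‖∫ y, hcf s y * (φ₀ y : ℂ) ∂μ‖ := by
    intro s hs
    have e1 : ∫ y, (φ₀ y : ℂ) ∂μ = (c : ℂ) := integral_ofReal
    have ic : Integrable (fun y => (φ₀ y : ℂ)) μ := i0.ofReal
    have hcs : HasCompactSupport fun y => hcf s y * (φ₀ y : ℂ) := by
      refine HasCompactSupport.intro td_compact fun z hz => ?_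
      have : φ₀ z = 0 := by
        by_contra h
        exact hz ((s0 z h).trans hδ1)
      rw [this, Complex.ofReal_zero, mul_zero]
    have i1 : Integrable (fun y => hcf s y * (φ₀ y : ℂ)) μ :=
      ((hcf_cont s).mul (Complex.continuous_ofReal.comp c0)).integrable_of_hasCompactSupport hcs
    have e2 : ‖∫ y, (hcf s y * (φ₀ y : ℂ) - (φ₀ y : ℂ)) ∂μ‖ ≤ c / 2 := by
      calc ‖∫ y, (hcf s y * (φ₀ y : ℂ) - (φ₀ y : ℂ)) ∂μ‖ ≤ ∫ y, φ₀ y * (1 / 2) ∂μ := by
            refine norm_integral_le_of_norm_le (i0.mul_const _) (Filter.Eventually.of_forall fun z => ?_)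
            have e3 : hcf s z * (φ₀ z : ℂ) - (φ₀ z : ℂ) = (φ₀ z : ℂ) * (hcf s z - 1) := by ring
            rw [e3, norm_mul, Complex.norm_real, Real.norm_eq_abs, abs_of_nonneg (n0 z)]
            by_cases hz : φ₀ z = 0
            · rw [hz, zero_mul, zero_mul]
            · refine mul_le_mul_of_nonneg_left ?_ (n0 z)
              rw [l2_hcf]
              have h1 := l2_bound s hs z
              have h2 := hL z (s0 z hz)
              have h3 : l2L z * M ≤ 1 / 4 := by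
                calc l2L z * M ≤ 1 / (4 * M) * M := mul_le_mul_of_nonneg_right h2 hM0.le
                  _ = 1 / 4 := by field_simp
              have h4 := h1.trans h3
              have h5 := Complex.norm_exp_sub_one_le (h4.trans (by norm_num))
              linarith
        _ = c / 2 := by rw [integral_mul_const]; ring
    rw [integral_sub i1 ic, e1] at e2
    have e4 : ‖(c : ℂ)‖ = c := by rw [Complex.norm_real, Real.norm_eq_abs, abs_of_nonneg p0.le]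
    have e5 := norm_sub_norm_le (c : ℂ) (∫ y, hcf s y * (φ₀ y : ℂ) ∂μ)
    rw [norm_sub_rev, e4] at e5
    linarith
  refine ⟨fun z => ((2 / c : ℝ) : ℂ) * (φ₀ z : ℂ), ?_, ?_, ?_, ?_, ?_⟩
  · exact continuous_const.mul (Complex.continuous_ofReal.comp c0)
  · refine HasCompactSupport.intro td_compact fun z hz => ?_
    have : φ₀ z = 0 := by
      by_contra h
      exact hz ((s0 z h).trans hδ1)
    rw [this, Complex.ofReal_zero, mul_zero]
  · intro κ hκ x
    have e1 : φ₀ (κ * x) = φ₀ x := by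
      show max 0 (δ - dev (κ * x)) = max 0 (δ - dev x)
      rw [l2_dev_left hκ]
    have e2 : φ₀ (x * κ) = φ₀ x := by
      show max 0 (δ - dev (x * κ)) = max 0 (δ - dev x)
      rw [l2_dev_right hκ]
    simp only [e1, e2, and_self]
  · intro z hz
    have h1 : φ₀ z ≠ 0 := by
      intro h
      exact hz (by simp only [h, Complex.ofReal_zero, mul_zero])
    exact eN_of_dev zero_le_one ((s0 z h1).trans (by rw [one_pow]; exact hδ1))
  · intro s hs
    have e : ∀ y, hcf s y * (((2 / c : ℝ) : ℂ) * (φ₀ y : ℂ)) = ((2 / c : ℝ) : ℂ) * (hcf s y * (φ₀ y : ℂ)) := fun y => by ring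
    simp only [e]
    rw [integral_const_mul, norm_mul, Complex.norm_real, Real.norm_eq_abs, abs_of_nonneg (by positivity)]
    calc (1 : ℝ) = 2 / c * (c / 2) := by field_simp
      _ ≤ _ := mul_le_mul_of_nonneg_left (key s hs) (by positivity)

end

end Pool.Agent.Lib.H85A
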