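import Pool.Agent.Lib.H85A.B1
import Pool.Agent.Lib.H85A.L2
import Pool.Agent.Lib.H33N.BM2

/-!
# H85A, B2: finite dimension
-/

namespace Pool.Agent.Lib.H85A

open MeasureTheory Matrix NumberField IsDedekindDomain
open Pool.Agent.Lib.H89N Pool.Agent.Lib.H85S Pool.Agent.Lib.H33W Pool.Agent.Lib.H33N Pool.Agent.Lib.H85N
open scoped ENNReal

noncomputable section

variable {n k N : ℕ}

/-- Convolution operators which do not decrease the absolute values of the functions with spherical parameter `s`. -/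
theorem b2_phi (μ : Measure (GG (k + 1) ℚ)) [μ.IsHaarMeasure] (s : Fin (k + 1) → ℂ) : ∃ φ : GG (k + 1) ℚ → ℂ,
    Continuous φ ∧ HasCompactSupport φ ∧ ∀ u : GG (k + 1) ℚ → ℂ, SphE μ s u → ∀ x, ‖u x‖ ≤ ‖conv μ u φ x‖ := by
  obtain ⟨φ, hφ, hφc, hφk, -, h1⟩ := l_ker μ (T := ∑ j, ‖s j‖) (Finset.sum_nonneg fun _ _ => norm_nonneg _)
  refine ⟨φ, hφ, hφc, fun u hu x => ?_⟩
  have h2 := h1 s fun j => Finset.single_le_sum (f := fun j => ‖s j‖) (fun _ _ => norm_nonneg _) (Finset.mem_univ j)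
  have h3 : conv μ u φ x = (∫ y, hcf s y * φ y ∂μ) * u x := hu.eig φ hφ hφc hφk x
  rw [h3, norm_mul]
  exact le_mul_of_one_le_left (norm_nonneg _) h2

/-- PROOF. As `mxs_fd` in `H33N.BM2` (`fd_bound` of `H85N.F2`): the kernel `φ` of `l_ker` (L2) with `T = ∑ ‖s_j‖` satisfies `conv μ u φ = λ u`, `λ = ∫ hcf s φ`, `|λ| ≥ 1` for all `u` with `SphE μ s u`. -/
theorem mxp_fd {k : ℕ} [NeZero N] (μ : Measure (GG (k + 1) ℚ)) [μ.IsHaarMeasure] (s : Fin (k + 1) → ℂ) : FiniteDimensional ℂ (MXp (n := k + 1) N μ s) := by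
  have hN : 0 < N := Nat.pos_of_ne_zero (NeZero.ne N)
  obtain ⟨φ, hφ, hφc, hle⟩ := b2_phi μ s
  obtain ⟨M, hM⟩ := fd_bound (by omega : 1 ≤ k + 1) (nI_ne hN.ne') (f1_place hN) μ hφ hφc
  obtain ⟨F, hF⟩ := exists_fd μ (nI N)
  have hb : ∀ (m : ℕ) (W : Fin m → MXp (n := k + 1) N μ s), LinearIndependent ℂ W → m ≤ ⌊M⌋₊ := by
    intro m W hW
    apply Nat.le_floor
    refine hM F hF m (fun i g => (W i).1 (1, g)) (fun i => lf_cusp hN μ (W i).2.1 (W i).2.2.1 1) ?_ ?_
    · rw [Fintype.linearIndependent_iff] at hW ⊢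
      intro c hc
      apply hW c
      apply Subtype.ext
      have h1 : FInv (fun x => ∑ i, c i * (W i).1 x) := bm_finv Finset.univ c _ fun i _ => (W i).2.1.toFInv
      have h2 := lf_res hN h1
      have h3 : (fun g : GG (k + 1) ℚ => ∑ i, c i * (W i).1 ((1 : KG (k + 1) N), g)) = fun _ => 0 := by
        funext g
        have := congrFun hc g
        rw [Finset.sum_apply] at this
        exact this
      have h4 : (fun x : XX (k + 1) N => ∑ i, c i * (W i).1 x) = fun _ => 0 := by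
        rw [← h2]
        funext x
        show (fun g : GG (k + 1) ℚ => ∑ i, c i * (W i).1 ((1 : KG (k + 1) N), g)) _ = 0
        rw [h3]
      rw [Submodule.coe_sum]
      funext x
      rw [Finset.sum_apply]
      exact congrFun h4 x
    · intro c
      have h5 : SphE μ s (fun y : GG (k + 1) ℚ => ∑ i, c i * (W i).1 ((1 : KG (k + 1) N), y)) :=
        SphE.sum Finset.univ c (fun i g => (W i).1 (1, g)) (fun i _ => (W i).2.1.toFInv.cont 1) fun i _ => (W i).2.2.2 1
      refine lintegral_mono fun x => ENNReal.ofReal_le_ofReal ?_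
      exact pow_le_pow_left₀ (norm_nonneg _) (hle _ h5 x) 2
  have hr : Module.rank ℂ (MXp (n := k + 1) N μ s) ≤ (⌊M⌋₊ : ℕ) := by
    refine rank_le fun s hs => ?_
    have h1 := hb s.card (fun i => ((s.equivFin.symm i : s) : _)) (hs.comp _ s.equivFin.symm.injective)
    exact h1
  exact Module.rank_lt_aleph0_iff.1 (lt_of_le_of_lt hr (Cardinal.nat_lt_aleph0 _))

end

end Pool.Agent.Lib.H85A
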