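import Pool.Agent.Lib.H85A.B1
import Pool.Agent.Lib.H33N.HG2
import Pool.Agent.Lib.H33N.BM4

/-!
# H85A, B3: the adjoint of convolution operators
-/

namespace Pool.Agent.Lib.H85A

open MeasureTheory Matrix NumberField IsDedekindDomain
open Pool.Agent.Lib.H89N Pool.Agent.Lib.H85S Pool.Agent.Lib.H33W Pool.Agent.Lib.H33N Pool.Agent.Lib.H85N
open scoped ENNReal

noncomputable section

variable {n k N : ℕ}

/-- The adjoint kernel. -/
def ast (φ : GG n ℚ → ℂ) (y : GG n ℚ) : ℂ := star (φ y⁻¹)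

theorem b3_kinv {κ : GG n ℚ} (h : κ.1 * κ.1ᵀ = 1) : (κ⁻¹).1 * (κ⁻¹).1ᵀ = 1 := by
  have h1 : (κ⁻¹).1 = κ.1ᵀ := by
    have h2 : (κ⁻¹).1 * κ.1 = 1 := by
      have h3 : κ⁻¹ * κ = 1 := inv_mul_cancel κ
      exact congrArg Subtype.val h3
    calc (κ⁻¹).1 = (κ⁻¹).1 * (κ.1 * κ.1ᵀ) := by rw [h, Matrix.mul_one]
      _ = κ.1ᵀ := by rw [← Matrix.mul_assoc, h2, Matrix.one_mul]
  rw [h1, Matrix.transpose_transpose]
  exact _root_.mul_eq_one_comm.1 h

/-- PROOF. `(k y)⁻¹ = y⁻¹ k⁻¹`, `k⁻¹` is in `SO(n)`. -/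
theorem ast_ok {φ : GG n ℚ → ℂ} (h : Continuous φ) (hc : HasCompactSupport φ) : Continuous (ast φ) ∧ HasCompactSupport (ast φ) ∧ (BiK φ → BiK (ast φ)) := by
  refine ⟨(h.comp continuous_inv).star, ?_, fun hb κ hκ x => ?_⟩
  · have h1 : HasCompactSupport (φ ∘ (Homeomorph.inv (GG n ℚ))) := hc.comp_homeomorph (Homeomorph.inv (GG n ℚ))
    exact h1.comp_left (g := fun z : ℂ => star z) (star_zero ℂ)
  · have h2 := b3_kinv hκ
    have h3 := hb κ⁻¹ h2 x⁻¹
    constructor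
    · show star (φ (κ * x)⁻¹) = star (φ x⁻¹)
      rw [_root_.mul_inv_rev, h3.2]
    · show star (φ (x * κ)⁻¹) = star (φ x⁻¹)
      rw [_root_.mul_inv_rev, h3.1]

theorem b3_trans [NeZero N] (μ : Measure (GG n ℚ)) [μ.IsHaarMeasure] {D : Set (XX n N)} (hD : SF (⊤ : Subgroup (ZG n)) D) (y : GG n ℚ)
    {f : XX n N → ℂ} (hf : Measurable f) (hi : ∀ (γ : ZG n) x, f (γ • x) = f x) :
    ∫ x in D, f (rt y x) ∂xm N μ = ∫ x in D, f x ∂xm N μ := by
  have hD' : SF (⊤ : Subgroup (ZG n)) (rt y⁻¹ ⁻¹' D) := by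
    refine ⟨(rt_mp μ y⁻¹).measurable hD.meas, fun x => ?_⟩
    have h1 : ∀ γ : (⊤ : Subgroup (ZG n)), γ • x ∈ rt y⁻¹ ⁻¹' D ↔ γ • rt y⁻¹ x ∈ D := by
      intro γ
      rw [Set.mem_preimage]
      have h2 : rt y⁻¹ (γ • x) = γ • rt y⁻¹ x := rt_smul γ.1 y⁻¹ x
      rw [h2]
    simp only [h1]
    exact hD.fd _
  have h3 : rt y ⁻¹' (rt y⁻¹ ⁻¹' D) = D := by
    ext x
    rw [Set.mem_preimage, Set.mem_preimage, rt_rt]
  have h2 : ∫ x in rt y ⁻¹' (rt y⁻¹ ⁻¹' D), f (rt y x) ∂xm N μ = ∫ x in rt y⁻¹ ⁻¹' D, f x ∂xm N μ := by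
    have h4 := setIntegral_map (μ := xm N μ) (g := rt (N := N) y) (f := f) (s := rt y⁻¹ ⁻¹' D) hD'.meas
      (by rw [(rt_mp μ y).map_eq]; exact hf.aestronglyMeasurable) (rt_mp μ y).measurable.aemeasurable
    rw [(rt_mp μ y).map_eq] at h4
    exact h4.symm
  rw [h3] at h2
  rw [h2]
  have e1 : IsFundamentalDomain (⊤ : Subgroup (ZG n)) D (xm N μ) := IsFundamentalDomain.mk' hD.meas.nullMeasurableSet hD.fd
  have e2 : IsFundamentalDomain (⊤ : Subgroup (ZG n)) (rt y⁻¹ ⁻¹' D) (xm N μ) :=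
    IsFundamentalDomain.mk' hD'.meas.nullMeasurableSet hD'.fd
  exact e2.setIntegral_eq e1 fun g x => hi g.1 x

theorem b3_sf [NeZero N] (μ : Measure (GG n ℚ)) [μ.IsHaarMeasure] : SFinite (xm N μ) := by
  have hf : Finite (KG n N) := inferInstance
  have hc : SFinite (Measure.count : Measure (KG n N)) := inferInstance
  have hs : SFinite μ := inferInstance
  exact Measure.prod.instSFinite

theorem b3_inv (μ : Measure (GG n ℚ)) [μ.IsHaarMeasure] : μ.IsInvInvariant := by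
  have hr := hb7_right μ
  have hfc : IsFiniteMeasureOnCompacts μ.inv := by
    refine ⟨fun K hK => ?_⟩
    rw [Measure.inv_apply]
    exact (hK.inv).measure_lt_top
  have hc : μ.inv = (Measure.haarScalarFactor μ.inv μ : ℝ≥0∞) • μ := Measure.isMulLeftInvariant_eq_smul μ.inv μ
  set c : ℝ≥0∞ := (Measure.haarScalarFactor μ.inv μ : ℝ≥0∞) with hcdef
  have h1 : Measure.map Inv.inv (Measure.map Inv.inv μ) = c ^ 2 • μ := by
    rw [← Measure.inv_def μ, hc, Measure.map_smul, ← Measure.inv_def μ, hc, smul_smul, pow_two]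
  have μeq : μ = c ^ 2 • μ := by
    rw [Measure.map_map continuous_inv.measurable continuous_inv.measurable] at h1
    simpa only [inv_involutive, Function.Involutive.comp_self, Measure.map_id] using h1
  have K : TopologicalSpace.PositiveCompacts (GG n ℚ) := Classical.arbitrary _
  have h2 : c ^ 2 * μ K = 1 ^ 2 * μ K := by
    conv_rhs => rw [μeq]
    simp
  have h3 : c ^ 2 = 1 ^ 2 :=
    (ENNReal.mul_left_inj (Measure.measure_pos_of_nonempty_interior _ K.interior_nonempty).ne'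
          K.isCompact.measure_lt_top.ne).1 h2
  have h4 : c = 1 := (ENNReal.pow_right_strictMono two_ne_zero).injective h3
  exact ⟨by rw [hc, h4, one_smul]⟩

/-- Joint integrability. -/
theorem b3_int [NeZero N] (μ : Measure (GG n ℚ)) [μ.IsHaarMeasure] {φ : GG n ℚ → ℂ} (hφ : Continuous φ) (hc : HasCompactSupport φ) {F G : XX n N → ℂ}
    (hF : FInv F) (hG : FInv G) (h2F : FL2 μ F) (h2G : FL2 μ G) {D : Set (XX n N)} (hD : SF (⊤ : Subgroup (ZG n)) D) :
    Integrable (fun p : XX n N × GG n ℚ => F (rt p.2 p.1) * φ p.2 * G p.1) (((xm N μ).restrict D).prod μ) := by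
  have hFm := finv_meas hF
  have hGm := finv_meas hG
  have hsf := b3_sf (N := N) μ
  have hs : SFinite μ := inferInstance
  have hmp : Measurable fun p : XX n N × GG n ℚ => F (rt p.2 p.1) * φ p.2 * G p.1 :=
    ((hFm.comp rt_meas).mul (hφ.measurable.comp measurable_snd)).mul (hGm.comp measurable_fst)
  refine ⟨hmp.aestronglyMeasurable, ?_⟩
  have hφm : Measurable fun y => ‖φ y‖ₑ := hφ.measurable.enorm
  have hm3 : Measurable fun p : XX n N × GG n ℚ => ‖F (rt p.2 p.1)‖ₑ ^ 2 * ‖φ p.2‖ₑ :=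
    ((hFm.comp rt_meas).enorm.pow_const 2).mul (hφm.comp measurable_snd)
  have hm4 : Measurable fun p : XX n N × GG n ℚ => ‖G p.1‖ₑ ^ 2 * ‖φ p.2‖ₑ :=
    ((hGm.comp measurable_fst).enorm.pow_const 2).mul (hφm.comp measurable_snd)
  have hφ1 : ∫⁻ y, ‖φ y‖ₑ ∂μ < ⊤ := (hφ.integrable_of_hasCompactSupport hc).2
  have hF1 : ∫⁻ x in D, ‖F x‖ₑ ^ 2 ∂xm N μ < ⊤ := by
    have h := h2F D hD
    simp only [hb6_ofReal] at h
    exact h
  have hG1 : ∫⁻ x in D, ‖G x‖ₑ ^ 2 ∂xm N μ < ⊤ := by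
    have h := h2G D hD
    simp only [hb6_ofReal] at h
    exact h
  have hA : ∫⁻ p, ‖F (rt p.2 p.1)‖ₑ ^ 2 * ‖φ p.2‖ₑ ∂(((xm N μ).restrict D).prod μ) < ⊤ := by
    rw [lintegral_prod _ hm3.aemeasurable, lintegral_lintegral_swap hm3.aemeasurable]
    have h4 : ∀ y : GG n ℚ, (∫⁻ x in D, ‖F (rt y x)‖ₑ ^ 2 * ‖φ y‖ₑ ∂xm N μ) =
        (∫⁻ x in D, ‖F x‖ₑ ^ 2 ∂xm N μ) * ‖φ y‖ₑ := by
      intro y
      have hm5 : Measurable fun x : XX n N => ‖F (rt y x)‖ₑ ^ 2 := (hFm.comp (rt_mp μ y).measurable).enorm.pow_const 2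
      rw [lintegral_mul_const _ hm5]
      congr 1
      exact hb7_trans μ hD y (f := fun x => ‖F x‖ₑ ^ 2) (hFm.enorm.pow_const 2) (fun γ x => by rw [hF.inv γ x])
    simp only [h4]
    rw [lintegral_const_mul _ hφm]
    exact ENNReal.mul_lt_top hF1 hφ1
  have hB : ∫⁻ p, ‖G p.1‖ₑ ^ 2 * ‖φ p.2‖ₑ ∂(((xm N μ).restrict D).prod μ) < ⊤ := by
    rw [lintegral_prod_mul (f := fun x : XX n N => ‖G x‖ₑ ^ 2) (g := fun y : GG n ℚ => ‖φ y‖ₑ)
      (hGm.enorm.pow_const 2).aemeasurable hφm.aemeasurable]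
    exact ENNReal.mul_lt_top hG1 hφ1
  refine lt_of_le_of_lt (lintegral_mono (g := fun p : XX n N × GG n ℚ => ‖F (rt p.2 p.1)‖ₑ ^ 2 * ‖φ p.2‖ₑ + ‖G p.1‖ₑ ^ 2 * ‖φ p.2‖ₑ) fun p => ?_) ?_
  · show ‖F (rt p.2 p.1) * φ p.2 * G p.1‖ₑ ≤ ‖F (rt p.2 p.1)‖ₑ ^ 2 * ‖φ p.2‖ₑ + ‖G p.1‖ₑ ^ 2 * ‖φ p.2‖ₑ
    rw [enorm_mul, enorm_mul, ← add_mul, mul_right_comm]
    refine mul_le_mul_left ?_ _
    rcases le_total ‖F (rt p.2 p.1)‖ₑ ‖G p.1‖ₑ with h | h
    · refine le_trans ?_ le_add_self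
      rw [sq]
      exact mul_le_mul_left h _
    · refine le_trans ?_ le_self_add
      rw [sq]
      exact mul_le_mul_right h _
  · rw [lintegral_add_left hm3]
    exact ENNReal.add_lt_top.2 ⟨hA, hB⟩

/-- PROOF. `∫_D conj(∫ F(x y) φ(y) dy) G(x) dx = ∫ conj(φ y) ∫_D conj(F(x y)) G(x) dx dy` (Fubini: `rc_norm`-type estimate, or Cauchy-Schwarz; the function `y ↦ ∫_D |F(xy)| |G(x)| dx` is bounded by `‖F‖ ‖G‖`), `∫_D conj(F(x y)) G(x) dx = ∫_D conj(F x) G(x y⁻¹) dx` (right translation on the quotient: `rt` in `H33N.HB7`, as used in the proof of `rc_norm`),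
`y ↦ y⁻¹` preserves the Haar measure (`μ` is left and right invariant: `hb7_right`, `integral_inv_eq_self`). -/
theorem rc_adj [NeZero N] (μ : Measure (GG n ℚ)) [μ.IsHaarMeasure] {φ : GG n ℚ → ℂ} (hφ : Continuous φ) (hc : HasCompactSupport φ) {F G : XX n N → ℂ}
    (hF : FInv F) (hG : FInv G) (h2F : FL2 μ F) (h2G : FL2 μ G) {D : Set (XX n N)} (hD : SF (⊤ : Subgroup (ZG n)) D) :
    ∫ x in D, star (RC μ φ F x) * G x ∂xm N μ = ∫ x in D, star (F x) * RC μ (ast φ) G x ∂xm N μ := by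
  have hsf := b3_sf (N := N) μ
  have hs : SFinite μ := inferInstance
  have hr := hb7_right μ
  have hii : μ.IsInvInvariant := b3_inv μ
  have hFm := finv_meas hF
  have hGm := finv_meas hG
  have hsG : FInv (fun x => star (G x)) := by
    refine ⟨fun κ => ?_, fun γ x => ?_⟩
    · exact (hG.cont κ).star
    · show star (G (γ • x)) = star (G x)
      rw [hG.inv γ x]
  have h2sG : FL2 μ (fun x => star (G x)) := by
    intro D' hD'
    have h := h2G D' hD'
    simpa only [norm_star] using h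
  have hsF : FInv (fun x => star (F x)) := by
    refine ⟨fun κ => ?_, fun γ x => ?_⟩
    · exact (hF.cont κ).star
    · show star (F (γ • x)) = star (F x)
      rw [hF.inv γ x]
  have h2sF : FL2 μ (fun x => star (F x)) := by
    intro D' hD'
    have h := h2F D' hD'
    simpa only [norm_star] using h
  -- left side
  have hL : ∫ x in D, star (RC μ φ F x) * G x ∂xm N μ = ∫ y, star (φ y) * ∫ x in D, star (F (rt y x)) * G x ∂xm N μ ∂μ := by
    have h1 := b3_int μ (φ := fun y => star (φ y)) hφ.star (hc.comp_left (g := fun z : ℂ => star z) (star_zero ℂ)) hsF hG h2sF h2G hD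
    have h2 := integral_integral_swap (f := fun (x : XX n N) (y : GG n ℚ) => star (F (rt y x)) * star (φ y) * G x) h1
    have h3 : ∀ x : XX n N, ∫ y, star (F (rt y x)) * star (φ y) * G x ∂μ = star (RC μ φ F x) * G x := by
      intro x
      rw [integral_mul_const]
      congr 1
      show _ = star (∫ y, F (rt y x) * φ y ∂μ)
      have h4 := integral_conj (μ := μ) (f := fun y => F (rt y x) * φ y)
      have h5 : (starRingEnd ℂ) (∫ y, F (rt y x) * φ y ∂μ) = star (∫ y, F (rt y x) * φ y ∂μ) := rfl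
      rw [← h5, ← h4]
      congr 1
      funext y
      show star (F (rt y x)) * star (φ y) = star (F (rt y x) * φ y)
      rw [star_mul, mul_comm]
    simp only [h3] at h2
    rw [h2]
    congr 1
    funext y
    rw [← integral_const_mul]
    congr 1
    funext x
    ring
  have hR : ∫ x in D, star (F x) * RC μ (ast φ) G x ∂xm N μ = ∫ y, ast φ y * ∫ x in D, star (F x) * G (rt y x) ∂xm N μ ∂μ := by
    obtain ⟨ha, hac, -⟩ := ast_ok hφ hc
    have h1 := b3_int μ ha hac hG hsF h2G h2sF hD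
    have h2 := integral_integral_swap (f := fun (x : XX n N) (y : GG n ℚ) => G (rt y x) * ast φ y * star (F x)) h1
    have h3 : ∀ x : XX n N, ∫ y, G (rt y x) * ast φ y * star (F x) ∂μ = star (F x) * RC μ (ast φ) G x := by
      intro x
      rw [integral_mul_const, mul_comm]
      rfl
    simp only [h3] at h2
    rw [h2]
    congr 1
    funext y
    rw [← integral_const_mul]
    congr 1
    funext x
    ring
  rw [hL, hR, ← integral_inv_eq_self (fun y => ast φ y * ∫ x in D, star (F x) * G (rt y x) ∂xm N μ) μ]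
  congr 1
  funext y
  have h6 : ast φ y⁻¹ = star (φ y) := by
    unfold ast
    rw [inv_inv]
  rw [h6]
  congr 1
  have h7 := b3_trans μ hD y (f := fun x => star (F x) * G (rt y⁻¹ x)) (by
    exact (continuous_star.measurable.comp hFm).mul (hGm.comp (rt_mp μ y⁻¹).measurable)) (fun γ x => by
      rw [hF.inv γ x, rt_smul, hG.inv])
  rw [← h7]
  congr 1
  funext x
  rw [rt_rt]

/-- PROOF. `SphE.eig`. -/
theorem mxp_rc [NeZero N] {μ : Measure (GG n ℚ)} [μ.IsHaarMeasure] {s : Fin n → ℂ} {F : XX n N → ℂ} (h : F ∈ MXp N μ s) {φ : GG n ℚ → ℂ}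
    (hφ : Continuous φ) (hc : HasCompactSupport φ) (hb : BiK φ) : RC μ φ F = (∫ y, hcf s y * φ y ∂μ) • F := by
  funext x
  exact ((mxp_mem.1 h).2.2 x.1).eig φ hφ hc hb x.2

end

end Pool.Agent.Lib.H85A
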