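import Pool.Agent.Lib.H85A.B2
import Pool.Agent.Lib.H85A.B3

/-!
# H85A, B4: the orthonormal basis
-/

namespace Pool.Agent.Lib.H85A

open MeasureTheory Matrix NumberField IsDedekindDomain
open Pool.Agent.Lib.H89N Pool.Agent.Lib.H85S Pool.Agent.Lib.H33W Pool.Agent.Lib.H33N Pool.Agent.Lib.H85N
open scoped ENNReal

noncomputable section

variable {n k N : ℕ}

/-- The kernels. -/
def B4K (n : ℕ) : Type := {φ : GG n ℚ → ℂ // Continuous φ ∧ HasCompactSupport φ ∧ BiK φ}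

/-- The adjoint kernel. -/
def b4A (φ : B4K n) : B4K n := ⟨ast φ.1, (ast_ok φ.2.1 φ.2.2.1).1, (ast_ok φ.2.1 φ.2.2.1).2.1, (ast_ok φ.2.1 φ.2.2.1).2.2 φ.2.2.2⟩

/-- The convolution operators of a stable space. -/
def b4R [NeZero N] (μ : Measure (GG n ℚ)) [μ.IsHaarMeasure] (V : Submodule ℂ (XX n N → ℂ)) (h1 : ∀ F ∈ V, FCusp F)
    (hR : ∀ φ : B4K n, ∀ F ∈ V, RC μ φ.1 F ∈ V) (φ : B4K n) : Module.End ℂ V where
  toFun F := ⟨RC μ φ.1 F.1, hR φ F.1 F.2⟩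
  map_add' F G := Subtype.ext (rc_lin φ.2.1 φ.2.2.1 (h1 _ F.2).toFInv (h1 _ G.2).toFInv 0).1
  map_smul' c F := Subtype.ext (rc_lin φ.2.1 φ.2.2.1 (h1 _ F.2).toFInv (h1 _ F.2).toFInv c).2

/-- The index set of the operators. -/
def B4I (n N : ℕ) : Type := {S : Set (HH n N) // BS (GH n N) S} ⊕ B4K n

/-- The involution of the index set. -/
def b4J : B4I n N → B4I n N := Sum.map (fun S => ⟨{h | h⁻¹ ∈ S.1}, bs_inv S.2⟩) b4A

/-- The common eigenbasis. -/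
theorem b4_sub [NeZero N] (μ : Measure (GG n ℚ)) [μ.IsHaarMeasure] (V : Submodule ℂ (XX n N → ℂ)) [FiniteDimensional ℂ V]
    (h1 : ∀ F ∈ V, FCusp F) (h2 : ∀ F ∈ V, FL2 μ F) (hV : ∀ S, BS (GH n N) S → ∀ F ∈ V, TS (GH n N) S F ∈ V)
    (hR : ∀ φ : B4K n, ∀ F ∈ V, RC μ φ.1 F ∈ V)
    (hRR : ∀ φ ψ : B4K n, ∀ F ∈ V, RC μ φ.1 (RC μ ψ.1 F) = RC μ ψ.1 (RC μ φ.1 F))
    {D : Set (XX n N)} (hD : SF (⊤ : Subgroup (ZG n)) D) :
    ∃ e : Fin (Module.finrank ℂ V) → V, (∀ i j, ∫ x in D, star ((e i).1 x) * (e j).1 x ∂xm N μ = if i = j then 1 else 0) ∧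
      (∀ S, BS (GH n N) S → ∀ j, ∃ c : ℂ, TS (GH n N) S (e j).1 = fun x => c * (e j).1 x) ∧
      ∀ (φ : B4K n) j, ∃ c : ℂ, b4R μ V h1 hR φ (e j) = c • e j := by
  obtain ⟨τ, -, t2, t3, t4, t5⟩ := tau_ex n N
  have hTT : ∀ i j : {S : Set (HH n N) // BS (GH n N) S}, ebT V hV i * ebT V hV j = ebT V hV j * ebT V hV i := by
    intro i j
    apply LinearMap.ext
    intro F
    apply Subtype.ext
    funext x
    exact ts_comm i.2 j.2 t2 t3 t4 t5 (inv_gh.1 (h1 _ F.2).inv) x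
  have hTR : ∀ (i : {S : Set (HH n N) // BS (GH n N) S}) (φ : B4K n), ebT V hV i * b4R μ V h1 hR φ = b4R μ V h1 hR φ * ebT V hV i := by
    intro i φ
    apply LinearMap.ext
    intro F
    apply Subtype.ext
    funext x
    exact rc_ts μ φ.2.1 φ.2.2.1 (h1 _ F.2).toFInv x
  have hRR' : ∀ φ ψ : B4K n, b4R μ V h1 hR φ * b4R μ V h1 hR ψ = b4R μ V h1 hR ψ * b4R μ V h1 hR φ := by
    intro φ ψ
    apply LinearMap.ext
    intro F
    apply Subtype.ext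
    exact hRR φ ψ F.1 F.2
  let T : B4I n N → Module.End ℂ V := Sum.elim (ebT V hV) (b4R μ V h1 hR)
  have hcomm : ∀ i j : B4I n N, T i * T j = T j * T i := by
    rintro (i | φ) (j | ψ)
    · exact hTT i j
    · exact hTR i ψ
    · exact (hTR j φ).symm
    · exact hRR' φ ψ
  have hadj : ∀ (i : B4I n N) (F G : V), ebB μ V h1 h2 hD (T i F) G = ebB μ V h1 h2 hD F (T (b4J i) G) := by
    rintro (S | φ) F G
    · rw [ebB_apply, ebB_apply]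
      exact ts_adj S.2 (sf_gh.1 hD) (finv_meas (h1 _ F.2).toFInv) (finv_meas (h1 _ G.2).toFInv) (inv_gh.1 (h1 _ F.2).inv)
        (inv_gh.1 (h1 _ G.2).inv) ((fl2_iff μ (h1 _ F.2).toFInv hD).1 (h2 _ F.2)) ((fl2_iff μ (h1 _ G.2).toFInv hD).1 (h2 _ G.2))
    · rw [ebB_apply, ebB_apply]
      exact rc_adj μ φ.2.1 φ.2.2.1 (h1 _ F.2).toFInv (h1 _ G.2).toFInv (h2 _ F.2) (h2 _ G.2) hD
  obtain ⟨e, e1, e2, -⟩ := hl_basis (ebB μ V h1 h2 hD) (by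
      intro F G
      rw [ebB_apply, ebB_apply]
      have h3 : star (∫ x in D, star (F.1 x) * G.1 x ∂xm N μ) = ∫ x in D, star (star (F.1 x) * G.1 x) ∂xm N μ := by
        exact (integral_conj (f := fun x => star (F.1 x) * G.1 x) (μ := (xm N μ).restrict D)).symm
      rw [h3]
      congr 1
      funext x
      rw [star_mul', star_star, mul_comm])
    (by
      intro F hF
      rw [ebB_apply]
      exact eb_pos μ (h1 _ F.2).toFInv (h2 _ F.2) hD fun h => hF (Subtype.ext h))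
    T (fun i => T (b4J i)) 0 hadj hcomm (fun i j => hcomm _ _) (fun i => by rw [mul_zero, zero_mul]) (fun i => by rw [mul_zero, zero_mul])
  refine ⟨e, fun i j => ?_, fun S hS j => ?_, fun φ j => ?_⟩
  · rw [← e1 i j, ebB_apply]
  · obtain ⟨c, hc⟩ := e2 (Sum.inl ⟨S, hS⟩) j
    refine ⟨c, ?_⟩
    have h3 := congrArg Subtype.val hc
    exact h3
  · exact e2 (Sum.inr φ) j

/-- The sum of the spaces. -/
def b4V (N : ℕ) [NeZero N] (μ : Measure (GG n ℚ)) [μ.IsHaarMeasure] {m : ℕ} (s : Fin m → Fin n → ℂ) : Submodule ℂ (XX n N → ℂ) :=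
  ⨆ i, MXp N μ (s i)

section B4

variable [NeZero N] {μ : Measure (GG n ℚ)} [μ.IsHaarMeasure] {m : ℕ} {s : Fin m → Fin n → ℂ}

theorem b4_ind {p : (XX n N → ℂ) → Prop} (h : ∀ i, ∀ F ∈ MXp N μ (s i), p F) (h0 : p 0)
    (ha : ∀ F G : XX n N → ℂ, IsFm μ F → IsFm μ G → p F → p G → p (F + G)) {F : XX n N → ℂ} (hF : F ∈ b4V N μ s) : p F := by
  have h1 : IsFm μ F ∧ p F := by
    refine Submodule.iSup_induction (fun i => MXp N μ (s i)) (motive := fun F => IsFm μ F ∧ p F) hF ?_ ?_ ?_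
    · intro i F hF
      exact ⟨⟨hF.1, hF.2.1⟩, h i F hF⟩
    · exact ⟨fm_zero, h0⟩
    · intro F G hF hG
      exact ⟨fm_add hF.1 hG.1, ha F G hF.1 hG.1 hF.2 hG.2⟩
  exact h1.2

theorem b4_fm {F : XX n N → ℂ} (hF : F ∈ b4V N μ s) : IsFm μ F :=
  b4_ind (p := fun F => IsFm μ F) (fun _ _ hF => ⟨hF.1, hF.2.1⟩) fm_zero (fun _ _ _ _ hF hG => fm_add hF hG) hF

theorem b4_inv {F : XX n N → ℂ} (hF : F ∈ b4V N μ s) (κ : KG n N) (k : GG n ℚ) (hk : k.1 * k.1ᵀ = 1) (x : GG n ℚ) :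
    F (κ, x * k) = F (κ, x) := by
  refine b4_ind (p := fun F => F (κ, x * k) = F (κ, x)) ?_ rfl ?_ hF
  · intro i F hF
    exact (hF.2.2 κ).inv k hk x
  · intro F G _ _ hF hG
    show F (κ, x * k) + G (κ, x * k) = F (κ, x) + G (κ, x)
    rw [hF, hG]

theorem b4_ts (hn : 0 < n) {S : Set (HH n N)} (hS : BS (GH n N) S) {F : XX n N → ℂ} (hF : F ∈ b4V N μ s) : TS (GH n N) S F ∈ b4V N μ s := by
  refine b4_ind (p := fun F => TS (GH n N) S F ∈ b4V N μ s) ?_ ?_ ?_ hF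
  · intro i F hF
    exact Submodule.mem_iSup_of_mem i (mxp_ts hn hS hF)
  · have h1 := (ts_lin (S := S) (0 : XX n N → ℂ) 0 0).2
    rw [zero_smul, zero_smul] at h1
    rw [h1]
    exact Submodule.zero_mem _
  · intro F G _ _ hF hG
    rw [(ts_lin F G 0).1]
    exact Submodule.add_mem _ hF hG

theorem b4_rc (φ : B4K n) {F : XX n N → ℂ} (hF : F ∈ b4V N μ s) : RC μ φ.1 F ∈ b4V N μ s := by
  refine b4_ind (p := fun F => RC μ φ.1 F ∈ b4V N μ s) ?_ ?_ ?_ hF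
  · intro i F hF
    rw [mxp_rc hF φ.2.1 φ.2.2.1 φ.2.2.2]
    exact Submodule.mem_iSup_of_mem i (Submodule.smul_mem _ _ hF)
  · have h1 := (rc_lin (μ := μ) φ.2.1 φ.2.2.1 (F := (0 : XX n N → ℂ)) (G := 0) (fm_zero (μ := μ)).1.toFInv (fm_zero (μ := μ)).1.toFInv 0).2
    rw [zero_smul, zero_smul] at h1
    rw [h1]
    exact Submodule.zero_mem _
  · intro F G hF' hG' hF hG
    rw [(rc_lin φ.2.1 φ.2.2.1 hF'.1.toFInv hG'.1.toFInv 0).1]
    exact Submodule.add_mem _ hF hG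

theorem b4_rr (φ ψ : B4K n) {F : XX n N → ℂ} (hF : F ∈ b4V N μ s) : RC μ φ.1 (RC μ ψ.1 F) = RC μ ψ.1 (RC μ φ.1 F) := by
  have hz : ∀ φ : B4K n, RC μ φ.1 (0 : XX n N → ℂ) = 0 := by
    intro φ
    have h1 := (rc_lin (μ := μ) φ.2.1 φ.2.2.1 (F := (0 : XX n N → ℂ)) (G := 0) (fm_zero (μ := μ)).1.toFInv (fm_zero (μ := μ)).1.toFInv 0).2
    rw [zero_smul, zero_smul] at h1
    exact h1
  refine b4_ind (p := fun F => RC μ φ.1 (RC μ ψ.1 F) = RC μ ψ.1 (RC μ φ.1 F)) ?_ ?_ ?_ hF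
  · intro i F hF
    rw [mxp_rc hF φ.2.1 φ.2.2.1 φ.2.2.2, mxp_rc hF ψ.2.1 ψ.2.2.1 ψ.2.2.2,
      (rc_lin φ.2.1 φ.2.2.1 hF.1.toFInv hF.1.toFInv _).2, (rc_lin ψ.2.1 ψ.2.2.1 hF.1.toFInv hF.1.toFInv _).2,
      mxp_rc hF φ.2.1 φ.2.2.1 φ.2.2.2, mxp_rc hF ψ.2.1 ψ.2.2.1 ψ.2.2.2, smul_comm]
  · rw [hz, hz, hz]
  · intro F G hF' hG' hF hG
    rw [(rc_lin φ.2.1 φ.2.2.1 hF'.1.toFInv hG'.1.toFInv 0).1, (rc_lin ψ.2.1 ψ.2.2.1 hF'.1.toFInv hG'.1.toFInv 0).1,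
      (rc_lin φ.2.1 φ.2.2.1 (rc_fm ψ.2.1 ψ.2.2.1 hF').1.toFInv (rc_fm ψ.2.1 ψ.2.2.1 hG').1.toFInv 0).1,
      (rc_lin ψ.2.1 ψ.2.2.1 (rc_fm φ.2.1 φ.2.2.1 hF').1.toFInv (rc_fm φ.2.1 φ.2.2.1 hG').1.toFInv 0).1, hF, hG]

theorem b4_span : Submodule.span ℂ {F : b4V N μ s | ∃ i, F.1 ∈ MXp N μ (s i)} = ⊤ := by
  rw [eq_top_iff]
  rintro x -
  have h1 : ∃ y : b4V N μ s, y.1 = x.1 ∧ y ∈ Submodule.span ℂ {F : b4V N μ s | ∃ i, F.1 ∈ MXp N μ (s i)} := by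
    refine b4_ind (p := fun F => ∃ y : b4V N μ s, y.1 = F ∧ y ∈ Submodule.span ℂ {F : b4V N μ s | ∃ i, F.1 ∈ MXp N μ (s i)}) ?_ ?_ ?_ x.2
    · intro i F hF
      exact ⟨⟨F, Submodule.mem_iSup_of_mem i hF⟩, rfl, Submodule.subset_span ⟨i, hF⟩⟩
    · exact ⟨0, rfl, Submodule.zero_mem _⟩
    · rintro F G _ _ ⟨y, h1, h2⟩ ⟨z, h3, h4⟩
      exact ⟨y + z, by rw [Submodule.coe_add, h1, h3], Submodule.add_mem _ h2 h4⟩
  obtain ⟨y, h2, h3⟩ := h1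
  have h4 : y = x := Subtype.ext h2
  rw [← h4]
  exact h3

/-- Common eigenvectors of the convolution operators lie in one of the spaces. -/
theorem b4_sys (h1 : ∀ F ∈ b4V N μ s, FCusp F) (hR : ∀ φ : B4K n, ∀ F ∈ b4V N μ s, RC μ φ.1 F ∈ b4V N μ s) {x : b4V N μ s} (hx : x ≠ 0)
    (h : ∀ φ : B4K n, ∃ c : ℂ, b4R μ (b4V N μ s) h1 hR φ x = c • x) : ∃ i, x.1 ∈ MXp N μ (s i) := by
  classical
  have hch : ∀ F : b4V N μ s, ∃ c : B4K n → ℂ, (∃ i, F.1 ∈ MXp N μ (s i)) → ∃ i, F.1 ∈ MXp N μ (s i) ∧ ∀ φ : B4K n, c φ = ∫ y, hcf (s i) y * φ.1 y ∂μ := by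
    intro F
    by_cases hF : ∃ i, F.1 ∈ MXp N μ (s i)
    · obtain ⟨i, hi⟩ := hF
      exact ⟨fun φ => ∫ y, hcf (s i) y * φ.1 y ∂μ, fun _ => ⟨i, hi, fun _ => rfl⟩⟩
    · exact ⟨fun _ => 0, fun h => absurd h hF⟩
  choose c hc using hch
  choose d hd using h
  obtain ⟨v, hv, -, h3⟩ := hl_sys (V := b4V N μ s) (ι := B4K n) (b4R μ (b4V N μ s) h1 hR) b4_span c (by
      intro v hv φ
      obtain ⟨i, h4, h5⟩ := hc v hv
      apply Subtype.ext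
      rw [h5 φ]
      exact mxp_rc h4 φ.2.1 φ.2.2.1 φ.2.2.2) hx hd
  obtain ⟨i, -, h5⟩ := hc v hv
  refine ⟨i, (b4_fm x.2).1, (b4_fm x.2).2, fun κ => ⟨fun k hk y => b4_inv x.2 κ k hk y, fun φ hφ hφc hφk y => ?_⟩⟩
  have h6 := congrFun (congrArg Subtype.val (hd ⟨φ, hφ, hφc, hφk⟩)) (κ, y)
  rw [h3, h5] at h6
  exact h6

end B4

/-- PROOF. `V = ⨆ i, MXp N μ (s i)` is finite dimensional (`mxp_fd`), consists of square integrable cusp forms (`Submodule.iSup_induction` or: `V ≤` the submodule of such functions; finite sums: `bm_fcusp`, `bm_fl2`), is stable under the `TS (GH n N) S` (`mxp_ts`, linearity) and under `RC μ φ` for the bi-invariant `φ` (`mxp_rc`).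
`hl_basis` (`H33N.HL2`) for the form `ebB` (`H33N.BM4`) and the family of operators indexed by `{S // BS (GH n N) S} ⊕ {φ // Continuous φ ∧ HasCompactSupport φ ∧ BiK φ}`: `ebT` and `RC μ φ`, with the adjoints `ebT` of `{h | h⁻¹ ∈ S}` (as in the proof of `eb_sub`) and `RC μ (ast φ)` (`rc_adj`), `R = 0`;
they commute: `ts_comm` (see `eb_sub`); `RC μ φ` acts as a scalar on every `MXp N μ (s i)`, which is stable under all operators, and these subspaces span `V`. So there is an orthonormal basis `e j` of common eigenvectors. `hl_sys` (`H33N.HL1`) for the operators `RC μ φ` and the spanning set `⋃ MXp N μ (s i)`: for every `j` there is `i` with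
`RC μ φ (e j) = (∫ hcf (s i) φ) • e j` for all `φ`. Right invariance under `SO(n)` holds on `V`. So `e j ∈ MXp N μ (s i)`. -/
theorem bp_basis {k : ℕ} [NeZero N] (μ : Measure (GG (k + 1) ℚ)) [μ.IsHaarMeasure] {D : Set (XX (k + 1) N)} (hD : SF (⊤ : Subgroup (ZG (k + 1))) D) {m : ℕ}
    (s : Fin m → Fin (k + 1) → ℂ) :
    ∃ (e : Fin (Module.finrank ℂ (⨆ i, MXp (n := k + 1) N μ (s i) : Submodule ℂ (XX (k + 1) N → ℂ))) → XX (k + 1) N → ℂ)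
      (ix : Fin (Module.finrank ℂ (⨆ i, MXp (n := k + 1) N μ (s i) : Submodule ℂ (XX (k + 1) N → ℂ))) → Fin m),
      (∀ j, e j ∈ MXp N μ (s (ix j))) ∧ (∀ i j, ∫ x in D, star (e i x) * e j x ∂xm N μ = if i = j then 1 else 0) ∧
      ∀ S, BS (GH (k + 1) N) S → ∀ j, ∃ c : ℂ, TS (GH (k + 1) N) S (e j) = fun x => c * e j x := by
  haveI := fun i => mxp_fd (N := N) μ (s i)
  haveI : FiniteDimensional ℂ (b4V N μ s) := Submodule.finiteDimensional_iSup _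
  have h1 : ∀ F ∈ b4V N μ s, FCusp F := fun F hF => (b4_fm hF).1
  have hR : ∀ φ : B4K (k + 1), ∀ F ∈ b4V N μ s, RC μ φ.1 F ∈ b4V N μ s := fun φ F hF => b4_rc φ hF
  obtain ⟨e, e1, e2, e3⟩ := b4_sub μ (b4V N μ s) h1 (fun F hF => (b4_fm hF).2) (fun S hS F hF => b4_ts (Nat.succ_pos k) hS hF)
    hR (fun φ ψ F hF => b4_rr φ ψ hF) hD
  have h0 : ∀ j, e j ≠ 0 := by
    intro j h
    have h1 := e1 j j
    rw [if_pos rfl, h] at h1
    simp at h1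
  have hix : ∀ j, ∃ i, (e j).1 ∈ MXp N μ (s i) := fun j => b4_sys h1 hR (h0 j) fun φ => e3 φ j
  choose ix hix using hix
  exact ⟨fun j => (e j).1, ix, hix, e1, e2⟩

end

end Pool.Agent.Lib.H85A
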