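import Pool.Agent.Lib.H85A.B4
import Pool.Agent.Lib.H33N.BM6

/-!
# H85A, B5: **the orthonormal family**
-/

namespace Pool.Agent.Lib.H85A

open MeasureTheory Matrix NumberField IsDedekindDomain
open Pool.Agent.Lib.H89N Pool.Agent.Lib.H85S Pool.Agent.Lib.H33W Pool.Agent.Lib.H33N Pool.Agent.Lib.H85N
open scoped ENNReal

noncomputable section

variable {n k N : ℕ}

/-- PROOF. As `bm_family` (`H33N.BM6`): the lifts `lf N (f i)` are linearly independent (`lf_li`) elements of `V = ⨆ i, MXp N μ (s i)` (`mxp_lf`), so `m ≤ finrank V` (`V` is finite dimensional); `bp_basis`; `eb_L` gives `L`. -/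
theorem bp_family {k : ℕ} [NeZero N] {μ : Measure (GG (k + 1) ℚ)} [μ.IsHaarMeasure] {D : Set (XX (k + 1) N)} (hD : SF (⊤ : Subgroup (ZG (k + 1))) D) {m : ℕ}
    {f : Fin m → GG (k + 1) ℚ → ℂ} (hLI : LinearIndependent ℂ f) {s : Fin m → Fin (k + 1) → ℂ} (hM : ∀ i, MaassS (nI N) μ (s i) (f i)) :
    ∃ (r : ℕ) (e : Fin r → XX (k + 1) N → ℂ) (ix : Fin r → Fin m) (L : Fin r → ℕ → ℂ), m ≤ r ∧
      (∀ j, e j ∈ MXp N μ (s (ix j))) ∧ (∀ i j, ∫ x in D, star (e i x) * e j x ∂xm N μ = if i = j then 1 else 0) ∧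
      (∀ j, IsEig (L j) (e j)) ∧ ∀ j r', 0 < r' → r'.Coprime N → ‖L j r'‖ ≤ (r' : ℝ) ^ (2 * (k + 1)) := by
  have hN : 0 < N := Nat.pos_of_ne_zero (NeZero.ne N)
  haveI := fun i => mxp_fd (N := N) μ (s i)
  haveI : FiniteDimensional ℂ (⨆ i, MXp (n := k + 1) N μ (s i) : Submodule ℂ (XX (k + 1) N → ℂ)) := Submodule.finiteDimensional_iSup _
  obtain ⟨e, ix, h1, h2, h3⟩ := bp_basis μ hD s
  have hmem : ∀ i, lf N (f i) ∈ (⨆ i, MXp (n := k + 1) N μ (s i) : Submodule ℂ (XX (k + 1) N → ℂ)) := fun i =>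
    Submodule.mem_iSup_of_mem i (mxp_lf (hM i))
  have hli : LinearIndependent ℂ fun i => (⟨lf N (f i), hmem i⟩ : (⨆ i, MXp (n := k + 1) N μ (s i) : Submodule ℂ (XX (k + 1) N → ℂ))) := by
    have h5 := lf_li hN (fun i => (hM i).cusp.inv) hLI
    exact LinearIndependent.of_comp (⨆ i, MXp (n := k + 1) N μ (s i) : Submodule ℂ (XX (k + 1) N → ℂ)).subtype h5
  have hcard := hli.fintype_card_le_finrank
  rw [Fintype.card_fin] at hcard
  have h0 : ∀ j, e j ≠ 0 := by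
    intro j h
    have h4 := h2 j j
    rw [if_pos rfl, h] at h4
    simp at h4
  have hL : ∀ j, ∃ L : ℕ → ℂ, IsEig L (e j) ∧ ∀ r, 0 < r → r.Coprime N → ‖L r‖ ≤ (r : ℝ) ^ (2 * (k + 1)) := fun j =>
    eb_L (Nat.succ_pos k) μ (h1 j).1.toFInv (h1 j).2.1 (h0 j) fun S hS => h3 S hS j
  choose L hL1 hL2 using hL
  exact ⟨_, e, ix, L, hcard, h1, h2, hL1, hL2⟩

end

end Pool.Agent.Lib.H85A
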