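import Pool.Agent.Lib.H85A.ED
import Pool.Agent.Lib.H33N.E7

/-!
# H85A, E1: the extra factor `PY ^ η`
-/

namespace Pool.Agent.Lib.H85A

open Pool.Agent.Lib.H33N
open scoped ENNReal Classical

noncomputable section

theorem ea_one {R N η D j : ℝ} (hR : 0 < R) (hN : 0 < N) (hη : 0 ≤ η) (hj : 1 ≤ j) (hjη : j * η ≤ 1) (hD : 1 ≤ D) :
    R ^ (j * η) * (max 1 (N / R) ^ η * min 1 (N / (R * D))) ≤ N ^ (j * η) := by
  have hRp : 0 < R ^ (j * η) := Real.rpow_pos_of_pos hR _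
  have hm0 : 0 ≤ min 1 (N / (R * D)) := le_min zero_le_one (by positivity)
  rcases le_or_gt R N with h | h
  · have h1 : 1 ≤ N / R := (one_le_div hR).2 h
    rw [max_eq_right h1]
    have h2 : (N / R) ^ η ≤ (N / R) ^ (j * η) := Real.rpow_le_rpow_of_exponent_le h1 (by nlinarith)
    have h3 : (N / R) ^ η * min 1 (N / (R * D)) ≤ (N / R) ^ (j * η) * 1 :=
      mul_le_mul h2 (min_le_left _ _) hm0 (by positivity)
    calc R ^ (j * η) * ((N / R) ^ η * min 1 (N / (R * D))) ≤ R ^ (j * η) * ((N / R) ^ (j * η) * 1) :=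
          mul_le_mul_of_nonneg_left h3 hRp.le
      _ = N ^ (j * η) := by
          rw [mul_one, Real.div_rpow hN.le hR.le, mul_div_cancel₀ _ hRp.ne']
  · have h1 : N / R ≤ 1 := (div_le_one hR).2 h.le
    rw [max_eq_left h1, Real.one_rpow, one_mul]
    have h2 : min 1 (N / (R * D)) ≤ (N / R) ^ (j * η) := by
      calc min 1 (N / (R * D)) ≤ N / (R * D) := min_le_right _ _
        _ ≤ N / R := div_le_div_of_nonneg_left hN.le hR (by nlinarith)
        _ = (N / R) ^ (1 : ℝ) := (Real.rpow_one _).symm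
        _ ≤ (N / R) ^ (j * η) := Real.rpow_le_rpow_of_exponent_ge (by positivity) h1 hjη
    calc R ^ (j * η) * min 1 (N / (R * D)) ≤ R ^ (j * η) * (N / R) ^ (j * η) :=
          mul_le_mul_of_nonneg_left h2 hRp.le
      _ = N ^ (j * η) := by
          rw [Real.div_rpow hN.le hR.le, mul_div_cancel₀ _ hRp.ne']

/-- PROOF. Factor by factor, `R = 2^(t_l)`, `j = k - l ∈ [1, k]`, `|d_l| ≥ 1`: `R^(js) max(1,N/R)^η min(1,N/(R|d|)) ≤ N^(ηj) R^(j(s-η))`: i.e. `R^(jη) max(1,N/R)^η min(1,N/R) ≤ N^(jη)`. If `R ≤ N`: `R^(jη) (N/R)^η = R^((j-1)η) N^η ≤ N^(jη)`. If `R > N`: `R^(jη) N/R = N^(jη) (R/N)^(jη-1) ≤ N^(jη)` because `jη ≤ kη ≤ 1`.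
`∑_(l<k) (k - l) = k(k+1)/2` (`e4_fin`). -/
theorem ea_pt {k N : ℕ} (hN : 1 ≤ N) {s η : ℝ} (hη : 0 ≤ η) (hkη : (k : ℝ) * η ≤ 1) {d t : Fin k → ℤ} (hd : ∀ l, d l ≠ 0) :
    a0s s t * (PY N t ^ η * PX N d t) ≤ (N : ℝ) ^ (η * (k * (k + 1) / 2)) * a0s (s - η) t := by
  have hN0 : (0 : ℝ) < N := by exact_mod_cast hN
  have e1 : (N : ℝ) ^ (η * ((k : ℝ) * (k + 1) / 2)) = ∏ l : Fin k, (N : ℝ) ^ (((k - l : ℕ) : ℝ) * η) := by
    rw [← Real.rpow_sum_of_pos hN0, ← Finset.sum_mul, e4_fin, mul_comm]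
  have e2 : PY (N : ℝ) t ^ η = ∏ l : Fin k, max 1 ((N : ℝ) / (2 : ℝ) ^ t l) ^ η := by
    unfold PY
    exact (Real.finset_prod_rpow _ _ (fun l _ => le_trans zero_le_one (le_max_left _ _)) η).symm
  rw [e1, e2]
  unfold a0s PX
  rw [← Finset.prod_mul_distrib, ← Finset.prod_mul_distrib, ← Finset.prod_mul_distrib]
  refine Finset.prod_le_prod (fun l _ => ?_) (fun l _ => ?_)
  · have h1 : 0 ≤ min 1 ((N : ℝ) / ((2 : ℝ) ^ t l * |(d l : ℝ)|)) := le_min zero_le_one (by positivity)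
    positivity
  · have hR : (0 : ℝ) < (2 : ℝ) ^ t l := by positivity
    have hj1 : 1 ≤ ((k - l : ℕ) : ℝ) := by
      have := l.2
      exact_mod_cast (by omega : 1 ≤ k - (l : ℕ))
    have hjk : ((k - l : ℕ) : ℝ) ≤ k := by exact_mod_cast Nat.sub_le _ _
    have hD : 1 ≤ |(d l : ℝ)| := by
      have h1 : (1 : ℤ) ≤ |d l| := Int.one_le_abs (hd l)
      exact_mod_cast h1
    have h1 := ea_one (R := (2 : ℝ) ^ t l) (N := N) hR hN0 hη hj1 (by nlinarith) hD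
    have h2 : ((2 : ℝ) ^ t l) ^ (((k - l : ℕ) : ℝ) * s) =
        ((2 : ℝ) ^ t l) ^ (((k - l : ℕ) : ℝ) * (s - η)) * ((2 : ℝ) ^ t l) ^ (((k - l : ℕ) : ℝ) * η) := by
      rw [← Real.rpow_add hR]
      congr 1
      ring
    rw [h2, mul_assoc, mul_comm ((N : ℝ) ^ _)]
    exact mul_le_mul_of_nonneg_left h1 (by positivity)

theorem ea_PY {k : ℕ} (N : ℝ) (t : Fin k → ℤ) : 1 ≤ PY N t :=
  Finset.prod_induction _ (fun x => 1 ≤ x) (fun _ _ ha hb => one_le_mul_of_one_le_of_one_le ha hb) le_rfl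
    (fun _ _ => le_max_left _ _)

/-- PROOF. `ea_pt` and `e7_sum` with `s - η`, `T = N`: `N^(ηk(k+1)/2) N^((s-η)k(k+1)/2) N^ε = N^(s k(k+1)/2) N^ε`. -/
theorem ea_sum {k : ℕ} {s η : ℝ} (hη : 0 ≤ η) (hkη : (k : ℝ) * η ≤ 1) (hs : 1 < s - η) {c : ℕ} (hc : (k : ℝ) * s + 2 ≤ c) {ε : ℝ} (hε : 0 < ε) :
    ∃ C : ℝ, 1 ≤ C ∧ ∀ N : ℕ, 1 ≤ N → ∀ G : ℝ≥0∞,
    (∑' d : Fin k → ℤ, ∑' t : Fin k → ℤ, if (∀ i, IsD N (d i)) then
      ENNReal.ofReal (a0s s t) * (G * ENNReal.ofReal (PM N t * PY N t ^ η * PX N d t ^ c)) else 0) ≤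
      G * ENNReal.ofReal (C * (N : ℝ) ^ (s * (k * (k + 1) / 2)) * (N : ℝ) ^ ε) := by
  have hk0 : (0 : ℝ) ≤ k := Nat.cast_nonneg k
  have hc2 : (2 : ℝ) ≤ c := by nlinarith
  have hc1 : 1 ≤ c := by
    have : (1 : ℝ) ≤ c := by linarith
    exact_mod_cast this
  have hc' : (k : ℝ) * (s - η) + 1 ≤ ((c - 1 : ℕ) : ℝ) := by
    rw [Nat.cast_sub hc1, Nat.cast_one]
    nlinarith [mul_nonneg hk0 hη]
  obtain ⟨C, hC, h⟩ := e7_sum (k := k) hs hc' hε
  refine ⟨C, hC, fun N hN G => ?_⟩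
  have hN1 : (1 : ℝ) ≤ N := by exact_mod_cast hN
  have hN0 : (0 : ℝ) < N := by linarith
  have h1 := h N hN N hN1 G
  have h2 : ∀ d t : Fin k → ℤ, (if (∀ i, IsD N (d i)) then
      ENNReal.ofReal (a0s s t) * (G * ENNReal.ofReal (PM N t * PY N t ^ η * PX N d t ^ c)) else 0) ≤
      ENNReal.ofReal ((N : ℝ) ^ (η * (k * (k + 1) / 2))) * (if (∀ i, IsD N (d i)) then
      ENNReal.ofReal (a0s (s - η) t) * (G * ENNReal.ofReal (PM N t * PX N d t ^ (c - 1))) else 0) := by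
    intro d t
    split_ifs with hd
    · obtain ⟨p1, p2, p3, p4, p5⟩ := e6_pos hN0 s d t
      obtain ⟨_, _, _, q4, _⟩ := e6_pos hN0 (s - η) d t
      have hpt := ea_pt (s := s) hN hη hkη (d := d) (t := t) fun l => (hd l).1
      have hPY := ea_PY (N : ℝ) t
      have h3 : PM (N : ℝ) t * PY N t ^ η * PX N d t ^ c = (PM N t * PX N d t ^ (c - 1)) * (PY N t ^ η * PX N d t) := by
        have : PX (N : ℝ) d t ^ c = PX N d t ^ (c - 1) * PX N d t := by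
          rw [← pow_succ]
          congr 1
          omega
        rw [this]
        ring
      have h4 : a0s s t * (PM (N : ℝ) t * PY N t ^ η * PX N d t ^ c) ≤
          (N : ℝ) ^ (η * (k * (k + 1) / 2)) * (a0s (s - η) t * (PM N t * PX N d t ^ (c - 1))) := by
        rw [h3]
        have h5 : 0 ≤ PM (N : ℝ) t * PX N d t ^ (c - 1) := by positivity
        calc a0s s t * ((PM (N : ℝ) t * PX N d t ^ (c - 1)) * (PY N t ^ η * PX N d t))
            = (PM (N : ℝ) t * PX N d t ^ (c - 1)) * (a0s s t * (PY N t ^ η * PX N d t)) := by ring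
          _ ≤ (PM (N : ℝ) t * PX N d t ^ (c - 1)) * ((N : ℝ) ^ (η * (k * (k + 1) / 2)) * a0s (s - η) t) :=
              mul_le_mul_of_nonneg_left hpt h5
          _ = _ := by ring
      rw [mul_left_comm, ← ENNReal.ofReal_mul p4.le]
      calc G * ENNReal.ofReal (a0s s t * (PM (N : ℝ) t * PY N t ^ η * PX N d t ^ c))
          ≤ G * ENNReal.ofReal ((N : ℝ) ^ (η * (k * (k + 1) / 2)) * (a0s (s - η) t * (PM N t * PX N d t ^ (c - 1)))) :=
            mul_le_mul_right (ENNReal.ofReal_le_ofReal h4) _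
        _ = _ := by
            rw [ENNReal.ofReal_mul (by positivity), ENNReal.ofReal_mul q4.le]
            ring
    · simp
  calc (∑' d : Fin k → ℤ, ∑' t : Fin k → ℤ, if (∀ i, IsD N (d i)) then
      ENNReal.ofReal (a0s s t) * (G * ENNReal.ofReal (PM N t * PY N t ^ η * PX N d t ^ c)) else 0)
      ≤ ∑' d : Fin k → ℤ, ∑' t : Fin k → ℤ, ENNReal.ofReal ((N : ℝ) ^ (η * (k * (k + 1) / 2))) * (if (∀ i, IsD N (d i)) then
      ENNReal.ofReal (a0s (s - η) t) * (G * ENNReal.ofReal (PM N t * PX N d t ^ (c - 1))) else 0) :=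
        ENNReal.tsum_le_tsum fun d => ENNReal.tsum_le_tsum fun t => h2 d t
    _ = ENNReal.ofReal ((N : ℝ) ^ (η * (k * (k + 1) / 2))) * ∑' d : Fin k → ℤ, ∑' t : Fin k → ℤ, (if (∀ i, IsD N (d i)) then
      ENNReal.ofReal (a0s (s - η) t) * (G * ENNReal.ofReal (PM N t * PX N d t ^ (c - 1))) else 0) := by
        simp only [ENNReal.tsum_mul_left]
    _ ≤ ENNReal.ofReal ((N : ℝ) ^ (η * (k * (k + 1) / 2))) *
        (G * ENNReal.ofReal (C * (N : ℝ) ^ ((s - η) * (k * (k + 1) / 2)) * (N : ℝ) ^ ε)) := mul_le_mul_right h1 _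
    _ = G * ENNReal.ofReal (C * (N : ℝ) ^ (s * (k * (k + 1) / 2)) * (N : ℝ) ^ ε) := by
        rw [mul_left_comm, ← ENNReal.ofReal_mul (by positivity)]
        congr 2
        have h6 : (N : ℝ) ^ (s * (k * (k + 1) / 2)) = (N : ℝ) ^ (η * (k * (k + 1) / 2)) * (N : ℝ) ^ ((s - η) * (k * (k + 1) / 2)) := by
          rw [← Real.rpow_add hN0]
          congr 1
          ring
        rw [h6]
        ring

/-- PROOF. As `e7_top`, with `ea_sum`. -/
theorem ea7 {k : ℕ} {s η : ℝ} (hη : 0 ≤ η) (hkη : (k : ℝ) * η ≤ 1) (hs : 1 < s - η) {c : ℕ} (hc : (k : ℝ) * s + 2 ≤ c) {ε : ℝ} (hε : 0 < ε) :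
    ∃ C : ℝ, 1 ≤ C ∧ ∀ N : ℕ, 1 ≤ N → ∀ (m : ℕ) (H : Fin m → ℝ) (E : Fin m → ℝ≥0∞) (mass : Fin m → (Fin k → ℤ) → (Fin k → ℤ) → ℝ≥0∞) (Z G : ℝ≥0∞),
    (∀ i, E i ≤ Z * ∑' d : Fin k → ℤ, ∑' t : Fin k → ℤ, if (∀ j, IsD N (d j)) then ENNReal.ofReal (a0s s t) * mass i d t else 0) →
    (∀ d t : Fin k → ℤ, (∀ l, IsD N (d l)) → ∑ i, ENNReal.ofReal (H i) * mass i d t ≤ G * ENNReal.ofReal (PM N t * PY N t ^ η * PX N d t ^ (2 * c))) →
    ∑ i, ENNReal.ofReal (H i) * E i ≤ Z * G * ENNReal.ofReal (C * (N : ℝ) ^ (s * (k * (k + 1) / 2)) * (N : ℝ) ^ ε) := by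
  obtain ⟨C, hC, h⟩ := ea_sum (k := k) hη hkη hs hc hε
  refine ⟨C, hC, fun N hN m H E mass Z G h1 h2 => ?_⟩
  have hT0 : (0 : ℝ) < N := by exact_mod_cast hN
  have e1 : ∑ i, ENNReal.ofReal (H i) * E i ≤ ∑ i, ENNReal.ofReal (H i) *
      (Z * ∑' d : Fin k → ℤ, ∑' t : Fin k → ℤ, if (∀ j, IsD N (d j)) then
        ENNReal.ofReal (a0s s t) * mass i d t else 0) :=
    Finset.sum_le_sum fun i _ => mul_le_mul_right (h1 i) _
  have e2 : ∑ i, ENNReal.ofReal (H i) *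
      (Z * ∑' d : Fin k → ℤ, ∑' t : Fin k → ℤ, if (∀ j, IsD N (d j)) then
        ENNReal.ofReal (a0s s t) * mass i d t else 0) =
      Z * ∑' d : Fin k → ℤ, ∑' t : Fin k → ℤ, ∑ i, ENNReal.ofReal (H i) *
        (if (∀ j, IsD N (d j)) then ENNReal.ofReal (a0s s t) * mass i d t else 0) := by
    have e3 : ∀ i, ENNReal.ofReal (H i) *
        (Z * ∑' d : Fin k → ℤ, ∑' t : Fin k → ℤ, if (∀ j, IsD N (d j)) then
        ENNReal.ofReal (a0s s t) * mass i d t else 0) =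
        Z * ∑' d : Fin k → ℤ, ∑' t : Fin k → ℤ, ENNReal.ofReal (H i) *
        (if (∀ j, IsD N (d j)) then ENNReal.ofReal (a0s s t) * mass i d t else 0) := by
      intro i
      rw [mul_left_comm]
      simp only [ENNReal.tsum_mul_left]
    simp only [e3]
    rw [← Finset.mul_sum]
    congr 1
    rw [← Summable.tsum_finsetSum (fun i _ => ENNReal.summable)]
    refine tsum_congr fun d => ?_
    rw [← Summable.tsum_finsetSum (fun i _ => ENNReal.summable)]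
  rw [e2] at e1
  refine e1.trans ?_
  rw [mul_assoc]
  refine mul_le_mul_right ?_ _
  refine le_trans ?_ (h N hN G)
  refine ENNReal.tsum_le_tsum fun d => ENNReal.tsum_le_tsum fun t => ?_
  split_ifs with hd
  · obtain ⟨p1, p2, p3, p4, p5⟩ := e6_pos hT0 s d t
    have hPY := ea_PY (N : ℝ) t
    have e4 : ∑ i, ENNReal.ofReal (H i) * (ENNReal.ofReal (a0s s t) * mass i d t) =
        ENNReal.ofReal (a0s s t) * ∑ i, ENNReal.ofReal (H i) * mass i d t := by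
      rw [Finset.mul_sum]
      exact Finset.sum_congr rfl fun i _ => mul_left_comm _ _ _
    rw [e4]
    refine mul_le_mul_right ((h2 d t hd).trans (mul_le_mul_right (ENNReal.ofReal_le_ofReal ?_) _)) _
    refine mul_le_mul_of_nonneg_left ?_ (by positivity)
    exact pow_le_pow_of_le_one p2 p3 (by omega)
  · simp

end

end Pool.Agent.Lib.H85A
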