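import Pool.Agent.Lib.H85A.E1
import Pool.Agent.Lib.H33N.E8

/-!
# H85A, E2: one form
-/

namespace Pool.Agent.Lib.H85A

open Pool.Agent.Lib.H33N
open scoped ENNReal Classical

noncomputable section

/-- PROOF. As `e8_top` (`H33N.E8`): `e8_sqrt` with `x = mass d t`, `P = ofReal (PM N t)`, `R² = ofReal (PY ^ η * PX ^ (2c))`, so `R = ofReal (PY ^ (η/2) * PX ^ c) ≤ ofReal (PY ^ η * PX ^ c)` (`PY ≥ 1`); `ea_sum` instead of `e7_sum` (`ε = 1`, `T = N`). -/
theorem ea8 {k : ℕ} {s η : ℝ} (hη : 0 ≤ η) (hkη : (k : ℝ) * η ≤ 1) (hs : 1 < s - η) {c : ℕ} (hc : (k : ℝ) * s + 2 ≤ c) : ∃ C : ℝ, 1 ≤ C ∧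
    ∀ N : ℕ, 1 ≤ N → ∀ (D E : ℝ≥0∞) (mass : (Fin k → ℤ) → (Fin k → ℤ) → ℝ≥0∞) (Z C2 Q0 : ℝ), 1 ≤ Z → 1 ≤ C2 → 1 ≤ Q0 →
    ENNReal.ofReal (1 / 4) ≤ E → E ≠ ⊤ →
    (E ≤ ENNReal.ofReal Z * ∑' d : Fin k → ℤ, ∑' t : Fin k → ℤ, if (∀ j, IsD N (d j)) then ENNReal.ofReal (a0s s t) * mass d t else 0) →
    (∀ d t : Fin k → ℤ, (∀ l, IsD N (d l)) → D * mass d t ≤ ENNReal.ofReal (C2 * PM N t) * E) →
    (∀ d t : Fin k → ℤ, (∀ l, IsD N (d l)) → mass d t ≤ ENNReal.ofReal (Q0 * (PM N t * PY N t ^ η * PX N d t ^ (2 * c)))) →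
    D ≤ ENNReal.ofReal (4 * Z ^ 2 * C2 * Q0 * C ^ 2 * (N : ℝ) ^ (s * (k * (k + 1)) + 2)) := by
  obtain ⟨C, hC1, hC⟩ := ea_sum hη hkη hs hc one_pos
  refine ⟨C, hC1, ?_⟩
  intro N hN D E mass Z C2 Q0 hZ hC2 hQ0 hE hE' h1 h2 h3
  have hN1 : (1 : ℝ) ≤ N := by exact_mod_cast hN
  have hN0 : (0 : ℝ) < N := by linarith
  have hC0 : 0 ≤ C := by linarith
  obtain ⟨Y, hY⟩ : ∃ Y : ℝ, Y = C * (N : ℝ) ^ (s * (k * (k + 1) / 2)) * (N : ℝ) ^ (1 : ℝ) := ⟨_, rfl⟩
  have hY0 : 0 ≤ Y := by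
    rw [hY]
    positivity
  have key : D ^ (1 / 2 : ℝ) * E ≤ ENNReal.ofReal Z *
      ((ENNReal.ofReal C2 * E * ENNReal.ofReal Q0) ^ (1 / 2 : ℝ) * ENNReal.ofReal Y) := by
    calc D ^ (1 / 2 : ℝ) * E ≤ D ^ (1 / 2 : ℝ) * (ENNReal.ofReal Z *
          ∑' d : Fin k → ℤ, ∑' t : Fin k → ℤ, if (∀ j, IsD N (d j)) then ENNReal.ofReal (a0s s t) * mass d t else 0) :=
          mul_le_mul' le_rfl h1
      _ = ENNReal.ofReal Z * ∑' d : Fin k → ℤ, ∑' t : Fin k → ℤ, if (∀ j, IsD N (d j)) then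
            ENNReal.ofReal (a0s s t) * (D ^ (1 / 2 : ℝ) * mass d t) else 0 := by
          rw [mul_left_comm, ← ENNReal.tsum_mul_left]
          congr 1
          refine tsum_congr fun d => ?_
          rw [← ENNReal.tsum_mul_left]
          refine tsum_congr fun t => ?_
          split_ifs
          · ring
          · rw [mul_zero]
      _ ≤ ENNReal.ofReal Z * ∑' d : Fin k → ℤ, ∑' t : Fin k → ℤ, if (∀ j, IsD N (d j)) then
            ENNReal.ofReal (a0s s t) * ((ENNReal.ofReal C2 * E * ENNReal.ofReal Q0) ^ (1 / 2 : ℝ) *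
              ENNReal.ofReal (PM N t * PY N t ^ η * PX N d t ^ c)) else 0 := by
          refine mul_le_mul' le_rfl (ENNReal.tsum_le_tsum fun d => ENNReal.tsum_le_tsum fun t => ?_)
          split_ifs with hd
          · refine mul_le_mul' le_rfl ?_
            obtain ⟨hp1, hp2, hp3, hp4, hp5⟩ := e6_pos hN0 s d t
            have hy : 1 ≤ PY (N : ℝ) t := by
              unfold PY
              calc (1 : ℝ) = ∏ l : Fin k, 1 := by rw [Finset.prod_const_one]
                _ ≤ _ := Finset.prod_le_prod (fun _ _ => zero_le_one) fun _ _ => le_max_left _ _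
            have hy0 : 0 < PY (N : ℝ) t := by linarith
            have e3 : (PY (N : ℝ) t ^ (η / 2)) ^ 2 = PY (N : ℝ) t ^ η := by
              rw [← Real.rpow_natCast, ← Real.rpow_mul hy0.le]
              congr 1
              push_cast
              ring
            have e4 : PY (N : ℝ) t ^ (η / 2) ≤ PY (N : ℝ) t ^ η :=
              Real.rpow_le_rpow_of_exponent_le hy (by linarith)
            have e5 : 0 ≤ PY (N : ℝ) t ^ (η / 2) := Real.rpow_nonneg hy0.le _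
            have e1 : ENNReal.ofReal (PM N t * (PY N t ^ (η / 2) * PX N d t ^ c)) =
                ENNReal.ofReal (PM N t) * ENNReal.ofReal (PY N t ^ (η / 2) * PX N d t ^ c) :=
              ENNReal.ofReal_mul (by linarith)
            refine le_trans (b := (ENNReal.ofReal C2 * E * ENNReal.ofReal Q0) ^ (1 / 2 : ℝ) *
              ENNReal.ofReal (PM N t * (PY N t ^ (η / 2) * PX N d t ^ c))) ?_ ?_
            · rw [e1]
              refine e8_sqrt _ _ _ _ _ _ ?_ ?_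
              · refine (h2 d t hd).trans (le_of_eq ?_)
                rw [ENNReal.ofReal_mul (by linarith)]
                ring
              · refine (h3 d t hd).trans (le_of_eq ?_)
                have e6 : (PY (N : ℝ) t ^ (η / 2) * PX N d t ^ c) ^ 2 = PY N t ^ η * PX N d t ^ (2 * c) := by
                  rw [mul_pow, e3, ← pow_mul, mul_comm c 2]
                rw [← ENNReal.ofReal_pow (by positivity), e6, ENNReal.ofReal_mul (by linarith),
                  mul_assoc (PM (N : ℝ) t), ENNReal.ofReal_mul (by linarith)]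
            · refine mul_le_mul' le_rfl (ENNReal.ofReal_le_ofReal ?_)
              rw [mul_assoc]
              refine mul_le_mul_of_nonneg_left ?_ (by linarith)
              exact mul_le_mul_of_nonneg_right e4 (by positivity)
          · exact le_rfl
      _ ≤ _ := by
          rw [hY]
          exact mul_le_mul' le_rfl (hC N hN _)
  have hsq : ∀ y : ℝ≥0∞, (y ^ (1 / 2 : ℝ)) ^ 2 = y := by
    intro y
    rw [← ENNReal.rpow_natCast, ← ENNReal.rpow_mul]
    norm_num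
  have hE0 : E ≠ 0 := by
    intro h
    rw [h] at hE
    have h4 : ENNReal.ofReal (1 / 4) = 0 := le_antisymm hE zero_le
    rw [ENNReal.ofReal_eq_zero] at h4
    norm_num at h4
  have sq : D * E * E ≤ (ENNReal.ofReal Z ^ 2 * ENNReal.ofReal C2 * ENNReal.ofReal Q0 * ENNReal.ofReal Y ^ 2) * E := by
    calc D * E * E = (D ^ (1 / 2 : ℝ) * E) ^ 2 := by
          rw [mul_pow, hsq]
          ring
      _ ≤ (ENNReal.ofReal Z * ((ENNReal.ofReal C2 * E * ENNReal.ofReal Q0) ^ (1 / 2 : ℝ) * ENNReal.ofReal Y)) ^ 2 :=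
          pow_le_pow_left' key 2
      _ = _ := by
          rw [mul_pow, mul_pow, hsq]
          ring
  have h4 : D * E ≤ ENNReal.ofReal Z ^ 2 * ENNReal.ofReal C2 * ENNReal.ofReal Q0 * ENNReal.ofReal Y ^ 2 :=
    (ENNReal.mul_le_mul_iff_left hE0 hE').1 sq
  have h5 : ENNReal.ofReal Z ^ 2 * ENNReal.ofReal C2 * ENNReal.ofReal Q0 * ENNReal.ofReal Y ^ 2 =
      ENNReal.ofReal (Z ^ 2 * C2 * Q0 * Y ^ 2) := by
    rw [ENNReal.ofReal_mul (by positivity), ENNReal.ofReal_mul (by positivity), ENNReal.ofReal_mul (by positivity),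
      ENNReal.ofReal_pow (by positivity), ENNReal.ofReal_pow (by positivity)]
  rw [h5] at h4
  have h6 : D ≤ ENNReal.ofReal 4 * ENNReal.ofReal (Z ^ 2 * C2 * Q0 * Y ^ 2) := by
    calc D = ENNReal.ofReal 4 * (D * ENNReal.ofReal (1 / 4)) := by
          rw [mul_left_comm, ← ENNReal.ofReal_mul (by norm_num)]
          norm_num
      _ ≤ ENNReal.ofReal 4 * (D * E) := mul_le_mul' le_rfl (mul_le_mul' le_rfl hE)
      _ ≤ _ := mul_le_mul' le_rfl h4
  refine h6.trans ?_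
  rw [← ENNReal.ofReal_mul (by norm_num)]
  refine ENNReal.ofReal_le_ofReal (le_of_eq ?_)
  have h7 : Y ^ 2 = C ^ 2 * (N : ℝ) ^ (s * (k * (k + 1))) * (N : ℝ) ^ 2 := by
    have h8 : ((N : ℝ) ^ (s * (k * (k + 1) / 2))) ^ 2 = (N : ℝ) ^ (s * ((k : ℝ) * (k + 1))) := by
      rw [← Real.rpow_natCast ((N : ℝ) ^ (s * (k * (k + 1) / 2))), ← Real.rpow_mul hN0.le]
      congr 1
      push_cast
      ring
    rw [hY, Real.rpow_one, mul_pow, mul_pow, h8]
  have h9 : (N : ℝ) ^ (s * ((k : ℝ) * (k + 1)) + 2) = (N : ℝ) ^ (s * ((k : ℝ) * (k + 1))) * (N : ℝ) ^ 2 := by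
    rw [Real.rpow_add hN0]
    norm_num
  rw [h7, h9]
  ring

end

end Pool.Agent.Lib.H85A
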