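import Pool.Agent.Lib.H85A.E2
import Pool.Agent.Lib.H33N.E9

/-!
# H85A, E3: the polynomial bound for `DD (1 + ε)`
-/

namespace Pool.Agent.Lib.H85A

open Pool.Agent.Lib.H33N
open scoped ENNReal Classical

noncomputable section

/-- PROOF. As `e9_top` (`H33N.E9`) with `δ = 1`, `T = N`: `ea8` with `s = s0`, `D = DD (1 + ε)`, `Z = C1^s0 * C0`, `Q0 = C3 N^(k(k+3)/2)` (field `ms`), and `e5_box`, `e6_u` for the second hypothesis (field `m2`). -/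
theorem ea9 {k : ℕ} (hk : 1 ≤ k) {s0 C0 ε η : ℝ} (hη : 0 ≤ η) (hkη : (k : ℝ) * η ≤ 1) (hs : 1 < s0 - η) (hC0 : 1 ≤ C0) {c : ℕ} (hc : (k : ℝ) * s0 + 2 ≤ c) (hε : 0 < ε)
    (B C1 C2 C3 : ℝ) (hC1 : 1 ≤ C1) (hC2 : 1 ≤ C2) (hC3 : 1 ≤ C3) :
    ∃ C a : ℝ, 1 ≤ C ∧ 0 ≤ a ∧ ∀ (N : ℕ) (m : ℕ) (L : Fin m → ℕ → ℂ) (A : Fin m → (Fin (k + 1) → ℕ) → ℂ)
      (H : Fin m → ℝ) (E : Fin m → ℝ≥0∞) (mass : Fin m → (Fin k → ℤ) → (Fin k → ℤ) → ℝ≥0∞), 1 ≤ N →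
      FamA k N c η B C1 C2 C3 m L A H E mass → (∀ i, DD (k + 1) N (A i) s0 ≤ ENNReal.ofReal C0) →
      ∀ i, DD (k + 1) N (A i) (1 + ε) ≤ ENNReal.ofReal (C * (N : ℝ) ^ a) := by
  obtain ⟨C8, hC8, h8⟩ := ea8 (k := k) hη hkη hs hc
  obtain ⟨C5, hC5, h5⟩ := e5_box (n := k + 1) (s := 1 + ε) (by linarith)
  have hs' : 1 < s0 := by linarith
  have hZ : 1 ≤ C1 ^ s0 * C0 := one_le_mul_of_one_le_of_one_le (Real.one_le_rpow hC1 (by linarith)) hC0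
  have hC2' : 1 ≤ C5 * 2 ^ k * C2 := one_le_mul_of_one_le_of_one_le
    (one_le_mul_of_one_le_of_one_le hC5 (one_le_pow₀ one_le_two)) hC2
  have hC8' : 1 ≤ C8 ^ 2 := one_le_pow₀ hC8
  have hZ' : 1 ≤ (C1 ^ s0 * C0) ^ 2 := one_le_pow₀ hZ
  refine ⟨4 * (C1 ^ s0 * C0) ^ 2 * (C5 * 2 ^ k * C2) * C3 * C8 ^ 2, ((k * (k + 3) / 2 : ℕ) : ℝ) + (s0 * (k * (k + 1)) + 2), ?_, ?_, ?_⟩
  · refine one_le_mul_of_one_le_of_one_le (one_le_mul_of_one_le_of_one_le (one_le_mul_of_one_le_of_one_le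
      (one_le_mul_of_one_le_of_one_le (by norm_num) hZ') hC2') (by linarith)) hC8'
  · positivity
  · intro N m L A H E mass hN hF hD0 i
    have hN1 : (1 : ℝ) ≤ N := by exact_mod_cast hN
    have hN0 : (0 : ℝ) < N := by linarith
    have hQ : 1 ≤ C3 * (N : ℝ) ^ (k * (k + 3) / 2) :=
      one_le_mul_of_one_le_of_one_le hC3 (one_le_pow₀ hN1)
    have g1 : E i ≤ ENNReal.ofReal (C1 ^ s0 * C0) *
        ∑' d : Fin k → ℤ, ∑' t : Fin k → ℤ, if (∀ j, IsD N (d j)) then ENNReal.ofReal (a0s s0 t) * mass i d t else 0 := by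
      refine (hF.m1 i s0 hs').trans ?_
      rw [ENNReal.ofReal_mul (by positivity)]
      exact mul_le_mul' (mul_le_mul' le_rfl (hD0 i)) le_rfl
    have g2 : ∀ d t : Fin k → ℤ, (∀ l, IsD N (d l)) → DD (k + 1) N (A i) (1 + ε) * mass i d t ≤
        ENNReal.ofReal (C5 * 2 ^ k * C2 * PM (N : ℝ) t) * E i := by
      intro d t hd
      obtain ⟨p1, -, -, -, p5⟩ := e6_pos hN0 1 d t
      have k1 := h5 N (A i) (mass i d t) (ENNReal.ofReal C2 * E i) (uu t) (fun j => (p5 j).le) (fun b => by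
        refine (hF.m2 i d t hd b).trans (le_of_eq ?_)
        rw [ENNReal.ofReal_mul (by linarith), ← mul_assoc, mul_comm (ENNReal.ofReal C2)])
      refine k1.trans ?_
      rw [← mul_assoc, ← ENNReal.ofReal_mul' (by linarith)]
      refine mul_le_mul' (ENNReal.ofReal_le_ofReal ?_) le_rfl
      calc C5 * (∏ j ∈ Finset.univ.filter (fun j : Fin (k + 1) => (j : ℕ) ≠ 0), (1 + uu t j)) * C2
          ≤ C5 * (2 ^ k * PM (N : ℝ) t) * C2 :=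
            mul_le_mul_of_nonneg_right (mul_le_mul_of_nonneg_left (e6_u hN1 t) (by linarith)) (by linarith)
        _ = _ := by ring
    have g4 := h8 N hN (DD (k + 1) N (A i) (1 + ε)) (E i) (mass i) (C1 ^ s0 * C0) (C5 * 2 ^ k * C2)
      (C3 * (N : ℝ) ^ (k * (k + 3) / 2)) hZ hC2' hQ (hF.lo i) (hF.fin i) g1 g2 (fun d t hd => hF.ms i d t hd)
    refine g4.trans (ENNReal.ofReal_le_ofReal (le_of_eq ?_))
    rw [Real.rpow_add hN0 ((k * (k + 3) / 2 : ℕ) : ℝ), Real.rpow_natCast]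
    ring

end

end Pool.Agent.Lib.H85A
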