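import Pool.Agent.Lib.H85A.E3
import Pool.Agent.Lib.H33N.E11

/-!
# H85A, E4: **the sum of the `H i`**
-/

namespace Pool.Agent.Lib.H85A

open Pool.Agent.Lib.H33N
open scoped ENNReal Classical

noncomputable section

/-- the final estimate in the real numbers -/
theorem e4_num {k : ℕ} {N : ℕ} (hN : 1 ≤ N) {ε e : ℝ}
    (he : 5 * e * ((k : ℝ) * (k + 1) / 2) ≤ ε / 3) {Z D G : ℝ} (hZ : 0 ≤ Z) (hD : 0 ≤ D) (hG : 0 ≤ G) :
    (Z * (N : ℝ) ^ (ε / 3)) * (D * (N : ℝ) ^ (k * (k + 3) / 2)) *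
      (G * (N : ℝ) ^ ((1 + 5 * e) * ((k : ℝ) * (k + 1) / 2)) * (N : ℝ) ^ (ε / 3)) ≤
      Z * D * G * (N : ℝ) ^ ((k : ℝ) * (k + 2) + ε) := by
  obtain ⟨p, r, h1, h2, h3, h4⟩ := e10_exp k
  have hN1 : (1 : ℝ) ≤ N := by exact_mod_cast hN
  have hN0 : (0 : ℝ) < N := by linarith
  have h6 : (N : ℝ) ^ ((1 + 5 * e) * ((k : ℝ) * (k + 1) / 2)) ≤ (N : ℝ) ^ (p : ℝ) * (N : ℝ) ^ (ε / 3) := by
    have h7 : (1 + 5 * e) * ((k : ℝ) * (k + 1) / 2) = p + 5 * e * ((k : ℝ) * (k + 1) / 2) := by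
      rw [h4]
      ring
    rw [h7, Real.rpow_add hN0]
    exact mul_le_mul_of_nonneg_left (Real.rpow_le_rpow_of_exponent_le hN1 he) (by positivity)
  have h8 : (N : ℝ) ^ ((k : ℝ) * (k + 2) + ε) = (N : ℝ) ^ r * (N : ℝ) ^ (p : ℝ) *
      ((N : ℝ) ^ (ε / 3) * (N : ℝ) ^ (ε / 3) * (N : ℝ) ^ (ε / 3)) := by
    rw [← Real.rpow_natCast (N : ℝ) r, ← Real.rpow_add hN0, ← Real.rpow_add hN0, ← Real.rpow_add hN0, ← Real.rpow_add hN0]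
    congr 1
    have h9 : ((p : ℝ) + r) = k * (k + 2) := by exact_mod_cast h3
    rw [← h9]
    ring
  rw [h1, h8]
  have h10 : 0 ≤ (N : ℝ) ^ (ε / 3) := by positivity
  calc (Z * (N : ℝ) ^ (ε / 3)) * (D * (N : ℝ) ^ r) *
      (G * (N : ℝ) ^ ((1 + 5 * e) * ((k : ℝ) * (k + 1) / 2)) * (N : ℝ) ^ (ε / 3))
      ≤ (Z * (N : ℝ) ^ (ε / 3)) * (D * (N : ℝ) ^ r) *
      (G * ((N : ℝ) ^ (p : ℝ) * (N : ℝ) ^ (ε / 3)) * (N : ℝ) ^ (ε / 3)) := by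
        refine mul_le_mul_of_nonneg_left ?_ (by positivity)
        exact mul_le_mul_of_nonneg_right (mul_le_mul_of_nonneg_left h6 hG) h10
    _ = _ := by ring

theorem e4_top {k : ℕ} (hk : 1 ≤ k) {s0 C0 ε e η : ℝ} (hs : 3 ≤ s0) (hC0 : 1 ≤ C0) {c : ℕ} (hc : (k : ℝ) * s0 + 2 ≤ c) (hε : 0 < ε)
    (he0 : 0 < e) (he1 : 5 * e ≤ 1) (he2 : 5 * e * ((k : ℝ) * (k + 1) / 2) ≤ ε / 3) (hη : 0 ≤ η) (hkη : (k : ℝ) * η ≤ 1) (hηe : η < 5 * e) (B C1 C2 C3 : ℝ)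
    (hC1 : 1 ≤ C1) (hC2 : 1 ≤ C2) (hC3 : 1 ≤ C3) :
    ∃ C : ℝ, 1 ≤ C ∧ ∀ (N : ℕ) (m : ℕ) (L : Fin m → ℕ → ℂ) (A : Fin m → (Fin (k + 1) → ℕ) → ℂ)
      (H : Fin m → ℝ) (E : Fin m → ℝ≥0∞) (mass : Fin m → (Fin k → ℤ) → (Fin k → ℤ) → ℝ≥0∞), 1 ≤ N →
      FamA k N c η B C1 C2 C3 m L A H E mass → (∀ i, DD (k + 1) N (A i) s0 ≤ ENNReal.ofReal C0) →
      ∑ i, H i ≤ C * (N : ℝ) ^ ((k : ℝ) * (k + 2) + ε) := by
  have hs1 : 1 < s0 - η := by linarith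
  obtain ⟨C, a, hC, ha, h9⟩ := ea9 hk hη hkη hs1 hC0 hc he0 B C1 C2 C3 hC1 hC2 hC3
  have hη' : 0 < ε / (3 * (a + 1)) := by positivity
  obtain ⟨C', hC', hst⟩ := s_top (n := k + 1) (by omega) he0 hη'
  have hc' : (k : ℝ) * (1 + 5 * e) + 2 ≤ c := by
    have hk0 : (0 : ℝ) ≤ k := by positivity
    nlinarith
  obtain ⟨C'', hC'', h7⟩ := ea7 (s := 1 + 5 * e) hη hkη (by linarith) hc' (by positivity : 0 < ε / 3)
  have hC0' : 0 < C := by linarith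
  have hZ1 : 1 ≤ C1 ^ (1 + 5 * e) := Real.one_le_rpow hC1 (by linarith)
  have hZ2 : 1 ≤ C ^ (ε / (3 * (a + 1))) := Real.one_le_rpow hC hη'.le
  obtain ⟨Z, hZ⟩ : ∃ Z : ℝ, Z = C1 ^ (1 + 5 * e) * (C' * C ^ (ε / (3 * (a + 1)))) := ⟨_, rfl⟩
  have hZ3 : 1 ≤ Z := by
    rw [hZ]
    exact one_le_mul_of_one_le_of_one_le hZ1 (one_le_mul_of_one_le_of_one_le hC' hZ2)
  refine ⟨4 * (Z * C3 * C''), ?_, ?_⟩
  · have h1 : 1 ≤ Z * C3 * C'' :=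
      one_le_mul_of_one_le_of_one_le (one_le_mul_of_one_le_of_one_le hZ3 hC3) hC''
    linarith
  · intro N m L A H E mass hN hF hDD
    have hN1 : (1 : ℝ) ≤ N := by exact_mod_cast hN
    have hN0 : (0 : ℝ) < N := by linarith
    have hD5 : ∀ i, DD (k + 1) N (A i) (1 + 5 * e) ≤
        ENNReal.ofReal (C' * C ^ (ε / (3 * (a + 1))) * (N : ℝ) ^ (ε / 3)) := by
      intro i
      have h1 := hst N (L i) (A i) (hF.sys i) (C * (N : ℝ) ^ a)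
        (one_le_mul_of_one_le_of_one_le hC (Real.one_le_rpow hN1 ha))
        (h9 N m L A H E mass hN hF hDD i)
      refine h1.trans (ENNReal.ofReal_le_ofReal ?_)
      rw [mul_assoc, Real.mul_rpow hC0'.le (by positivity), ← Real.rpow_mul hN0.le]
      refine mul_le_mul_of_nonneg_left (mul_le_mul_of_nonneg_left ?_ (by positivity)) (by linarith)
      refine Real.rpow_le_rpow_of_exponent_le hN1 ?_
      rw [mul_div_assoc', div_le_div_iff₀ (by positivity) (by norm_num)]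
      nlinarith
    have h10 := h7 N hN m H E mass
      (ENNReal.ofReal (Z * (N : ℝ) ^ (ε / 3)))
      (ENNReal.ofReal (C3 * (N : ℝ) ^ (k * (k + 3) / 2))) (fun i => by
        refine (hF.m1 i (1 + 5 * e) (by linarith)).trans ?_
        refine mul_le_mul' ?_ le_rfl
        refine (mul_le_mul' le_rfl (hD5 i)).trans ?_
        rw [← ENNReal.ofReal_mul (by positivity), hZ]
        refine ENNReal.ofReal_le_ofReal (le_of_eq ?_)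
        ring) (fun d t hd => by
        refine (hF.m3 d t hd).trans (le_of_eq ?_)
        rw [← ENNReal.ofReal_mul (by positivity)])
    have h11 : ENNReal.ofReal ((1 / 4) * ∑ i, H i) ≤ ENNReal.ofReal (Z * C3 * C'' *
        (N : ℝ) ^ ((k : ℝ) * (k + 2) + ε)) := by
      calc ENNReal.ofReal ((1 / 4) * ∑ i, H i) = ∑ i, ENNReal.ofReal (H i) * ENNReal.ofReal (1 / 4) := by
            rw [ENNReal.ofReal_mul (by norm_num), ENNReal.ofReal_sum_of_nonneg (fun i _ => hF.hn i), Finset.mul_sum]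
            exact Finset.sum_congr rfl fun i _ => mul_comm _ _
        _ ≤ ∑ i, ENNReal.ofReal (H i) * E i := Finset.sum_le_sum fun i _ => mul_le_mul' le_rfl (hF.lo i)
        _ ≤ _ := h10
        _ = ENNReal.ofReal ((Z * (N : ℝ) ^ (ε / 3)) * (C3 * (N : ℝ) ^ (k * (k + 3) / 2)) *
            (C'' * (N : ℝ) ^ ((1 + 5 * e) * ((k : ℝ) * (k + 1) / 2)) * (N : ℝ) ^ (ε / 3))) := by
            rw [← ENNReal.ofReal_mul (by positivity), ← ENNReal.ofReal_mul (by positivity)]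
        _ ≤ _ := ENNReal.ofReal_le_ofReal (e4_num hN he2 (by linarith) (by linarith) (by linarith))
    rw [ENNReal.ofReal_le_ofReal_iff (by positivity)] at h11
    linarith

/-- PROOF. As `e10_top` and `e_top` (`H33N.E10`, `H33N.E11`) with `δ = 1`, `T = N`. `s0 ≥ 3` and `C0` from `s_triv` (`n = k + 1`), `c ≥ k s0 + 2`. Given `ε`: `e` with `0 < e`, `5 e ≤ 1`, `5 e k(k+1)/2 ≤ ε/3` (`e10_eps`), `s = 1 + 5 e`, `η = min (1/k) e`-small (`k η ≤ 1`, `1 < s - η`).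
`ea9` (with `ε = e`) and `s_top` of `H33N` (see how `e10_top` uses it): `DD (1 + 5e) ≤ C N^(ε/3)`; `ea7` with this `s`, exponent `ε/3`, `Z = ofReal (C1^s C' N^(ε/3))`, `G = ofReal (C3 N^(k(k+3)/2))`: `∑ H_i E_i ≤ C'' N^(k(k+3)/2) N^((1+5e) k(k+1)/2) N^(2ε/3) ≤ C'' N^(k(k+2) + ε)` (`e10_exp`, `e10_num`), `E_i ≥ 1/4`. -/
theorem ea_top {k : ℕ} (hk : 1 ≤ k) (B : ℝ) (hB : 0 ≤ B) : ∃ c : ℕ, ∀ ε : ℝ, 0 < ε → ∃ η : ℝ, 0 < η ∧ ∀ C1 C2 C3 : ℝ, 1 ≤ C1 → 1 ≤ C2 → 1 ≤ C3 → ∃ C : ℝ, 1 ≤ C ∧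
    ∀ (N : ℕ) (m : ℕ) (L : Fin m → ℕ → ℂ) (A : Fin m → (Fin (k + 1) → ℕ) → ℂ)
      (H : Fin m → ℝ) (E : Fin m → ℝ≥0∞) (mass : Fin m → (Fin k → ℤ) → (Fin k → ℤ) → ℝ≥0∞), 1 ≤ N →
      FamA k N c η B C1 C2 C3 m L A H E mass → ∑ i, H i ≤ C * (N : ℝ) ^ ((k : ℝ) * (k + 2) + ε) := by
  obtain ⟨s0, C0, hs0, hC0, htriv⟩ := s_triv (n := k + 1) (by omega) B hB
  refine ⟨⌈(k : ℝ) * s0 + 2⌉₊, ?_⟩
  intro ε hε
  obtain ⟨e, he0, he1, he2⟩ := e10_eps hk hε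
  have hk1 : (1 : ℝ) ≤ k := by exact_mod_cast hk
  have hk0 : (0 : ℝ) < k := by linarith
  refine ⟨e / k, by positivity, ?_⟩
  intro C1 C2 C3 hC1 hC2 hC3
  have h1 : (k : ℝ) * (e / k) ≤ 1 := by
    rw [mul_div_cancel₀ _ hk0.ne']
    linarith
  have h2 : e / k < 5 * e := by
    rw [div_lt_iff₀ hk0]
    nlinarith
  obtain ⟨C, hC, h10⟩ := e4_top hk hs0 hC0 (Nat.le_ceil _) hε he0 he1 he2 (by positivity) h1 h2 B C1 C2 C3 hC1 hC2 hC3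
  refine ⟨C, hC, ?_⟩
  intro N m L A H E mass hN hF
  exact h10 N m L A H E mass hN hF (fun i => htriv N (L i) (A i) (hF.sys i) (hF.triv i))

end

end Pool.Agent.Lib.H85A
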