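import Pool.Agent.Lib.H33N.ED

/-!
# H85A, ED: definitions of module E (the end of the proof: pure analysis; adapted from `H33N.E7` - `H33N.E11`)
-/

namespace Pool.Agent.Lib.H85A

open Pool.Agent.Lib.H33N
open scoped ENNReal Classical

noncomputable section

/-- `∏_l max(1, N / 2^(t_l))`. -/
def PY {k : ℕ} (N : ℝ) (t : Fin k → ℤ) : ℝ := ∏ l : Fin k, max 1 (N / (2 : ℝ) ^ t l)

/-- The data at the end of the proof: `m` forms with Hecke eigenvalues `L i r`, coefficients `A i`, `H i = |HX y (s i)|²`, norms `E i`, and the masses of the Whittaker coefficients in the cells. -/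
structure FamA (k N : ℕ) (c : ℕ) (η B C1 C2 C3 : ℝ) (m : ℕ) (L : Fin m → ℕ → ℂ) (A : Fin m → (Fin (k + 1) → ℕ) → ℂ)
    (H : Fin m → ℝ) (E : Fin m → ℝ≥0∞) (mass : Fin m → (Fin k → ℤ) → (Fin k → ℤ) → ℝ≥0∞) : Prop where
  sys : ∀ i, Sys (k + 1) N (L i) (A i)
  triv : ∀ i r, 0 < r → r.Coprime N → ‖L i r‖ ≤ (r : ℝ) ^ B
  lo : ∀ i, ENNReal.ofReal (1 / 4) ≤ E i
  fin : ∀ i, E i ≠ ⊤
  hn : ∀ i, 0 ≤ H i
  m1 : ∀ i (s : ℝ), 1 < s → E i ≤ ENNReal.ofReal (C1 ^ s) * DD (k + 1) N (A i) s *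
    ∑' d : Fin k → ℤ, ∑' t : Fin k → ℤ, if (∀ j, IsD N (d j)) then ENNReal.ofReal (a0s s t) * mass i d t else 0
  m2 : ∀ i d t, (∀ j, IsD N (d j)) → ∀ b : Fin (k + 1) → ℕ,
    (∑' l : Fin (k + 1) → ℕ, if (IsCh (k + 1) N l ∧ ∀ i : Fin (k + 1), (i : ℕ) = 0 → l i = 1) ∧ InBox b l then wA (k + 1) (A i) 0 l else 0) *
      mass i d t ≤ ENNReal.ofReal (C2 * ∏ j ∈ Finset.univ.filter (fun j : Fin (k + 1) => (j : ℕ) ≠ 0), (1 + 2 ^ b j * uu t j)) * E i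
  ms : ∀ i (d t : Fin k → ℤ), (∀ l, IsD N (d l)) → mass i d t ≤
    ENNReal.ofReal (C3 * (N : ℝ) ^ (k * (k + 3) / 2) * (PM N t * PY N t ^ η * PX N d t ^ (2 * c)))
  m3 : ∀ (d t : Fin k → ℤ), (∀ l, IsD N (d l)) → ∑ i, ENNReal.ofReal (H i) * mass i d t ≤
    ENNReal.ofReal (C3 * (N : ℝ) ^ (k * (k + 3) / 2) * (PM N t * PY N t ^ η * PX N d t ^ (2 * c)))

end

end Pool.Agent.Lib.H85A
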