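import Pool.Agent.Lib.H85A.Q7
import Pool.Agent.Lib.H85A.A8
import Pool.Agent.Lib.H85A.E4
import Pool.Agent.Lib.H85A.B5
import Pool.Agent.Lib.H33N.FM
import Pool.Agent.Lib.H33N.BM7

/-!
# H85A, F1: **the sum of `|HX y (s_i)|²` over an orthonormal family**
-/

namespace Pool.Agent.Lib.H85A

open MeasureTheory Matrix NumberField IsDedekindDomain
open Pool.Agent.Lib.H89N Pool.Agent.Lib.H85S Pool.Agent.Lib.H33W Pool.Agent.Lib.H33N
open scoped ENNReal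

noncomputable section

variable {n k : ℕ}

/-- The amplifier: for a form with parameter `s` one of the numbers `y_r` does it. -/
theorem f1_amp (k : ℕ) {T : ℝ} (hT : 0 ≤ T) : ∃ c0 Y : ℝ, 0 < c0 ∧ 1 ≤ Y ∧ ∀ s : Fin (k + 1) → ℂ, ∑ j, s j = 0 → (∀ j, ‖s j‖ ≤ T) →
    ∃ y : ℝ, 0 < y ∧ (y ^ (k + 1))⁻¹ ≤ Y ∧ c0 ≤ ‖HX y s‖ := by
  obtain ⟨h, c, L0, hh, hc, hamp⟩ := amp_hx k T hT
  refine ⟨c, Real.exp (max L0 0 + k * h), hc, ?_, fun s hs hsT => ?_⟩
  · rw [← Real.exp_zero]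
    refine Real.exp_le_exp.2 ?_
    have := le_max_right L0 0
    positivity
  · obtain ⟨j0, -, hj0⟩ := Finset.exists_max_image (Finset.univ : Finset (Fin (k + 1))) (fun j => (s j).re) Finset.univ_nonempty
    have hj0' : ∀ j, (s j).re ≤ (s j0).re := fun j => hj0 j (Finset.mem_univ j)
    obtain ⟨r, hr, hle⟩ := hamp s hs hsT j0 hj0' (max L0 0) (le_max_left _ _)
    have hre : 0 ≤ (s j0).re := by
      by_contra hlt
      push Not at hlt
      have h1 : ∑ j, (s j).re = 0 := by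
        have := congrArg Complex.re hs
        simpa using this
      have h2 : ∑ j, (s j).re ≤ ∑ _j : Fin (k + 1), (s j0).re := Finset.sum_le_sum fun j _ => hj0' j
      rw [h1, Finset.sum_const, Finset.card_univ, Fintype.card_fin, nsmul_eq_mul] at h2
      have h3 : (0 : ℝ) < ((k + 1 : ℕ) : ℝ) := by positivity
      nlinarith
    refine ⟨Real.exp (-(max L0 0 + r * h) / ((k : ℝ) + 1)), Real.exp_pos _, ?_, ?_⟩
    · rw [← Real.exp_nat_mul, ← Real.exp_neg]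
      refine Real.exp_le_exp.2 ?_
      have hk : ((k : ℝ) + 1) ≠ 0 := by positivity
      push_cast
      rw [mul_div_cancel₀ _ hk, neg_neg]
      have : (r : ℝ) ≤ k := by exact_mod_cast hr
      nlinarith
    · refine le_trans ?_ hle
      have h0 : 1 ≤ Real.exp (max L0 0 * (s j0).re) := by
        rw [← Real.exp_zero]
        refine Real.exp_le_exp.2 ?_
        have := le_max_right L0 0
        positivity
      nlinarith

theorem f1_uz1 : (UZ (k + 1)) ≤ UG (k + 1) ℚ := fun γ hγ => ((w9_uz γ).1 hγ).1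

theorem f1_uz2 : ∀ γ : SLK (k + 1) ℚ, LUc (fun _ => (⊤ : Ideal (𝓞 ℚ))) γ → γ ∈ UZ (k + 1) := by
  intro γ hγ
  refine (w9_uz γ).2 ⟨hγ.uu, fun a l => ?_⟩
  rcases lt_trichotomy a l with h2 | h2 | h2
  · obtain ⟨y, -, hy⟩ := (hγ a l).2 h2
    obtain ⟨m, rfl⟩ := oq y
    exact ⟨m, by rw [hy, oq_coe]⟩
  · subst h2
    exact ⟨1, by rw [hγ.uu.diag]; norm_num⟩
  · exact ⟨0, by rw [hγ.uu.gt h2]; norm_num⟩

/-- PROOF. Compare `fm_top` (`H33N.FM`). `c` from `ea_top` with `B = 2 (k + 1)`, then `η`; `Ω`, `C` from `w_fam`; `C3` from `m3a` (with `A = 2 c`); `D'` from `t3_ex (Gs (k+1) (k+1))`. `FamA` for `H i = ‖HX y (s i)‖²`, `E i = nm2 μ D (f i)`, `mass i d t = mW μ D' Ω (f i) d t`: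
`sys`, `m1`, `m2`: `w_fam` for `F = f i` (`f i ≠ 0`). `lo`, `fin`: `E i = 1` (`on_nn`). `m3`: if `Sg d`, `m3a` with `m = md d 1` (`fm_md`, `IsD`: `d l ≠ 0`, so `Nz`), `(y^(k+1))⁻¹ / N^(2k+1) ≤ Y`; otherwise `mW = 0`.
`ms`: let `h, c0, L0` be from `amp_hx` for `T`, `L = max L0 0`. For the form `i` choose `j0` with `Re s_(j0)` maximal; it is `≥ 0` since `∑ s = 0`. There is `r ≤ k` with `c0 ≤ ‖HX y_r (s i)‖`, `y_r = exp (-(L + r h)/(k+1))`; `m3a` with `y = y_r` and one term of the sum: `c0² mass ≤ ..`, `(y_r^(k+1))⁻¹ = exp (L + r h) ≤ exp (L + k h)`. -/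
theorem fam_bound {k : ℕ} (hk : 1 ≤ k) (μ : Measure (GG (k + 1) ℚ)) [μ.IsHaarMeasure] {T : ℝ} (hT : 0 ≤ T) {Y : ℝ} (hY : 1 ≤ Y) {ε : ℝ} (hε : 0 < ε) :
    ∃ C : ℝ, 1 ≤ C ∧ ∀ (N : ℕ) [NeZero N] (F1 : Set (GG (k + 1) ℚ)) (D : Set (XX (k + 1) N)), SF (⊤ : Subgroup (ZG (k + 1))) D →
    ∀ (r : ℕ) (f : Fin r → XX (k + 1) N → ℂ) (s : Fin r → Fin (k + 1) → ℂ) (L : Fin r → ℕ → ℂ), FamS N μ F1 T r f s → (∀ i, FCusp (f i)) → (∀ i, FL2 μ (f i)) →
    (∀ i j, ∫ x in D, star (f i x) * f j x ∂xm N μ = if i = j then 1 else 0) → (∀ i, IsEig (L i) (f i)) →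
    (∀ i r', 0 < r' → r'.Coprime N → ‖L i r'‖ ≤ (r' : ℝ) ^ (2 * (k + 1))) →
    ∀ y : ℝ, 0 < y → (y ^ (k + 1))⁻¹ ≤ Y * (N : ℝ) ^ (2 * k + 1) →
    ∑ i, ‖HX y (s i)‖ ^ 2 ≤ C * (N : ℝ) ^ ((k : ℝ) * (k + 2) + ε) := by
  obtain ⟨c, hc⟩ := ea_top hk (2 * ((k : ℝ) + 1)) (by positivity)
  obtain ⟨η, hη, hc⟩ := hc ε hε
  obtain ⟨Ω, hΩ, Cw, hCw, hw⟩ := w_fam hk
  obtain ⟨Cm, hCm, hm3⟩ := m3a hk μ hΩ hT (2 * c) hη
  obtain ⟨c0, Y0, hc0, hY0, hamp⟩ := f1_amp k hT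
  obtain ⟨D', hD'⟩ := t3_ex (Gs (k + 1) (k + 1))
  set C3 : ℝ := max (Cm * (1 + Y)) (Cm * (1 + Y0) / c0 ^ 2) with hC3
  have hC3a : Cm * (1 + Y) ≤ C3 := le_max_left _ _
  have hC3b : Cm * (1 + Y0) / c0 ^ 2 ≤ C3 := le_max_right _ _
  have hC31 : 1 ≤ C3 := by
    refine le_trans ?_ hC3a
    nlinarith
  obtain ⟨C, hC, he⟩ := hc Cw Cw C3 hCw hCw hC31
  refine ⟨C, hC, ?_⟩
  intro N _ F1 D hD r f s L hfam hf hfL hon hE hLb y hy hyN
  have hN0 : 0 < N := Nat.pos_of_ne_zero (NeZero.ne N)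
  have hE1 : ∀ i, nm2 μ D (f i) = 1 := fun i => on_nn (hf i).toFInv (hfL i) hD (by rw [hon i i, if_pos rfl])
  have hne : ∀ i, ∃ x, f i x ≠ 0 := by
    intro i
    by_contra h
    push Not at h
    have h2 : nm2 μ D (f i) = 0 := by
      unfold nm2
      simp [h]
    rw [hE1 i] at h2
    exact one_ne_zero h2
  choose A hA using fun i => hw N μ (f i) (L i) (hf i) (hE i) (hne i) D D' hD hD'
  have hpos : ∀ d t : Fin k → ℤ, 0 ≤ PM N t * PY N t ^ η * PX N d t ^ (2 * c) := by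
    intro d t
    have h1 : 0 ≤ PM (N : ℝ) t := Finset.prod_nonneg fun l _ => by positivity
    have h2 : 0 ≤ PY (N : ℝ) t := Finset.prod_nonneg fun l _ => by positivity
    have h3 : 0 ≤ PX (N : ℝ) d t := Finset.prod_nonneg fun l _ => by positivity
    positivity
  have key : ∀ (z Z : ℝ), 0 < z → 0 ≤ Z → (z ^ (k + 1))⁻¹ ≤ Z * (N : ℝ) ^ (2 * k + 1) → ∀ d t : Fin k → ℤ, (∀ l, IsD N (d l)) →
      ∑ i, ENNReal.ofReal (‖HX z (s i)‖ ^ 2) * mW μ D' Ω (f i) d t ≤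
        ENNReal.ofReal (Cm * (1 + Z) * (N : ℝ) ^ (k * (k + 3) / 2) * (PM N t * PY N t ^ η * PX N d t ^ (2 * c))) := by
    intro z Z hz hZ hzN d t hd
    by_cases hs : Sg d
    · have hNz : Nz (md d 1) := by
        intro l
        rw [fm_md]
        exact (hd l).1
      have h1 := hm3 N F1 r f s hfam (md d 1) hNz z hz (UZ (k + 1)) f1_uz1 f1_uz2 D' hD' t
      have e1 : (fun l : Fin k => md d 1 l.castSucc) = d := funext fun l => fm_md d l
      rw [e1] at h1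
      refine le_trans (le_of_eq (Finset.sum_congr rfl fun i _ => ?_)) (h1.trans (ENNReal.ofReal_le_ofReal ?_))
      · unfold mW
        rw [if_pos hs]
      · have h5 : (z ^ (k + 1))⁻¹ / (N : ℝ) ^ (2 * k + 1) ≤ Z := by
          rw [div_le_iff₀ (by positivity)]
          exact hzN
        have h6 := hpos d t
        have h7 : Cm * (1 + (z ^ (k + 1))⁻¹ / (N : ℝ) ^ (2 * k + 1)) ≤ Cm * (1 + Z) := by
          refine mul_le_mul_of_nonneg_left ?_ (by linarith)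
          linarith
        have h8 : (0 : ℝ) ≤ (N : ℝ) ^ (k * (k + 3) / 2) := by positivity
        exact mul_le_mul_of_nonneg_right (mul_le_mul_of_nonneg_right h7 h8) h6
    · refine le_trans (le_of_eq (Finset.sum_eq_zero fun i _ => ?_)) bot_le
      unfold mW
      rw [if_neg hs, mul_zero]
  have hmono : ∀ (a b : ℝ) (d t : Fin k → ℤ), a ≤ b → ENNReal.ofReal (a * (N : ℝ) ^ (k * (k + 3) / 2) * (PM N t * PY N t ^ η * PX N d t ^ (2 * c))) ≤
      ENNReal.ofReal (b * (N : ℝ) ^ (k * (k + 3) / 2) * (PM N t * PY N t ^ η * PX N d t ^ (2 * c))) := by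
    intro a b d t hab
    refine ENNReal.ofReal_le_ofReal ?_
    exact mul_le_mul_of_nonneg_right (mul_le_mul_of_nonneg_right hab (by positivity)) (hpos d t)
  refine he N r L A (fun i => ‖HX y (s i)‖ ^ 2) (fun i => nm2 μ D (f i)) (fun i d t => mW μ D' Ω (f i) d t) hN0 ?_
  refine ⟨fun i => (hA i).1, fun i r' h0 h1 => ?_, fun i => ?_, fun i => ?_, fun i => by positivity, fun i => (hA i).2.1, fun i => (hA i).2.2, ?_, ?_⟩
  · refine (hLb i r' h0 h1).trans (le_of_eq ?_)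
    rw [← Real.rpow_natCast]
    push_cast
    rfl
  · rw [hE1 i]
    rw [← ENNReal.ofReal_one]
    exact ENNReal.ofReal_le_ofReal (by norm_num)
  · rw [hE1 i]
    exact ENNReal.one_ne_top
  · intro i d t hd
    obtain ⟨z, hz, hzY, hzc⟩ := hamp (s i) (hfam.sph i 1).sum (hfam.bd i)
    have h1 : (z ^ (k + 1))⁻¹ ≤ Y0 * (N : ℝ) ^ (2 * k + 1) := by
      refine hzY.trans ?_
      have h2 : (1 : ℝ) ≤ (N : ℝ) ^ (2 * k + 1) := one_le_pow₀ (by exact_mod_cast hN0)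
      nlinarith
    have h3 := key z Y0 hz (by linarith) h1 d t hd
    have h4 : ENNReal.ofReal (‖HX z (s i)‖ ^ 2) * mW μ D' Ω (f i) d t ≤
        ∑ i, ENNReal.ofReal (‖HX z (s i)‖ ^ 2) * mW μ D' Ω (f i) d t :=
      Finset.single_le_sum (f := fun i => ENNReal.ofReal (‖HX z (s i)‖ ^ 2) * mW μ D' Ω (f i) d t) (fun _ _ => bot_le) (Finset.mem_univ i)
    have h5 : ENNReal.ofReal (c0 ^ 2) * mW μ D' Ω (f i) d t ≤
        ENNReal.ofReal (Cm * (1 + Y0) * (N : ℝ) ^ (k * (k + 3) / 2) * (PM N t * PY N t ^ η * PX N d t ^ (2 * c))) := by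
      refine le_trans ?_ (h4.trans h3)
      refine mul_le_mul_left (ENNReal.ofReal_le_ofReal ?_) _
      exact pow_le_pow_left₀ hc0.le hzc 2
    have hc2 : 0 < c0 ^ 2 := by positivity
    have h6 : mW μ D' Ω (f i) d t ≤ ENNReal.ofReal (c0 ^ 2)⁻¹ *
        ENNReal.ofReal (Cm * (1 + Y0) * (N : ℝ) ^ (k * (k + 3) / 2) * (PM N t * PY N t ^ η * PX N d t ^ (2 * c))) := by
      calc mW μ D' Ω (f i) d t = ENNReal.ofReal (c0 ^ 2)⁻¹ * (ENNReal.ofReal (c0 ^ 2) * mW μ D' Ω (f i) d t) := by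
            rw [← mul_assoc, ← ENNReal.ofReal_mul (by positivity), inv_mul_cancel₀ hc2.ne', ENNReal.ofReal_one, one_mul]
        _ ≤ _ := mul_le_mul_right h5 _
    refine h6.trans ?_
    rw [← ENNReal.ofReal_mul (by positivity)]
    refine le_trans (le_of_eq ?_) (hmono _ _ d t hC3b)
    congr 1
    field_simp
  · intro d t hd
    exact (key y Y hy (by linarith) hyN d t hd).trans (hmono _ _ d t hC3a)

end

end Pool.Agent.Lib.H85A
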