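import Pool.Agent.Lib.H85A.I6

/-!
# H85A, I7: the same for complex valued functions
-/

namespace Pool.Agent.Lib.H85A

open MeasureTheory Matrix NumberField
open Pool.Agent.Lib.H89N Pool.Agent.Lib.H85S Pool.Agent.Lib.H33W
open scoped ENNReal

noncomputable section

variable {n k : ℕ}

/-- The statement for real valued functions. -/
theorem i7_real {μ : Measure (GG (k + 1) ℚ)} {c : ℝ} (hc : 0 < c)
    (h : ∀ F : GG (k + 1) ℚ → ℝ≥0∞, Measurable F → RK F → ∫⁻ x, F x ∂μ = ENNReal.ofReal c * IB F)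
    {f : GG (k + 1) ℚ → ℝ} (hf : Continuous f) (hR : RK f)
    (hi : Integrable (fun p : (Fin k → ℝ) × (UI (k + 1) → ℝ) => f (bG p.2 p.1) * (dl p.1)⁻¹)) :
    Integrable f μ ∧ ∫ x, f x ∂μ = c * ∫ p : (Fin k → ℝ) × (UI (k + 1) → ℝ), f (bG p.2 p.1) * (dl p.1)⁻¹ := by
  have hd : ∀ t : Fin k → ℝ, 0 ≤ (dl t)⁻¹ := fun t => (inv_pos.2 (dl_pos t)).le
  have key : ∀ g : GG (k + 1) ℚ → ℝ, Continuous g → RK g →
      ∫⁻ x, ENNReal.ofReal (g x) ∂μ = ENNReal.ofReal c * ∫⁻ p : (Fin k → ℝ) × (UI (k + 1) → ℝ), ENNReal.ofReal (g (bG p.2 p.1) * (dl p.1)⁻¹) := by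
    intro g hg hgR
    have hm : Measurable fun x => ENNReal.ofReal (g x) := hg.measurable.ennreal_ofReal
    rw [h _ hm (fun κ hκ x => by rw [hgR κ hκ x]), i5_prod hm]
    congr 1
    refine lintegral_congr fun p => ?_
    rw [ENNReal.ofReal_mul' (hd p.1)]
  have hint : Integrable f μ := by
    refine ⟨hf.measurable.aestronglyMeasurable, ?_⟩
    rw [hasFiniteIntegral_iff_norm]
    have h1 := key (fun x => ‖f x‖) hf.norm (fun κ hκ x => by
      show ‖f (x * κ)‖ = ‖f x‖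
      rw [hR κ hκ x])
    rw [h1]
    refine ENNReal.mul_lt_top ENNReal.ofReal_lt_top ?_
    have h2 := hi.2
    rw [hasFiniteIntegral_iff_norm] at h2
    refine lt_of_le_of_lt (le_of_eq ?_) h2
    refine lintegral_congr fun p => ?_
    rw [norm_mul, Real.norm_of_nonneg (hd p.1)]
  refine ⟨hint, ?_⟩
  rw [integral_eq_lintegral_pos_part_sub_lintegral_neg_part hint, integral_eq_lintegral_pos_part_sub_lintegral_neg_part hi,
    key f hf hR, key (fun x => -f x) hf.neg (fun κ hκ x => by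
      show -f (x * κ) = -f x
      rw [hR κ hκ x]), ENNReal.toReal_mul, ENNReal.toReal_mul, ENNReal.toReal_ofReal hc.le, mul_sub]
  congr 3
  refine lintegral_congr fun p => ?_
  congr 1
  ring

/-- PROOF. `iwa_lint` for `‖F ·‖ₑ` gives the integrability (`lintegral_prod`: `IB G = ∫⁻ p, G (bG p.2 p.1) * ofReal (dl p.1)⁻¹` over the product; `‖F (bG ..) * (dl ..)⁻¹‖ₑ = ‖F (bG ..)‖ₑ * ofReal (dl ..)⁻¹`); for real functions `integral_eq_lintegral_pos_part_sub_lintegral_neg_part` and `iwa_lint` for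
`ofReal (F x)`, `ofReal (-F x)`; complex functions: real and imaginary parts (`integral_re_add_im`, or `Complex.ext` with `integral_re`/`reCLM.integral_comp_comm`). -/
theorem iwa_int (μ : Measure (GG (k + 1) ℚ)) [μ.IsHaarMeasure] : ∃ c : ℝ, 0 < c ∧ ∀ F : GG (k + 1) ℚ → ℂ, Continuous F → RK F →
    Integrable (fun p : (Fin k → ℝ) × (UI (k + 1) → ℝ) => F (bG p.2 p.1) * ((dl p.1)⁻¹ : ℝ)) →
    Integrable F μ ∧ ∫ x, F x ∂μ = c * ∫ p : (Fin k → ℝ) × (UI (k + 1) → ℝ), F (bG p.2 p.1) * ((dl p.1)⁻¹ : ℝ) := by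
  obtain ⟨c, hc, h⟩ := iwa_lint μ
  refine ⟨c, hc, fun F hF hR hi => ?_⟩
  have hre := i7_real hc h (f := fun x => (F x).re) (Complex.continuous_re.comp hF) (fun κ hκ x => by
    show (F (x * κ)).re = (F x).re
    rw [hR κ hκ x]) (by
      refine hi.re.congr (Filter.Eventually.of_forall fun p => ?_)
      show (F (bG p.2 p.1) * ((dl p.1)⁻¹ : ℝ)).re = _
      rw [Complex.re_mul_ofReal])
  have him := i7_real hc h (f := fun x => (F x).im) (Complex.continuous_im.comp hF) (fun κ hκ x => by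
    show (F (x * κ)).im = (F x).im
    rw [hR κ hκ x]) (by
      refine hi.im.congr (Filter.Eventually.of_forall fun p => ?_)
      show (F (bG p.2 p.1) * ((dl p.1)⁻¹ : ℝ)).im = _
      rw [Complex.im_mul_ofReal])
  have hint : Integrable F μ := by
    have h1 : Integrable (fun x => ((F x).re : ℂ) + ((F x).im : ℂ) * Complex.I) μ := hre.1.ofReal.add (him.1.ofReal.mul_const _)
    refine h1.congr (Filter.Eventually.of_forall fun x => ?_)
    exact Complex.re_add_im (F x)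
  refine ⟨hint, ?_⟩
  have e1 := integral_re_add_im hint
  have e2 := integral_re_add_im hi
  rw [← e1, ← e2]
  have r1 : ∫ x, RCLike.re (F x) ∂μ = c * ∫ p : (Fin k → ℝ) × (UI (k + 1) → ℝ), RCLike.re (F (bG p.2 p.1) * ((dl p.1)⁻¹ : ℝ)) := by
    refine hre.2.trans ?_
    congr 1
    refine integral_congr_ae (Filter.Eventually.of_forall fun p => ?_)
    show (F (bG p.2 p.1)).re * (dl p.1)⁻¹ = (F (bG p.2 p.1) * ((dl p.1)⁻¹ : ℝ)).re
    rw [Complex.re_mul_ofReal]
  have r2 : ∫ x, RCLike.im (F x) ∂μ = c * ∫ p : (Fin k → ℝ) × (UI (k + 1) → ℝ), RCLike.im (F (bG p.2 p.1) * ((dl p.1)⁻¹ : ℝ)) := by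
    refine him.2.trans ?_
    congr 1
    refine integral_congr_ae (Filter.Eventually.of_forall fun p => ?_)
    show (F (bG p.2 p.1)).im * (dl p.1)⁻¹ = (F (bG p.2 p.1) * ((dl p.1)⁻¹ : ℝ)).im
    rw [Complex.im_mul_ofReal]
  rw [r1, r2, RCLike.ofReal_mul, RCLike.ofReal_mul, mul_add, mul_assoc]
  rfl

end

end Pool.Agent.Lib.H85A
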