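import Pool.Agent.Lib.H85A.S1

/-!
# H85A, S4: Whittaker functions on the Borel group
-/

namespace Pool.Agent.Lib.H85A

open MeasureTheory Matrix NumberField
open Pool.Agent.Lib.H89N Pool.Agent.Lib.H85S Pool.Agent.Lib.H33W Pool.Agent.Lib.H33N
open scoped ENNReal

noncomputable section

variable {n k : ℕ}

variable {N : ℕ} {m : Fin (k + 1) → ℤ} {W : GG (k + 1) ℚ → ℂ}


theorem s4_conj (τ t : Fin k → ℝ) (σ : UI (k + 1) → ℝ) : aG τ * bG σ t = (upr (scl τ σ))⁻¹ * aG (τ + t) := by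
  have h := scl_conj τ σ
  unfold bG
  rw [eq_inv_mul_iff_mul_eq, ← mul_assoc, ← h, mul_assoc, mul_inv_cancel_left, aG_add]

theorem s4_ee (x : ℝ) : ee (-x) * ee x = 1 := by
  unfold ee
  rw [← Complex.exp_add]
  have : 2 * (Real.pi : ℂ) * ((-x : ℝ) : ℂ) * Complex.I + 2 * (Real.pi : ℂ) * (x : ℂ) * Complex.I = 0 := by
    push_cast
    ring
  rw [this, Complex.exp_zero]

theorem s4_tau (x : EE ℚ) : Pool.Agent.Lib.H33N.tau x = rq x := by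
  show x.1 Pool.Agent.Lib.H33N.w0 = x.1 td_w
  rw [td_uniq Pool.Agent.Lib.H33N.w0]

theorem s4_sd (N : ℕ) (m : Fin (k + 1) → ℤ) (τ : Fin k → ℝ) (σ : UI (k + 1) → ℝ) :
    sd (thz (k + 1) N m) (upM fun p => iq (scl τ σ p)) = ∑ l : Fin k, xi N m τ l * σ (pl l) := by
  unfold sd
  rw [Fin.sum_univ_castSucc, dif_neg (by simp), add_zero]
  refine Finset.sum_congr rfl fun l _ => ?_
  have hl : ((l.castSucc : Fin (k + 1)) : ℕ) + 1 < k + 1 := by simp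
  rw [dif_pos hl]
  have h1 : upM (fun p => iq (scl τ σ p)) l.castSucc ⟨((l.castSucc : Fin (k + 1)) : ℕ) + 1, hl⟩ = iq (scl τ σ (pl l)) := by
    unfold upM
    rw [Matrix.of_apply, dif_pos (show l.castSucc < ⟨((l.castSucc : Fin (k + 1)) : ℕ) + 1, hl⟩ by rw [Fin.lt_def]; simp)]
    rfl
  rw [h1]
  show (((Pool.Agent.Lib.H33N.mv m (l.castSucc : Fin (k + 1)) : ℚ) / N : ℚ) : ℝ) • Pool.Agent.Lib.H33N.tau (iq (scl τ σ (pl l))) = _
  have h2 : Pool.Agent.Lib.H33N.mv m ((l.castSucc : Fin (k + 1)) : ℕ) = m l.castSucc := by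
    unfold Pool.Agent.Lib.H33N.mv
    rw [dif_pos l.castSucc.2]
  rw [s4_tau, rq_iq, smul_eq_mul, h2]
  unfold xi scl pl
  push_cast
  ring


theorem whi_bG (h : Whi N m W) (τ t : Fin k → ℝ) (σ : UI (k + 1) → ℝ) :
    W (aG τ * bG σ t) = ee (-∑ l : Fin k, xi N m τ l * σ (pl l)) * W (aG (τ + t)) := by
  rw [s4_conj]
  have h1 := h.up (fun p => iq (scl τ σ p)) ((upr (scl τ σ))⁻¹ * aG (τ + t))
  rw [show up (fun p => iq (scl τ σ p)) * ((upr (scl τ σ))⁻¹ * aG (τ + t)) = aG (τ + t) from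
    mul_inv_cancel_left (upr (scl τ σ)) _, s4_sd] at h1
  rw [h1, ← mul_assoc, s4_ee, one_mul]

/-- PROOF. `whi_bG` and `Whi.gr` at `τ + t`, `∑ |τ_l + t_l| ≤ ∑ |τ_l| + ∑ |t_l|`. -/
theorem whi_gr (h : Whi N m W) (τ : Fin k → ℝ) : ∃ C E : ℝ, 0 ≤ C ∧ 0 ≤ E ∧ ∀ (t : Fin k → ℝ) (σ : UI (k + 1) → ℝ),
    ‖W (aG τ * bG σ t)‖ ≤ C * Real.exp (E * ∑ l, |t l|) := by
  obtain ⟨C, E, hCE⟩ := h.gr
  refine ⟨|C| * Real.exp (|E| * ∑ l, |τ l|), |E|, by positivity, abs_nonneg _, fun t σ => ?_⟩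
  have hee : ∀ x : ℝ, ‖ee x‖ = 1 := by
    intro x
    unfold ee
    rw [show 2 * (Real.pi : ℂ) * (x : ℂ) * Complex.I = ((2 * Real.pi * x : ℝ) : ℂ) * Complex.I by push_cast; ring]
    exact Complex.norm_exp_ofReal_mul_I _
  rw [whi_bG h, norm_mul, hee, one_mul]
  refine (hCE (τ + t)).trans ?_
  have hS : ∑ l, |(τ + t) l| ≤ ∑ l, |τ l| + ∑ l, |t l| := by
    rw [← Finset.sum_add_distrib]
    exact Finset.sum_le_sum fun l _ => abs_add_le _ _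
  have hS0 : 0 ≤ ∑ l, |(τ + t) l| := Finset.sum_nonneg fun _ _ => abs_nonneg _
  rw [mul_assoc, ← Real.exp_add]
  refine mul_le_mul (le_abs_self C) (Real.exp_le_exp.2 ?_) (Real.exp_pos _).le (abs_nonneg _)
  calc E * ∑ l, |(τ + t) l| ≤ |E| * ∑ l, |(τ + t) l| := mul_le_mul_of_nonneg_right (le_abs_self E) hS0
    _ ≤ |E| * (∑ l, |τ l| + ∑ l, |t l|) := mul_le_mul_of_nonneg_left hS (abs_nonneg _)
    _ = _ := by ring

end

end Pool.Agent.Lib.H85A
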