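import Pool.Agent.Lib.H85A.S2
import Pool.Agent.Lib.H85A.S4
import Pool.Agent.Lib.H85A.I7

/-!
# H85A, S5: the equation for the Gaussian kernel
-/

namespace Pool.Agent.Lib.H85A

open MeasureTheory Matrix NumberField
open Pool.Agent.Lib.H89N Pool.Agent.Lib.H85S Pool.Agent.Lib.H33W Pool.Agent.Lib.H33N
open scoped ENNReal

noncomputable section

variable {n k : ℕ}

variable {N : ℕ} {m : Fin (k + 1) → ℤ} {W : GG (k + 1) ℚ → ℂ} {s : Fin (k + 1) → ℂ}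

/-- The truncated kernel. -/
def GKt (y : ℝ) (R : ℕ) (z : GG n ℚ) : ℂ := ((GK y z * max 0 (min 1 ((R : ℝ) + 1 - fro z)) : ℝ) : ℂ)

theorem s5_gk_cont (y : ℝ) : Continuous (GK y : GG n ℚ → ℝ) := by
  unfold GK
  have h : Continuous fun z : GG n ℚ => fro z⁻¹ := fro_cont.comp continuous_inv
  fun_prop

/-- PROOF. `fro` is continuous and bi-invariant (`fro_kl`, `fro_kr`, `(k z)⁻¹ = z⁻¹ k⁻¹`, `isK_inv`), the support is contained in the compact set `{fro ≤ R + 1}` (`fro_cpt`). -/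
theorem gkt_ok (y : ℝ) (R : ℕ) : Continuous (GKt y R : GG n ℚ → ℂ) ∧ HasCompactSupport (GKt y R : GG n ℚ → ℂ) ∧ BiK (GKt y R : GG n ℚ → ℂ) := by
  refine ⟨?_, ?_, ?_⟩
  · unfold GKt
    have h1 : Continuous fun z : GG n ℚ => GK y z := s5_gk_cont y
    have h2 : Continuous fun z : GG n ℚ => fro z := fro_cont
    fun_prop
  · refine HasCompactSupport.intro (fro_cpt ((R : ℝ) + 1)) fun x hx => ?_
    have hx' : (R : ℝ) + 1 < fro x := not_le.mp hx
    unfold GKt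
    rw [max_eq_left (le_trans (min_le_right _ _) (by linarith)), mul_zero, Complex.ofReal_zero]
  · intro κ hκ x
    have h1 : IsK κ := hκ
    have h2 : IsK κ⁻¹ := isK_inv h1
    constructor
    · unfold GKt GK
      rw [_root_.mul_inv_rev, fro_kr h2, fro_kl h1]
    · unfold GKt GK
      rw [_root_.mul_inv_rev, fro_kl h2, fro_kr h1]

theorem s5_cut (y : ℝ) (R : ℕ) (z : GG n ℚ) : ‖GKt y R z‖ ≤ GK y z := by
  unfold GKt
  have hg : 0 ≤ GK y z := (Real.exp_pos _).le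
  have hc : 0 ≤ max 0 (min 1 ((R : ℝ) + 1 - fro z)) := le_max_left _ _
  rw [Complex.norm_real, Real.norm_of_nonneg (mul_nonneg hg hc)]
  exact mul_le_of_le_one_right hg (max_le zero_le_one (min_le_left _ _))

theorem s5_lim (y : ℝ) (z : GG n ℚ) : Filter.Tendsto (fun R : ℕ => GKt y R z) Filter.atTop (nhds ((GK y z : ℝ) : ℂ)) := by
  refine tendsto_const_nhds.congr' ?_
  obtain ⟨R0, hR0⟩ := exists_nat_ge (fro z)
  filter_upwards [Filter.eventually_ge_atTop R0] with R hR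
  unfold GKt
  have h : (R0 : ℝ) ≤ R := Nat.cast_le.mpr hR
  rw [min_eq_left (by linarith), max_eq_right zero_le_one, mul_one]

/-- The two integrals. -/
theorem s5_main {G : GG (k + 1) ℚ → ℂ} (hG : Continuous G) {C E : ℝ} (hE : 0 ≤ E)
    (hb : ∀ (t : Fin k → ℝ) (σ : UI (k + 1) → ℝ), ‖G (bG σ t)‖ ≤ C * Real.exp (E * ∑ l, |t l|)) {y : ℝ} (hy : 0 < y) :
    (∀ R : ℕ, Integrable (fun p : (Fin k → ℝ) × (UI (k + 1) → ℝ) => G (bG p.2 p.1) * GKt y R (bG p.2 p.1) * (((dl p.1)⁻¹ : ℝ) : ℂ))) ∧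
    Filter.Tendsto (fun R : ℕ => ∫ p : (Fin k → ℝ) × (UI (k + 1) → ℝ), G (bG p.2 p.1) * GKt y R (bG p.2 p.1) * (((dl p.1)⁻¹ : ℝ) : ℂ)) Filter.atTop
      (nhds (∫ p : (Fin k → ℝ) × (UI (k + 1) → ℝ), G (bG p.2 p.1) * ((GK y (bG p.2 p.1) * (dl p.1)⁻¹ : ℝ) : ℂ))) := by
  obtain ⟨E', hE', hdl⟩ := dl_bound k
  have hdom : Integrable (fun p : (Fin k → ℝ) × (UI (k + 1) → ℝ) => C * (Real.exp ((E + E') * ∑ l, |p.1 l|) * GK y (bG p.2 p.1))) :=
    (s_dom (E + E') (add_nonneg hE hE') hy).const_mul C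
  have hbc : Continuous fun p : (Fin k → ℝ) × (UI (k + 1) → ℝ) => bG p.2 p.1 := bG_cont
  have hdc : Continuous fun p : (Fin k → ℝ) × (UI (k + 1) → ℝ) => (((dl p.1)⁻¹ : ℝ) : ℂ) := by
    refine Complex.continuous_ofReal.comp ?_
    exact (dl_cont.comp continuous_fst).inv₀ fun p => (dl_pos _).ne'
  have hcont : ∀ R : ℕ, Continuous fun p : (Fin k → ℝ) × (UI (k + 1) → ℝ) => G (bG p.2 p.1) * GKt y R (bG p.2 p.1) * (((dl p.1)⁻¹ : ℝ) : ℂ) :=
    fun R => ((hG.comp hbc).mul ((gkt_ok y R).1.comp hbc)).mul hdc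
  have hbound : ∀ (R : ℕ) (p : (Fin k → ℝ) × (UI (k + 1) → ℝ)), ‖G (bG p.2 p.1) * GKt y R (bG p.2 p.1) * (((dl p.1)⁻¹ : ℝ) : ℂ)‖ ≤
      C * (Real.exp ((E + E') * ∑ l, |p.1 l|) * GK y (bG p.2 p.1)) := by
    intro R p
    have h1 := hb p.1 p.2
    have h2 := s5_cut y R (bG p.2 p.1)
    have h3 : ‖(((dl p.1)⁻¹ : ℝ) : ℂ)‖ ≤ Real.exp (E' * ∑ l, |p.1 l|) := by
      rw [Complex.norm_real, Real.norm_of_nonneg (inv_pos.mpr (dl_pos _)).le]
      exact (hdl p.1).2.1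
    have h4 : 0 ≤ C * Real.exp (E * ∑ l, |p.1 l|) := (norm_nonneg _).trans h1
    have h5 : 0 ≤ GK y (bG p.2 p.1) := (Real.exp_pos _).le
    rw [norm_mul, norm_mul]
    calc ‖G (bG p.2 p.1)‖ * ‖GKt y R (bG p.2 p.1)‖ * ‖(((dl p.1)⁻¹ : ℝ) : ℂ)‖
        ≤ (C * Real.exp (E * ∑ l, |p.1 l|)) * GK y (bG p.2 p.1) * Real.exp (E' * ∑ l, |p.1 l|) :=
          mul_le_mul (mul_le_mul h1 h2 (norm_nonneg _) h4) h3 (norm_nonneg _) (mul_nonneg h4 h5)
      _ = C * (Real.exp ((E + E') * ∑ l, |p.1 l|) * GK y (bG p.2 p.1)) := by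
          rw [add_mul, Real.exp_add]
          ring
  refine ⟨fun R => hdom.mono' (hcont R).aestronglyMeasurable (Filter.Eventually.of_forall (hbound R)), ?_⟩
  refine tendsto_integral_of_dominated_convergence _ (fun R => (hcont R).aestronglyMeasurable) hdom
    (fun R => Filter.Eventually.of_forall (hbound R)) (Filter.Eventually.of_forall fun p => ?_)
  have h := ((s5_lim y (bG p.2 p.1)).const_mul (G (bG p.2 p.1))).mul_const (((dl p.1)⁻¹ : ℝ) : ℂ)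
  rw [Complex.ofReal_mul, ← mul_assoc]
  exact h

/-- PROOF. For the kernel `φ = GKt y R` the equation `EigW` at `x = aG τ` and `iwa_int` for the right invariant functions `z ↦ W (aG τ * z) φ z` and `z ↦ hcf s z φ z` (integrable in coordinates: dominated by `C exp (E ∑ |t|) GK y (bG σ t)`, `whi_gr`, `hcf_norm`, `dl_bound`, `s_dom`)
give the equation with `GKt y R` in the place of `GK y` (cancel the constant `c > 0` of `iwa_int`). Let `R → ∞`: `GKt y R z → GK y z` (equal for `R ≥ fro z`), dominated convergence with the same dominating function on both sides. -/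
theorem whi_eig (μ : Measure (GG (k + 1) ℚ)) [μ.IsHaarMeasure] (h : Whi N m W) (he : EigW μ s W) (τ : Fin k → ℝ) {y : ℝ} (hy : 0 < y) :
    ∫ p : (Fin k → ℝ) × (UI (k + 1) → ℝ), W (aG τ * bG p.2 p.1) * ((GK y (bG p.2 p.1) * (dl p.1)⁻¹ : ℝ) : ℂ) =
      (∫ p : (Fin k → ℝ) × (UI (k + 1) → ℝ), hcf s (bG p.2 p.1) * ((GK y (bG p.2 p.1) * (dl p.1)⁻¹ : ℝ) : ℂ)) * W (aG τ) := by
  obtain ⟨C, E, hC, hE, hgr⟩ := whi_gr h τ
  obtain ⟨E2, hE2, hh⟩ := hcf_norm s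
  obtain ⟨c, hc, hiwa⟩ := iwa_int μ
  have hG1 : Continuous fun z : GG (k + 1) ℚ => W (aG τ * z) := h.cont.comp (continuous_const.mul continuous_id)
  have hG2 : Continuous fun z : GG (k + 1) ℚ => hcf s z := hcf_cont s
  have h1 := s5_main hG1 hE hgr hy
  have h2 := s5_main (C := 1) hG2 hE2 (fun t σ => by rw [one_mul]; exact hh σ t) hy
  refine tendsto_nhds_unique h1.2 ((h2.2.mul_const (W (aG τ))).congr fun R => ?_)
  obtain ⟨hR1, hR2, hR3⟩ := gkt_ok (n := k + 1) y R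
  have hrk1 : RK fun z : GG (k + 1) ℚ => W (aG τ * z) * GKt y R z := by
    intro κ hκ x
    show W (aG τ * (x * κ)) * GKt y R (x * κ) = _
    rw [← mul_assoc, h.rk κ hκ, (hR3 κ hκ x).2]
  have hrk2 : RK fun z : GG (k + 1) ℚ => hcf s z * GKt y R z := by
    intro κ hκ x
    show hcf s (x * κ) * GKt y R (x * κ) = _
    rw [hcf_rk s κ hκ, (hR3 κ hκ x).2]
  have e1 := (hiwa (fun z => W (aG τ * z) * GKt y R z) (hG1.mul hR1) hrk1 (h1.1 R)).2
  have e2 := (hiwa (fun z => hcf s z * GKt y R z) (hG2.mul hR1) hrk2 (h2.1 R)).2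
  have e3 := he (GKt y R) hR1 hR2 hR3 (aG τ)
  rw [e1, e2] at e3
  have hc' : (c : ℂ) ≠ 0 := Complex.ofReal_ne_zero.mpr hc.ne'
  refine (mul_left_cancel₀ hc' ?_).symm
  rw [e3, mul_assoc]

end

end Pool.Agent.Lib.H85A
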