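import Pool.Agent.Lib.H85A.V2
import Pool.Agent.Lib.H85A.S5
import Pool.Agent.Lib.H85A.B3

/-!
# H85A, V3: the parameters of square integrable forms: `HX y (-s) = conj (HX y s)`
-/

namespace Pool.Agent.Lib.H85A

open MeasureTheory Matrix NumberField IsDedekindDomain
open Pool.Agent.Lib.H89N Pool.Agent.Lib.H85S Pool.Agent.Lib.H33W Pool.Agent.Lib.H33N
open scoped ENNReal

noncomputable section

variable {n k : ℕ}

variable {N : ℕ}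

/-- PROOF. `⟨RC φ F, F⟩ = ⟨F, RC (ast φ) F⟩` (`rc_adj`), `RC φ F = λ(φ) F` (`mxp_rc`, `ast_ok`), `⟨F, F⟩ > 0` (`eb_pos`). -/
theorem v_adj [NeZero N] {μ : Measure (GG n ℚ)} [μ.IsHaarMeasure] {s : Fin n → ℂ} {F : XX n N → ℂ} (h : F ∈ MXp N μ s) (h0 : F ≠ 0) {φ : GG n ℚ → ℂ}
    (hφ : Continuous φ) (hc : HasCompactSupport φ) (hb : BiK φ) : star (∫ y, hcf s y * φ y ∂μ) = ∫ y, hcf s y * ast φ y ∂μ := by
  obtain ⟨D, hD⟩ := sf_xx n N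
  have hF : FInv F := (mxp_mem.1 h).1.toFInv
  have h2 : FL2 μ F := (mxp_mem.1 h).2.1
  obtain ⟨a1, a2, a3⟩ := ast_ok hφ hc
  have e := rc_adj μ hφ hc hF hF h2 h2 hD
  rw [mxp_rc h hφ hc hb, mxp_rc h a1 a2 (a3 hb)] at e
  have e1 : ∀ x : XX n N, star (((∫ y, hcf s y * φ y ∂μ) • F) x) * F x = star (∫ y, hcf s y * φ y ∂μ) * (star (F x) * F x) := by
    intro x
    rw [Pi.smul_apply, smul_eq_mul, star_mul', mul_assoc]
  have e2 : ∀ x : XX n N, star (F x) * ((∫ y, hcf s y * ast φ y ∂μ) • F) x = (∫ y, hcf s y * ast φ y ∂μ) * (star (F x) * F x) := by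
    intro x
    rw [Pi.smul_apply, smul_eq_mul]
    ring
  simp only [e1, e2] at e
  rw [integral_const_mul, integral_const_mul] at e
  have hp := eb_pos μ hF h2 hD h0
  have hne : (∫ x in D, star (F x) * F x ∂xm N μ) ≠ 0 := by
    intro h3
    rw [h3] at hp
    simp at hp
  exact mul_right_cancel₀ hne e

/-- The analogue of `s5_main` for `z ↦ GK y z⁻¹`. -/
theorem v3_main {G : GG (k + 1) ℚ → ℂ} (hG : Continuous G) {C E : ℝ} (hE : 0 ≤ E)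
    (hb : ∀ (t : Fin k → ℝ) (σ : UI (k + 1) → ℝ), ‖G (bG σ t)‖ ≤ C * Real.exp (E * ∑ l, |t l|)) {y : ℝ} (hy : 0 < y) :
    (∀ R : ℕ, Integrable (fun p : (Fin k → ℝ) × (UI (k + 1) → ℝ) => G (bG p.2 p.1) * GKt y R (bG p.2 p.1)⁻¹ * (((dl p.1)⁻¹ : ℝ) : ℂ))) ∧
    Filter.Tendsto (fun R : ℕ => ∫ p : (Fin k → ℝ) × (UI (k + 1) → ℝ), G (bG p.2 p.1) * GKt y R (bG p.2 p.1)⁻¹ * (((dl p.1)⁻¹ : ℝ) : ℂ)) Filter.atTop
      (nhds (∫ p : (Fin k → ℝ) × (UI (k + 1) → ℝ), G (bG p.2 p.1) * ((GK y (bG p.2 p.1)⁻¹ * (dl p.1)⁻¹ : ℝ) : ℂ))) := by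
  obtain ⟨E', hE', hdl⟩ := dl_bound k
  have hdom : Integrable (fun p : (Fin k → ℝ) × (UI (k + 1) → ℝ) => C * (Real.exp ((E + E') * ∑ l, |p.1 l|) * GK y (bG p.2 p.1)⁻¹)) :=
    (s_dom' (E + E') (add_nonneg hE hE') hy).const_mul C
  have hbc : Continuous fun p : (Fin k → ℝ) × (UI (k + 1) → ℝ) => bG p.2 p.1 := bG_cont
  have hbi : Continuous fun p : (Fin k → ℝ) × (UI (k + 1) → ℝ) => (bG p.2 p.1)⁻¹ := bG_cont.inv
  have hdc : Continuous fun p : (Fin k → ℝ) × (UI (k + 1) → ℝ) => (((dl p.1)⁻¹ : ℝ) : ℂ) := by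
    refine Complex.continuous_ofReal.comp ?_
    exact (dl_cont.comp continuous_fst).inv₀ fun p => (dl_pos _).ne'
  have hcont : ∀ R : ℕ, Continuous fun p : (Fin k → ℝ) × (UI (k + 1) → ℝ) => G (bG p.2 p.1) * GKt y R (bG p.2 p.1)⁻¹ * (((dl p.1)⁻¹ : ℝ) : ℂ) :=
    fun R => ((hG.comp hbc).mul ((gkt_ok y R).1.comp hbi)).mul hdc
  have hbound : ∀ (R : ℕ) (p : (Fin k → ℝ) × (UI (k + 1) → ℝ)), ‖G (bG p.2 p.1) * GKt y R (bG p.2 p.1)⁻¹ * (((dl p.1)⁻¹ : ℝ) : ℂ)‖ ≤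
      C * (Real.exp ((E + E') * ∑ l, |p.1 l|) * GK y (bG p.2 p.1)⁻¹) := by
    intro R p
    have h1 := hb p.1 p.2
    have h2 := s5_cut y R (bG p.2 p.1)⁻¹
    have h3 : ‖(((dl p.1)⁻¹ : ℝ) : ℂ)‖ ≤ Real.exp (E' * ∑ l, |p.1 l|) := by
      rw [Complex.norm_real, Real.norm_of_nonneg (inv_pos.mpr (dl_pos _)).le]
      exact (hdl p.1).2.1
    have h4 : 0 ≤ C * Real.exp (E * ∑ l, |p.1 l|) := (norm_nonneg _).trans h1
    have h5 : 0 ≤ GK y (bG p.2 p.1)⁻¹ := (Real.exp_pos _).le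
    rw [norm_mul, norm_mul]
    calc ‖G (bG p.2 p.1)‖ * ‖GKt y R (bG p.2 p.1)⁻¹‖ * ‖(((dl p.1)⁻¹ : ℝ) : ℂ)‖
        ≤ (C * Real.exp (E * ∑ l, |p.1 l|)) * GK y (bG p.2 p.1)⁻¹ * Real.exp (E' * ∑ l, |p.1 l|) :=
          mul_le_mul (mul_le_mul h1 h2 (norm_nonneg _) h4) h3 (norm_nonneg _) (mul_nonneg h4 h5)
      _ = C * (Real.exp ((E + E') * ∑ l, |p.1 l|) * GK y (bG p.2 p.1)⁻¹) := by
          rw [add_mul, Real.exp_add]
          ring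
  refine ⟨fun R => hdom.mono' (hcont R).aestronglyMeasurable (Filter.Eventually.of_forall (hbound R)), ?_⟩
  refine tendsto_integral_of_dominated_convergence _ (fun R => (hcont R).aestronglyMeasurable) hdom
    (fun R => Filter.Eventually.of_forall (hbound R)) (Filter.Eventually.of_forall fun p => ?_)
  have h := ((s5_lim y (bG p.2 p.1)⁻¹).const_mul (G (bG p.2 p.1))).mul_const (((dl p.1)⁻¹ : ℝ) : ℂ)
  rw [Complex.ofReal_mul, ← mul_assoc]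
  exact h

theorem v3_ast (y : ℝ) (R : ℕ) (z : GG n ℚ) : ast (GKt y R : GG n ℚ → ℂ) z = GKt y R z⁻¹ := by
  unfold ast GKt
  exact Complex.conj_ofReal _

/-- PROOF. `v_adj` for `φ = GKt y R` (`gkt_ok`), `ast φ z = GKt y R z⁻¹` (real values). By `iwa_int` both integrals are `c` times integrals in the coordinates (right invariance: `hcf_rk`; integrability: `hcf_norm`, `dl_bound`, `s_dom`, `s_dom'`), and for `R → ∞` they converge (dominated convergence) to `v_val` and `v_val'`. -/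
theorem hx_sym [NeZero N] {μ : Measure (GG (k + 1) ℚ)} [μ.IsHaarMeasure] {s : Fin (k + 1) → ℂ} {F : XX (k + 1) N → ℂ} (h : F ∈ MXp N μ s) (h0 : F ≠ 0)
    {y : ℝ} (hy : 0 < y) : HX y (fun i => -s i) = star (HX y s) := by
  obtain ⟨E2, hE2, hh⟩ := hcf_norm s
  obtain ⟨c, hc, hiwa⟩ := iwa_int μ
  have hG2 : Continuous fun z : GG (k + 1) ℚ => hcf s z := hcf_cont s
  have h1 := s5_main (C := 1) hG2 hE2 (fun t σ => by rw [one_mul]; exact hh σ t) hy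
  have h2 := v3_main (C := 1) hG2 hE2 (fun t σ => by rw [one_mul]; exact hh σ t) hy
  rw [v_val s hy] at h1
  rw [v_val' s hy] at h2
  have key : ∀ R : ℕ, star (∫ p : (Fin k → ℝ) × (UI (k + 1) → ℝ), hcf s (bG p.2 p.1) * GKt y R (bG p.2 p.1) * (((dl p.1)⁻¹ : ℝ) : ℂ)) =
      ∫ p : (Fin k → ℝ) × (UI (k + 1) → ℝ), hcf s (bG p.2 p.1) * GKt y R (bG p.2 p.1)⁻¹ * (((dl p.1)⁻¹ : ℝ) : ℂ) := by
    intro R
    obtain ⟨hR1, hR2, hR3⟩ := gkt_ok (n := k + 1) y R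
    have hrk1 : RK fun z : GG (k + 1) ℚ => hcf s z * GKt y R z := by
      intro κ hκ x
      show hcf s (x * κ) * GKt y R (x * κ) = _
      rw [hcf_rk s κ hκ, (hR3 κ hκ x).2]
    have hrk2 : RK fun z : GG (k + 1) ℚ => hcf s z * GKt y R z⁻¹ := by
      intro κ hκ x
      show hcf s (x * κ) * GKt y R (x * κ)⁻¹ = _
      rw [hcf_rk s κ hκ, _root_.mul_inv_rev, (hR3 κ⁻¹ (isK_inv hκ) x⁻¹).1]
    have e1 := (hiwa (fun z => hcf s z * GKt y R z) (hG2.mul hR1) hrk1 (h1.1 R)).2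
    have e2 := (hiwa (fun z => hcf s z * GKt y R z⁻¹) (hG2.mul (hR1.comp continuous_inv)) hrk2 (h2.1 R)).2
    have e3 := v_adj h h0 hR1 hR2 hR3
    simp only [v3_ast] at e3
    rw [e1, e2, star_mul'] at e3
    have e4 : star (c : ℂ) = c := Complex.conj_ofReal c
    rw [e4] at e3
    have hc' : (c : ℂ) ≠ 0 := Complex.ofReal_ne_zero.mpr hc.ne'
    exact mul_left_cancel₀ hc' e3
  have h3 : Filter.Tendsto (fun R : ℕ => star (∫ p : (Fin k → ℝ) × (UI (k + 1) → ℝ), hcf s (bG p.2 p.1) * GKt y R (bG p.2 p.1) * (((dl p.1)⁻¹ : ℝ) : ℂ)))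
      Filter.atTop (nhds (star (((y⁻¹ ^ Fintype.card (UI (k + 1)) : ℝ) : ℂ) * HX y s))) := h1.2.star
  simp only [key] at h3
  have h4 := tendsto_nhds_unique h2.2 h3
  have h5 : star (((y⁻¹ ^ Fintype.card (UI (k + 1)) : ℝ) : ℂ)) = ((y⁻¹ ^ Fintype.card (UI (k + 1)) : ℝ) : ℂ) := Complex.conj_ofReal _
  rw [star_mul', h5] at h4
  have hne : ((y⁻¹ ^ Fintype.card (UI (k + 1)) : ℝ) : ℂ) ≠ 0 :=
    Complex.ofReal_ne_zero.mpr (pow_pos (inv_pos.2 hy) _).ne'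
  exact mul_left_cancel₀ hne h4

end

end Pool.Agent.Lib.H85A
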