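import Pool.Agent.Lib.H85A.F1
import Pool.Agent.Lib.H85A.V3
import Pool.Agent.Lib.H33N.BM9

/-!
# H85A, F2: **the density theorem at the archimedean place**
-/

namespace Pool.Agent.Lib.H85A

open MeasureTheory Matrix NumberField IsDedekindDomain
open Pool.Agent.Lib.H89N Pool.Agent.Lib.H85S Pool.Agent.Lib.H33W Pool.Agent.Lib.H33N
open scoped ENNReal

noncomputable section

variable {n k : ℕ}

/-- The amplifier for both signs. -/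
theorem f2_amp (k : ℕ) {T : ℝ} (hT : 0 ≤ T) : ∃ h c L1 : ℝ, 0 < h ∧ 0 < c ∧ 0 ≤ L1 ∧ ∀ s : Fin (k + 1) → ℂ, ∑ j, s j = 0 → (∀ j, ‖s j‖ ≤ T) →
    (∀ y : ℝ, 0 < y → HX y (fun i => -s i) = star (HX y s)) → ∀ ν : ℝ, 0 ≤ ν → (∃ j, ν ≤ |(s j).re|) → ∀ L : ℝ, L1 ≤ L →
    ∃ r : ℕ, r ≤ k ∧ c * Real.exp (L * ν) ≤ ‖HX (Real.exp (-(L + r * h) / ((k : ℝ) + 1))) s‖ := by
  obtain ⟨h, c, L0, hh, hc, hamp⟩ := amp_hx k T hT
  refine ⟨h, c, max L0 0, hh, hc, le_max_right _ _, fun s hs hsT hsym ν hν hj L hL => ?_⟩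
  have hL0 : 0 ≤ L := (le_max_right L0 0).trans hL
  have key : ∀ s' : Fin (k + 1) → ℂ, ∑ j, s' j = 0 → (∀ j, ‖s' j‖ ≤ T) → (∃ j, ν ≤ (s' j).re) →
      ∃ r : ℕ, r ≤ k ∧ c * Real.exp (L * ν) ≤ ‖HX (Real.exp (-(L + r * h) / ((k : ℝ) + 1))) s'‖ := by
    intro s' hs' hsT' ⟨j, hj⟩
    obtain ⟨j0, -, hj0⟩ := Finset.exists_max_image (Finset.univ : Finset (Fin (k + 1))) (fun j => (s' j).re) Finset.univ_nonempty
    obtain ⟨r, hr, hle⟩ := hamp s' hs' hsT' j0 (fun j => hj0 j (Finset.mem_univ j)) L ((le_max_left _ _).trans hL)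
    refine ⟨r, hr, le_trans ?_ hle⟩
    refine mul_le_mul_of_nonneg_left (Real.exp_le_exp.2 ?_) hc.le
    exact mul_le_mul_of_nonneg_left (hj.trans (hj0 j (Finset.mem_univ j))) hL0
  obtain ⟨j, hj⟩ := hj
  rcases le_abs.1 hj with h1 | h1
  · exact key s hs hsT ⟨j, h1⟩
  · obtain ⟨r, hr, hle⟩ := key (fun i => -s i) (by rw [Finset.sum_neg_distrib, hs, neg_zero]) (fun j => by rw [norm_neg]; exact hsT j)
      ⟨j, by rw [Complex.neg_re]; exact h1⟩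
    refine ⟨r, hr, hle.trans (le_of_eq ?_)⟩
    rw [hsym _ (Real.exp_pos _), norm_star]

theorem arch_k {k : ℕ} (hk : 1 ≤ k) (μ : Measure (GG (k + 1) ℚ)) [μ.IsHaarMeasure] (T ε : ℝ) (hε : 0 < ε) :
    ∃ C : ℝ, ∀ (N : ℕ), 1 ≤ N → ∀ ν : ℝ, 0 ≤ ν →
    ∀ (m : ℕ) (f : Fin m → GG (k + 1) ℚ → ℂ) (s : Fin m → Fin (k + 1) → ℂ), LinearIndependent ℂ f → (∀ i, MaassS (nI N) μ (s i) (f i)) →
    (∀ i j, ‖s i j‖ ≤ T) → (∀ i, ∃ j, ν ≤ |(s i j).re|) →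
    (m : ℝ) ≤ C * (N : ℝ) ^ (((k : ℝ) + 1) ^ 2 - 1 - 2 * (2 * ((k : ℝ) + 1) - 1) * ν + ε) := by
  rcases lt_or_ge T 0 with hT | hT
  · refine ⟨0, fun N hN ν hν m f s hLI hM hsT hfar => ?_⟩
    rcases Nat.eq_zero_or_pos m with rfl | hm
    · simp
    · exact absurd ((norm_nonneg _).trans (hsT ⟨0, hm⟩ 0)) (not_le.2 hT)
  obtain ⟨h, c0, L1, hh, hc0, hL1, hamp⟩ := f2_amp k hT
  have hY : 1 ≤ Real.exp (L1 + k * h) := by
    rw [← Real.exp_zero]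
    exact Real.exp_le_exp.2 (by positivity)
  obtain ⟨C, hC, hfam⟩ := fam_bound hk μ hT hY hε
  refine ⟨((k : ℝ) + 1) * C / c0 ^ 2, fun N hN ν hν m f s hLI hM hsT hfar => ?_⟩
  haveI : NeZero N := ⟨by omega⟩
  have hN0 : 0 < N := by omega
  obtain ⟨D, hD⟩ := sf_xx (k + 1) N
  obtain ⟨F1, hF1⟩ := exists_fd μ (nI N)
  obtain ⟨r0, e, ix, L, hmr, he1, he3, he4, he5⟩ := bp_family hD hLI hM
  have hon : ∀ κ i j, ∫ x in F1, star (e i (κ, x)) * e j (κ, x) ∂μ = if i = j then 1 else 0 := by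
    intro κ i j
    have h1 := lf_pairF hN0 μ hF1 (he1 i).1.toFInv (he1 j).1.toFInv hD (Θ := fun p => star p.1 * p.2)
      ((continuous_star.comp continuous_fst).mul continuous_snd) κ
    rw [← he3 i j]
    exact h1.symm
  have hl2 : ∀ i κ, MemLp (fun g => e i (κ, g)) 2 (μ.restrict F1) := by
    intro i κ
    have h1 := hon κ i i
    rw [if_pos rfl] at h1
    have h2 : Integrable (fun x => star (e i (κ, x)) * e i (κ, x)) (μ.restrict F1) := by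
      by_contra h3
      rw [integral_undef h3] at h1
      exact zero_ne_one h1
    have h3 : AEStronglyMeasurable (fun g => e i (κ, g)) (μ.restrict F1) := ((he1 i).1.cont κ).aestronglyMeasurable
    rw [memLp_two_iff_integrable_sq_norm h3]
    refine h2.norm.congr (Filter.Eventually.of_forall fun x => ?_)
    show ‖star (e i (κ, x)) * e i (κ, x)‖ = ‖e i (κ, x)‖ ^ 2
    rw [norm_mul, norm_star, sq]
  have hF : FamS N μ F1 T r0 e fun j => s (ix j) :=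
    { fd := hF1
      inv := fun i => (he1 i).1.toFInv
      l2 := hl2
      on := hon
      sph := fun i κ => ⟨(hM (ix i)).sph.sum, ((he1 i).2.2 κ).inv, ((he1 i).2.2 κ).eig⟩
      bd := fun i j => hsT (ix i) j }
  have hne : ∀ j, e j ≠ 0 := by
    intro j h0
    have h1 := he3 j j
    rw [if_pos rfl, h0] at h1
    simp at h1
  have hN1 : (1 : ℝ) ≤ N := by exact_mod_cast hN
  have hNp : (0 : ℝ) < (N : ℝ) := by linarith
  obtain ⟨La, hLa⟩ : ∃ La : ℝ, La = L1 + (2 * (k : ℝ) + 1) * Real.log N := ⟨_, rfl⟩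
  have hlog : 0 ≤ Real.log N := Real.log_nonneg hN1
  have hLa1 : L1 ≤ La := by
    rw [hLa]
    have : 0 ≤ (2 * (k : ℝ) + 1) * Real.log N := by positivity
    linarith
  have hb : ∀ r : ℕ, r ≤ k → ∑ i, ‖HX (Real.exp (-(La + r * h) / ((k : ℝ) + 1))) (s (ix i))‖ ^ 2 ≤ C * (N : ℝ) ^ ((k : ℝ) * (k + 2) + ε) := by
    intro r hr
    refine hfam N F1 D hD r0 e (fun j => s (ix j)) L hF (fun i => (he1 i).1) (fun i => (he1 i).2.1) he3 he4 he5 _ (Real.exp_pos _) ?_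
    rw [← Real.exp_nat_mul, ← Real.exp_neg]
    have hk : ((k : ℝ) + 1) ≠ 0 := by positivity
    push_cast
    rw [mul_div_cancel₀ _ hk, neg_neg]
    have e1 : (N : ℝ) ^ (2 * k + 1) = Real.exp ((2 * (k : ℝ) + 1) * Real.log N) := by
      rw [← Real.rpow_natCast, Real.rpow_def_of_pos hNp, mul_comm]
      push_cast
      rfl
    rw [e1, ← Real.exp_add]
    refine Real.exp_le_exp.2 ?_
    rw [hLa]
    have : (r : ℝ) ≤ k := by exact_mod_cast hr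
    nlinarith
  have hlow : ∀ j, c0 ^ 2 * (N : ℝ) ^ (2 * (2 * (k : ℝ) + 1) * ν) ≤
      ∑ r ∈ Finset.range (k + 1), ‖HX (Real.exp (-(La + r * h) / ((k : ℝ) + 1))) (s (ix j))‖ ^ 2 := by
    intro j
    obtain ⟨r, hr, hle⟩ := hamp (s (ix j)) (hM (ix j)).sph.sum (hsT (ix j)) (fun y hy => hx_sym (he1 j) (hne j) hy) ν hν (hfar (ix j)) La hLa1
    refine le_trans ?_ (Finset.single_le_sum (f := fun r : ℕ => ‖HX (Real.exp (-(La + r * h) / ((k : ℝ) + 1))) (s (ix j))‖ ^ 2)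
      (fun _ _ => by positivity) (Finset.mem_range.2 (Nat.lt_succ_of_le hr)))
    refine le_trans ?_ (pow_le_pow_left₀ (by positivity) hle 2)
    rw [mul_pow]
    refine mul_le_mul_of_nonneg_left ?_ (by positivity)
    rw [Real.rpow_def_of_pos hNp, ← Real.exp_nat_mul]
    refine Real.exp_le_exp.2 ?_
    push_cast
    rw [hLa]
    have : 0 ≤ L1 * ν := mul_nonneg hL1 hν
    nlinarith
  have hsum : (r0 : ℝ) * (c0 ^ 2 * (N : ℝ) ^ (2 * (2 * (k : ℝ) + 1) * ν)) ≤ ((k : ℝ) + 1) * (C * (N : ℝ) ^ ((k : ℝ) * (k + 2) + ε)) := by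
    calc (r0 : ℝ) * (c0 ^ 2 * (N : ℝ) ^ (2 * (2 * (k : ℝ) + 1) * ν)) = ∑ _j : Fin r0, c0 ^ 2 * (N : ℝ) ^ (2 * (2 * (k : ℝ) + 1) * ν) := by
          rw [Finset.sum_const, Finset.card_univ, Fintype.card_fin, nsmul_eq_mul]
      _ ≤ ∑ j : Fin r0, ∑ r ∈ Finset.range (k + 1), ‖HX (Real.exp (-(La + r * h) / ((k : ℝ) + 1))) (s (ix j))‖ ^ 2 :=
          Finset.sum_le_sum fun j _ => hlow j
      _ = ∑ r ∈ Finset.range (k + 1), ∑ j : Fin r0, ‖HX (Real.exp (-(La + r * h) / ((k : ℝ) + 1))) (s (ix j))‖ ^ 2 := Finset.sum_comm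
      _ ≤ ∑ _r ∈ Finset.range (k + 1), C * (N : ℝ) ^ ((k : ℝ) * (k + 2) + ε) :=
          Finset.sum_le_sum fun r hr => hb r (Nat.lt_succ_iff.1 (Finset.mem_range.1 hr))
      _ = ((k : ℝ) + 1) * (C * (N : ℝ) ^ ((k : ℝ) * (k + 2) + ε)) := by
          rw [Finset.sum_const, Finset.card_range, nsmul_eq_mul]
          push_cast
          rfl
  have hm : (m : ℝ) ≤ r0 := by exact_mod_cast hmr
  have hPp : 0 < c0 ^ 2 * (N : ℝ) ^ (2 * (2 * (k : ℝ) + 1) * ν) := by positivity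
  have h1 : (m : ℝ) * (c0 ^ 2 * (N : ℝ) ^ (2 * (2 * (k : ℝ) + 1) * ν)) ≤ ((k : ℝ) + 1) * (C * (N : ℝ) ^ ((k : ℝ) * (k + 2) + ε)) :=
    (mul_le_mul_of_nonneg_right hm hPp.le).trans hsum
  have e2 : ((k : ℝ) + 1) ^ 2 - 1 - 2 * (2 * ((k : ℝ) + 1) - 1) * ν + ε = ((k : ℝ) * (k + 2) + ε) - 2 * (2 * (k : ℝ) + 1) * ν := by ring
  rw [e2, Real.rpow_sub hNp]
  have h2 : (m : ℝ) ≤ ((k : ℝ) + 1) * (C * (N : ℝ) ^ ((k : ℝ) * (k + 2) + ε)) / (c0 ^ 2 * (N : ℝ) ^ (2 * (2 * (k : ℝ) + 1) * ν)) := by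
    rw [le_div_iff₀ hPp]
    exact h1
  refine h2.trans (le_of_eq ?_)
  have h3 : (N : ℝ) ^ (2 * (2 * (k : ℝ) + 1) * ν) ≠ 0 := (Real.rpow_pos_of_pos hNp _).ne'
  field_simp

/-- **The density theorem at the archimedean place.** PROOF. `n = k + 1`, `nI_absNorm`; `arch_k`. -/
theorem arch (n : ℕ) (hn : 2 ≤ n) (μ : Measure (GG n ℚ)) [μ.IsHaarMeasure] (T ε : ℝ) (hε : 0 < ε) :
    ∃ C : ℝ, ∀ 𝔫 : Ideal (𝓞 ℚ), 𝔫 ≠ ⊥ → ∀ ν : ℝ, 0 ≤ ν →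
    ∀ (m : ℕ) (f : Fin m → GG n ℚ → ℂ) (s : Fin m → Fin n → ℂ), LinearIndependent ℂ f → (∀ i, MaassS 𝔫 μ (s i) (f i)) →
    (∀ i j, ‖s i j‖ ≤ T) → (∀ i, ∃ j, ν ≤ |(s i j).re|) →
    (m : ℝ) ≤ C * (Ideal.absNorm 𝔫 : ℝ) ^ ((n : ℝ) ^ 2 - 1 - 2 * (2 * n - 1) * ν + ε) := by
  obtain ⟨k, rfl⟩ : ∃ k, n = k + 1 := ⟨n - 1, by omega⟩
  obtain ⟨C, hC⟩ := arch_k (by omega : 1 ≤ k) μ T ε hε
  refine ⟨C, ?_⟩
  intro 𝔫 h0 ν hν m f s hLI hM hsT hfar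
  obtain ⟨N, hN, h1, h2⟩ := nI_absNorm h0
  have e : (((k + 1 : ℕ) : ℝ)) = (k : ℝ) + 1 := by push_cast; rfl
  rw [h2, e]
  subst h1
  exact hC N hN ν hν m f s hLI hM hsT hfar

end

end Pool.Agent.Lib.H85A
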