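import Pool.Agent.Lib.H85A.D0
import Pool.Agent.Lib.H85S.TX0

/-!
# H85A, I1: unipotent coordinates: conjugation by `aG t`, invariance of the Lebesgue measure
-/

namespace Pool.Agent.Lib.H85A

open MeasureTheory Matrix NumberField
open Pool.Agent.Lib.H89N Pool.Agent.Lib.H85S Pool.Agent.Lib.H33W
open scoped ENNReal

noncomputable section

variable {n k : ℕ}

/-- The scaling of the coordinates by the roots `av t i / av t l`. -/
def scl (t : Fin k → ℝ) (σ : UI (k + 1) → ℝ) : UI (k + 1) → ℝ := fun p => av t p.1.1 / av t p.1.2 * σ p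

/-- PROOF. Entries: `av t i * u_(i l) = (av t i / av t l * u_(i l)) * av t l`. -/
theorem scl_conj (t : Fin k → ℝ) (σ : UI (k + 1) → ℝ) : aG t * upr σ = upr (scl t σ) * aG t := by
  refine Subtype.ext ?_
  rw [Matrix.SpecialLinearGroup.coe_mul, Matrix.SpecialLinearGroup.coe_mul]
  show (aG t).1 * (upr σ).1 = (upr (scl t σ)).1 * (aG t).1
  rw [aG_coe, upr_coe, upr_coe]
  ext1 a l
  rw [Matrix.diagonal_mul, Matrix.mul_diagonal, Matrix.map_apply, Matrix.map_apply, ← map_mul, ← map_mul]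
  congr 1
  rcases lt_trichotomy a l with h | h | h
  · rw [upM_lt _ h, upM_lt _ h]
    show av t a * σ ⟨(a, l), h⟩ = av t a / av t l * σ ⟨(a, l), h⟩ * av t l
    have := av_ne t l
    field_simp
  · subst h
    rw [upM_eq, upM_eq, mul_one, one_mul]
  · rw [upM_gt _ h, upM_gt _ h, mul_zero, zero_mul]

/-- PROOF. The linear map `scl t` is diagonal with determinant `dl t > 0`: `Real.smul_map_diagonal_volume_pi` (`ofReal |det| • map _ volume = volume`), or `MeasureTheory.lintegral` in the product coordinates. -/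
theorem scl_int (t : Fin k → ℝ) {f : (UI (k + 1) → ℝ) → ℝ≥0∞} (hf : Measurable f) :
    ∫⁻ σ, f (scl t σ) = ENNReal.ofReal (dl t)⁻¹ * ∫⁻ σ, f σ := by
  classical
  have hD : (∏ p : UI (k + 1), av t p.1.1 / av t p.1.2) ≠ 0 := (dl_pos t).ne'
  have h1 := Real.smul_map_diagonal_volume_pi (D := fun p : UI (k + 1) => av t p.1.1 / av t p.1.2) (by
    rw [Matrix.det_diagonal]
    exact hD)
  have h2 : (Matrix.toLin' (Matrix.diagonal fun p : UI (k + 1) => av t p.1.1 / av t p.1.2) : (UI (k + 1) → ℝ) → (UI (k + 1) → ℝ)) = scl t := by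
    funext σ p
    rw [Matrix.toLin'_apply, Matrix.mulVec_diagonal]
    rfl
  rw [h2, Matrix.det_diagonal] at h1
  have hm : Measurable (scl t) := by
    unfold scl
    exact measurable_pi_lambda _ fun p => (measurable_pi_apply p).const_mul _
  have h3 : ∫⁻ σ, f σ = ENNReal.ofReal (dl t) * ∫⁻ σ, f (scl t σ) := by
    conv_lhs => rw [← h1]
    rw [lintegral_smul_measure, lintegral_map hf hm]
    show ENNReal.ofReal |∏ p : UI (k + 1), av t p.1.1 / av t p.1.2| * _ = _
    rw [abs_of_pos (show 0 < ∏ p : UI (k + 1), av t p.1.1 / av t p.1.2 from dl_pos t)]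
    rfl
  rw [h3, ← mul_assoc, ← ENNReal.ofReal_mul (inv_nonneg.2 (dl_pos t).le), inv_mul_cancel₀ (dl_pos t).ne', ENNReal.ofReal_one, one_mul]

/-- The two descriptions of the coordinates. -/
theorem i1_up (f : GG n ℚ → ℝ≥0∞) : ∫⁻ σ : UI n → ℝ, f (upr σ) = ∫⁻ s : UI n → EE ℚ, f (up s) := by
  have h1 : MeasurePreserving (MeasurableEquiv.piCongrRight fun _ : UI n => rqM) (volume : Measure (UI n → EE ℚ)) (volume : Measure (UI n → ℝ)) :=
    volume_preserving_pi fun _ => rq_mp
  have h2 := h1.lintegral_comp_emb (MeasurableEquiv.measurableEmbedding _) (fun σ : UI n → ℝ => f (upr σ))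
  rw [← h2]
  refine lintegral_congr fun s => ?_
  congr 1
  show up (fun p => iq (rq (s p))) = up s
  congr 1
  funext p
  exact iq_rq _

/-- PROOF. `upr σ * upr τ = up (cu (upM (iq ∘ σ) * upM (iq ∘ τ)))`; `u4_right` (`H33W.U4`: the map `s ↦ cu (upM s * M)` on `UI n → EE ℚ` preserves the Lebesgue measure) and the measure preserving bijection
`(UI n → EE ℚ) ≃ (UI n → ℝ)` given by `rq` (`rq_mp`, `MeasurePreserving.piCongrRight`-type lemma as in `H85S.TX0` `tR_mp`; `volume_preserving_pi`), inverse `iq`. -/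
theorem upr_right (τ : UI n → ℝ) {f : GG n ℚ → ℝ≥0∞} (hf : Measurable f) : ∫⁻ σ, f (upr σ * upr τ) = ∫⁻ σ, f (upr σ) := by
  have hU : IsUU (upM fun p : UI n => iq (τ p)) := isUU_upM _
  have h1 := (u4_right _ hU).lintegral_comp (f := fun s : UI n → EE ℚ => f (up s)) (hf.comp u4_cont_up.measurable)
  rw [i1_up (fun g => f (g * upr τ)), i1_up f, ← h1]
  refine lintegral_congr fun s => ?_
  congr 1
  refine Subtype.ext ?_
  rw [Matrix.SpecialLinearGroup.coe_mul]
  exact (upM_cu (isUU_mul (isUU_upM s) hU)).symm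

/-- PROOF. As `upr_right`, with `u4_left`. -/
theorem upr_left (τ : UI n → ℝ) {f : GG n ℚ → ℝ≥0∞} (hf : Measurable f) : ∫⁻ σ, f (upr τ * upr σ) = ∫⁻ σ, f (upr σ) := by
  have hU : IsUU (upM fun p : UI n => iq (τ p)) := isUU_upM _
  have h1 := (u4_left _ hU).lintegral_comp (f := fun s : UI n → EE ℚ => f (up s)) (hf.comp u4_cont_up.measurable)
  rw [i1_up (fun g => f (upr τ * g)), i1_up f, ← h1]
  refine lintegral_congr fun s => ?_
  congr 1
  refine Subtype.ext ?_
  rw [Matrix.SpecialLinearGroup.coe_mul]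
  exact (upM_cu (isUU_mul hU (isUU_upM s))).symm

end

end Pool.Agent.Lib.H85A
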