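import Pool.Agent.Lib.H85A.I1

/-!
# H85A, I2: the integral over the Borel group under translations
-/

namespace Pool.Agent.Lib.H85A

open MeasureTheory Matrix NumberField
open Pool.Agent.Lib.H89N Pool.Agent.Lib.H85S Pool.Agent.Lib.H33W
open scoped ENNReal

noncomputable section

variable {n k : ℕ}

/-- The elements of the Borel group. -/
def bG (τ : UI (k + 1) → ℝ) (s : Fin k → ℝ) : GG (k + 1) ℚ := (upr τ)⁻¹ * aG s

theorem bG_cont : Continuous fun p : (Fin k → ℝ) × (UI (k + 1) → ℝ) => bG p.2 p.1 := by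
  unfold bG
  exact ((upr_cont.comp continuous_snd).inv).mul (aG_cont.comp continuous_fst)

theorem i2_ofReal {s t : Fin k → ℝ} : ENNReal.ofReal (dl (t - s))⁻¹ = ENNReal.ofReal (dl s) * ENNReal.ofReal (dl t)⁻¹ := by
  rw [← ENNReal.ofReal_mul (dl_pos s).le, sub_eq_add_neg, dl_add, dl_neg, mul_inv, inv_inv, mul_comm]

theorem i2_shift (s : Fin k → ℝ) (g : (Fin k → ℝ) → ℝ≥0∞) : ∫⁻ t, g (s + t) = ∫⁻ t, g t :=
  lintegral_add_left_eq_self g s

/-- PROOF. `IB F = ∫⁻ t, ∫⁻ σ, F (bG σ t) * ofReal (dl t)⁻¹`. Left translation by `(upr τ)⁻¹`: `(upr τ)⁻¹ (upr σ)⁻¹ = (upr σ * upr τ)⁻¹`: `upr_right` for `u ↦ F (u⁻¹ * aG t) * c`. Left translation by `aG s`: `aG s * (upr σ)⁻¹ = (upr (scl s σ))⁻¹ * aG s` (`scl_conj`),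
`aG s * aG t = aG (s + t)`: the integral over `σ` becomes `(dl s)⁻¹` times (`scl_int`), and then `t ↦ t - s` (`lintegral_sub_right_eq_self`, `dl (t - s)⁻¹ = dl t⁻¹ * dl s`). -/
theorem ib_left (τ : UI (k + 1) → ℝ) (s : Fin k → ℝ) {F : GG (k + 1) ℚ → ℝ≥0∞} (hF : Measurable F) :
    IB (fun x => F (bG τ s * x)) = IB F := by
  unfold IB
  rw [← i2_shift s (fun t => ∫⁻ σ : UI (k + 1) → ℝ, F ((upr σ)⁻¹ * aG t) * ENNReal.ofReal (dl t)⁻¹)]
  refine lintegral_congr fun t => ?_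
  -- the integrand as a function of `upr σ`
  have hm1 : Measurable fun u : GG (k + 1) ℚ => F (bG τ s * (u⁻¹ * aG t)) * ENNReal.ofReal (dl t)⁻¹ :=
    (hF.comp (continuous_const.mul (continuous_inv.mul continuous_const)).measurable).mul_const _
  have hm2 : Measurable fun u : GG (k + 1) ℚ => F ((u * upr τ)⁻¹ * aG (s + t)) :=
    hF.comp ((continuous_id.mul continuous_const).inv.mul continuous_const).measurable
  have hm3 : Measurable fun σ : UI (k + 1) → ℝ => F ((upr σ * upr τ)⁻¹ * aG (s + t)) := hm2.comp upr_cont.measurable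
  have hm4 : Measurable fun u : GG (k + 1) ℚ => F (u⁻¹ * aG (s + t)) :=
    hF.comp (continuous_inv.mul continuous_const).measurable
  have e : ∀ σ : UI (k + 1) → ℝ, bG τ s * ((upr σ)⁻¹ * aG t) = (upr (scl s σ) * upr τ)⁻¹ * aG (s + t) := by
    intro σ
    have h1 := scl_conj s σ
    have h2 : aG s * (upr σ)⁻¹ = (upr (scl s σ))⁻¹ * aG s := by
      rw [mul_inv_eq_iff_eq_mul, mul_assoc, h1, inv_mul_cancel_left]
    unfold bG
    rw [mul_assoc, ← mul_assoc (aG s), h2, aG_add, _root_.mul_inv_rev]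
    simp only [mul_assoc]
  simp only [e]
  have hm6 : Measurable (scl s) := by
    unfold scl
    exact measurable_pi_lambda _ fun p => (measurable_pi_apply p).const_mul _
  have hm7 : Measurable fun σ : UI (k + 1) → ℝ => F ((upr (scl s σ) * upr τ)⁻¹ * aG (s + t)) := hm3.comp hm6
  have hm8 : Measurable fun σ : UI (k + 1) → ℝ => F ((upr σ)⁻¹ * aG (s + t)) := hm4.comp upr_cont.measurable
  rw [lintegral_mul_const _ hm7, scl_int s hm3, upr_right τ hm4, lintegral_mul_const _ hm8]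
  rw [dl_add, mul_inv, ENNReal.ofReal_mul (inv_nonneg.2 (dl_pos s).le)]
  ring

/-- PROOF. `bG σ t * bG τ s = (upr σ)⁻¹ * (upr (scl t τ))⁻¹ * aG (t + s) = (upr (scl t τ) * upr σ)⁻¹ * aG (t + s)`: `upr_left` for fixed `t`, then `t ↦ t - s`: `dl (t - s)⁻¹ = dl t⁻¹ * dl s`. -/
theorem ib_right (τ : UI (k + 1) → ℝ) (s : Fin k → ℝ) {F : GG (k + 1) ℚ → ℝ≥0∞} (hF : Measurable F) :
    IB (fun x => F (x * bG τ s)) = ENNReal.ofReal (dl s) * IB F := by
  unfold IB
  rw [← i2_shift s (fun t => ∫⁻ σ : UI (k + 1) → ℝ, F ((upr σ)⁻¹ * aG t) * ENNReal.ofReal (dl t)⁻¹),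
    ← lintegral_const_mul' _ _ ENNReal.ofReal_ne_top]
  refine lintegral_congr fun t => ?_
  have hm4 : Measurable fun u : GG (k + 1) ℚ => F (u⁻¹ * aG (s + t)) :=
    hF.comp (continuous_inv.mul continuous_const).measurable
  have e : ∀ σ : UI (k + 1) → ℝ, (upr σ)⁻¹ * aG t * bG τ s = (upr (scl t τ) * upr σ)⁻¹ * aG (s + t) := by
    intro σ
    have h1 := scl_conj t τ
    have h2 : aG t * (upr τ)⁻¹ = (upr (scl t τ))⁻¹ * aG t := by
      rw [mul_inv_eq_iff_eq_mul, mul_assoc, h1, inv_mul_cancel_left]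
    unfold bG
    rw [mul_assoc, ← mul_assoc (aG t), h2, add_comm s t, aG_add, _root_.mul_inv_rev]
    simp only [mul_assoc]
  simp only [e]
  have hm5 : Measurable fun σ : UI (k + 1) → ℝ => F ((upr (scl t τ) * upr σ)⁻¹ * aG (s + t)) :=
    hF.comp (((continuous_const.mul upr_cont).inv).mul continuous_const).measurable
  have hm8 : Measurable fun σ : UI (k + 1) → ℝ => F ((upr σ)⁻¹ * aG (s + t)) := hm4.comp upr_cont.measurable
  rw [lintegral_mul_const _ hm5, upr_left (scl t τ) hm4, lintegral_mul_const _ hm8]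
  rw [dl_add, mul_inv, ENNReal.ofReal_mul (inv_nonneg.2 (dl_pos s).le)]
  have h6 : ENNReal.ofReal (dl s) * ENNReal.ofReal (dl s)⁻¹ = 1 := by
    rw [← ENNReal.ofReal_mul (dl_pos s).le, mul_inv_cancel₀ (dl_pos s).ne', ENNReal.ofReal_one]
  calc (∫⁻ σ : UI (k + 1) → ℝ, F ((upr σ)⁻¹ * aG (s + t))) * ENNReal.ofReal (dl t)⁻¹
      = 1 * ((∫⁻ σ : UI (k + 1) → ℝ, F ((upr σ)⁻¹ * aG (s + t))) * ENNReal.ofReal (dl t)⁻¹) := (one_mul _).symm
    _ = _ := by
      rw [← h6]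
      ring

end

end Pool.Agent.Lib.H85A
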