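import Pool.Agent.Lib.H85A.I1
import Pool.Agent.Lib.H33N.W10A

/-!
# H85A, I3: the Iwasawa decomposition
-/

namespace Pool.Agent.Lib.H85A

open MeasureTheory Matrix NumberField
open Pool.Agent.Lib.H89N Pool.Agent.Lib.H85S Pool.Agent.Lib.H33W
open scoped ENNReal

noncomputable section

variable {n k : ℕ}

open InnerProductSpace in
/-- `w10_iwa` with orthonormal rows. -/
theorem i3_iwa {n : ℕ} (x : H33N.RG n) : ∃ (τ : UI n → ℝ) (a : Fin n → ℝ) (κ : H33N.RG n), (∀ i, 0 < a i) ∧ ∏ i, a i = 1 ∧ κ.1 * κ.1.transpose = 1 ∧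
    x.1 = upM τ * Matrix.diagonal a * κ.1 := by
  let f : Fin n → EuclideanSpace ℝ (Fin n) := fun i => WithLp.toLp 2 (x.1 (Fin.rev i))
  have hf : LinearIndependent ℝ f := by
    have h1 : LinearIndependent ℝ x.1.row := by
      rw [Matrix.linearIndependent_rows_iff_isUnit, Matrix.isUnit_iff_isUnit_det, x.2]
      exact isUnit_one
    have h2 : LinearIndependent ℝ (fun i : Fin n => x.1 (Fin.rev i)) := h1.comp Fin.rev Fin.rev_injective
    exact h2.map' (WithLp.linearEquiv 2 ℝ (Fin n → ℝ)).symm.toLinearMap (LinearEquiv.ker _)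
  let gs : Fin n → EuclideanSpace ℝ (Fin n) := gramSchmidt ℝ f
  have hgs0 : ∀ i, gs i ≠ 0 := fun i => gramSchmidt_ne_zero i hf
  have horth : ∀ i j, i ≠ j → inner ℝ (gs i) (gs j) = 0 := fun i j h => gramSchmidt_orthogonal ℝ f h
  let a : Fin n → ℝ := fun i => ‖gs (Fin.rev i)‖
  have ha : ∀ i, 0 < a i := fun i => norm_pos_iff.2 (hgs0 _)
  let K : Matrix (Fin n) (Fin n) ℝ := Matrix.of fun i j => (gs (Fin.rev i)) j / a i
  let τ : UI n → ℝ := fun p => inner ℝ (gs (Fin.rev p.1.2)) (f (Fin.rev p.1.1)) / ‖gs (Fin.rev p.1.2)‖ ^ 2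
  have hKK : K * K.transpose = 1 := by
    ext i j
    rw [Matrix.mul_apply]
    have h1 : ∀ l, K i l * K.transpose l j = (gs (Fin.rev i)) l * (gs (Fin.rev j)) l / (a i * a j) := by
      intro l
      show (gs (Fin.rev i)) l / a i * ((gs (Fin.rev j)) l / a j) = _
      rw [div_mul_div_comm]
    rw [Finset.sum_congr rfl fun l _ => h1 l, ← Finset.sum_div]
    have h2 : ∑ l, (gs (Fin.rev i)) l * (gs (Fin.rev j)) l = inner ℝ (gs (Fin.rev i)) (gs (Fin.rev j)) := by
      rw [PiLp.inner_apply]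
      refine Finset.sum_congr rfl fun l _ => ?_
      rw [real_inner_eq_re_inner ℝ]
      simp [mul_comm]
    rw [h2]
    by_cases hij : i = j
    · subst hij
      rw [Matrix.one_apply_eq, real_inner_self_eq_norm_sq, sq]
      exact div_self (mul_pos (ha i) (ha i)).ne'
    · rw [Matrix.one_apply_ne hij, horth _ _ (fun h => hij (Fin.rev_injective h)), zero_div]
  have hxm : x.1 = upM τ * Matrix.diagonal a * K := by
    ext i j
    rw [Matrix.mul_apply]
    have h1 : ∀ l, (upM τ * Matrix.diagonal a) i l * K l j = upM τ i l * (gs (Fin.rev l)) j := by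
      intro l
      rw [Matrix.mul_diagonal]
      show _ * a l * ((gs (Fin.rev l)) j / a l) = _
      field_simp [(ha l).ne']
    rw [Finset.sum_congr rfl fun l _ => h1 l]
    have h2 := gramSchmidt_def'' ℝ f (Fin.rev i)
    have h3 : x.1 i j = (f (Fin.rev i)) j := by
      show x.1 i j = x.1 (Fin.rev (Fin.rev i)) j
      rw [Fin.rev_rev]
    rw [h3, h2]
    rw [← Finset.sum_add_sum_compl (Finset.Ioi i) (fun l => upM τ i l * (gs (Fin.rev l)) j)]
    have h4 : ∑ l ∈ (Finset.Ioi i)ᶜ, upM τ i l * (gs (Fin.rev l)) j = (gs (Fin.rev i)) j := by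
      rw [Finset.sum_eq_single i]
      · show (if h : i < i then _ else if i = i then (1 : ℝ) else 0) * _ = _
        rw [dif_neg (lt_irrefl i), if_pos rfl, one_mul]
      · intro l hl hli
        have hl1 : ¬ i < l := by simpa using hl
        show (if h : i < l then _ else if i = l then (1 : ℝ) else 0) * _ = _
        rw [dif_neg hl1, if_neg (Ne.symm hli), zero_mul]
      · intro h
        exact absurd (by simp) h
    have h5 : ∑ l ∈ Finset.Ioi i, upM τ i l * (gs (Fin.rev l)) j =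
        (∑ l ∈ Finset.Iio (Fin.rev i), (inner ℝ (gs l) (f (Fin.rev i)) / ((‖gs l‖ : ℝ)) ^ 2) • gs l) j := by
      rw [WithLp.ofLp_sum, Finset.sum_apply]
      refine Finset.sum_bij' (fun l _ => Fin.rev l) (fun l _ => Fin.rev l) ?_ ?_ ?_ ?_ ?_
      · intro l hl
        rw [Finset.mem_Iio, Fin.rev_lt_rev]
        exact Finset.mem_Ioi.1 hl
      · intro l hl
        rw [Finset.mem_Ioi]
        have := Finset.mem_Iio.1 hl
        rwa [← Fin.rev_lt_rev, Fin.rev_rev]
      · intro l _; exact Fin.rev_rev l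
      · intro l _; exact Fin.rev_rev l
      · intro l hl
        have hl1 : i < l := Finset.mem_Ioi.1 hl
        show (if h : i < l then τ ⟨(i, l), h⟩ else _) * _ = _
        rw [dif_pos hl1]
        rfl
    rw [h4, h5, add_comm]
    rfl
  have hdet : K.det * K.det = 1 := by
    have h1 := congrArg Matrix.det hKK
    rwa [Matrix.det_mul, Matrix.det_transpose, Matrix.det_one] at h1
  have hdx : (∏ i, a i) * K.det = 1 := by
    have h1 := congrArg Matrix.det hxm
    rwa [x.2, Matrix.det_mul, Matrix.det_mul, upM_det, one_mul, Matrix.det_diagonal, eq_comm] at h1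
  have hpa : 0 < ∏ i, a i := Finset.prod_pos fun i _ => ha i
  have hK1 : K.det = 1 := by
    rcases mul_self_eq_one_iff.1 hdet with h | h
    · exact h
    · exfalso
      rw [h] at hdx
      linarith
  have hpa1 : ∏ i, a i = 1 := by rw [hK1, mul_one] at hdx; exact hdx
  exact ⟨τ, a, ⟨K, hK1⟩, ha, hpa1, hKK, hxm⟩

theorem isK_one : IsK (1 : GG n ℚ) := by
  change (1 : Matrix (Fin n) (Fin n) (EE ℚ)) * (1 : Matrix (Fin n) (Fin n) (EE ℚ))ᵀ = 1
  rw [Matrix.transpose_one, Matrix.mul_one]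

theorem isK_inv {κ : GG n ℚ} (h : IsK κ) : IsK κ⁻¹ := by
  have h1 : κ.1ᵀ * κ.1 = 1 := mul_eq_one_comm.1 h
  have h2 : κ.1 * (κ⁻¹).1 = 1 := by
    rw [← Matrix.SpecialLinearGroup.coe_mul, mul_inv_cancel]
    rfl
  have h3 : (κ⁻¹).1 = κ.1ᵀ := by
    calc (κ⁻¹).1 = κ.1ᵀ * κ.1 * (κ⁻¹).1 := by rw [h1, Matrix.one_mul]
      _ = κ.1ᵀ := by rw [Matrix.mul_assoc, h2, Matrix.mul_one]
  change (κ⁻¹).1 * (κ⁻¹).1ᵀ = 1
  rw [h3, Matrix.transpose_transpose]
  exact h1

theorem isK_mul {κ κ' : GG n ℚ} (h : IsK κ) (h' : IsK κ') : IsK (κ * κ') := by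
  change (κ.1 * κ'.1) * (κ.1 * κ'.1)ᵀ = 1
  have h1 : κ'.1 * κ'.1ᵀ = 1 := h'
  have h2 : κ.1 * κ.1ᵀ = 1 := h
  rw [Matrix.transpose_mul, Matrix.mul_assoc, ← Matrix.mul_assoc κ'.1, h1, Matrix.one_mul]
  exact h2

/-- **The Iwasawa decomposition.** PROOF. The proof of `w10_iwa` (`H33N.W10A`; it is for `RG n = SL_n(ℝ)`, the map `Er n` of `H33N.T2` transports it) gives `x = upM τ * diagonal a * κ` where the rows of `κ` are orthonormal (Gram-Schmidt), i.e. `κ * κᵀ = 1`: extend it (copy the proof of `w10_iwa`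
and keep `κ.1 * κ.1ᵀ = 1`); `a = av t` by `av_surj`; `upM τ = (upr τ')⁻¹` since `U` is a group (`isUU_inv`, `upM_cu`, `upr_surj`). -/
theorem iwa (g : GG (k + 1) ℚ) : ∃ (τ : UI (k + 1) → ℝ) (t : Fin k → ℝ) (κ : GG (k + 1) ℚ), IsK κ ∧ g = (upr τ)⁻¹ * aG t * κ := by
  obtain ⟨τ, a, κ, ha, ha1, hκ, hx⟩ := i3_iwa (H33N.Eg (k + 1) g)
  obtain ⟨t, ht⟩ := av_surj ha ha1
  have hτ : up (cu ((up τ)⁻¹ : SpecialLinearGroup (Fin (k + 1)) ℝ).1) = (up τ)⁻¹ :=
    Subtype.ext (upM_cu (isUU_inv (isUU_upM τ)))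
  have hmap : ∀ M : SpecialLinearGroup (Fin (k + 1)) ℝ, (H33N.Er (k + 1) M).1 = M.1.map iq := fun M => rfl
  refine ⟨cu ((up τ)⁻¹ : SpecialLinearGroup (Fin (k + 1)) ℝ).1, t, H33N.Er (k + 1) κ, ?_, ?_⟩
  · change (κ.1.map iq) * (κ.1.map iq)ᵀ = 1
    rw [← Matrix.transpose_map, ← Matrix.map_mul, hκ]
    exact Matrix.map_one (n := Fin (k + 1)) iq (map_zero iq) (map_one iq)
  · have h1 : upr (cu ((up τ)⁻¹ : SpecialLinearGroup (Fin (k + 1)) ℝ).1) =
        H33N.Er (k + 1) ((up τ)⁻¹) := by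
      refine Subtype.ext ?_
      rw [upr_coe, hmap]
      exact congrArg (fun M : SpecialLinearGroup (Fin (k + 1)) ℝ => M.1.map iq) hτ
    rw [h1, ← map_inv, inv_inv]
    refine Subtype.ext ?_
    have h2 : g.1 = (H33N.Eg (k + 1) g).1.map iq := by
      rw [← hmap, H33N.er_eg]
    have h3 : (aG t).1 = (Matrix.diagonal a).map iq := by
      rw [aG_coe, Matrix.diagonal_map (map_zero iq)]
      congr 1
      funext i
      rw [ht i]
    change g.1 = (H33N.Er (k + 1) (up τ)).1 * (aG t).1 * (H33N.Er (k + 1) κ).1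
    rw [h2, hx, hmap, hmap, h3, Matrix.map_mul, Matrix.map_mul]
    rfl

end

end Pool.Agent.Lib.H85A
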