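import Pool.Agent.Lib.H85A.I3

/-!
# H85A, I3B: the Iwasawa projection `ia`
-/

namespace Pool.Agent.Lib.H85A

open MeasureTheory Matrix NumberField
open Pool.Agent.Lib.H89N Pool.Agent.Lib.H85S Pool.Agent.Lib.H33W
open scoped ENNReal

noncomputable section

variable {n k : ℕ}

/-- The lower right blocks of `V diag(a) Vᵀ`. -/
theorem i3b_block (V : Matrix (Fin n) (Fin n) ℝ) (hV : IsUU V) (a : Fin n → ℝ) (j : ℕ) :
    ((V * Matrix.diagonal a * Vᵀ).submatrix (fun i : {i : Fin n // j ≤ (i : ℕ)} => i.1) (fun i : {i : Fin n // j ≤ (i : ℕ)} => i.1)).det =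
      ∏ i ∈ Finset.univ.filter (fun i : Fin n => j ≤ (i : ℕ)), a i := by
  classical
  set e : {i : Fin n // j ≤ (i : ℕ)} → Fin n := fun i => i.1 with he
  have h1 : (V * Matrix.diagonal a * Vᵀ).submatrix e e =
      V.submatrix e e * Matrix.diagonal (fun i => a (e i)) * (V.submatrix e e)ᵀ := by
    ext i l
    rw [Matrix.submatrix_apply, Matrix.mul_apply, Matrix.mul_apply]
    simp only [Matrix.mul_diagonal, Matrix.transpose_apply, Matrix.submatrix_apply]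
    have h2 : ∑ m : {m : Fin n // j ≤ (m : ℕ)}, V (e i) (e m) * a (e m) * V (e l) (e m) =
        ∑ m ∈ Finset.univ.filter (fun m : Fin n => j ≤ (m : ℕ)), V (e i) m * a m * V (e l) m := by
      rw [Finset.sum_subtype (Finset.univ.filter (fun m : Fin n => j ≤ (m : ℕ))) (p := fun m : Fin n => j ≤ (m : ℕ))]
      intro x
      simp
    rw [h2, Finset.sum_filter_of_ne]
    intro m _ hm
    by_contra hc
    apply hm
    have h3 : m < e i := by
      have := i.2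
      show (m : ℕ) < (i.1 : ℕ)
      omega
    rw [hV.gt h3, zero_mul, zero_mul]
  rw [h1, Matrix.det_mul, Matrix.det_mul, Matrix.det_transpose, Matrix.det_diagonal]
  have h4 : (V.submatrix e e).det = 1 := by
    have hb : (V.submatrix e e).BlockTriangular id := by
      intro p q hpq
      exact hV.gt hpq
    rw [Matrix.det_of_upperTriangular hb]
    refine Finset.prod_eq_one fun p _ => ?_
    exact hV.diag _
  rw [h4, one_mul, mul_one]
  rw [Finset.prod_subtype (Finset.univ.filter (fun m : Fin n => j ≤ (m : ℕ))) (p := fun m : Fin n => j ≤ (m : ℕ))]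
  intro x
  simp

theorem i3b_uu (τ : UI n → ℝ) : IsUU (((upr τ)⁻¹ : GG n ℚ).1.map rq) := by
  have h0 : IsUU (upr τ : GG n ℚ).1 := isUU_upM fun p : UI n => iq (τ p)
  have h : IsUU ((upr τ)⁻¹ : GG n ℚ).1 := isUU_inv h0
  intro a l hl
  rw [Matrix.map_apply, h a l hl]
  by_cases h1 : a = l
  · subst h1
    rw [Matrix.one_apply_eq, Matrix.one_apply_eq, map_one]
  · rw [Matrix.one_apply_ne h1, Matrix.one_apply_ne h1, map_zero]

/-- PROOF. `g gᵀ = V diag(a²) Vᵀ` with `V = (upr τ)⁻¹` upper triangular unipotent. For indices `i, l ≥ j` the entry is `∑_(m ≥ j) V_im a_m² V_lm` (`V_im = 0` for `m < i`): the lower right block is `V' diag(a²)' V'ᵀ` with `V'` the lower right block of `V`, which is unipotent upper triangular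
(`Matrix.det_of_isUpperTriangular`, determinant `1`). -/
theorem gm_iwa (τ : UI (k + 1) → ℝ) (t : Fin k → ℝ) {κ : GG (k + 1) ℚ} (hκ : IsK κ) (j : ℕ) :
    gm ((upr τ)⁻¹ * aG t * κ) j = ∏ i ∈ Finset.univ.filter (fun i : Fin (k + 1) => j ≤ (i : ℕ)), av t i ^ 2 := by
  unfold gm
  have h1 : (((upr τ)⁻¹ * aG t * κ : GG (k + 1) ℚ).1 * ((upr τ)⁻¹ * aG t * κ : GG (k + 1) ℚ).1ᵀ).map rq =
      (((upr τ)⁻¹ : GG (k + 1) ℚ).1.map rq) * Matrix.diagonal (fun i => av t i ^ 2) * (((upr τ)⁻¹ : GG (k + 1) ℚ).1.map rq)ᵀ := by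
    have h2 : ((upr τ)⁻¹ * aG t * κ : GG (k + 1) ℚ).1 = ((upr τ)⁻¹ : GG (k + 1) ℚ).1 * (aG t).1 * κ.1 := rfl
    have hκ' : κ.1 * κ.1ᵀ = 1 := hκ
    have h3 : (((upr τ)⁻¹ : GG (k + 1) ℚ).1 * (aG t).1 * κ.1) * (((upr τ)⁻¹ : GG (k + 1) ℚ).1 * (aG t).1 * κ.1)ᵀ =
        ((upr τ)⁻¹ : GG (k + 1) ℚ).1 * ((aG t).1 * (aG t).1ᵀ) * ((upr τ)⁻¹ : GG (k + 1) ℚ).1ᵀ := by
      rw [Matrix.transpose_mul, Matrix.transpose_mul]
      calc ((upr τ)⁻¹ : GG (k + 1) ℚ).1 * (aG t).1 * κ.1 * (κ.1ᵀ * ((aG t).1ᵀ * ((upr τ)⁻¹ : GG (k + 1) ℚ).1ᵀ))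
          = ((upr τ)⁻¹ : GG (k + 1) ℚ).1 * (aG t).1 * (κ.1 * κ.1ᵀ) * ((aG t).1ᵀ * ((upr τ)⁻¹ : GG (k + 1) ℚ).1ᵀ) := by
            simp only [Matrix.mul_assoc]
        _ = _ := by
            rw [hκ', Matrix.mul_one]
            simp only [Matrix.mul_assoc]
    have h4 : ((aG t).1 * (aG t).1ᵀ).map rq = Matrix.diagonal (fun i => av t i ^ 2) := by
      rw [aG_coe, Matrix.diagonal_transpose, Matrix.diagonal_mul_diagonal, Matrix.diagonal_map (map_zero rq)]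
      congr 1
      funext i
      show rq (iq (av t i) * iq (av t i)) = _
      rw [map_mul, rq_iq]
      ring
    rw [h2, h3, Matrix.map_mul, Matrix.map_mul, h4, Matrix.transpose_map]
  rw [h1]
  exact i3b_block _ (i3b_uu τ) _ j

theorem i3b_succ (t : Fin k → ℝ) (i : Fin (k + 1)) :
    ∏ m ∈ Finset.univ.filter (fun m : Fin (k + 1) => (i : ℕ) ≤ (m : ℕ)), av t m ^ 2 =
      av t i ^ 2 * ∏ m ∈ Finset.univ.filter (fun m : Fin (k + 1) => (i : ℕ) + 1 ≤ (m : ℕ)), av t m ^ 2 := by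
  classical
  have h : Finset.univ.filter (fun m : Fin (k + 1) => (i : ℕ) ≤ (m : ℕ)) =
      insert i (Finset.univ.filter (fun m : Fin (k + 1) => (i : ℕ) + 1 ≤ (m : ℕ))) := by
    ext m
    simp only [Finset.mem_filter, Finset.mem_univ, true_and, Finset.mem_insert, Fin.ext_iff]
    omega
  rw [h, Finset.prod_insert]
  simp

/-- PROOF. `gm_iwa`: the quotient of the products for `j = i` and `j = i + 1` is `av t i ^ 2`; `Real.sqrt_sq`. -/
theorem ia_iwa (τ : UI (k + 1) → ℝ) (t : Fin k → ℝ) {κ : GG (k + 1) ℚ} (hκ : IsK κ) : ia ((upr τ)⁻¹ * aG t * κ) = av t := by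
  funext i
  unfold ia
  rw [gm_iwa τ t hκ, gm_iwa τ t hκ, i3b_succ, mul_div_assoc, div_self, mul_one, Real.sqrt_sq (av_pos t i).le]
  exact (Finset.prod_pos fun m _ => pow_pos (av_pos t m) 2).ne'

theorem ia_pos (g : GG (k + 1) ℚ) (i : Fin (k + 1)) : 0 < ia g i := by
  obtain ⟨τ, t, κ, hκ, rfl⟩ := iwa g
  rw [ia_iwa τ t hκ]
  exact av_pos t i

theorem ia_prod (g : GG (k + 1) ℚ) : ∏ i, ia g i = 1 := by
  obtain ⟨τ, t, κ, hκ, rfl⟩ := iwa g
  rw [ia_iwa τ t hκ]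
  exact av_prod t

theorem gm_rk (j : ℕ) : RK fun g : GG n ℚ => gm g j := by
  intro κ hκ x
  have hκ' : κ.1 * κ.1ᵀ = 1 := hκ
  have h1 : (x * κ).1 * (x * κ).1ᵀ = x.1 * x.1ᵀ := by
    show x.1 * κ.1 * (x.1 * κ.1)ᵀ = _
    rw [Matrix.transpose_mul]
    calc x.1 * κ.1 * (κ.1ᵀ * x.1ᵀ) = x.1 * (κ.1 * κ.1ᵀ) * x.1ᵀ := by
          simp only [Matrix.mul_assoc]
      _ = _ := by rw [hκ', Matrix.mul_one]
  show gm (x * κ) j = gm x j
  unfold gm
  rw [h1]

theorem ia_rk (i : Fin (k + 1)) : RK fun g : GG (k + 1) ℚ => ia g i := by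
  intro κ hκ x
  show ia (x * κ) i = ia x i
  unfold ia
  rw [show gm (x * κ) (i : ℕ) = gm x i from gm_rk _ κ hκ x, show gm (x * κ) ((i : ℕ) + 1) = gm x (i + 1) from gm_rk _ κ hκ x]

theorem gm_cont (j : ℕ) : Continuous fun g : GG n ℚ => gm g j := by
  unfold gm
  refine Continuous.matrix_det ?_
  refine Continuous.matrix_submatrix ?_ _ _
  refine Continuous.matrix_map ?_ rq_cont
  exact continuous_subtype_val.matrix_mul continuous_subtype_val.matrix_transpose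

theorem gm_pos (g : GG (k + 1) ℚ) (j : ℕ) : 0 < gm g j := by
  obtain ⟨τ, t, κ, hκ, rfl⟩ := iwa g
  rw [gm_iwa τ t hκ]
  exact Finset.prod_pos fun m _ => pow_pos (av_pos t m) 2

/-- PROOF. `gm` is a polynomial in the entries, positive by `iwa` and `gm_iwa`. -/
theorem ia_cont (i : Fin (k + 1)) : Continuous fun g : GG (k + 1) ℚ => ia g i := by
  unfold ia
  refine Real.continuous_sqrt.comp ?_
  exact (gm_cont _).div (gm_cont _) fun g => (gm_pos g _).ne'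

end

end Pool.Agent.Lib.H85A
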