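import Pool.Agent.Lib.H85A.I3
import Pool.Agent.Lib.H85A.I2

/-!
# H85A, I4: the function `fro`
-/

namespace Pool.Agent.Lib.H85A

open MeasureTheory Matrix NumberField
open Pool.Agent.Lib.H89N Pool.Agent.Lib.H85S Pool.Agent.Lib.H33W
open scoped ENNReal

noncomputable section

variable {n k : ℕ}

theorem i4_tr (g : GG n ℚ) : fro g = rq (Matrix.trace (g.1 * g.1ᵀ)) := by
  unfold fro Matrix.trace
  rw [map_sum]
  refine Finset.sum_congr rfl fun i _ => ?_
  rw [Matrix.diag_apply, Matrix.mul_apply, map_sum]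
  refine Finset.sum_congr rfl fun l _ => ?_
  rw [Matrix.transpose_apply, map_mul, sq]

theorem fro_one : fro (1 : GG n ℚ) = n := by
  rw [i4_tr]
  have h : ((1 : GG n ℚ).1 * (1 : GG n ℚ).1ᵀ) = 1 := by
    show (1 : Matrix (Fin n) (Fin n) (EE ℚ)) * (1 : Matrix (Fin n) (Fin n) (EE ℚ))ᵀ = 1
    rw [Matrix.transpose_one, one_mul]
  rw [h, Matrix.trace_one, Fintype.card_fin, map_natCast]

/-- PROOF. `fro g` is the trace of `gᵀ g` (and of `g gᵀ`), `κᵀ κ = 1`. -/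
theorem fro_kl {κ : GG n ℚ} (h : IsK κ) (g : GG n ℚ) : fro (κ * g) = fro g := by
  rw [i4_tr, i4_tr]
  have h1 : (κ * g).1 = κ.1 * g.1 := rfl
  have h2 : κ.1ᵀ * κ.1 = 1 := _root_.mul_eq_one_comm.1 h
  rw [h1, Matrix.transpose_mul, Matrix.mul_assoc, Matrix.trace_mul_comm, Matrix.mul_assoc, Matrix.mul_assoc, h2, Matrix.mul_one]

theorem fro_kr {κ : GG n ℚ} (h : IsK κ) (g : GG n ℚ) : fro (g * κ) = fro g := by
  rw [i4_tr, i4_tr]
  have h1 : (g * κ).1 = g.1 * κ.1 := rfl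
  have h2 : κ.1 * κ.1ᵀ = 1 := h
  rw [h1, Matrix.transpose_mul, Matrix.mul_assoc, ← Matrix.mul_assoc κ.1, h2, Matrix.one_mul]

theorem i4_inv (σ : UI (k + 1) → ℝ) (t : Fin k → ℝ) (i l : Fin (k + 1)) :
    rq ((bG σ t)⁻¹.1 i l) = (av t i)⁻¹ * upM σ i l := by
  have h1 : (bG σ t)⁻¹ = aG (-t) * upr σ := by
    unfold bG
    rw [_root_.mul_inv_rev, inv_inv, aG_neg]
  have h2 : (aG (-t) * upr σ).1 = Matrix.diagonal (fun i => iq (av (-t) i)) * (upM σ).map iq := by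
    rw [← upr_coe, ← aG_coe]
    rfl
  rw [h1, h2, Matrix.diagonal_mul, Matrix.map_apply, map_mul, rq_iq, rq_iq, av_neg]

/-- PROOF. `(bG σ t)⁻¹ = aG (-t) * upr σ` has the entries `a_i⁻¹ (upM σ)_il`. -/
theorem fro_bG (σ : UI (k + 1) → ℝ) (t : Fin k → ℝ) : fro (bG σ t)⁻¹ =
    ∑ i, (av t i ^ 2)⁻¹ + ∑ p : UI (k + 1), (av t p.1.1 ^ 2)⁻¹ * σ p ^ 2 := by
  unfold fro
  simp only [i4_inv]
  have key : ∀ i l : Fin (k + 1), ((av t i)⁻¹ * upM σ i l) ^ 2 =
      (if i = l then (av t i ^ 2)⁻¹ else 0) +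
        (if h : i < l then (av t i ^ 2)⁻¹ * σ ⟨(i, l), h⟩ ^ 2 else 0) := by
    intro i l
    unfold upM
    rw [Matrix.of_apply]
    by_cases h : i < l
    · rw [dif_pos h, dif_pos h, if_neg h.ne, zero_add, mul_pow, inv_pow]
    · rw [dif_neg h, dif_neg h, add_zero]
      by_cases h' : i = l
      · rw [if_pos h', if_pos h', mul_one, inv_pow]
      · rw [if_neg h', if_neg h', mul_zero, zero_pow two_ne_zero]
  simp only [key, Finset.sum_add_distrib, Finset.sum_ite_eq, Finset.mem_univ, if_true]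
  congr 1
  rw [← Fintype.sum_prod_type' (f := fun i l : Fin (k + 1) => if h : i < l then (av t i ^ 2)⁻¹ * σ ⟨(i, l), h⟩ ^ 2 else 0)]
  rw [← Fintype.sum_subtype_add_sum_subtype (fun x : Fin (k + 1) × Fin (k + 1) => x.1 < x.2)]
  rw [Finset.sum_eq_zero (s := (Finset.univ : Finset {x : Fin (k + 1) × Fin (k + 1) // ¬x.1 < x.2})), add_zero]
  · refine Finset.sum_congr rfl fun p _ => ?_
    rw [dif_pos p.2]
  · intro p _
    rw [dif_neg p.2]

/-- PROOF. A closed and bounded set of matrices of determinant one; compare `td_compact_bm` (`H85S`), `om_compact` (`H33N.L4`), `w10_cpt` (`H33N.W10B`). -/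
theorem fro_cpt (R : ℝ) : IsCompact {g : GG n ℚ | fro g ≤ R} := by
  refine (td_compact_bm (R + 1)).of_isClosed_subset (isClosed_le fro_cont continuous_const) ?_
  intro g hg i l
  have h0 : fro g ≤ R := hg
  have h1 : rq (g.1 i l) ^ 2 ≤ fro g := by
    unfold fro
    refine le_trans ?_ (Finset.single_le_sum (f := fun i => ∑ l, rq (g.1 i l) ^ 2) (fun i _ => Finset.sum_nonneg fun _ _ => sq_nonneg _)
      (Finset.mem_univ i))
    exact Finset.single_le_sum (f := fun l => rq (g.1 i l) ^ 2) (fun _ _ => sq_nonneg _) (Finset.mem_univ l)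
  have h2 : 0 ≤ R := (fro_nonneg g).trans h0
  rw [norm_rq]
  have h3 : |rq (g.1 i l)| ^ 2 ≤ R := by
    rw [sq_abs]
    exact h1.trans h0
  by_contra hc
  push Not at hc
  nlinarith [abs_nonneg (rq (g.1 i l))]

end

end Pool.Agent.Lib.H85A
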