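import Pool.Agent.Lib.H85A.I4
import Pool.Agent.Lib.H85A.I3B

/-!
# H85A, I5: finiteness and positivity
-/

namespace Pool.Agent.Lib.H85A

open MeasureTheory Matrix NumberField
open Pool.Agent.Lib.H89N Pool.Agent.Lib.H85S Pool.Agent.Lib.H33W
open scoped ENNReal

noncomputable section

variable {n k : ℕ}

/-- The indicator function of `{|g|² ≤ n + 1}`. -/
def ps (g : GG n ℚ) : ℝ≥0∞ := {g : GG n ℚ | fro g ≤ (n : ℝ) + 1}.indicator (fun _ => 1) g

theorem ps_meas : Measurable (ps : GG n ℚ → ℝ≥0∞) :=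
  measurable_const.indicator (isClosed_le fro_cont continuous_const).measurableSet

theorem i5_pso {g : GG n ℚ} (h : fro g ≤ (n : ℝ) + 1) : ps g = 1 :=
  Set.indicator_of_mem (s := {g : GG n ℚ | fro g ≤ (n : ℝ) + 1}) h _

theorem i5_psz {g : GG n ℚ} (h : ¬ fro g ≤ (n : ℝ) + 1) : ps g = 0 :=
  Set.indicator_of_notMem (s := {g : GG n ℚ | fro g ≤ (n : ℝ) + 1}) h _

theorem i5_ps1 (g : GG n ℚ) : ps g ≤ 1 := by
  by_cases h : fro g ≤ (n : ℝ) + 1
  · rw [i5_pso h]
  · rw [i5_psz h]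
    exact zero_le_one

theorem i5_meas {F : GG (k + 1) ℚ → ℝ≥0∞} (hF : Measurable F) :
    Measurable fun p : (Fin k → ℝ) × (UI (k + 1) → ℝ) => F (bG p.2 p.1) * ENNReal.ofReal (dl p.1)⁻¹ := by
  refine (hF.comp bG_cont.measurable).mul ?_
  exact ((dl_cont.comp continuous_fst).measurable.inv).ennreal_ofReal

/-- `IB` as an integral over the product. -/
theorem i5_prod {F : GG (k + 1) ℚ → ℝ≥0∞} (hF : Measurable F) :
    IB F = ∫⁻ p : (Fin k → ℝ) × (UI (k + 1) → ℝ), F (bG p.2 p.1) * ENNReal.ofReal (dl p.1)⁻¹ := by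
  rw [show (volume : Measure ((Fin k → ℝ) × (UI (k + 1) → ℝ))) = volume.prod volume from rfl, lintegral_prod _ (i5_meas hF).aemeasurable]
  rfl

theorem i5_box {t : Fin k → ℝ} {c : ℝ} (h1 : ∀ l, -c ≤ t l) (h2 : ∑ l, t l ≤ c) (l : Fin k) : |t l| ≤ ((k : ℝ) + 1) * c := by
  have h3 : 0 ≤ ((k : ℝ) + 1) * c := by
    have h4 : ∑ l : Fin k, (-c) ≤ ∑ l, t l := Finset.sum_le_sum fun l _ => h1 l
    rw [Finset.sum_const, Finset.card_univ, Fintype.card_fin, nsmul_eq_mul] at h4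
    nlinarith
  have hc : 0 ≤ c := by
    have hk : (0 : ℝ) < (k : ℝ) + 1 := by positivity
    by_contra hc
    push Not at hc
    nlinarith
  rw [abs_le]
  constructor
  · have := h1 l
    have hk : (0 : ℝ) ≤ (k : ℝ) := by positivity
    nlinarith
  · have h4 : ∑ i ∈ Finset.univ.erase l, (-c) ≤ ∑ i ∈ Finset.univ.erase l, t i := Finset.sum_le_sum fun l _ => h1 l
    have h5 := Finset.add_sum_erase Finset.univ t (Finset.mem_univ l)
    rw [Finset.sum_const, nsmul_eq_mul] at h4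
    have h6 : ((Finset.univ.erase l).card : ℝ) ≤ (k : ℝ) := by
      have := Finset.card_le_card (Finset.erase_subset l Finset.univ)
      rw [Finset.card_univ, Fintype.card_fin] at this
      exact_mod_cast this
    nlinarith

theorem i5_bounds {σ : UI (k + 1) → ℝ} {t : Fin k → ℝ} {R : ℝ} (h : fro (bG σ t)⁻¹ ≤ R) :
    (∀ i, (av t i ^ 2)⁻¹ ≤ R) ∧ (∀ p, (av t p.1.1 ^ 2)⁻¹ * σ p ^ 2 ≤ R) := by
  rw [fro_bG] at h
  have h1 : ∀ i, 0 ≤ (av t i ^ 2)⁻¹ := fun i => by positivity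
  have h2 : ∀ p : UI (k + 1), 0 ≤ (av t p.1.1 ^ 2)⁻¹ * σ p ^ 2 := fun p => mul_nonneg (h1 _) (sq_nonneg _)
  have h3 : 0 ≤ ∑ i, (av t i ^ 2)⁻¹ := Finset.sum_nonneg fun i _ => h1 i
  have h4 : 0 ≤ ∑ p : UI (k + 1), (av t p.1.1 ^ 2)⁻¹ * σ p ^ 2 := Finset.sum_nonneg fun p _ => h2 p
  constructor
  · intro i
    have := Finset.single_le_sum (fun i _ => h1 i) (Finset.mem_univ i)
    linarith
  · intro p
    have := Finset.single_le_sum (fun p _ => h2 p) (Finset.mem_univ p)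
    linarith

theorem i5_log {x R : ℝ} (h : ((Real.exp x) ^ 2)⁻¹ ≤ R) : -(Real.log R / 2) ≤ x := by
  have h1 : ((Real.exp x) ^ 2)⁻¹ = Real.exp (-2 * x) := by
    rw [← Real.exp_nat_mul, ← Real.exp_neg]
    congr 1
    push_cast
    ring
  rw [h1] at h
  have h2 := Real.log_le_log (Real.exp_pos _) h
  rw [Real.log_exp] at h2
  linarith

/-- The compact set of `t`. -/
theorem i5_t {σ : UI (k + 1) → ℝ} {t : Fin k → ℝ} {R : ℝ} (hR : 1 ≤ R) (h : fro (bG σ t)⁻¹ ≤ R) :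
    t ∈ Metric.closedBall (0 : Fin k → ℝ) (((k : ℝ) + 1) * (Real.log R / 2)) := by
  have h1 := (i5_bounds h).1
  rw [Metric.mem_closedBall, dist_zero_right]
  have hR0 : 0 ≤ Real.log R := Real.log_nonneg hR
  rw [pi_norm_le_iff_of_nonneg (by positivity)]
  intro l
  rw [Real.norm_eq_abs]
  refine i5_box (fun l => ?_) ?_ l
  · have h2 := h1 l.castSucc
    rw [av_cs] at h2
    exact i5_log h2
  · have h2 := h1 (Fin.last k)
    rw [av_last] at h2
    have := i5_log h2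
    linarith

theorem ps_c1 : IB (fun x : GG (k + 1) ℚ => ps x⁻¹) ≠ ⊤ := by
  set R : ℝ := ((k + 1 : ℕ) : ℝ) + 1 with hRd
  have hR : 1 ≤ R := by
    rw [hRd]
    have : (0 : ℝ) ≤ ((k + 1 : ℕ) : ℝ) := by positivity
    linarith
  set T : Set (Fin k → ℝ) := Metric.closedBall (0 : Fin k → ℝ) (((k : ℝ) + 1) * (Real.log R / 2)) with hT
  have hTc : IsCompact T := isCompact_closedBall _ _
  obtain ⟨M, hM⟩ : ∃ M : ℝ, ∀ t ∈ T, ∀ i, av t i ^ 2 ≤ M := by
    obtain ⟨M, hM⟩ := (hTc.image (show Continuous fun t : Fin k → ℝ => ∑ i, av t i ^ 2 from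
      continuous_finsetSum _ fun i _ => (av_cont i).pow 2)).bddAbove
    refine ⟨M, fun t ht i => ?_⟩
    have h1 : ∑ i, av t i ^ 2 ≤ M := hM ⟨t, ht, rfl⟩
    have h2 := Finset.single_le_sum (f := fun i => av t i ^ 2) (fun i _ => sq_nonneg _) (Finset.mem_univ i)
    exact h2.trans h1
  obtain ⟨D, hD⟩ : ∃ D : ℝ, ∀ t ∈ T, (dl t)⁻¹ ≤ D := by
    obtain ⟨D, hD⟩ := (hTc.image (show Continuous fun t : Fin k → ℝ => (dl t)⁻¹ from
      dl_cont.inv₀ fun t => (dl_pos t).ne')).bddAbove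
    exact ⟨D, fun t ht => hD ⟨t, ht, rfl⟩⟩
  set S : Set (UI (k + 1) → ℝ) := Metric.closedBall 0 (R * |M| + 1) with hS
  have hbd : ∀ (t : Fin k → ℝ) (σ : UI (k + 1) → ℝ), ps (bG σ t)⁻¹ * ENNReal.ofReal (dl t)⁻¹ ≤
      (T.indicator (fun _ => ENNReal.ofReal D) t) * (S.indicator (fun _ => 1) σ) := by
    intro t σ
    by_cases hf : fro (bG σ t)⁻¹ ≤ R
    · have ht : t ∈ T := i5_t hR hf
      have hσ : σ ∈ S := by
        rw [hS, Metric.mem_closedBall, dist_zero_right, pi_norm_le_iff_of_nonneg (by positivity)]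
        intro p
        rw [Real.norm_eq_abs]
        have h1 := (i5_bounds hf).2 p
        have h2 := hM t ht p.1.1
        have h3 : 0 < av t p.1.1 ^ 2 := by
          have := av_pos t p.1.1
          positivity
        have h4 : σ p ^ 2 ≤ R * |M| := by
          rw [inv_mul_le_iff₀ h3] at h1
          have h5 : av t p.1.1 ^ 2 * R ≤ |M| * R := by
            refine mul_le_mul_of_nonneg_right (h2.trans (le_abs_self M)) (by linarith)
          linarith
        have h5 : |σ p| ^ 2 = σ p ^ 2 := sq_abs _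
        nlinarith [abs_nonneg (σ p), abs_nonneg M, sq_nonneg (|σ p| - 1)]
      rw [Set.indicator_of_mem ht, Set.indicator_of_mem hσ, mul_one]
      have h6 : (ps (bG σ t)⁻¹ : ℝ≥0∞) ≤ 1 := i5_ps1 _
      calc ps (bG σ t)⁻¹ * ENNReal.ofReal (dl t)⁻¹ ≤ 1 * ENNReal.ofReal D :=
            mul_le_mul' h6 (ENNReal.ofReal_le_ofReal (hD t ht))
        _ = ENNReal.ofReal D := one_mul _
    · have : ps (bG σ t)⁻¹ = 0 := i5_psz hf
      rw [this, zero_mul]
      exact bot_le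
  have hle : IB (fun x : GG (k + 1) ℚ => ps x⁻¹) ≤ ∫⁻ t : Fin k → ℝ, ∫⁻ σ : UI (k + 1) → ℝ,
      (T.indicator (fun _ => ENNReal.ofReal D) t) * (S.indicator (fun _ => 1) σ) := by
    unfold IB
    refine lintegral_mono fun t => lintegral_mono fun σ => ?_
    exact hbd t σ
  refine ne_top_of_le_ne_top ?_ hle
  have hTm : MeasurableSet T := hTc.isClosed.measurableSet
  have hSm : MeasurableSet S := Metric.isClosed_closedBall.measurableSet
  have h1 : ∀ t : Fin k → ℝ, ∫⁻ σ : UI (k + 1) → ℝ, (T.indicator (fun _ => ENNReal.ofReal D) t) * (S.indicator (fun _ => 1) σ) =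
      (T.indicator (fun _ => ENNReal.ofReal D) t) * volume S := by
    intro t
    rw [lintegral_const_mul _ (measurable_const.indicator hSm), lintegral_indicator hSm]
    simp
  rw [lintegral_congr h1, lintegral_mul_const _ (measurable_const.indicator hTm), lintegral_indicator hTm, setLIntegral_const]
  refine ENNReal.mul_ne_top (ENNReal.mul_ne_top ENNReal.ofReal_ne_top hTc.measure_lt_top.ne) ?_
  exact (isCompact_closedBall (0 : UI (k + 1) → ℝ) (R * |M| + 1)).measure_lt_top.ne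

theorem ps_one {g : GG n ℚ} (h : fro g < (n : ℝ) + 1) : ps g = 1 := i5_pso h.le

theorem ps_c1' : IB (fun x : GG (k + 1) ℚ => ps x⁻¹) ≠ 0 := by
  have hm : Measurable fun x : GG (k + 1) ℚ => (ps x⁻¹ : ℝ≥0∞) := ps_meas.comp measurable_inv
  rw [i5_prod hm]
  refine (pos_iff_ne_zero.1 ?_)
  rw [lintegral_pos_iff_support (i5_meas hm)]
  set U : Set ((Fin k → ℝ) × (UI (k + 1) → ℝ)) := {p | fro (bG p.2 p.1)⁻¹ < ((k + 1 : ℕ) : ℝ) + 1} with hU
  have hUo : IsOpen U := isOpen_lt (fro_cont.comp bG_cont.inv) continuous_const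
  have hUn : U.Nonempty := by
    refine ⟨(0, 0), ?_⟩
    show fro (bG (0 : UI (k + 1) → ℝ) (0 : Fin k → ℝ))⁻¹ < _
    rw [fro_bG]
    simp only [av_zero, Pi.zero_apply]
    simp
  refine (hUo.measure_pos volume hUn).trans_le (measure_mono ?_)
  intro p hp
  rw [Function.mem_support]
  rw [ps_one hp, one_mul]
  have h1 : 0 < (dl p.1)⁻¹ := inv_pos.2 (dl_pos _)
  exact (ENNReal.ofReal_pos.2 h1).ne'

/-- `a(g)^(2ρ)`. -/
def dg2 (g : GG (k + 1) ℚ) : ℝ := ∏ p : UI (k + 1), ia g p.1.1 / ia g p.1.2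

theorem dg2_bG (σ : UI (k + 1) → ℝ) (t : Fin k → ℝ) {κ : GG (k + 1) ℚ} (hκ : IsK κ) : dg2 (bG σ t * κ) = dl t := by
  unfold dg2 dl bG
  rw [ia_iwa σ t hκ]

theorem dg2_cont : Continuous (dg2 : GG (k + 1) ℚ → ℝ) := by
  refine continuous_finsetProd _ fun p _ => ?_
  exact (ia_cont _).div (ia_cont _) fun g => (ia_pos g _).ne'

theorem dg2_pos (g : GG (k + 1) ℚ) : 0 < dg2 g := Finset.prod_pos fun _ _ => div_pos (ia_pos _ _) (ia_pos _ _)

/-- PROOF. `ps` is the indicator of a compact set with nonempty interior (it contains a neighbourhood of `1`), `dg2` is continuous and positive. -/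
theorem ps_c2 (μ : Measure (GG (k + 1) ℚ)) [μ.IsHaarMeasure] : ∫⁻ g, ps g * ENNReal.ofReal (dg2 g) ∂μ ≠ ⊤ ∧
    ∫⁻ g, ps g * ENNReal.ofReal (dg2 g) ∂μ ≠ 0 := by
  constructor
  · set Cc : Set (GG (k + 1) ℚ) := {g | fro g ≤ ((k + 1 : ℕ) : ℝ) + 1} with hC
    have hCc : IsCompact Cc := fro_cpt _
    obtain ⟨D, hD⟩ : ∃ D : ℝ, ∀ g ∈ Cc, dg2 g ≤ D := by
      obtain ⟨D, hD⟩ := (hCc.image dg2_cont).bddAbove
      exact ⟨D, fun t ht => hD ⟨t, ht, rfl⟩⟩
    have hle : ∫⁻ g, ps g * ENNReal.ofReal (dg2 g) ∂μ ≤ ∫⁻ g, Cc.indicator (fun _ => ENNReal.ofReal D) g ∂μ := by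
      refine lintegral_mono fun g => ?_
      by_cases hg : g ∈ Cc
      · rw [Set.indicator_of_mem hg]
        have h1 : (ps g : ℝ≥0∞) = 1 := i5_pso hg
        show ps g * ENNReal.ofReal (dg2 g) ≤ _
        rw [h1, one_mul]
        exact ENNReal.ofReal_le_ofReal (hD g hg)
      · have h1 : (ps g : ℝ≥0∞) = 0 := by
          unfold ps
          exact Set.indicator_of_notMem hg _
        show ps g * ENNReal.ofReal (dg2 g) ≤ _
        rw [h1, zero_mul]
        exact bot_le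
    refine ne_top_of_le_ne_top ?_ hle
    rw [lintegral_indicator hCc.isClosed.measurableSet, setLIntegral_const]
    exact ENNReal.mul_ne_top ENNReal.ofReal_ne_top hCc.measure_lt_top.ne
  · refine (pos_iff_ne_zero.1 ?_)
    have hm : Measurable fun g : GG (k + 1) ℚ => ps g * ENNReal.ofReal (dg2 g) := ps_meas.mul dg2_cont.measurable.ennreal_ofReal
    rw [lintegral_pos_iff_support hm]
    set U : Set (GG (k + 1) ℚ) := {g | fro g < ((k + 1 : ℕ) : ℝ) + 1} with hU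
    have hUo : IsOpen U := isOpen_lt fro_cont continuous_const
    have hUn : U.Nonempty := ⟨1, by
      show fro (1 : GG (k + 1) ℚ) < _
      rw [fro_one]
      linarith⟩
    refine (hUo.measure_pos μ hUn).trans_le (measure_mono ?_)
    intro g hg
    rw [Function.mem_support]
    rw [ps_one hg, one_mul]
    exact (ENNReal.ofReal_pos.2 (dg2_pos g)).ne'

end

end Pool.Agent.Lib.H85A
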