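import Pool.Agent.Lib.H85A.I5

/-!
# H85A, I6: **the Haar measure in Iwasawa coordinates**
-/

namespace Pool.Agent.Lib.H85A

open MeasureTheory Matrix NumberField
open Pool.Agent.Lib.H89N Pool.Agent.Lib.H85S Pool.Agent.Lib.H33W
open scoped ENNReal

noncomputable section

variable {n k : ℕ}

theorem i6_ps_rk : RK (ps : GG n ℚ → ℝ≥0∞) := by
  intro κ hκ x
  by_cases h : fro x ≤ (n : ℝ) + 1
  · rw [i5_pso h, i5_pso (by rw [fro_kr hκ]; exact h)]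
  · rw [i5_psz h, i5_psz (by rw [fro_kr hκ]; exact h)]

theorem i6_iwa (g : GG (k + 1) ℚ) : ∃ (τ : UI (k + 1) → ℝ) (s : Fin k → ℝ) (κ : GG (k + 1) ℚ), IsK κ ∧ g = bG τ s * κ := iwa g

/-- Step (1). -/
theorem i6_c1 (g : GG (k + 1) ℚ) : IB (fun x : GG (k + 1) ℚ => ps (x⁻¹ * g)) = IB (fun x : GG (k + 1) ℚ => ps x⁻¹) := by
  obtain ⟨τ, s, κ, hκ, rfl⟩ := i6_iwa g
  have hm : Measurable fun x : GG (k + 1) ℚ => (ps (x⁻¹ * bG τ s) : ℝ≥0∞) := ps_meas.comp (measurable_inv.mul_const _)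
  have h1 := ib_left τ s hm
  have h2 : (fun x : GG (k + 1) ℚ => (ps (x⁻¹ * (bG τ s * κ)) : ℝ≥0∞)) = fun x => ps (x⁻¹ * bG τ s) := by
    funext x
    rw [← mul_assoc]
    exact i6_ps_rk κ hκ _
  rw [h2, ← h1]
  congr 1
  funext x
  show ps ((bG τ s * x)⁻¹ * bG τ s) = ps x⁻¹
  rw [_root_.mul_inv_rev, mul_assoc, inv_mul_cancel, mul_one]

/-- Step (2). -/
theorem i6_c2 {F : GG (k + 1) ℚ → ℝ≥0∞} (hF : Measurable F) (hR : RK F) (g : GG (k + 1) ℚ) :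
    IB (fun x : GG (k + 1) ℚ => F (x * g)) = ENNReal.ofReal (dg2 g) * IB F := by
  obtain ⟨τ, s, κ, hκ, rfl⟩ := i6_iwa g
  have h2 : (fun x : GG (k + 1) ℚ => F (x * (bG τ s * κ))) = fun x => F (x * bG τ s) := by
    funext x
    rw [← mul_assoc]
    exact hR κ hκ _
  rw [h2, ib_right τ s hF, dg2_bG τ s hκ]

/-- The interchange of the integrals. -/
theorem i6_swap (μ : Measure (GG (k + 1) ℚ)) [μ.IsHaarMeasure] {F : GG (k + 1) ℚ → ℝ≥0∞} (hF : Measurable F) :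
    ∫⁻ g, F g * IB (fun x : GG (k + 1) ℚ => ps (x⁻¹ * g)) ∂μ = ∫⁻ g, ps g * IB (fun x : GG (k + 1) ℚ => F (x * g)) ∂μ := by
  have hw : Measurable fun p : (Fin k → ℝ) × (UI (k + 1) → ℝ) => ENNReal.ofReal (dl p.1)⁻¹ :=
    ((dl_cont.comp continuous_fst).measurable.inv).ennreal_ofReal
  have hb : Measurable fun p : (Fin k → ℝ) × (UI (k + 1) → ℝ) => bG p.2 p.1 := bG_cont.measurable
  have h1 : ∀ g : GG (k + 1) ℚ, F g * IB (fun x : GG (k + 1) ℚ => ps (x⁻¹ * g)) =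
      ∫⁻ p : (Fin k → ℝ) × (UI (k + 1) → ℝ), F g * (ps ((bG p.2 p.1)⁻¹ * g) * ENNReal.ofReal (dl p.1)⁻¹) := by
    intro g
    have hm : Measurable fun x : GG (k + 1) ℚ => (ps (x⁻¹ * g) : ℝ≥0∞) := ps_meas.comp (measurable_inv.mul_const _)
    rw [i5_prod hm, lintegral_const_mul _ (i5_meas hm)]
  have h2 : ∀ g : GG (k + 1) ℚ, ps g * IB (fun x : GG (k + 1) ℚ => F (x * g)) =
      ∫⁻ p : (Fin k → ℝ) × (UI (k + 1) → ℝ), ps g * (F (bG p.2 p.1 * g) * ENNReal.ofReal (dl p.1)⁻¹) := by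
    intro g
    have hm : Measurable fun x : GG (k + 1) ℚ => F (x * g) := hF.comp (measurable_id.mul_const _)
    rw [i5_prod hm, lintegral_const_mul _ (i5_meas hm)]
  have m1 : Measurable (Function.uncurry fun (g : GG (k + 1) ℚ) (p : (Fin k → ℝ) × (UI (k + 1) → ℝ)) =>
      F g * (ps ((bG p.2 p.1)⁻¹ * g) * ENNReal.ofReal (dl p.1)⁻¹)) := by
    refine (hF.comp measurable_fst).mul ((ps_meas.comp ?_).mul (hw.comp measurable_snd))
    exact ((hb.comp measurable_snd).inv).mul measurable_fst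
  have m2 : Measurable (Function.uncurry fun (g : GG (k + 1) ℚ) (p : (Fin k → ℝ) × (UI (k + 1) → ℝ)) =>
      ps g * (F (bG p.2 p.1 * g) * ENNReal.ofReal (dl p.1)⁻¹)) := by
    refine (ps_meas.comp measurable_fst).mul ((hF.comp ?_).mul (hw.comp measurable_snd))
    exact (hb.comp measurable_snd).mul measurable_fst
  rw [lintegral_congr h1, lintegral_congr h2, lintegral_lintegral_swap m1.aemeasurable]
  refine Eq.trans ?_ (lintegral_lintegral_swap (μ := μ) (ν := (volume : Measure ((Fin k → ℝ) × (UI (k + 1) → ℝ)))) m2.aemeasurable).symm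
  refine lintegral_congr fun p => ?_
  have h3 := lintegral_mul_left_eq_self (μ := μ) (fun g => F g * (ps ((bG p.2 p.1)⁻¹ * g) * ENNReal.ofReal (dl p.1)⁻¹)) (bG p.2 p.1)
  rw [← h3]
  refine lintegral_congr fun g => ?_
  rw [inv_mul_cancel_left]
  ring

/-- PROOF. `D = ∫⁻ g, F g * IB (fun x => ps (x⁻¹ * g)) ∂μ`. (1) For fixed `g = bG τ s * κ` (`iwa`): `ps (x⁻¹ * g) = ps (x⁻¹ * bG τ s)` (`fro_kr`), and by `ib_left` (replace `x` by `bG τ s * x`) `IB (fun x => ps (x⁻¹ * bG τ s)) = IB (fun x => ps x⁻¹) =: c1`: `D = c1 * ∫⁻ F`.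
(2) Interchange the integrals (`lintegral_lintegral_swap`; all functions are measurable, `μ` is σ-finite): `D = ∫⁻ t, ∫⁻ σ, (∫⁻ g, F g * ps (x⁻¹ * g) ∂μ) * (dl t)⁻¹` with `x = bG σ t`, `g ↦ x * g` (`lintegral_mul_left_eq_self`): `∫⁻ g, F (x * g) * ps g ∂μ`; interchange again: `D = ∫⁻ g, ps g * IB (fun x => F (x * g)) ∂μ`.
For `g = bG τ s * κ`: `F (x * g) = F (x * bG τ s)` (`RK F`), `IB (fun x => F (x * g)) = ofReal (dl s) * IB F = ofReal (dg2 g) * IB F` (`ib_right`, `dg2_bG`). So `D = c2 * IB F`, `c2 = ∫⁻ ps * ofReal dg2`. `c = c2 / c1`. -/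
theorem iwa_lint (μ : Measure (GG (k + 1) ℚ)) [μ.IsHaarMeasure] : ∃ c : ℝ, 0 < c ∧ ∀ F : GG (k + 1) ℚ → ℝ≥0∞, Measurable F → RK F →
    ∫⁻ x, F x ∂μ = ENNReal.ofReal c * IB F := by
  obtain ⟨h2t, h20⟩ := ps_c2 μ
  have h1t := ps_c1 (k := k)
  have h10 := ps_c1' (k := k)
  set c1 : ℝ≥0∞ := IB (fun x : GG (k + 1) ℚ => ps x⁻¹) with hc1
  set c2 : ℝ≥0∞ := ∫⁻ g, ps g * ENNReal.ofReal (dg2 g) ∂μ with hc2
  have hq : c2 / c1 ≠ ⊤ := ENNReal.div_ne_top h2t h10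
  have hq0 : c2 / c1 ≠ 0 := by
    rw [Ne, ENNReal.div_eq_zero_iff]
    push Not
    exact ⟨h20, h1t⟩
  refine ⟨(c2 / c1).toReal, ENNReal.toReal_pos hq0 hq, fun F hF hR => ?_⟩
  rw [ENNReal.ofReal_toReal hq]
  have h := i6_swap μ hF
  rw [lintegral_congr fun g => by rw [i6_c1 g], lintegral_mul_const _ hF] at h
  have h3 : ∫⁻ g, ps g * IB (fun x : GG (k + 1) ℚ => F (x * g)) ∂μ = c2 * IB F := by
    have hm : Measurable fun g : GG (k + 1) ℚ => ps g * ENNReal.ofReal (dg2 g) := ps_meas.mul dg2_cont.measurable.ennreal_ofReal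
    rw [hc2, ← lintegral_mul_const _ hm]
    refine lintegral_congr fun g => ?_
    rw [i6_c2 hF hR, ← mul_assoc]
  rw [h3, ← hc1] at h
  calc ∫⁻ x, F x ∂μ = ((∫⁻ x, F x ∂μ) * c1) / c1 := (ENNReal.mul_div_cancel_right h10 h1t).symm
    _ = c2 * IB F / c1 := by rw [h]
    _ = c2 / c1 * IB F := by rw [ENNReal.mul_div_right_comm]

end

end Pool.Agent.Lib.H85A
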