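import Pool.Agent.Lib.H33N.L7
import Pool.Agent.Lib.H33N.D1
import Pool.Agent.Lib.H33N.D5

/-!
# H85A, L1: the large sieve inequality without Hecke operators
-/

namespace Pool.Agent.Lib.H85A

open MeasureTheory Matrix NumberField IsDedekindDomain
open Pool.Agent.Lib.H89N Pool.Agent.Lib.H85S Pool.Agent.Lib.H33W Pool.Agent.Lib.H33N
open scoped ENNReal

noncomputable section

variable {n k : ℕ}

/-- The `L²` norm of a combination of orthonormal functions. -/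
theorem l1_norm {X : Type} [MeasurableSpace X] {ρ : Measure X} {m : ℕ} {f : Fin m → X → ℂ} (lf : ∀ i, MemLp (f i) 2 ρ)
    (on : ∀ i k, ∫ x, star (f i x) * f k x ∂ρ = if i = k then 1 else 0) (c : Fin m → ℂ) :
    ∫⁻ x, ENNReal.ofReal (‖∑ i, c i * f i x‖ ^ 2) ∂ρ = ENNReal.ofReal (∑ i, ‖c i‖ ^ 2) := by
  have lg : MemLp (fun y => ∑ i, c i * f i y) 2 ρ := memLp_finsetSum _ fun i _ => (lf i).const_mul (c i)
  have nn : ∀ z : ℂ, star z * z = ((‖z‖ ^ 2 : ℝ) : ℂ) := fun z => by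
    rw [Complex.star_def, mul_comm, Complex.mul_conj, Complex.normSq_eq_norm_sq]
  have hi : Integrable (fun x => ‖∑ i, c i * f i x‖ ^ 2) ρ := lg.integrable_norm_pow (by norm_num)
  have e0 : ∫⁻ x, ENNReal.ofReal (‖∑ i, c i * f i x‖ ^ 2) ∂ρ = ENNReal.ofReal (∫ x, ‖∑ i, c i * f i x‖ ^ 2 ∂ρ) :=
    (ofReal_integral_eq_lintegral_ofReal hi (ae_of_all _ fun x => by positivity)).symm
  rw [e0]
  congr 1
  apply Complex.ofReal_injective
  have e1 : ((∫ x, ‖∑ i, c i * f i x‖ ^ 2 ∂ρ : ℝ) : ℂ) = ∫ x, star (∑ i, c i * f i x) * ∑ k, c k * f k x ∂ρ := by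
    simp only [nn]
    exact integral_ofReal.symm
  rw [e1]
  have h2 : ∀ x, star (∑ i, c i * f i x) * ∑ k, c k * f k x =
      ∑ i, ∑ k, (star (c i) * c k) * (star (f i x) * f k x) := by
    intro x
    rw [star_sum, Finset.sum_mul]
    refine Finset.sum_congr rfl fun i _ => ?_
    rw [Finset.mul_sum]
    refine Finset.sum_congr rfl fun k _ => ?_
    rw [star_mul']
    ring
  simp only [h2]
  have hii : ∀ i k, Integrable (fun x => (star (c i) * c k) * (star (f i x) * f k x)) ρ := fun i k => by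
    refine Integrable.const_mul ?_ _
    have h3 : MemLp (fun x => star (f i x)) 2 ρ := (lf i).star
    exact h3.integrable_mul (lf k)
  rw [integral_finsetSum _ fun i _ => integrable_finsetSum _ fun k _ => hii i k]
  push_cast
  refine Finset.sum_congr rfl fun i _ => ?_
  rw [integral_finsetSum _ fun k _ => hii i k, Finset.sum_eq_single i]
  · rw [integral_const_mul, on i i, if_pos rfl, mul_one, nn]
    push_cast
    rfl
  · intro k _ hk
    rw [integral_const_mul, on i k, if_neg hk.symm, mul_zero]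
  · intro h
    exact absurd (Finset.mem_univ i) h

/-- PROOF. The proof of `star_q` (`H33N.L7`) with `k = 0`, without the Hecke algebra: `ls_q` (`H33N.L6`) for `δ = 1`, `k = 0`, `Γ' = Gamma n (nI N)` (`gd_gam`; a strict fundamental domain by `exists_sf_gd`), `cI_zero`, `d5_wh` (`Wh = Mn`) for `h = ∑ c_i f_i`, `c_i = conj l_i`, `l_i = ∫ Wh (f_i) (x z) φ z`:
`S = ∑ ‖l_i‖² = ∫ Wh h (x z) φ z` (`wh_sum`), `S² ≤ (∫ ‖φ‖²) ∫_(x Om) ‖Wh h‖²` (`e1_cs`) `≤ (∫ ‖φ‖²) C B ∫_F ‖h‖² = (∫ ‖φ‖²) C B S` (orthonormality; the integrals over the two fundamental domains of `Gamma n (nI N)` agree). `Module.finrank ℚ ℚ = 1`, `nI_norm`. -/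
theorem star_0 (hn : 2 ≤ n) (μ : Measure (GG n ℚ)) [μ.IsHaarMeasure] {Ω : Set (GG n ℚ)} (hΩ : IsCompact Ω) {C0 : ℝ}
    (hC0 : 0 ≤ C0) : ∃ C : ℝ, 0 < C ∧ ∀ (v : HeightOneSpectrum (𝓞 ℚ)) (N : ℕ), N ≠ 0 →
    ∀ {φ : GG n ℚ → ℂ}, Continuous φ → HasCompactSupport φ → (∀ z, φ z ≠ 0 → z ∈ Om n C0) →
    ∀ θ : Fin n → (EE ℚ →ₗ[ℝ] ℝ), Chr (nI N) v θ → ∀ a : Fin n → ℝ, (∀ i, 0 < a i) → (∏ i, a i = 1) → ∀ x, InRange Ω a x →
    ∀ F : Set (GG n ℚ), IsFundamentalDomain (Gamma n (nI N)) F μ →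
    ∀ (m : ℕ) (f : Fin m → GG n ℚ → ℂ), (∀ i, AutN (nI N) μ F (f i)) →
    (∀ i k, ∫ x in F, star (f i x) * f k x ∂μ = if i = k then 1 else 0) →
    ∑ i, ‖∫ z, Wh N θ (f i) (x * z) * φ z ∂μ‖ ^ 2 ≤
      C * (∫ z, ‖φ z‖ ^ 2 ∂μ) * (Mc hn (nI N) a 1 * ∏ p : UI n, (a p.1.1 / a p.1.2 / (N : ℝ))) := by
  classical
  obtain ⟨C₀, hC₀, hL⟩ := ls_q hn μ hΩ hC0
  refine ⟨C₀, hC₀, ?_⟩
  intro v N hN φ hφ hc hsupp θ hθ a ha hprod x hx F hF m f hA on
  have hts : tsupport φ ⊆ Om n C0 := by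
    refine closure_minimal ?_ (om_compact _).isClosed
    intro z hz
    exact hsupp z hz
  have hct : Countable (SLK n ℚ) := e3_ct n ℚ
  obtain ⟨P, hP⟩ : ∃ P : ℝ, P = ∫ z, ‖φ z‖ ^ 2 ∂μ := ⟨_, rfl⟩
  have hP0 : 0 ≤ P := by
    rw [hP]
    exact integral_nonneg fun z => by positivity
  rw [← hP]
  obtain ⟨B, hB⟩ : ∃ B : ℝ, B = Mc hn (nI N) a 1 * ∏ p : UI n, (a p.1.1 / a p.1.2 / (N : ℝ)) := ⟨_, rfl⟩
  have hB0 : 0 ≤ B := by
    rw [hB]
    have h3 : 0 ≤ ∏ p : UI n, (a p.1.1 / a p.1.2 / (N : ℝ)) := by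
      refine Finset.prod_nonneg fun p _ => ?_
      have h1 := ha p.1.1
      have h2 := ha p.1.2
      positivity
    have h4 : 0 ≤ Mc hn (nI N) a 1 := zero_le_one.trans (one_le_Mc hn (nI N) ha (by positivity))
    positivity
  rw [← hB]
  have hG : Gd (n := n) (nI N) v 0 (Gamma n (nI N)) := gd_gam _ _
  obtain ⟨F', hF'⟩ := exists_sf_gd hG
  obtain ⟨l, hldef⟩ : ∃ l : Fin m → ℂ, l = fun i => ∫ z, Wh N θ (f i) (x * z) * φ z ∂μ := ⟨_, rfl⟩
  obtain ⟨c, hcdef⟩ : ∃ c : Fin m → ℂ, c = fun i => star (l i) := ⟨_, rfl⟩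
  obtain ⟨g, hgdef⟩ : ∃ g : GG n ℚ → ℂ, g = fun y => ∑ i, c i * f i y := ⟨_, rfl⟩
  have hgc : Continuous g := by
    rw [hgdef]
    exact continuous_finsetSum _ fun i _ => continuous_const.mul (hA i).cont
  have hgi : ∀ γ ∈ Gamma n (nI N), ∀ y, g (emb γ * y) = g y := by
    intro γ hγ y
    rw [hgdef]
    exact Finset.sum_congr rfl fun i _ => by rw [(hA i).inv γ hγ y]
  have hgCI : CI N g := ⟨hgc, hgi⟩
  have hL' := hL 1 one_pos le_rfl v (nI N) 0 (nI_ne hN) θ hθ a ha hprod x hx (Gamma n (nI N)) hG F' hF' g hgc hgi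
  rw [cI_zero, mul_one, one_pow, one_mul, pow_zero, one_pow, div_one, nI_norm, Module.finrank_self] at hL'
  simp only [pow_one] at hL'
  rw [← hB] at hL'
  obtain ⟨S, hSdef⟩ : ∃ S : ℝ, S = ∑ i, ‖l i‖ ^ 2 := ⟨_, rfl⟩
  have hS0 : 0 ≤ S := by
    rw [hSdef]
    exact Finset.sum_nonneg fun i _ => by positivity
  have hgF : ∫⁻ y in F', ENNReal.ofReal (‖g y‖ ^ 2) ∂μ = ENNReal.ofReal S := by
    have h1 : ∫⁻ y in F', ENNReal.ofReal (‖g y‖ ^ 2) ∂μ = ∫⁻ y in F, ENNReal.ofReal (‖g y‖ ^ 2) ∂μ := by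
      refine (SF.isFD hF' μ).setLIntegral_eq hF _ fun γ y => ?_
      show ENNReal.ofReal (‖g (emb γ.1 * y)‖ ^ 2) = ENNReal.ofReal (‖g y‖ ^ 2)
      rw [hgi γ.1 γ.2 y]
    rw [h1, hgdef]
    have h2 := l1_norm (ρ := μ.restrict F) (fun i => (hA i).l2) on c
    rw [h2, hSdef, hcdef]
    congr 1
    exact Finset.sum_congr rfl fun i _ => by rw [norm_star]
  obtain ⟨J, hJdef⟩ : ∃ J : ℂ, J = ∫ z, Mn (fun _ => nI N) θ g (x * z) * φ z ∂μ := ⟨_, rfl⟩
  have key1 : (S : ℂ) = J := by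
    have e1 : ∀ z, Mn (fun _ => nI N) θ g z = ∑ i, c i * Wh N θ (f i) z := by
      intro z
      rw [← d5_wh hgCI hN hθ z, hgdef]
      exact wh_sum N θ (fun i => (hA i).cont) c z
    have e4 : ∀ i, ((‖l i‖ : ℂ)) ^ 2 = ∫ z, c i * (Wh N θ (f i) (x * z) * φ z) ∂μ := by
      intro i
      have h1 : ∫ z, Wh N θ (f i) (x * z) * φ z ∂μ = l i := by rw [hldef]
      have h2 : (‖l i‖ : ℂ) ^ 2 = l i * star (l i) := by
        rw [Complex.star_def, Complex.mul_conj, Complex.normSq_eq_norm_sq]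
        push_cast
        rfl
      rw [integral_const_mul, h1, h2, hcdef]
      ring
    rw [hSdef]
    push_cast
    rw [Finset.sum_congr rfl fun i _ => e4 i, ← integral_finsetSum, hJdef]
    · congr 1
      ext z
      rw [e1, Finset.sum_mul]
      exact Finset.sum_congr rfl fun i _ => by ring
    · intro i _
      refine Integrable.const_mul ?_ _
      refine Continuous.integrable_of_hasCompactSupport ?_ hc.mul_left
      exact ((wh_cont N θ (hA i).cont).comp (continuous_const_mul x)).mul hφ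
  have key2 : ENNReal.ofReal (‖J‖ ^ 2) ≤ ENNReal.ofReal P * (ENNReal.ofReal (C₀ * B) * ENNReal.ofReal S) := by
    have h1 := e1_cs μ (W := Mn (fun _ => nI N) θ g) (mn_cont (fun _ => nI_ne hN) θ hgc) hφ hc x
    rw [← hJdef, ← hP] at h1
    refine h1.trans (mul_le_mul_right ?_ _)
    refine (lintegral_mono_set (Set.image_mono hts)).trans ?_
    rw [← hgF]
    exact hL'
  have key3 : ‖J‖ ^ 2 ≤ P * (C₀ * B * S) := by
    have h1 : 0 ≤ C₀ * B := by positivity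
    rw [← ENNReal.ofReal_mul h1, ← ENNReal.ofReal_mul hP0] at key2
    exact (ENNReal.ofReal_le_ofReal_iff (by positivity)).1 key2
  have key4 : ‖J‖ = S := by
    rw [← key1, Complex.norm_real, Real.norm_of_nonneg hS0]
  rw [key4] at key3
  have key5 : S ≤ C₀ * P * B := by
    rcases hS0.eq_or_lt with h1 | h1
    · rw [← h1]
      positivity
    · have h2 : S * S ≤ C₀ * P * B * S := by
        calc S * S = S ^ 2 := by ring
          _ ≤ P * (C₀ * B * S) := key3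
          _ = C₀ * P * B * S := by ring
      exact le_of_mul_le_mul_right h2 h1
  have key6 : ∑ i, ‖∫ z, Wh N θ (f i) (x * z) * φ z ∂μ‖ ^ 2 = S := by
    rw [hSdef, hldef]
  rw [key6]
  exact key5

end

end Pool.Agent.Lib.H85A
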