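import Pool.Agent.Lib.H85A.LD
import Pool.Agent.Lib.H85A.L1
import Pool.Agent.Lib.H85A.L2
import Pool.Agent.Lib.H33N.D5

/-!
# H85A, L3: the large sieve inequality for the Whittaker coefficients of spherical forms
-/

namespace Pool.Agent.Lib.H85A

open MeasureTheory Matrix NumberField IsDedekindDomain
open Pool.Agent.Lib.H89N Pool.Agent.Lib.H85S Pool.Agent.Lib.H33W Pool.Agent.Lib.H33N
open scoped ENNReal

noncomputable section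

variable {n k : ℕ}

theorem l3_place {D : ℤ} (hD : D ≠ 0) : ∃ v : HeightOneSpectrum (𝓞 ℚ), ((D : ℤ) : 𝓞 ℚ) ∉ v.asIdeal := by
  obtain ⟨p, hp1, hp⟩ := Nat.exists_infinite_primes (D.natAbs + 1)
  have hnu : ¬IsUnit ((p : ℕ) : 𝓞 ℚ) := by
    intro h
    have h1 : IsUnit (Rat.ringOfIntegersEquiv ((p : ℕ) : 𝓞 ℚ)) := h.map Rat.ringOfIntegersEquiv
    rw [map_natCast] at h1
    have h2 := Int.isUnit_iff.1 h1
    have := hp.two_le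
    omega
  obtain ⟨M, hM, hpM⟩ := Ideal.exists_le_maximal (Ideal.span {((p : ℕ) : 𝓞 ℚ)})
    (by rwa [Ne, Ideal.span_singleton_eq_top])
  have hp0 : ((p : ℕ) : 𝓞 ℚ) ∈ M := hpM (Ideal.mem_span_singleton_self _)
  have hMb : M ≠ ⊥ := by
    intro h
    rw [h, Ideal.mem_bot, Nat.cast_eq_zero] at hp0
    exact hp.ne_zero hp0
  refine ⟨⟨M, hM.isPrime, hMb⟩, fun hDM => ?_⟩
  have hcop : IsCoprime (p : ℤ) D := by
    rw [Int.isCoprime_iff_gcd_eq_one]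
    have h1 : Nat.Coprime p D.natAbs := by
      refine (Nat.Prime.coprime_iff_not_dvd hp).2 fun h => ?_
      have := Nat.le_of_dvd (Int.natAbs_pos.2 hD) h
      omega
    rw [Int.gcd_eq_natAbs]
    simpa using h1
  obtain ⟨a, b, hab⟩ := hcop
  have h1 : (1 : 𝓞 ℚ) ∈ M := by
    have e : ((a : ℤ) : 𝓞 ℚ) * ((p : ℕ) : 𝓞 ℚ) + ((b : ℤ) : 𝓞 ℚ) * ((D : ℤ) : 𝓞 ℚ) = 1 := by
      exact_mod_cast congrArg (Int.cast (R := 𝓞 ℚ)) hab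
    rw [← e]
    exact M.add_mem (M.mul_mem_left _ hp0) (M.mul_mem_left _ hDM)
  exact hM.ne_top ((Ideal.eq_top_iff_one M).2 h1)

theorem l3_nz {m : Fin (k + 1) → ℤ} (hm : Nz m) : ∃ v : HeightOneSpectrum (𝓞 ℚ),
    ∀ i : Fin (k + 1), (i : ℕ) + 1 < k + 1 → ((m i : ℤ) : 𝓞 ℚ) ∉ v.asIdeal := by
  obtain ⟨v, hv⟩ := l3_place (D := ∏ l : Fin k, m l.castSucc) (Finset.prod_ne_zero_iff.2 fun l _ => hm l)
  refine ⟨v, fun i hi h => hv ?_⟩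
  have hd : m i ∣ ∏ l : Fin k, m l.castSucc := by
    have e : i = (⟨i, by omega⟩ : Fin k).castSucc := rfl
    rw [e]
    exact Finset.dvd_prod_of_mem (fun l : Fin k => m l.castSucc) (Finset.mem_univ _)
  obtain ⟨c, hc⟩ := hd
  rw [hc, Int.cast_mul]
  exact v.asIdeal.mul_mem_right _ h

theorem l3_ci {N : ℕ} [NeZero N] {F : XX (k + 1) N → ℂ} (hF : FInv F) (κ : KG (k + 1) N) : CI N (fun g => F (κ, g)) :=
  ⟨hF.cont κ, finv_gam hF κ⟩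

/-- The eigenvalue equation for the Whittaker coefficient. -/
theorem l3_eig {N : ℕ} (μ : Measure (GG (k + 1) ℚ)) [μ.IsHaarMeasure] {f φ : GG (k + 1) ℚ → ℂ} (hf : Continuous f)
    (hφ : Continuous φ) (hφc : HasCompactSupport φ) {lam : ℂ} (h : ∀ x, ∫ y, f (x * y) * φ y ∂μ = lam * f x)
    (θ : Fin (k + 1) → (EE ℚ →ₗ[ℝ] ℝ)) (x : GG (k + 1) ℚ) : ∫ z, Wh N θ f (x * z) * φ z ∂μ = lam * Wh N θ f x := by
  rw [← wh_conv μ N θ hf hφ hφc x]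
  have e : (fun y => ∫ z, f (y * z) * φ z ∂μ) = fun y => ∑ _i : Fin 1, lam * f y := by
    funext y
    rw [h y]
    simp
  rw [e, wh_sum N θ (f := fun _ : Fin 1 => f) (fun _ => hf) (fun _ => lam) x]
  simp

/-- PROOF. There is a finite place `v` of `ℚ` (a prime number) which does not divide `N ∏ m_l`: `chr_thz` (`H33N.D1`, compare `isD_not_mem`) gives `Chr (nI N) v θ`, `θ = thz (k+1) N m`. `φ` from `l_ker`. `CI N (f i (κ, ·))` (`finv_gam`), `WX m (f i) (κ, x) = Wh N θ (f i (κ, ·)) x` (`d5_wh`),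
`λ_i Wh N θ (f i (κ, ·)) x = Wh N θ (conv (f i (κ, ·)) φ) x = ∫ Wh N θ (f i (κ, ·)) (x z) φ z` (`Sph.eig`, `wh_conv`, `wh_smul`-type), `|λ_i| ≥ 1`: `star_0` with `C0 = 1` for the orthonormal family `f i (κ, ·)` on `F1`. The constant does not depend on `v`. -/
theorem ls_wx (hk : 1 ≤ k) (μ : Measure (GG (k + 1) ℚ)) [μ.IsHaarMeasure] {Ω : Set (GG (k + 1) ℚ)} (hΩ : IsCompact Ω) {T : ℝ} (hT : 0 ≤ T) :
    ∃ C : ℝ, 1 ≤ C ∧ ∀ (N : ℕ) [NeZero N] (F1 : Set (GG (k + 1) ℚ)) (r : ℕ) (f : Fin r → XX (k + 1) N → ℂ) (s : Fin r → Fin (k + 1) → ℂ),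
    FamS N μ F1 T r f s → ∀ m : Fin (k + 1) → ℤ, Nz m → ∀ a : Fin (k + 1) → ℝ, (∀ i, 0 < a i) → (∏ i, a i = 1) → ∀ x, InRange Ω a x →
    ∀ κ, ∑ i, ‖WX m (f i) (κ, x)‖ ^ 2 ≤ C * (McA hk N a * ∏ p : UI (k + 1), (a p.1.1 / a p.1.2 / (N : ℝ))) := by
  obtain ⟨φ, hφ, hφc, hφk, hφs, hφ1⟩ := l_ker (k := k) μ hT
  obtain ⟨C, hC, h1⟩ := star_0 (n := k + 1) (by omega) μ hΩ (C0 := 1) zero_le_one
  have hP0 : 0 ≤ ∫ z, ‖φ z‖ ^ 2 ∂μ := integral_nonneg fun z => by positivity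
  have hCP : 0 ≤ C * ∫ z, ‖φ z‖ ^ 2 ∂μ := mul_nonneg hC.le hP0
  refine ⟨1 + C * ∫ z, ‖φ z‖ ^ 2 ∂μ, by linarith, ?_⟩
  intro N _ F1 r f s hF m hm a ha hprod x hx κ
  have hN : N ≠ 0 := NeZero.ne N
  obtain ⟨v, hv⟩ := l3_nz hm
  have hθ : Chr (nI N) v (thz (k + 1) N m) := chr_thz hN hv
  have h2 := h1 v N hN hφ hφc hφs (thz (k + 1) N m) hθ a ha hprod x hx F1 hF.fd r (fun i g => f i (κ, g))
    (fun i => ⟨(hF.inv i).cont κ, finv_gam (hF.inv i) κ, hF.l2 i κ⟩) (hF.on κ)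
  have h3 : ∀ i, ‖WX m (f i) (κ, x)‖ ^ 2 ≤ ‖∫ z, Wh N (thz (k + 1) N m) (fun g => f i (κ, g)) (x * z) * φ z ∂μ‖ ^ 2 := by
    intro i
    have e1 : WX m (f i) (κ, x) = Wh N (thz (k + 1) N m) (fun g => f i (κ, g)) x :=
      (d5_wh (l3_ci (hF.inv i) κ) hN hθ x).symm
    have e2 := l3_eig (N := N) μ ((hF.inv i).cont κ) hφ hφc ((hF.sph i κ).eig φ hφ hφc hφk) (thz (k + 1) N m) x
    rw [e1, e2, norm_mul, mul_pow]
    have h4 : 1 ≤ ‖∫ y, hcf (s i) y * φ y ∂μ‖ := hφ1 (s i) (hF.bd i)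
    have h5 : 1 ≤ ‖∫ y, hcf (s i) y * φ y ∂μ‖ ^ 2 := one_le_pow₀ h4
    exact le_mul_of_one_le_left (by positivity) h5
  have hM0 : 0 ≤ McA hk N a := zero_le_one.trans (one_le_Mc _ _ ha zero_le_one)
  have hprod0 : 0 ≤ ∏ p : UI (k + 1), (a p.1.1 / a p.1.2 / (N : ℝ)) :=
    Finset.prod_nonneg fun p _ => div_nonneg (div_nonneg (ha _).le (ha _).le) (Nat.cast_nonneg _)
  calc ∑ i, ‖WX m (f i) (κ, x)‖ ^ 2 ≤ ∑ i, ‖∫ z, Wh N (thz (k + 1) N m) (fun g => f i (κ, g)) (x * z) * φ z ∂μ‖ ^ 2 :=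
        Finset.sum_le_sum fun i _ => h3 i
    _ ≤ C * (∫ z, ‖φ z‖ ^ 2 ∂μ) * (McA hk N a * ∏ p : UI (k + 1), (a p.1.1 / a p.1.2 / (N : ℝ))) := h2
    _ ≤ (1 + C * ∫ z, ‖φ z‖ ^ 2 ∂μ) * (McA hk N a * ∏ p : UI (k + 1), (a p.1.1 / a p.1.2 / (N : ℝ))) :=
        mul_le_mul_of_nonneg_right (by linarith) (mul_nonneg hM0 hprod0)

end

end Pool.Agent.Lib.H85A
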