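import Pool.Agent.Lib.H85A.L3
import Pool.Agent.Lib.H33N.T5A

/-!
# H85A, L4: the Whittaker coefficients of spherical forms are Whittaker functions with the eigenvalues of the form
-/

namespace Pool.Agent.Lib.H85A

open MeasureTheory Matrix NumberField IsDedekindDomain
open Pool.Agent.Lib.H89N Pool.Agent.Lib.H85S Pool.Agent.Lib.H33W Pool.Agent.Lib.H33N
open scoped ENNReal

noncomputable section

variable {n k : ℕ}

/-- PROOF. Mean over `BU` of `F (κ, up σ * x) ee(..)`; interchange with the integral over `y` (`wh_conv` and `d5_wh`, with a place `v` prime to `N` and the `m_l` as in `ls_wx`, or directly for `Mn`), `Sph.eig`. -/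
theorem wx_eig {N : ℕ} [NeZero N] (μ : Measure (GG (k + 1) ℚ)) [μ.IsHaarMeasure] {F : XX (k + 1) N → ℂ} (hF : FInv F) {s : Fin (k + 1) → ℂ}
    (h : ∀ κ, Sph μ s (fun g => F (κ, g))) {m : Fin (k + 1) → ℤ} (hm : Nz m) (κ : KG (k + 1) N) : EigW μ s (fun x => WX m F (κ, x)) := by
  intro φ hφ hφc hφk x
  obtain ⟨v, hv⟩ := l3_nz hm
  have hN : N ≠ 0 := NeZero.ne N
  have hθ : Chr (nI N) v (thz (k + 1) N m) := chr_thz hN hv
  have e1 : ∀ y, WX m F (κ, y) = Wh N (thz (k + 1) N m) (fun g => F (κ, g)) y := fun y =>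
    (d5_wh (l3_ci hF κ) hN hθ y).symm
  simp only [e1]
  exact l3_eig (N := N) μ (hF.cont κ) hφ hφc ((h κ).eig φ hφ hφc hφk) (thz (k + 1) N m) x

theorem l4_S (t : Fin k → ℝ) : 0 ≤ ∑ l, |t l| := Finset.sum_nonneg fun _ _ => abs_nonneg _

theorem l4_N (N : ℕ) [NeZero N] : (1 : ℝ) ≤ N := by
  exact_mod_cast Nat.one_le_iff_ne_zero.2 (NeZero.ne N)

theorem l4_div (N : ℕ) [NeZero N] {x y : ℝ} (hx : 0 ≤ x) (hxy : x ≤ y) : x / (N : ℝ) ≤ y :=
  (div_le_self hx (l4_N N)).trans hxy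

theorem l4_prod (N : ℕ) [NeZero N] (t : Fin k → ℝ) : ∏ p : UI (k + 1), (av t p.1.1 / av t p.1.2 / (N : ℝ)) ≤
    Real.exp (Fintype.card (UI (k + 1)) * (2 * ∑ l, |t l|)) := by
  calc ∏ p : UI (k + 1), (av t p.1.1 / av t p.1.2 / (N : ℝ)) ≤ ∏ _p : UI (k + 1), Real.exp (2 * ∑ l, |t l|) := by
        refine Finset.prod_le_prod (fun p _ => ?_) fun p _ => ?_
        · exact div_nonneg (div_pos (av_pos _ _) (av_pos _ _)).le (Nat.cast_nonneg _)
        · exact l4_div N (div_pos (av_pos _ _) (av_pos _ _)).le (s1_div t _ _)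
    _ = _ := by
        rw [Finset.prod_const, ← Real.exp_nat_mul, Finset.card_univ]

theorem l4_mc (hk : 1 ≤ k) (N : ℕ) [NeZero N] (t : Fin k → ℝ) : McA hk N (av t) ≤
    2 * Real.exp ((k + 3) * (2 * ∑ l, |t l|)) := by
  classical
  have hS := l4_S t
  have hE : 1 ≤ Real.exp (2 * ∑ l, |t l|) := Real.one_le_exp (by linarith)
  have hdg : dg ℚ = 1 := Module.finrank_self ℚ
  have hmax : ∀ i j : Fin (k + 1), max 1 ((av t i / av t j) / (N : ℝ)) ≤ Real.exp (2 * ∑ l, |t l|) := fun i j =>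
    max_le hE (l4_div N (div_pos (av_pos _ _) (av_pos _ _)).le (s1_div t _ _))
  unfold McA Mc
  rw [nI_norm, hdg]
  simp only [pow_one, one_mul]
  have h1 : ∏ i ∈ Finset.univ.filter (fun i : Fin (k + 1) => 1 ≤ (i : ℕ) ∧ (i : ℕ) + 2 < k + 1),
      max 1 (av t i / av t (iz (show 2 ≤ k + 1 by omega)) / (N : ℝ)) ≤ Real.exp ((k + 1) * (2 * ∑ l, |t l|)) := by
    calc ∏ i ∈ Finset.univ.filter (fun i : Fin (k + 1) => 1 ≤ (i : ℕ) ∧ (i : ℕ) + 2 < k + 1),
        max 1 (av t i / av t (iz (show 2 ≤ k + 1 by omega)) / (N : ℝ))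
        ≤ ∏ _i ∈ Finset.univ.filter (fun i : Fin (k + 1) => 1 ≤ (i : ℕ) ∧ (i : ℕ) + 2 < k + 1),
          Real.exp (2 * ∑ l, |t l|) :=
          Finset.prod_le_prod (fun i _ => zero_le_one.trans (le_max_left _ _)) fun i _ => hmax i _
      _ = Real.exp (2 * ∑ l, |t l|) ^ (Finset.univ.filter
          (fun i : Fin (k + 1) => 1 ≤ (i : ℕ) ∧ (i : ℕ) + 2 < k + 1)).card := Finset.prod_const _
      _ ≤ Real.exp (2 * ∑ l, |t l|) ^ (k + 1) := by
          refine pow_le_pow_right₀ hE ?_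
          refine (Finset.card_le_univ _).trans ?_
          rw [Fintype.card_fin]
      _ = _ := by
          rw [← Real.exp_nat_mul]
          push_cast
          rfl
  have h2 : max 1 (av t (ip (show 2 ≤ k + 1 by omega)) / av t (iz (show 2 ≤ k + 1 by omega)) / (N : ℝ)) +
      av t (H33W.iq (show 2 ≤ k + 1 by omega)) / av t (iz (show 2 ≤ k + 1 by omega)) *
        (av t (ip (show 2 ≤ k + 1 by omega)) / av t (iz (show 2 ≤ k + 1 by omega))) / (N : ℝ) ^ 2 ≤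
      2 * Real.exp (2 * (2 * ∑ l, |t l|)) := by
    have h3 : Real.exp (2 * ∑ l, |t l|) ≤ Real.exp (2 * (2 * ∑ l, |t l|)) := Real.exp_le_exp.2 (by linarith)
    have h4 : av t (H33W.iq (show 2 ≤ k + 1 by omega)) / av t (iz (show 2 ≤ k + 1 by omega)) *
        (av t (ip (show 2 ≤ k + 1 by omega)) / av t (iz (show 2 ≤ k + 1 by omega))) / (N : ℝ) ^ 2 ≤
        Real.exp (2 * (2 * ∑ l, |t l|)) := by
      have h5 : (1 : ℝ) ≤ (N : ℝ) ^ 2 := one_le_pow₀ (l4_N N)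
      have h6 : 0 ≤ av t (H33W.iq (show 2 ≤ k + 1 by omega)) / av t (iz (show 2 ≤ k + 1 by omega)) *
          (av t (ip (show 2 ≤ k + 1 by omega)) / av t (iz (show 2 ≤ k + 1 by omega))) :=
        mul_nonneg (div_pos (av_pos _ _) (av_pos _ _)).le (div_pos (av_pos _ _) (av_pos _ _)).le
      refine (div_le_self h6 h5).trans ?_
      have e : Real.exp (2 * (2 * ∑ l, |t l|)) = Real.exp (2 * ∑ l, |t l|) * Real.exp (2 * ∑ l, |t l|) := by
        rw [← Real.exp_add]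
        congr 1
        ring
      rw [e]
      exact mul_le_mul (s1_div t _ _) (s1_div t _ _) (div_pos (av_pos _ _) (av_pos _ _)).le (Real.exp_pos _).le
    have h7 := (hmax (ip (show 2 ≤ k + 1 by omega)) (iz (show 2 ≤ k + 1 by omega))).trans h3
    linarith
  refine (mul_le_mul h1 h2 ?_ (Real.exp_pos _).le).trans (le_of_eq ?_)
  · refine add_nonneg (zero_le_one.trans (le_max_left _ _)) ?_
    exact div_nonneg (mul_nonneg (div_pos (av_pos _ _) (av_pos _ _)).le (div_pos (av_pos _ _) (av_pos _ _)).le) (by positivity)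
  · rw [mul_left_comm, ← Real.exp_add]
    congr 2
    ring

/-- PROOF. `cont`: `mn_cont`. `rk`: right invariance of `F (κ, ·)`. `up`: `t4_mn` and `t4c_up` (`H33N.T4C`, `n - 1` steps), or `d5_up` with `d5_wh`. `gr`: `ls_wx` with `Ω = {1}` at `x = aG t` (`InRange`: `τ = 0`): `‖WX m (f i) (κ, aG t)‖² ≤ C McA (av t) ∏ ..`, and `McA (av t)` and the product are at most
`C' exp (E ∑ |t|)` for fixed `N` (all `av t i ≤ exp (∑ |t|)`, `(av t i)⁻¹ ≤ exp (∑ |t|)`). -/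
theorem wx_whi (hk : 1 ≤ k) (μ : Measure (GG (k + 1) ℚ)) [μ.IsHaarMeasure] {T : ℝ} (hT : 0 ≤ T) {N : ℕ} [NeZero N] {F1 : Set (GG (k + 1) ℚ)} {r : ℕ}
    {f : Fin r → XX (k + 1) N → ℂ} {s : Fin r → Fin (k + 1) → ℂ} (hf : FamS N μ F1 T r f s) {m : Fin (k + 1) → ℤ} (hm : Nz m) (i : Fin r)
    (κ : KG (k + 1) N) : Whi N m (fun x => WX m (f i) (κ, x)) := by
  have hN : N ≠ 0 := NeZero.ne N
  obtain ⟨v, hv⟩ := l3_nz hm
  have hθ : Chr (nI N) v (thz (k + 1) N m) := chr_thz hN hv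
  refine ⟨?_, ?_, ?_, ?_⟩
  · exact mn_cont (fun _ => nI_ne hN) _ ((hf.inv i).cont κ)
  · intro κ' hκ' x
    show Mn (fun _ => nI N) (thz (k + 1) N m) (fun g => f i (κ, g)) (x * κ') =
      Mn (fun _ => nI N) (thz (k + 1) N m) (fun g => f i (κ, g)) x
    unfold Mn
    congr 1
    funext σ
    rw [← mul_assoc]
    exact congrArg (fun z : ℂ => z * ee (-sd (thz (k + 1) N m) (upM σ))) ((hf.sph i κ).inv κ' hκ' (up σ * x))
  · intro σ y
    have e1 : ∀ z, WX m (f i) (κ, z) = Wh N (thz (k + 1) N m) (fun g => f i (κ, g)) z := fun z =>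
      (d5_wh (l3_ci (hf.inv i) κ) hN hθ z).symm
    simp only [e1]
    exact d5_up (l3_ci (hf.inv i) κ) hN (by omega) hθ σ y
  · obtain ⟨C, hC, h1⟩ := ls_wx hk μ (isCompact_singleton (x := (1 : GG (k + 1) ℚ))) hT
    refine ⟨1 + C * 2, ((k + 3) * 2 + Fintype.card (UI (k + 1)) * 2 : ℝ), fun t => ?_⟩
    have hS := l4_S t
    have hr : InRange {(1 : GG (k + 1) ℚ)} (av t) (aG t) := by
      refine ⟨0, 1, rfl, ?_⟩
      have e1 : upM (0 : UI (k + 1) → EE ℚ) = 1 := by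
        refine Matrix.ext fun a b => ?_
        unfold upM
        simp only [Matrix.of_apply, Pi.zero_apply, Matrix.one_apply]
        split_ifs with h3 h4 h5 <;> first | rfl | (exfalso; omega)
      rw [e1, one_mul]
      show Matrix.diagonal _ = Matrix.diagonal _ * 1
      rw [mul_one]
      rfl
    have h2 := h1 N F1 r f s hf m hm (av t) (av_pos t) (av_prod t) (aG t) hr κ
    have h3 : ‖WX m (f i) (κ, aG t)‖ ^ 2 ≤ ∑ i, ‖WX m (f i) (κ, aG t)‖ ^ 2 :=
      Finset.single_le_sum (f := fun i => ‖WX m (f i) (κ, aG t)‖ ^ 2) (fun _ _ => by positivity) (Finset.mem_univ i)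
    have h4 : McA hk N (av t) * ∏ p : UI (k + 1), (av t p.1.1 / av t p.1.2 / (N : ℝ)) ≤
        2 * Real.exp (((k + 3) * 2 + Fintype.card (UI (k + 1)) * 2 : ℝ) * ∑ l, |t l|) := by
      refine (mul_le_mul (l4_mc hk N t) (l4_prod N t) ?_ (by positivity)).trans (le_of_eq ?_)
      · exact Finset.prod_nonneg fun p _ => div_nonneg (div_pos (av_pos _ _) (av_pos _ _)).le (Nat.cast_nonneg _)
      · rw [mul_assoc, ← Real.exp_add]
        congr 2
        ring
    have h5 : ‖WX m (f i) (κ, aG t)‖ ^ 2 ≤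
        C * (2 * Real.exp (((k + 3) * 2 + Fintype.card (UI (k + 1)) * 2 : ℝ) * ∑ l, |t l|)) :=
      (h3.trans h2).trans (mul_le_mul_of_nonneg_left h4 (by linarith))
    have h6 : 1 ≤ Real.exp (((k + 3) * 2 + Fintype.card (UI (k + 1)) * 2 : ℝ) * ∑ l, |t l|) :=
      Real.one_le_exp (by positivity)
    have h7 : ‖WX m (f i) (κ, aG t)‖ ≤ 1 + ‖WX m (f i) (κ, aG t)‖ ^ 2 := by
      nlinarith [sq_nonneg (‖WX m (f i) (κ, aG t)‖ - 1)]
    show ‖WX m (f i) (κ, aG t)‖ ≤ _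
    calc ‖WX m (f i) (κ, aG t)‖ ≤ 1 + ‖WX m (f i) (κ, aG t)‖ ^ 2 := h7
      _ ≤ Real.exp (((k + 3) * 2 + Fintype.card (UI (k + 1)) * 2 : ℝ) * ∑ l, |t l|) +
          C * (2 * Real.exp (((k + 3) * 2 + Fintype.card (UI (k + 1)) * 2 : ℝ) * ∑ l, |t l|)) := add_le_add h6 h5
      _ = _ := by ring

end

end Pool.Agent.Lib.H85A
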