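import Pool.Agent.Lib.H85A.QD
import Pool.Agent.Lib.H33N.D1
import Pool.Agent.Lib.H33N.L7

/-!
# H85A, LD: orthonormal families of spherical forms
-/

namespace Pool.Agent.Lib.H85A

open MeasureTheory Matrix NumberField IsDedekindDomain
open Pool.Agent.Lib.H89N Pool.Agent.Lib.H85S Pool.Agent.Lib.H33W Pool.Agent.Lib.H33N
open scoped ENNReal

noncomputable section

variable {n k : ℕ}

/-- An orthonormal family of invariant functions `f_i` on `SL_n(ℤ) \ (SL_n(ℤ/N) × SL_n(ℝ))` with spherical parameters `s_i` of norm at most `T`. -/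
structure FamS (N : ℕ) [NeZero N] (μ : Measure (GG (k + 1) ℚ)) (F1 : Set (GG (k + 1) ℚ)) (T : ℝ) (r : ℕ) (f : Fin r → XX (k + 1) N → ℂ)
    (s : Fin r → Fin (k + 1) → ℂ) : Prop where
  fd : IsFundamentalDomain (Gamma (k + 1) (nI N)) F1 μ
  inv : ∀ i, FInv (f i)
  l2 : ∀ i κ, MemLp (fun g => f i (κ, g)) 2 (μ.restrict F1)
  on : ∀ κ i j, ∫ x in F1, star (f i (κ, x)) * f j (κ, x) ∂μ = if i = j then 1 else 0
  sph : ∀ i κ, Sph μ (s i) (fun g => f i (κ, g))
  bd : ∀ i j, ‖s i j‖ ≤ T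

/-- The character has no zero coefficient. -/
def Nz (m : Fin (k + 1) → ℤ) : Prop := ∀ l : Fin k, m l.castSucc ≠ 0

end

end Pool.Agent.Lib.H85A
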