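import Pool.Agent.Lib.H85A.QD

/-!
# H85A, Q1: the integrals in one variable and their products (pure analysis)
-/

namespace Pool.Agent.Lib.H85A

open MeasureTheory Matrix NumberField
open Pool.Agent.Lib.H89N Pool.Agent.Lib.H85S Pool.Agent.Lib.H33W Pool.Agent.Lib.H33N
open scoped ENNReal

noncomputable section

variable {n k : ℕ}

theorem q1_lint {n : ℕ} {E : Fin n → Type*}
    {mE : ∀ i, MeasurableSpace (E i)} {μ : (i : Fin n) → Measure (E i)} [∀ i, SigmaFinite (μ i)]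
    (f : (i : Fin n) → E i → ENNReal) (hf : ∀ i, Measurable (f i)) :
    ∫⁻ x : (i : Fin n) → E i, ∏ i, f i (x i) ∂(Measure.pi μ) = ∏ i, ∫⁻ x, f i x ∂(μ i) := by
  induction n with
  | zero => simp
  | succ n n_ih =>
      calc
        _ = ∫⁻ x : E 0 × ((i : Fin n) → E (Fin.succ i)),
            f 0 x.1 * ∏ i : Fin n, f (Fin.succ i) (x.2 i)
            ∂((μ 0).prod (Measure.pi (fun i ↦ μ i.succ))) := by
          rw [← ((measurePreserving_piFinSuccAbove μ 0).symm).lintegral_comp_emb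
            (MeasurableEquiv.measurableEmbedding _)]
          refine lintegral_congr fun x => ?_
          rw [Fin.prod_univ_succ]
          rfl
        _ = (∫⁻ x, f 0 x ∂μ 0)
            * ∏ i : Fin n, ∫⁻ (x : E (Fin.succ i)), f (Fin.succ i) x ∂(μ i.succ) := by
          rw [← n_ih _ (fun i => hf (Fin.succ i))]
          exact lintegral_prod_mul (hf 0).aemeasurable
            (Finset.measurable_prod _ fun i _ =>
              (hf (Fin.succ i)).comp (measurable_pi_apply i)).aemeasurable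
        _ = ∏ i, ∫⁻ x, f i x ∂(μ i) := by rw [Fin.prod_univ_succ]

/-- `e^v ≥ (1+v²)/2` for `v ≥ 0`. -/
theorem q1_exp_sq {v : ℝ} (hv : 0 ≤ v) : Real.exp (-v) ≤ 2 * (1 + v ^ 2)⁻¹ := by
  have h1 : 1 + v + v ^ 2 / 2 ≤ Real.exp v := Real.quadratic_le_exp_of_nonneg hv
  have h2 : 0 < 1 + v ^ 2 := by positivity
  rw [Real.exp_neg, ← div_eq_mul_inv, inv_eq_one_div, div_le_div_iff₀ (Real.exp_pos v) h2]
  nlinarith

/-- `exp(m v - c exp(2 v)) ≤ C / (1 + v²)` for `v ≥ 0`. -/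
theorem q1_gauss (m c : ℝ) (hc : 0 < c) : ∃ C : ℝ, 0 < C ∧ ∀ v : ℝ, 0 ≤ v →
    Real.exp (m * v) * Real.exp (-(c * Real.exp (2 * v))) ≤ C * (1 + v ^ 2)⁻¹ := by
  obtain ⟨N, hN⟩ := exists_nat_ge (m + 1)
  refine ⟨2 * ((N.factorial : ℝ) / c ^ N), by positivity, fun v hv => ?_⟩
  have h1 : (c * Real.exp (2 * v)) ^ N / (N.factorial : ℝ) ≤ Real.exp (c * Real.exp (2 * v)) :=
    Real.pow_div_factorial_le_exp _ (by positivity) N
  have h2 : Real.exp (-(c * Real.exp (2 * v))) ≤ (N.factorial : ℝ) / c ^ N * Real.exp (-(2 * N * v)) := by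
    rw [Real.exp_neg, inv_le_comm₀ (Real.exp_pos _) (by positivity)]
    refine le_trans (le_of_eq ?_) h1
    rw [mul_pow, ← Real.exp_nat_mul, Real.exp_neg]
    rw [mul_inv, inv_inv, inv_div]
    rw [show (N : ℝ) * (2 * v) = 2 * N * v by ring]
    ring
  calc Real.exp (m * v) * Real.exp (-(c * Real.exp (2 * v)))
      ≤ Real.exp (m * v) * ((N.factorial : ℝ) / c ^ N * Real.exp (-(2 * N * v))) :=
        mul_le_mul_of_nonneg_left h2 (Real.exp_pos _).le
    _ = (N.factorial : ℝ) / c ^ N * Real.exp (m * v + -(2 * N * v)) := by rw [Real.exp_add]; ring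
    _ ≤ (N.factorial : ℝ) / c ^ N * Real.exp (-v) := by
        refine mul_le_mul_of_nonneg_left (Real.exp_le_exp.2 ?_) (by positivity)
        have hN0 : (0 : ℝ) ≤ N := Nat.cast_nonneg N
        nlinarith [mul_nonneg hN0 hv, mul_le_mul_of_nonneg_right hN hv]
    _ ≤ (N.factorial : ℝ) / c ^ N * (2 * (1 + v ^ 2)⁻¹) :=
        mul_le_mul_of_nonneg_left (q1_exp_sq hv) (by positivity)
    _ = 2 * ((N.factorial : ℝ) / c ^ N) * (1 + v ^ 2)⁻¹ := by ring

theorem q1_lint_sq : ∫⁻ u : ℝ, ENNReal.ofReal ((1 + u ^ 2)⁻¹) = ENNReal.ofReal Real.pi := by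
  rw [← ofReal_integral_eq_lintegral_ofReal integrable_inv_one_add_sq
    (Filter.Eventually.of_forall fun x => by positivity), integral_univ_inv_one_add_sq]

/-- The integrand for `y = 1`. -/
def q1F (e E : ℕ) (θ b : ℝ) : ℝ := max 1 b ^ e * max 1 b⁻¹ ^ E * Real.exp (-(Real.pi * (b ^ 2)⁻¹) - Real.pi * (θ * b) ^ 2)

theorem q1_max_pos (e : ℕ) {u : ℝ} (hu : 0 ≤ u) : max 1 (Real.exp u) ^ e = Real.exp (e * u) := by
  rw [max_eq_right (Real.one_le_exp hu), ← Real.exp_nat_mul]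

theorem q1_max_neg (e : ℕ) {u : ℝ} (hu : u ≤ 0) : max 1 (Real.exp u) ^ e = 1 := by
  rw [max_eq_left (Real.exp_le_one_iff.2 hu), one_pow]

theorem q1_maxi_pos (e : ℕ) {u : ℝ} (hu : 0 ≤ u) : max 1 (Real.exp u)⁻¹ ^ e = 1 := by
  rw [← Real.exp_neg]
  exact q1_max_neg e (neg_nonpos.2 hu)

theorem q1_maxi_neg (e : ℕ) {u : ℝ} (hu : u ≤ 0) : max 1 (Real.exp u)⁻¹ ^ e = Real.exp (e * (-u)) := by
  rw [← Real.exp_neg]
  exact q1_max_pos e (neg_nonneg.2 hu)

/-- The bound for `θ ≥ 1`. -/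
theorem q1_big (e E A : ℕ) : ∃ C : ℝ, 0 < C ∧ ∀ θ : ℝ, 1 ≤ θ → ∀ u : ℝ,
    q1F e E θ (Real.exp u) ≤ C * (1 / θ) ^ A * (1 + u ^ 2)⁻¹ := by
  obtain ⟨C1, hC1, h1⟩ := q1_gauss ((e : ℝ) + E) (Real.pi / 2) (by positivity)
  refine ⟨C1 * A.factorial, by positivity, fun θ hθ u => ?_⟩
  have hθ0 : 0 < θ := by linarith
  have hb : 0 < Real.exp u := Real.exp_pos u
  -- the exponential
  have h2 : Real.exp (2 * |u|) ≤ (Real.exp u ^ 2)⁻¹ + Real.exp u ^ 2 := by
    rcases le_total 0 u with hu | hu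
    · rw [abs_of_nonneg hu, ← Real.exp_nat_mul]
      have : 0 < (Real.exp ((2 : ℕ) * u))⁻¹ := by positivity
      push_cast at this ⊢
      linarith
    · rw [abs_of_nonpos hu, ← Real.exp_nat_mul, ← Real.exp_neg]
      have : 0 < Real.exp ((2 : ℕ) * u) := by positivity
      push_cast at this ⊢
      rw [show 2 * -u = -(2 * u) by ring]
      linarith
  have h3 : Real.pi / 2 * Real.exp (2 * |u|) + Real.pi * θ ≤
      Real.pi * (Real.exp u ^ 2)⁻¹ + Real.pi * (θ * Real.exp u) ^ 2 := by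
    set b := Real.exp u with hbdef
    have hbi : b⁻¹ * b = 1 := inv_mul_cancel₀ hb.ne'
    have e1 : 2 * θ ≤ (b ^ 2)⁻¹ + (θ * b) ^ 2 := by
      have e2 : 0 ≤ (b⁻¹ - θ * b) ^ 2 := sq_nonneg _
      have e3 : (b⁻¹ - θ * b) ^ 2 = (b ^ 2)⁻¹ + (θ * b) ^ 2 - 2 * θ * (b⁻¹ * b) := by
        rw [← inv_pow]; ring
      rw [e3, hbi] at e2
      linarith
    have e4 : b ^ 2 ≤ (θ * b) ^ 2 := by
      rw [mul_pow]
      have : 1 ≤ θ ^ 2 := one_le_pow₀ hθ
      nlinarith [sq_nonneg b]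
    have hp := Real.pi_pos
    nlinarith [mul_le_mul_of_nonneg_left e1 hp.le, mul_le_mul_of_nonneg_left e4 hp.le, mul_le_mul_of_nonneg_left h2 hp.le]
  have h4 : Real.exp (-(Real.pi * (Real.exp u ^ 2)⁻¹) - Real.pi * (θ * Real.exp u) ^ 2) ≤
      Real.exp (-(Real.pi / 2 * Real.exp (2 * |u|))) * Real.exp (-θ) := by
    rw [← Real.exp_add]
    refine Real.exp_le_exp.2 ?_
    have : θ ≤ Real.pi * θ := by nlinarith [Real.pi_gt_three]
    linarith
  have h5 : max 1 (Real.exp u) ^ e * max 1 (Real.exp u)⁻¹ ^ E ≤ Real.exp (((e : ℝ) + E) * |u|) := by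
    rcases le_total 0 u with hu | hu
    · rw [abs_of_nonneg hu, q1_max_pos e hu, q1_maxi_pos E hu, mul_one]
      refine Real.exp_le_exp.2 (mul_le_mul_of_nonneg_right ?_ hu)
      have : (0 : ℝ) ≤ E := Nat.cast_nonneg E
      linarith
    · rw [abs_of_nonpos hu, q1_max_neg e hu, q1_maxi_neg E hu, one_mul]
      refine Real.exp_le_exp.2 (mul_le_mul_of_nonneg_right ?_ (neg_nonneg.2 hu))
      have : (0 : ℝ) ≤ e := Nat.cast_nonneg e
      linarith
  have h6 : Real.exp (-θ) ≤ A.factorial * (1 / θ) ^ A := by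
    have := Real.pow_div_factorial_le_exp θ hθ0.le A
    rw [Real.exp_neg, inv_le_comm₀ (Real.exp_pos _) (by positivity)]
    refine le_trans (le_of_eq ?_) this
    rw [one_div, mul_inv, inv_pow, inv_inv]
    ring
  have h7 := h1 |u| (abs_nonneg u)
  rw [sq_abs] at h7
  unfold q1F
  calc max 1 (Real.exp u) ^ e * max 1 (Real.exp u)⁻¹ ^ E *
        Real.exp (-(Real.pi * (Real.exp u ^ 2)⁻¹) - Real.pi * (θ * Real.exp u) ^ 2)
      ≤ Real.exp (((e : ℝ) + E) * |u|) * (Real.exp (-(Real.pi / 2 * Real.exp (2 * |u|))) * Real.exp (-θ)) :=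
        mul_le_mul h5 h4 (Real.exp_pos _).le (Real.exp_pos _).le
    _ = (Real.exp (((e : ℝ) + E) * |u|) * Real.exp (-(Real.pi / 2 * Real.exp (2 * |u|)))) * Real.exp (-θ) := by ring
    _ ≤ (C1 * (1 + u ^ 2)⁻¹) * (A.factorial * (1 / θ) ^ A) :=
        mul_le_mul h7 h6 (Real.exp_pos _).le (by positivity)
    _ = C1 * A.factorial * (1 / θ) ^ A * (1 + u ^ 2)⁻¹ := by ring

/-- `exp(η w)` against `1 / (1 + w²)` for `w ≤ 0`. -/
theorem q1_exp_eta {η : ℝ} (hη : 0 < η) {w : ℝ} (hw : w ≤ 0) : Real.exp (η * w) ≤ (1 + 2 / η ^ 2) * (1 + w ^ 2)⁻¹ := by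
  have h1 : 1 + η * (-w) + (η * (-w)) ^ 2 / 2 ≤ Real.exp (η * (-w)) :=
    Real.quadratic_le_exp_of_nonneg (mul_nonneg hη.le (neg_nonneg.2 hw))
  have h2 : 0 < 1 + w ^ 2 := by positivity
  have h3 : 0 ≤ η * (-w) := mul_nonneg hη.le (neg_nonneg.2 hw)
  have h4 : w ^ 2 ≤ 2 / η ^ 2 * Real.exp (η * (-w)) := by
    have : (η * (-w)) ^ 2 / 2 ≤ Real.exp (η * (-w)) := by linarith
    have e1 : w ^ 2 = 2 / η ^ 2 * ((η * (-w)) ^ 2 / 2) := by
      field_simp
    rw [e1]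
    exact mul_le_mul_of_nonneg_left this (by positivity)
  have h5 : 1 ≤ Real.exp (η * (-w)) := Real.one_le_exp h3
  have h6 : 1 + w ^ 2 ≤ (1 + 2 / η ^ 2) * Real.exp (η * (-w)) := by
    rw [add_mul, one_mul]
    linarith
  have h7 : Real.exp (η * w) = (Real.exp (η * (-w)))⁻¹ := by
    rw [← Real.exp_neg]; congr 1; ring
  rw [h7, ← div_eq_mul_inv, inv_eq_one_div, div_le_div_iff₀ (Real.exp_pos _) h2, one_mul]
  exact h6

/-- The bound for `θ < 1`. -/
theorem q1_small (e E : ℕ) {η : ℝ} (hη : 0 < η) : ∃ C : ℝ, 0 < C ∧ ∀ θ : ℝ, 0 < θ → θ ≤ 1 → ∀ u : ℝ,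
    q1F e E θ (Real.exp u) ≤ C * (1 + u ^ 2)⁻¹ + C * (1 / θ) ^ ((e : ℝ) + η) * (1 + (u + Real.log θ) ^ 2)⁻¹ := by
  obtain ⟨C1, hC1, h1⟩ := q1_gauss (E : ℝ) Real.pi Real.pi_pos
  obtain ⟨C2, hC2, h2⟩ := q1_gauss ((e : ℝ) + η) Real.pi Real.pi_pos
  set C3 : ℝ := 1 + 2 / η ^ 2 with hC3
  have hC3p : 0 < C3 := by positivity
  refine ⟨max C1 (max C2 C3), lt_max_of_lt_left hC1, fun θ hθ hθ1 u => ?_⟩
  set C := max C1 (max C2 C3) with hC
  have c1 : C1 ≤ C := le_max_left _ _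
  have c2 : C2 ≤ C := le_trans (le_max_left _ _) (le_max_right _ _)
  have c3 : C3 ≤ C := le_trans (le_max_right _ _) (le_max_right _ _)
  have hCp : 0 < C := lt_of_lt_of_le hC1 c1
  have hpw : 0 < (1 / θ) ^ ((e : ℝ) + η) := Real.rpow_pos_of_pos (by positivity) _
  unfold q1F
  rcases le_total u 0 with hu | hu
  · rw [q1_max_neg e hu, q1_maxi_neg E hu, one_mul]
    have h3 : Real.exp (-(Real.pi * (Real.exp u ^ 2)⁻¹) - Real.pi * (θ * Real.exp u) ^ 2) ≤
        Real.exp (-(Real.pi * Real.exp (2 * (-u)))) := by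
      refine Real.exp_le_exp.2 ?_
      rw [← Real.exp_nat_mul, ← Real.exp_neg]
      push_cast
      rw [show -(2 * u) = 2 * -u by ring]
      have : 0 ≤ Real.pi * (θ * Real.exp u) ^ 2 := by positivity
      linarith
    have h4 := h1 (-u) (neg_nonneg.2 hu)
    rw [neg_sq] at h4
    calc Real.exp (E * -u) * Real.exp (-(Real.pi * (Real.exp u ^ 2)⁻¹) - Real.pi * (θ * Real.exp u) ^ 2)
        ≤ Real.exp (E * -u) * Real.exp (-(Real.pi * Real.exp (2 * (-u)))) :=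
          mul_le_mul_of_nonneg_left h3 (Real.exp_pos _).le
      _ ≤ C1 * (1 + u ^ 2)⁻¹ := h4
      _ ≤ C * (1 + u ^ 2)⁻¹ := mul_le_mul_of_nonneg_right c1 (by positivity)
      _ ≤ _ := le_add_of_nonneg_right (by positivity)
  · rw [q1_max_pos e hu, q1_maxi_pos E hu, mul_one]
    set w := u + Real.log θ with hw
    have h3 : Real.exp (-(Real.pi * (Real.exp u ^ 2)⁻¹) - Real.pi * (θ * Real.exp u) ^ 2) ≤
        Real.exp (-(Real.pi * Real.exp (2 * w))) := by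
      refine Real.exp_le_exp.2 ?_
      have e1 : (θ * Real.exp u) ^ 2 = Real.exp (2 * w) := by
        rw [hw, mul_add, Real.exp_add, mul_pow, ← Real.exp_nat_mul]
        have : Real.exp (2 * Real.log θ) = θ ^ 2 := by
          rw [show (2 : ℝ) * Real.log θ = ((2 : ℕ) : ℝ) * Real.log θ by push_cast; ring, Real.exp_nat_mul, Real.exp_log hθ]
        rw [this]
        push_cast
        ring
      rw [e1]
      have : 0 ≤ Real.pi * (Real.exp u ^ 2)⁻¹ := by positivity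
      linarith
    have h4 : Real.exp (e * u) ≤ (1 / θ) ^ ((e : ℝ) + η) * Real.exp (((e : ℝ) + η) * w) := by
      have e1 : (1 / θ) ^ ((e : ℝ) + η) = Real.exp (-(Real.log θ) * ((e : ℝ) + η)) := by
        rw [Real.rpow_def_of_pos (by positivity), one_div, Real.log_inv]
      rw [e1, ← Real.exp_add]
      refine Real.exp_le_exp.2 ?_
      rw [hw]
      nlinarith [mul_nonneg hη.le hu]
    have h5 : Real.exp (((e : ℝ) + η) * w) * Real.exp (-(Real.pi * Real.exp (2 * w))) ≤ C * (1 + w ^ 2)⁻¹ := by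
      rcases le_total 0 w with hw0 | hw0
      · exact le_trans (h2 w hw0) (mul_le_mul_of_nonneg_right c2 (by positivity))
      · have e2 : Real.exp (((e : ℝ) + η) * w) ≤ Real.exp (η * w) := by
          refine Real.exp_le_exp.2 ?_
          have : (0 : ℝ) ≤ e := Nat.cast_nonneg e
          nlinarith
        have e3 : Real.exp (-(Real.pi * Real.exp (2 * w))) ≤ 1 := by
          refine Real.exp_le_one_iff.2 ?_
          have : 0 ≤ Real.pi * Real.exp (2 * w) := by positivity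
          linarith
        calc Real.exp (((e : ℝ) + η) * w) * Real.exp (-(Real.pi * Real.exp (2 * w)))
            ≤ Real.exp (η * w) * 1 := mul_le_mul e2 e3 (Real.exp_pos _).le (Real.exp_pos _).le
          _ ≤ C3 * (1 + w ^ 2)⁻¹ := by rw [mul_one]; exact q1_exp_eta hη hw0
          _ ≤ C * (1 + w ^ 2)⁻¹ := mul_le_mul_of_nonneg_right c3 (by positivity)
    calc Real.exp (e * u) * Real.exp (-(Real.pi * (Real.exp u ^ 2)⁻¹) - Real.pi * (θ * Real.exp u) ^ 2)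
        ≤ ((1 / θ) ^ ((e : ℝ) + η) * Real.exp (((e : ℝ) + η) * w)) * Real.exp (-(Real.pi * Real.exp (2 * w))) :=
          mul_le_mul h4 h3 (Real.exp_pos _).le (by positivity)
      _ = (1 / θ) ^ ((e : ℝ) + η) * (Real.exp (((e : ℝ) + η) * w) * Real.exp (-(Real.pi * Real.exp (2 * w)))) := by ring
      _ ≤ (1 / θ) ^ ((e : ℝ) + η) * (C * (1 + w ^ 2)⁻¹) := mul_le_mul_of_nonneg_left h5 hpw.le
      _ = C * (1 / θ) ^ ((e : ℝ) + η) * (1 + w ^ 2)⁻¹ := by ring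
      _ ≤ _ := le_add_of_nonneg_left (by positivity)

theorem q1_trans (f : ℝ → ENNReal) {y : ℝ} (hy : 0 < y) :
    ∫⁻ u : ℝ, f (Real.exp u / y) = ∫⁻ u : ℝ, f (Real.exp u) := by
  have h1 : ∀ u : ℝ, Real.exp u / y = Real.exp (u - Real.log y) := by
    intro u
    rw [Real.exp_sub, Real.exp_log hy]
  simp_rw [h1]
  exact lintegral_sub_right_eq_self (fun u : ℝ => f (Real.exp u)) (Real.log y)

/-- PROOF. By translation (`u ↦ u + log y`, `lintegral_add_right_eq_self`) `y = 1`. Case `θ ≥ 1`: `π e^(-2u) + π θ² e^(2u) ≥ (π/2) (e^(-2u) + e^(2u)) + π θ` (`e^(-2u) + θ² e^(2u) ≥ 2 θ`), so the integral is at most `e^(-πθ) C0 ≤ C θ^(-A)`, `C0 = ∫ max(1,e^u)^e max(1,e^(-u))^E exp(-(π/2)(e^(2u)+e^(-2u))) du < ∞`.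
Case `θ < 1`: on `u ≤ 0` the integrand is at most `e^(-Eu) exp(-π e^(-2u))` with finite integral `C1 ≤ C1 θ^(-(e+η))`; on `u ≥ 0` it is at most `e^((e+η)u) exp(-π θ² e^(2u)) = θ^(-(e+η)) G(u + log θ)`, `G(w) = e^((e+η)w) exp(-π e^(2w))` integrable on `ℝ`. -/
theorem q_one (e : ℕ) (E A : ℕ) {η : ℝ} (hη : 0 < η) : ∃ C : ℝ, 1 ≤ C ∧ ∀ y : ℝ, 0 < y → ∀ θ : ℝ, 0 < θ →
    ∫⁻ u : ℝ, ENNReal.ofReal (max 1 (Real.exp u / y) ^ e * max 1 (Real.exp u / y)⁻¹ ^ E *
        Real.exp (-(Real.pi * ((Real.exp u / y) ^ 2)⁻¹) - Real.pi * (θ * (Real.exp u / y)) ^ 2)) ≤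
      ENNReal.ofReal (C * (max 1 (1 / θ) ^ ((e : ℝ) + η) * min 1 (1 / θ) ^ A)) := by
  obtain ⟨C1, hC1, h1⟩ := q1_big e E A
  obtain ⟨C2, hC2, h2⟩ := q1_small e E hη
  refine ⟨max 1 (max (C1 * Real.pi) (2 * C2 * Real.pi)), le_max_left _ _, fun y hy θ hθ => ?_⟩
  set C := max 1 (max (C1 * Real.pi) (2 * C2 * Real.pi)) with hC
  have c1 : C1 * Real.pi ≤ C := le_trans (le_max_left _ _) (le_max_right _ _)
  have c2 : 2 * C2 * Real.pi ≤ C := le_trans (le_max_right _ _) (le_max_right _ _)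
  have h0 : ∫⁻ u : ℝ, ENNReal.ofReal (max 1 (Real.exp u / y) ^ e * max 1 (Real.exp u / y)⁻¹ ^ E *
        Real.exp (-(Real.pi * ((Real.exp u / y) ^ 2)⁻¹) - Real.pi * (θ * (Real.exp u / y)) ^ 2)) =
      ∫⁻ u : ℝ, ENNReal.ofReal (q1F e E θ (Real.exp u)) :=
    q1_trans (fun b => ENNReal.ofReal (q1F e E θ b)) hy
  rw [h0]
  have hms : Measurable fun u : ℝ => ENNReal.ofReal ((1 + u ^ 2)⁻¹) := by fun_prop
  rcases le_total 1 θ with hθ1 | hθ1
  · have e1 : max 1 (1 / θ) = 1 := max_eq_left (by rw [div_le_one hθ]; exact hθ1)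
    have e2 : min 1 (1 / θ) = 1 / θ := min_eq_right (by rw [div_le_one hθ]; exact hθ1)
    rw [e1, e2, Real.one_rpow, one_mul]
    calc ∫⁻ u : ℝ, ENNReal.ofReal (q1F e E θ (Real.exp u))
        ≤ ∫⁻ u : ℝ, ENNReal.ofReal (C1 * (1 / θ) ^ A) * ENNReal.ofReal ((1 + u ^ 2)⁻¹) := by
          refine lintegral_mono fun u => ?_
          rw [← ENNReal.ofReal_mul (by positivity)]
          exact ENNReal.ofReal_le_ofReal (h1 θ hθ1 u)
      _ = ENNReal.ofReal (C1 * (1 / θ) ^ A) * ENNReal.ofReal Real.pi := by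
          rw [lintegral_const_mul _ hms, q1_lint_sq]
      _ = ENNReal.ofReal (C1 * (1 / θ) ^ A * Real.pi) := (ENNReal.ofReal_mul (by positivity)).symm
      _ ≤ ENNReal.ofReal (C * (1 / θ) ^ A) := by
          refine ENNReal.ofReal_le_ofReal ?_
          rw [mul_right_comm]
          exact mul_le_mul_of_nonneg_right c1 (by positivity)
  · have e1 : max 1 (1 / θ) = 1 / θ := max_eq_right (by rw [le_div_iff₀ hθ, one_mul]; exact hθ1)
    have e2 : min 1 (1 / θ) = 1 := min_eq_left (by rw [le_div_iff₀ hθ, one_mul]; exact hθ1)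
    have hp1 : 1 ≤ (1 / θ) ^ ((e : ℝ) + η) :=
      Real.one_le_rpow (by rw [le_div_iff₀ hθ, one_mul]; exact hθ1) (by positivity)
    rw [e1, e2, one_pow, mul_one]
    set Q := (1 / θ) ^ ((e : ℝ) + η) with hQ
    have hms2 : Measurable fun u : ℝ => ENNReal.ofReal ((1 + (u + Real.log θ) ^ 2)⁻¹) := by fun_prop
    calc ∫⁻ u : ℝ, ENNReal.ofReal (q1F e E θ (Real.exp u))
        ≤ ∫⁻ u : ℝ, (ENNReal.ofReal C2 * ENNReal.ofReal ((1 + u ^ 2)⁻¹) +
            ENNReal.ofReal (C2 * Q) * ENNReal.ofReal ((1 + (u + Real.log θ) ^ 2)⁻¹)) := by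
          refine lintegral_mono fun u => ?_
          rw [← ENNReal.ofReal_mul hC2.le, ← ENNReal.ofReal_mul (by positivity),
            ← ENNReal.ofReal_add (by positivity) (by positivity)]
          exact ENNReal.ofReal_le_ofReal (h2 θ hθ hθ1 u)
      _ = ENNReal.ofReal C2 * ENNReal.ofReal Real.pi + ENNReal.ofReal (C2 * Q) * ENNReal.ofReal Real.pi := by
          rw [lintegral_add_left (hms.const_mul _), lintegral_const_mul _ hms, q1_lint_sq,
            lintegral_const_mul _ hms2,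
            lintegral_add_right_eq_self (fun u : ℝ => ENNReal.ofReal ((1 + u ^ 2)⁻¹)) (Real.log θ), q1_lint_sq]
      _ = ENNReal.ofReal (C2 * Real.pi + C2 * Q * Real.pi) := by
          rw [← ENNReal.ofReal_mul hC2.le, ← ENNReal.ofReal_mul (by positivity),
            ← ENNReal.ofReal_add (by positivity) (by positivity)]
      _ ≤ ENNReal.ofReal (C * Q) := by
          refine ENNReal.ofReal_le_ofReal ?_
          have e3 : C2 * Real.pi ≤ C2 * Real.pi * Q := le_mul_of_one_le_right (by positivity) hp1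
          calc C2 * Real.pi + C2 * Q * Real.pi ≤ C2 * Real.pi * Q + C2 * Q * Real.pi := by linarith
            _ = 2 * C2 * Real.pi * Q := by ring
            _ ≤ C * Q := mul_le_mul_of_nonneg_right c2 (by linarith)

/-- PROOF. The integrand is `∏_l f_l (t_l)`: the integral is the product of the integrals (`MeasureTheory.lintegral_prod`-type by induction on `k`, or `volume_pi` and `lintegral_fintype_prod_eq_prod`-type; `measurePreserving_piFinSuccAbove`), `q_one` (`ξ_l²= |ξ_l|²`). -/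
theorem q_prod (e : Fin k → ℕ) (E A : ℕ) {η : ℝ} (hη : 0 < η) : ∃ C : ℝ, 1 ≤ C ∧ ∀ y : ℝ, 0 < y → ∀ ξ : Fin k → ℝ, (∀ l, ξ l ≠ 0) →
    ∫⁻ t : Fin k → ℝ, ENNReal.ofReal ((∏ l, max 1 (bl y t l) ^ e l) * (∏ l, max 1 (bl y t l)⁻¹ ^ E) * gq y ξ t) ≤
      ENNReal.ofReal (C * ∏ l, (max 1 (1 / |ξ l|) ^ ((e l : ℝ) + η) * min 1 (1 / |ξ l|) ^ A)) := by
  choose Cf hCf hf using fun l : Fin k => q_one (e l) E A hη
  refine ⟨∏ l, Cf l, ?_, fun y hy ξ hξ => ?_⟩
  · calc (1 : ℝ) = ∏ _l : Fin k, (1 : ℝ) := by simp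
      _ ≤ ∏ l, Cf l := Finset.prod_le_prod (fun _ _ => zero_le_one) fun l _ => hCf l
  have hmeas : ∀ l : Fin k, Measurable fun u : ℝ => ENNReal.ofReal (max 1 (Real.exp u / y) ^ e l * max 1 (Real.exp u / y)⁻¹ ^ E *
        Real.exp (-(Real.pi * ((Real.exp u / y) ^ 2)⁻¹) - Real.pi * (|ξ l| * (Real.exp u / y)) ^ 2)) := by
    intro l
    fun_prop
  calc ∫⁻ t : Fin k → ℝ, ENNReal.ofReal ((∏ l, max 1 (bl y t l) ^ e l) * (∏ l, max 1 (bl y t l)⁻¹ ^ E) * gq y ξ t)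
      = ∫⁻ t : Fin k → ℝ, ∏ l, ENNReal.ofReal (max 1 (Real.exp (t l) / y) ^ e l * max 1 (Real.exp (t l) / y)⁻¹ ^ E *
        Real.exp (-(Real.pi * ((Real.exp (t l) / y) ^ 2)⁻¹) - Real.pi * (|ξ l| * (Real.exp (t l) / y)) ^ 2)) := by
        refine lintegral_congr fun t => ?_
        rw [← ENNReal.ofReal_prod_of_nonneg fun l _ => by positivity]
        congr 1
        unfold gq bl
        rw [← Finset.prod_mul_distrib, ← Finset.prod_mul_distrib]
        refine Finset.prod_congr rfl fun l _ => ?_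
        have : (ξ l * (Real.exp (t l) / y)) ^ 2 = (|ξ l| * (Real.exp (t l) / y)) ^ 2 := by
          rw [mul_pow, mul_pow, sq_abs]
        rw [this]
    _ = ∏ l, ∫⁻ u : ℝ, ENNReal.ofReal (max 1 (Real.exp u / y) ^ e l * max 1 (Real.exp u / y)⁻¹ ^ E *
        Real.exp (-(Real.pi * ((Real.exp u / y) ^ 2)⁻¹) - Real.pi * (|ξ l| * (Real.exp u / y)) ^ 2)) := by
        rw [volume_pi]
        exact q1_lint (fun l u => ENNReal.ofReal (max 1 (Real.exp u / y) ^ e l * max 1 (Real.exp u / y)⁻¹ ^ E *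
          Real.exp (-(Real.pi * ((Real.exp u / y) ^ 2)⁻¹) - Real.pi * (|ξ l| * (Real.exp u / y)) ^ 2))) hmeas
    _ ≤ ∏ l, ENNReal.ofReal (Cf l * (max 1 (1 / |ξ l|) ^ ((e l : ℝ) + η) * min 1 (1 / |ξ l|) ^ A)) :=
        Finset.prod_le_prod' fun l _ => hf l y hy |ξ l| (abs_pos.2 (hξ l))
    _ = ENNReal.ofReal ((∏ l, Cf l) * ∏ l, (max 1 (1 / |ξ l|) ^ ((e l : ℝ) + η) * min 1 (1 / |ξ l|) ^ A)) := by
        rw [← ENNReal.ofReal_prod_of_nonneg, Finset.prod_mul_distrib]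
        intro l _
        have h1 : 0 ≤ Cf l := le_trans zero_le_one (hCf l)
        have h2 : 0 ≤ min 1 (1 / |ξ l|) := le_min zero_le_one (by positivity)
        have h3 : 0 ≤ max 1 (1 / |ξ l|) ^ ((e l : ℝ) + η) := Real.rpow_nonneg (by positivity) _
        positivity

end

end Pool.Agent.Lib.H85A
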