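import Pool.Agent.Lib.H85A.QD
import Pool.Agent.Lib.H33N.D1

/-!
# H85A, Q2: the constant `M(a α, 1)` (pure inequalities)
-/

namespace Pool.Agent.Lib.H85A

open MeasureTheory Matrix NumberField
open Pool.Agent.Lib.H89N Pool.Agent.Lib.H85S Pool.Agent.Lib.H33W Pool.Agent.Lib.H33N
open scoped ENNReal

noncomputable section

variable {n k : ℕ}

/-- `u_i <= N^(-i) prod_(l<i) M_l`. -/
theorem q2_ratio {N : ℕ} (hN : 1 ≤ N) (τ : Fin k → ℝ) (i : Fin (k + 1)) :
    av τ i / av τ 0 ≤ (∏ l ∈ Finset.univ.filter (fun l : Fin k => (l : ℕ) < (i : ℕ)), Ml N τ l) / (N : ℝ) ^ (i : ℕ) := by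
  classical
  have hN0 : (0 : ℝ) < N := by exact_mod_cast hN
  induction i using Fin.induction with
  | zero =>
    rw [div_self (av_ne τ 0), Finset.prod_eq_one]
    · simp
    · intro l hl
      have := (Finset.mem_filter.1 hl).2
      simp at this
  | succ l ih =>
    have e : (Finset.univ.filter fun l' : Fin k => (l' : ℕ) < (l.succ : ℕ)) =
        insert l (Finset.univ.filter fun l' : Fin k => (l' : ℕ) < (l.castSucc : ℕ)) := by
      ext l'
      simp only [Finset.mem_filter, Finset.mem_univ, true_and, Finset.mem_insert, Fin.val_succ, Fin.val_castSucc]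
      constructor
      · intro h
        by_cases h' : l' = l
        · exact Or.inl h'
        · right
          have : (l' : ℕ) ≠ l := fun h'' => h' (Fin.ext h'')
          omega
      · rintro (h | h)
        · rw [h]
          omega
        · omega
    have hP0 : 0 ≤ ∏ l ∈ Finset.univ.filter (fun l' : Fin k => (l' : ℕ) < (l.castSucc : ℕ)), Ml N τ l :=
      Finset.prod_nonneg fun l _ => zero_le_one.trans (le_max_left _ _)
    have h1 := av_pos τ l.castSucc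
    have h2 := av_pos τ l.succ
    have h3 := av_pos τ 0
    have h4 : av τ l.succ / av τ l.castSucc ≤ Ml N τ l / N := by
      rw [le_div_iff₀ hN0]
      refine le_trans (le_of_eq ?_) (le_max_right _ _)
      field_simp
    rw [e, Finset.prod_insert (by simp)]
    have e2 : av τ l.succ / av τ 0 = (av τ l.succ / av τ l.castSucc) * (av τ l.castSucc / av τ 0) := by
      field_simp
    rw [e2]
    refine (mul_le_mul h4 ih (div_pos h1 h3).le ?_).trans (le_of_eq ?_)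
    · exact div_nonneg (zero_le_one.trans (le_max_left _ _)) hN0.le
    · rw [Fin.val_succ, Fin.val_castSucc, pow_succ]
      field_simp

theorem q2_U (M : Fin k → ℝ) : ∏ i : Fin k, (∏ l ∈ Finset.univ.filter (fun l : Fin k => (l : ℕ) < (i.castSucc : ℕ)), M l) =
    ∏ l : Fin k, M l ^ (k - 1 - l : ℕ) := by
  classical
  have h1 : ∀ i : Fin k, (∏ l ∈ Finset.univ.filter (fun l : Fin k => (l : ℕ) < (i.castSucc : ℕ)), M l) =
      ∏ l : Fin k, if l < i then M l else 1 := by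
    intro i
    rw [Finset.prod_filter]
    rfl
  rw [Finset.prod_congr rfl fun i _ => h1 i, Finset.prod_comm]
  refine Finset.prod_congr rfl fun l _ => ?_
  rw [← Finset.prod_filter, Finset.prod_const]
  congr 1
  rw [show (Finset.univ.filter fun i : Fin k => l < i) = Finset.Ioi l by ext; simp, Fin.card_Ioi]

theorem q2_Ul (M : Fin k → ℝ) : (∏ l ∈ Finset.univ.filter (fun l : Fin k => (l : ℕ) < ((Fin.last k : Fin (k + 1)) : ℕ)), M l) =
    ∏ l : Fin k, M l := by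
  rw [Finset.filter_true_of_mem]
  intro l _
  exact l.2

theorem q2_Uk (M : Fin k → ℝ) : (∏ l : Fin k, M l) * ∏ l : Fin k, M l ^ (k - 1 - l : ℕ) = ∏ l : Fin k, M l ^ (k - l : ℕ) := by
  rw [← Finset.prod_mul_distrib]
  refine Finset.prod_congr rfl fun l _ => ?_
  rw [← pow_succ']
  congr 1
  have := l.2
  omega

/-- The pure inequality behind the first term. -/
theorem q2_T1 (g F : Fin k → ℝ) (zl : Fin k) (m : ℝ) (hg0 : ∀ i, 0 ≤ g i) (hm : 0 ≤ m) (hgz : g zl = 1)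
    (hgF : ∀ i, g i ≤ F i) (hmF : m ≤ F zl) : (∏ i, g i) * m ≤ ∏ i, F i := by
  classical
  have e : (∏ i, g i) * m = ∏ i, (g i * if i = zl then m else 1) := by
    rw [Finset.prod_mul_distrib, Finset.prod_ite_eq' Finset.univ zl (fun _ => m)]
    simp
  rw [e]
  refine Finset.prod_le_prod (fun i _ => ?_) fun i _ => ?_
  · split_ifs
    · exact mul_nonneg (hg0 i) hm
    · rw [mul_one]
      exact hg0 i
  · split_ifs with h
    · rw [h, hgz, one_mul]
      exact hmF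
    · rw [mul_one]
      exact hgF i

/-- The pure inequality behind the second term. -/
theorem q2_T2 (g c H : Fin k → ℝ) (zl : Fin k) (u : ℝ) (hg0 : ∀ i, 0 ≤ g i) (hc : ∀ i, 0 < c i) (hgz : g zl = 1) (hu0 : 0 ≤ u)
    (hgH : ∀ i, i ≠ zl → g i * c i ≤ H i) (huH : u ≤ H zl) : (∏ i, g i) * ((∏ i, c i) * (c zl)⁻¹ * u) ≤ ∏ i, H i := by
  classical
  have e : (∏ i, g i) * ((∏ i, c i) * (c zl)⁻¹ * u) = ∏ i, (g i * (c i * if i = zl then (c zl)⁻¹ * u else 1)) := by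
    rw [Finset.prod_mul_distrib, Finset.prod_mul_distrib, Finset.prod_ite_eq' Finset.univ zl (fun _ => (c zl)⁻¹ * u)]
    simp only [Finset.mem_univ, if_true]
    ring
  rw [e]
  refine Finset.prod_le_prod (fun i _ => ?_) fun i _ => ?_
  · split_ifs
    · exact mul_nonneg (hg0 i) (mul_nonneg (hc i).le (mul_nonneg (inv_nonneg.2 (hc zl).le) hu0))
    · rw [mul_one]
      exact mul_nonneg (hg0 i) (hc i).le
  · split_ifs with h
    · rw [h, hgz, one_mul, ← mul_assoc, mul_inv_cancel₀ (hc zl).ne', one_mul]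
      exact huH
    · rw [mul_one]
      exact hgH i h

theorem q2_bav {y : ℝ} (hy : 0 < y) (t : Fin k → ℝ) (l : Fin k) : av t l.castSucc = y * bl y t l := by
  rw [av_cs]
  unfold bl
  field_simp

theorem q2_last {y : ℝ} (hy : 0 < y) (t : Fin k → ℝ) : av t (Fin.last k) = (y ^ k)⁻¹ * ∏ l : Fin k, (bl y t l)⁻¹ := by
  have h := av_prod t
  rw [Fin.prod_univ_castSucc] at h
  simp only [q2_bav hy] at h
  rw [Finset.prod_mul_distrib, Finset.prod_const, Finset.card_univ, Fintype.card_fin] at h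
  have h2 : 0 < ∏ l : Fin k, bl y t l := Finset.prod_pos fun l _ => div_pos (Real.exp_pos _) hy
  have h3 : 0 < y ^ k := pow_pos hy k
  rw [Finset.prod_inv_distrib]
  field_simp
  linarith

theorem q2_mc (hk : 1 ≤ k) (N : ℕ) (a : Fin (k + 1) → ℝ) : McA hk N a =
    (∏ i : Fin k, if 1 ≤ (i : ℕ) ∧ (i : ℕ) + 2 < k + 1 then max 1 (a i.castSucc / a 0 / N) else 1) *
      (max 1 (a (⟨k - 1, by omega⟩ : Fin k).castSucc / a 0 / N) +
        a (Fin.last k) / a 0 * (a (⟨k - 1, by omega⟩ : Fin k).castSucc / a 0) / (N : ℝ) ^ 2) := by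
  classical
  have hdg : dg ℚ = 1 := Module.finrank_self ℚ
  unfold McA Mc
  rw [nI_norm, hdg]
  simp only [pow_one, one_mul]
  have h2 : 2 ≤ k + 1 := by omega
  have hz : (iz h2 : Fin (k + 1)) = 0 := rfl
  have hq : (H33W.iq h2 : Fin (k + 1)) = Fin.last k := Fin.ext rfl
  have hp : (ip h2 : Fin (k + 1)) = (⟨k - 1, by omega⟩ : Fin k).castSucc := Fin.ext (by show k + 1 - 2 = k - 1; omega)
  rw [hz, hq, hp]
  congr 1
  rw [Finset.prod_filter, Fin.prod_univ_castSucc, if_neg, mul_one]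
  · rfl
  · rintro ⟨-, h3⟩
    simp only [Fin.val_last] at h3
    omega

/-- PROOF. `n = k + 1`, `a = av τ`, `α = av t`, `u_i = a_i / a_0`, `b_i = α_i / y = bl y t i` (`i < k`), `X = y^(-(k+1))`, `M_l = Ml N τ l`, `B(j) = max(1, b_j⁻¹)`. Unfold `Mc` (`dg ℚ = finrank = 1`, `nI_norm`, compare `mc_mx` in `H33N.D6`):
`McA = ∏_(1 ≤ i ≤ k-2) max(1, u'_i/N) * (max(1, u'_(k-1)/N) + u'_k u'_(k-1)/N²)`, `u'_i = u_i α_i / α_0` (`av_add`), so `u'_i = u_i b_i / b_0` for `i < k` and `u'_k = u_k X / (b_0 ∏_(l<k) b_l)` (`∏ α = 1`).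
(a) `u_i ≤ N^(-i) ∏_(l<i) M_l` (`1/r_l ≤ M_l / N`), so for `1 ≤ i < k`: `max(1, u'_i/N) ≤ (∏_(l<i) M_l) max(1, b_i) B(0)`. First term: `∏_(1 ≤ i ≤ k-1)` of this is at most `∏_l M_l^(k-1-l) ∏_(l ≥ 1) max(1, b_l) B(0)^(k-1)`.
(b) Second term: `u'_k u'_(k-1)/N² = (u_k u_(k-1)/N²) X b_0⁻² ∏_(l ≤ k-2) b_l⁻¹` (for `k = 1`: `(u_1/N²) X b_0⁻²`), `u_k u_(k-1)/N² ≤ N^(-(2k+1)) ∏_(l<k) M_l ∏_(l<k-1) M_l`, times `∏_(1 ≤ i ≤ k-2) (∏_(l<i) M_l) max(1, b_i) B(0)`; `max(1, b_i) b_i⁻¹ = B(i)`: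
at most `(X/N^(2k+1)) ∏_l M_l^(k-l) B(0)^(k+1) ∏_(i ≥ 1) B(i)`. -/
theorem q_mc (hk : 1 ≤ k) {N : ℕ} (hN : 1 ≤ N) {y : ℝ} (hy : 0 < y) (τ t : Fin k → ℝ) :
    McA hk N (av (τ + t)) ≤ (1 + (y ^ (k + 1))⁻¹ / (N : ℝ) ^ (2 * k + 1)) *
      ((∏ l : Fin k, Ml N τ l ^ (k - 1 - l : ℕ)) * (∏ l : Fin k, max 1 (bl y t l) ^ (if (l : ℕ) = 0 then 0 else 1)) + ∏ l : Fin k, Ml N τ l ^ (k - l : ℕ)) *
      ∏ l : Fin k, max 1 (bl y t l)⁻¹ ^ (k + 3) := by
  classical
  have hNr : (1 : ℝ) ≤ N := by exact_mod_cast hN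
  have hN0 : (0 : ℝ) < N := by linarith
  obtain ⟨z0, hz0⟩ : ∃ z0 : Fin k, z0 = ⟨0, by omega⟩ := ⟨_, rfl⟩
  obtain ⟨zl, hzl⟩ : ∃ zl : Fin k, zl = ⟨k - 1, by omega⟩ := ⟨_, rfl⟩
  obtain ⟨b, hb⟩ : ∃ b : Fin k → ℝ, b = bl y t := ⟨_, rfl⟩
  obtain ⟨M, hM⟩ : ∃ M : Fin k → ℝ, M = Ml N τ := ⟨_, rfl⟩
  have hb0 : ∀ l, 0 < b l := fun l => by
    rw [hb]
    exact div_pos (Real.exp_pos _) hy
  have hM1 : ∀ l, 1 ≤ M l := fun l => by
    rw [hM]
    exact le_max_left _ _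
  obtain ⟨B, hB⟩ : ∃ B : Fin k → ℝ, B = fun l => max 1 (b l)⁻¹ := ⟨_, rfl⟩
  have hB1 : ∀ l, 1 ≤ B l := fun l => by
    rw [hB]
    exact le_max_left _ _
  have hBb : ∀ l, (b l)⁻¹ ≤ B l := fun l => by
    rw [hB]
    exact le_max_right _ _
  obtain ⟨U, hU⟩ : ∃ U : Fin (k + 1) → ℝ,
    U = fun i : Fin (k + 1) => ∏ l ∈ Finset.univ.filter (fun l : Fin k => (l : ℕ) < (i : ℕ)), M l := ⟨_, rfl⟩
  have hU1 : ∀ i, 1 ≤ U i := fun i => by
    rw [hU]
    refine Finset.prod_induction (fun l => M l) (fun x => 1 ≤ x) (fun x z hx hz => ?_) le_rfl fun l _ => hM1 l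
    nlinarith
  have hUr : ∀ i, av τ i / av τ 0 ≤ U i / (N : ℝ) ^ (i : ℕ) := fun i => by
    rw [hU, hM]
    exact q2_ratio hN τ i
  have hUp : ∏ i : Fin k, U i.castSucc = ∏ l : Fin k, M l ^ (k - 1 - l : ℕ) := by
    rw [hU]
    exact q2_U M
  have hUl : U (Fin.last k) = ∏ l : Fin k, M l := by
    rw [hU]
    exact q2_Ul M
  obtain ⟨Q, hQ⟩ : ∃ Q : ℝ, Q = ∏ l, B l := ⟨_, rfl⟩
  have hQ1 : 1 ≤ Q := by
    rw [hQ]
    refine Finset.prod_induction (fun l => B l) (fun x => 1 ≤ x) (fun x z hx hz => ?_) le_rfl fun l _ => hB1 l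
    nlinarith
  have hBQ : ∀ l, B l ≤ Q := fun l => by
    rw [hQ, ← Finset.mul_prod_erase Finset.univ B (Finset.mem_univ l)]
    refine le_mul_of_one_le_right (zero_le_one.trans (hB1 l)) ?_
    refine Finset.prod_induction (fun l => B l) (fun x => 1 ≤ x) (fun x z hx hz => ?_) le_rfl fun l _ => hB1 l
    nlinarith
  obtain ⟨w, hw⟩ : ∃ w : Fin (k + 1) → ℝ, w = fun i => av (τ + t) i / av (τ + t) 0 := ⟨_, rfl⟩
  have hw' : ∀ i, w i = (av τ i / av τ 0) * (av t i / av t 0) := fun i => by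
    rw [hw]
    simp only
    rw [av_add, av_add, mul_div_mul_comm]
  have h00 : (0 : Fin (k + 1)) = z0.castSucc := by
    rw [hz0]
    rfl
  have ht0 : av t 0 = y * b z0 := by
    rw [h00, hb]
    exact q2_bav hy t z0
  have hwi : ∀ i : Fin k, w i.castSucc = (av τ i.castSucc / av τ 0) * (b i / b z0) := fun i => by
    rw [hw', ht0, q2_bav hy t i, ← hb]
    congr 1
    have := hb0 z0
    field_simp
  have hwl : w (Fin.last k) = (av τ (Fin.last k) / av τ 0) * ((y ^ (k + 1))⁻¹ * (b z0)⁻¹ * ∏ l, (b l)⁻¹) := by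
    rw [hw', ht0, q2_last hy t, ← hb]
    congr 1
    have h1 := hb0 z0
    rw [pow_succ]
    field_simp
  have hw0 : ∀ i, 0 < w i := fun i => by
    rw [hw]
    exact div_pos (av_pos _ _) (av_pos _ _)
  obtain ⟨P, hP⟩ : ∃ P : Fin k → ℝ, P = fun l => max 1 (b l) ^ (if (l : ℕ) = 0 then 0 else 1) := ⟨_, rfl⟩
  have hP1 : ∀ l, 1 ≤ P l := fun l => by
    rw [hP]
    exact one_le_pow₀ (le_max_left _ _)
  -- the bound of each factor
  have hPz : ∀ i : Fin k, i ≠ z0 → P i = max 1 (b i) := fun i hi => by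
    have h1 : (i : ℕ) ≠ 0 := fun h => hi (by rw [hz0]; exact Fin.ext h)
    rw [hP]
    simp only
    rw [if_neg h1, pow_one]
  have hu0 : ∀ i, 0 < av τ i / av τ 0 := fun i => div_pos (av_pos _ _) (av_pos _ _)
  have huU : ∀ i, av τ i / av τ 0 ≤ U i := fun i =>
    (hUr i).trans (div_le_self (zero_le_one.trans (hU1 i)) (one_le_pow₀ hNr))
  have hF1 : ∀ i : Fin k, 1 ≤ U i.castSucc * (P i * B z0) := fun i => by
    have h1 := hU1 i.castSucc
    have h2 : 1 ≤ P i * B z0 := by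
      have := hP1 i
      have := hB1 z0
      nlinarith
    nlinarith
  have hFw : ∀ i : Fin k, max 1 (w i.castSucc / N) ≤ U i.castSucc * (P i * B z0) := fun i => by
    refine max_le (hF1 i) ?_
    refine (div_le_self (hw0 _).le hNr).trans ?_
    by_cases hi : i = z0
    · have h1 : w i.castSucc = 1 := by
        rw [hi, ← h00, hw]
        exact div_self (av_ne _ _)
      rw [h1]
      exact hF1 i
    · rw [hwi, hPz i hi, div_eq_mul_inv (b i)]
      refine mul_le_mul (huU _) ?_ (mul_nonneg (hb0 i).le (inv_nonneg.2 (hb0 z0).le)) (zero_le_one.trans (hU1 _))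
      exact mul_le_mul (le_max_right _ _) (hBb z0) (inv_nonneg.2 (hb0 z0).le) (zero_le_one.trans (le_max_left _ _))
  obtain ⟨g, hg⟩ : ∃ g : Fin k → ℝ,
    g = fun i : Fin k => if 1 ≤ (i : ℕ) ∧ (i : ℕ) + 2 < k + 1 then max 1 (w i.castSucc / N) else 1 := ⟨_, rfl⟩
  have hg0 : ∀ i, 0 ≤ g i := fun i => by
    rw [hg]
    simp only
    split_ifs
    · exact zero_le_one.trans (le_max_left _ _)
    · exact zero_le_one
  have hgz : g zl = 1 := by
    rw [hg]
    simp only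
    rw [if_neg]
    rw [hzl]
    rintro ⟨-, h⟩
    simp only at h
    omega
  have hgF : ∀ i, g i ≤ U i.castSucc * (P i * B z0) := fun i => by
    rw [hg]
    simp only
    split_ifs
    · exact hFw i
    · exact hF1 i
  have hmc : McA hk N (av (τ + t)) = (∏ i, g i) * (max 1 (w zl.castSucc / N) + w (Fin.last k) * w zl.castSucc / (N : ℝ) ^ 2) := by
    rw [q2_mc, hg, hw, hzl]
  have hT1 : (∏ i, g i) * max 1 (w zl.castSucc / N) ≤ (∏ l, M l ^ (k - 1 - l : ℕ)) * (∏ l, P l) * Q ^ (k + 3) := by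
    refine (q2_T1 g (fun i => U i.castSucc * (P i * B z0)) zl _ hg0 (zero_le_one.trans (le_max_left _ _)) hgz hgF
      (hFw zl)).trans ?_
    rw [Finset.prod_mul_distrib, Finset.prod_mul_distrib, hUp, Finset.prod_const, Finset.card_univ, Fintype.card_fin,
      ← mul_assoc]
    refine mul_le_mul_of_nonneg_left ?_ ?_
    · calc B z0 ^ k ≤ Q ^ k := pow_le_pow_left₀ (zero_le_one.trans (hB1 _)) (hBQ _) _
        _ ≤ Q ^ (k + 3) := pow_le_pow_right₀ hQ1 (by omega)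
    · exact mul_nonneg (Finset.prod_nonneg fun l _ => pow_nonneg (zero_le_one.trans (hM1 l)) _)
        (Finset.prod_nonneg fun l _ => zero_le_one.trans (hP1 l))
  have hX0 : 0 < (y ^ (k + 1))⁻¹ := inv_pos.2 (pow_pos hy _)
  have hT2 : (∏ i, g i) * (w (Fin.last k) * w zl.castSucc / (N : ℝ) ^ 2) ≤
      ((y ^ (k + 1))⁻¹ / (N : ℝ) ^ (2 * k + 1)) * (∏ l, M l ^ (k - l : ℕ)) * Q ^ (k + 3) := by
    have h1 := q2_T2 g (fun l => (b l)⁻¹) (fun i => U i.castSucc * (B i * B z0)) zl (U zl.castSucc) hg0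
      (fun i => inv_pos.2 (hb0 i)) hgz (zero_le_one.trans (hU1 _)) ?_ ?_
    · have h2 : w (Fin.last k) * w zl.castSucc / (N : ℝ) ^ 2 ≤
          ((y ^ (k + 1))⁻¹ / (N : ℝ) ^ (2 * k + 1)) * U (Fin.last k) * (B z0 ^ 2) *
            ((∏ i, (b i)⁻¹) * ((b zl)⁻¹)⁻¹ * U zl.castSucc) := by
        rw [hwl, hwi]
        have h3 := hUr (Fin.last k)
        have h4 := hUr zl.castSucc
        have h5 := hu0 (Fin.last k)
        have h6 := hu0 zl.castSucc
        have e1 : ((Fin.last k : Fin (k + 1)) : ℕ) = k := rfl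
        have e2 : ((zl.castSucc : Fin (k + 1)) : ℕ) = k - 1 := by
          rw [hzl]
          rfl
        rw [e1] at h3
        rw [e2] at h4
        have h7 : (av τ (Fin.last k) / av τ 0) * (av τ zl.castSucc / av τ 0) ≤
            (U (Fin.last k) / (N : ℝ) ^ k) * (U zl.castSucc / (N : ℝ) ^ (k - 1)) :=
          mul_le_mul h3 h4 h6.le (div_nonneg (zero_le_one.trans (hU1 _)) (by positivity))
        have h8 : (b z0)⁻¹ ^ 2 ≤ B z0 ^ 2 := pow_le_pow_left₀ (inv_nonneg.2 (hb0 z0).le) (hBb z0) 2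
        have h9 : 0 < ∏ i, (b i)⁻¹ := Finset.prod_pos fun i _ => inv_pos.2 (hb0 i)
        have h10 := hb0 zl
        have e3 : (av τ (Fin.last k) / av τ 0) * ((y ^ (k + 1))⁻¹ * (b z0)⁻¹ * ∏ l, (b l)⁻¹) *
            ((av τ zl.castSucc / av τ 0) * (b zl / b z0)) / (N : ℝ) ^ 2 =
            ((av τ (Fin.last k) / av τ 0) * (av τ zl.castSucc / av τ 0)) * (b z0)⁻¹ ^ 2 *
              ((y ^ (k + 1))⁻¹ * ((∏ l, (b l)⁻¹) * b zl) / (N : ℝ) ^ 2) := by
          rw [div_eq_mul_inv (b zl)]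
          ring
        rw [e3]
        have h11 : 0 ≤ (y ^ (k + 1))⁻¹ * ((∏ l, (b l)⁻¹) * b zl) / (N : ℝ) ^ 2 := by positivity
        have h12 : ((av τ (Fin.last k) / av τ 0) * (av τ zl.castSucc / av τ 0)) * (b z0)⁻¹ ^ 2 ≤
            ((U (Fin.last k) / (N : ℝ) ^ k) * (U zl.castSucc / (N : ℝ) ^ (k - 1))) * B z0 ^ 2 := by
          refine mul_le_mul h7 h8 (by positivity) ?_
          exact mul_nonneg (div_nonneg (zero_le_one.trans (hU1 _)) (by positivity))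
            (div_nonneg (zero_le_one.trans (hU1 _)) (by positivity))
        refine (mul_le_mul_of_nonneg_right h12 h11).trans (le_of_eq ?_)
        have e4 : (N : ℝ) ^ (2 * k + 1) = (N : ℝ) ^ k * (N : ℝ) ^ (k - 1) * (N : ℝ) ^ 2 := by
          rw [← pow_add, ← pow_add]
          congr 1
          omega
        rw [e4, inv_inv]
        field_simp
      have h13 : 0 ≤ ∏ i, g i := Finset.prod_nonneg fun i _ => hg0 i
      have h14 : 0 ≤ ((y ^ (k + 1))⁻¹ / (N : ℝ) ^ (2 * k + 1)) * U (Fin.last k) * (B z0 ^ 2) := by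
        have := zero_le_one.trans (hU1 (Fin.last k))
        positivity
      calc (∏ i, g i) * (w (Fin.last k) * w zl.castSucc / (N : ℝ) ^ 2)
          ≤ (∏ i, g i) * (((y ^ (k + 1))⁻¹ / (N : ℝ) ^ (2 * k + 1)) * U (Fin.last k) * (B z0 ^ 2) *
            ((∏ i, (b i)⁻¹) * ((b zl)⁻¹)⁻¹ * U zl.castSucc)) := mul_le_mul_of_nonneg_left h2 h13
        _ = (((y ^ (k + 1))⁻¹ / (N : ℝ) ^ (2 * k + 1)) * U (Fin.last k) * (B z0 ^ 2)) *
            ((∏ i, g i) * ((∏ i, (b i)⁻¹) * ((b zl)⁻¹)⁻¹ * U zl.castSucc)) := by ring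
        _ ≤ (((y ^ (k + 1))⁻¹ / (N : ℝ) ^ (2 * k + 1)) * U (Fin.last k) * (B z0 ^ 2)) *
            ∏ i : Fin k, U i.castSucc * (B i * B z0) := mul_le_mul_of_nonneg_left h1 h14
        _ = ((y ^ (k + 1))⁻¹ / (N : ℝ) ^ (2 * k + 1)) * (∏ l, M l ^ (k - l : ℕ)) * (Q * B z0 ^ (k + 2)) := by
            rw [Finset.prod_mul_distrib, Finset.prod_mul_distrib, hUp, hUl, ← hQ, Finset.prod_const, Finset.card_univ,
              Fintype.card_fin, ← q2_Uk M]
            ring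
        _ ≤ _ := by
            refine mul_le_mul_of_nonneg_left ?_ ?_
            · have h15 : B z0 ^ (k + 2) ≤ Q ^ (k + 2) := pow_le_pow_left₀ (zero_le_one.trans (hB1 _)) (hBQ _) _
              calc Q * B z0 ^ (k + 2) ≤ Q * Q ^ (k + 2) := mul_le_mul_of_nonneg_left h15 (zero_le_one.trans hQ1)
                _ = Q ^ (k + 3) := by ring
            · exact mul_nonneg (by positivity) (Finset.prod_nonneg fun l _ => pow_nonneg (zero_le_one.trans (hM1 l)) _)
    · intro i hi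
      refine (mul_le_mul_of_nonneg_right (hgF i) (inv_nonneg.2 (hb0 i).le)).trans ?_
      rw [mul_assoc]
      refine mul_le_mul_of_nonneg_left ?_ (zero_le_one.trans (hU1 _))
      have h2 : P i * (b i)⁻¹ ≤ B i := by
        by_cases hi0 : i = z0
        · have h3 : P i = 1 := by
            rw [hP, hi0, hz0]
            simp
          rw [h3, one_mul]
          exact hBb i
        · rw [hPz i hi0, hB]
          simp only
          rw [max_mul_of_nonneg _ _ (inv_nonneg.2 (hb0 i).le), one_mul, mul_inv_cancel₀ (hb0 i).ne', max_comm]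
      calc P i * B z0 * (b i)⁻¹ = P i * (b i)⁻¹ * B z0 := by ring
        _ ≤ B i * B z0 := mul_le_mul_of_nonneg_right h2 (zero_le_one.trans (hB1 _))
    · have h2 := hU1 zl.castSucc
      have h3 : 1 ≤ B zl * B z0 := by
        have := hB1 zl
        have := hB1 z0
        nlinarith
      exact le_mul_of_one_le_right (zero_le_one.trans h2) h3
  have hA1 : 0 ≤ (∏ l, M l ^ (k - 1 - l : ℕ)) * (∏ l, P l) :=
    mul_nonneg (Finset.prod_nonneg fun l _ => pow_nonneg (zero_le_one.trans (hM1 l)) _)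
      (Finset.prod_nonneg fun l _ => zero_le_one.trans (hP1 l))
  have hA2 : 0 ≤ ∏ l, M l ^ (k - l : ℕ) := Finset.prod_nonneg fun l _ => pow_nonneg (zero_le_one.trans (hM1 l)) _
  have hQk : 0 ≤ Q ^ (k + 3) := pow_nonneg (zero_le_one.trans hQ1) _
  have hY : 0 ≤ (y ^ (k + 1))⁻¹ / (N : ℝ) ^ (2 * k + 1) := by positivity
  have hQe : ∏ l : Fin k, B l ^ (k + 3) = Q ^ (k + 3) := by
    rw [hQ, Finset.prod_pow]
  have goal : McA hk N (av (τ + t)) ≤ (1 + (y ^ (k + 1))⁻¹ / (N : ℝ) ^ (2 * k + 1)) *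
      ((∏ l, M l ^ (k - 1 - l : ℕ)) * (∏ l, P l) + ∏ l, M l ^ (k - l : ℕ)) * ∏ l : Fin k, B l ^ (k + 3) := by
    rw [hmc, mul_add, hQe]
    refine (add_le_add hT1 hT2).trans ?_
    have h1 : 0 ≤ (y ^ (k + 1))⁻¹ / (N : ℝ) ^ (2 * k + 1) * ((∏ l, M l ^ (k - 1 - l : ℕ)) * (∏ l, P l)) * Q ^ (k + 3) := by
      positivity
    have h2 : 0 ≤ (∏ l, M l ^ (k - l : ℕ)) * Q ^ (k + 3) := by positivity
    nlinarith
  rw [hP, hB, hM, hb] at goal
  exact goal

theorem mcA_one (hk : 1 ≤ k) (N : ℕ) {a : Fin (k + 1) → ℝ} (ha : ∀ i, 0 < a i) : 1 ≤ McA hk N a := one_le_Mc _ _ ha zero_le_one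

end

end Pool.Agent.Lib.H85A
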