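import Pool.Agent.Lib.H85A.Q1
import Pool.Agent.Lib.H85A.Q2

/-!
# H85A, Q3: the integral of `M(a α, 1)` against the Gaussian
-/

namespace Pool.Agent.Lib.H85A

open MeasureTheory Matrix NumberField
open Pool.Agent.Lib.H89N Pool.Agent.Lib.H85S Pool.Agent.Lib.H33W Pool.Agent.Lib.H33N
open scoped ENNReal

noncomputable section

variable {n k : ℕ}

theorem q3_gq_pos (y : ℝ) (ξ t : Fin k → ℝ) : 0 < gq y ξ t := by
  unfold gq
  exact Finset.prod_pos fun _ _ => Real.exp_pos _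

theorem q3_max_le {N : ℕ} {τ ξ : Fin k → ℝ} (l : Fin k) (h0 : ξ l ≠ 0)
    (h : av τ l.castSucc / av τ l.succ ≤ N * |ξ l|) : max 1 (1 / |ξ l|) ≤ Ml N τ l := by
  unfold Ml
  refine max_le_max le_rfl ?_
  have hr : 0 < av τ l.castSucc / av τ l.succ := div_pos (av_pos _ _) (av_pos _ _)
  have hx : 0 < |ξ l| := abs_pos.2 h0
  rw [div_le_div_iff₀ hx hr, one_mul]
  exact h

/-- The exponent estimate for one index. -/
theorem q3_exp {x M c : ℝ} {e p q : ℕ} {η : ℝ} (hη : 0 < η) (hx : 1 ≤ x) (hxM : x ≤ M) (hc0 : 0 ≤ c)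
    (hc1 : c ≤ 1) (A : ℕ) (h : p + e ≤ q) :
    M ^ p * (x ^ ((e : ℝ) + η / 2) * c ^ A) * (x ^ (((0 : ℕ) : ℝ) + η / 2) * c ^ A) ≤
      M ^ ((q : ℝ) + η) * c ^ A := by
  have hM : 1 ≤ M := hx.trans hxM
  have hx0 : 0 < x := by linarith
  have hM0 : 0 < M := by linarith
  have e1 : x ^ ((e : ℝ) + η / 2) ≤ M ^ ((e : ℝ) + η / 2) :=
    Real.rpow_le_rpow hx0.le hxM (by positivity)
  have e2 : x ^ (((0 : ℕ) : ℝ) + η / 2) ≤ M ^ (((0 : ℕ) : ℝ) + η / 2) :=
    Real.rpow_le_rpow hx0.le hxM (by positivity)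
  have e3 : c ^ A * c ^ A ≤ c ^ A := mul_le_of_le_one_left (pow_nonneg hc0 _) (pow_le_one₀ hc0 hc1)
  have e4 : M ^ p * M ^ ((e : ℝ) + η / 2) * M ^ (((0 : ℕ) : ℝ) + η / 2) ≤ M ^ ((q : ℝ) + η) := by
    rw [← Real.rpow_natCast M p, ← Real.rpow_add hM0, ← Real.rpow_add hM0]
    refine Real.rpow_le_rpow_of_exponent_le hM ?_
    have : ((p + e : ℕ) : ℝ) ≤ q := by exact_mod_cast h
    push_cast at this ⊢
    linarith
  calc M ^ p * (x ^ ((e : ℝ) + η / 2) * c ^ A) * (x ^ (((0 : ℕ) : ℝ) + η / 2) * c ^ A)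
      = (M ^ p * x ^ ((e : ℝ) + η / 2) * x ^ (((0 : ℕ) : ℝ) + η / 2)) * (c ^ A * c ^ A) := by ring
    _ ≤ (M ^ p * M ^ ((e : ℝ) + η / 2) * M ^ (((0 : ℕ) : ℝ) + η / 2)) * c ^ A := by
        refine mul_le_mul ?_ e3 (by positivity) (by positivity)
        refine mul_le_mul ?_ e2 (by positivity) (by positivity)
        exact mul_le_mul_of_nonneg_left e1 (by positivity)
    _ ≤ _ := mul_le_mul_of_nonneg_right e4 (by positivity)

/-- PROOF. First factor: `q_prod` with `e = 0`, `E = 0`, `η/2`: `≤ C ∏ max(1, 1/|ξ_l|)^(η/2) min(1, 1/|ξ_l|)^A`. Second factor: `q_mc` (two summands, constants out of the integral) and `q_prod` with `E = k + 3`, `e_l = (if l = 0 then 0 else 1)` resp. `e = 0`, `η/2`. By `hξ` `1/|ξ_l| ≤ N/r_l`, so `max(1, 1/|ξ_l|) ≤ M_l`;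
`M_l^(k-1-l) M_l^(1 + η/2) = M_l^(k-l+η/2)` for `l ≥ 1`, `M_0^(k-1) M_0^(η/2) ≤ M_0^(k + η/2)`; `min^A min^A ≤ min^A`. -/
theorem q_top (hk : 1 ≤ k) (A : ℕ) {η : ℝ} (hη : 0 < η) : ∃ C : ℝ, 1 ≤ C ∧ ∀ (N : ℕ), 1 ≤ N → ∀ y : ℝ, 0 < y → ∀ τ ξ : Fin k → ℝ,
    (∀ l, ξ l ≠ 0) → (∀ l, av τ l.castSucc / av τ l.succ ≤ N * |ξ l|) →
    (∫⁻ t : Fin k → ℝ, ENNReal.ofReal (gq y ξ t)) * (∫⁻ t : Fin k → ℝ, ENNReal.ofReal (McA hk N (av (τ + t)) * gq y ξ t)) ≤
      ENNReal.ofReal (C * (1 + (y ^ (k + 1))⁻¹ / (N : ℝ) ^ (2 * k + 1)) *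
        ∏ l : Fin k, (Ml N τ l ^ (((k - l : ℕ) : ℝ) + η) * min 1 (1 / |ξ l|) ^ A)) := by
  have hη2 : 0 < η / 2 := half_pos hη
  set ee1 : Fin k → ℕ := fun l => if (l : ℕ) = 0 then 0 else 1 with hee1
  obtain ⟨C1, hC1, h1⟩ := q_prod (k := k) (fun _ => 0) 0 A hη2
  obtain ⟨C2, hC2, h2⟩ := q_prod (k := k) ee1 (k + 3) A hη2
  obtain ⟨C3, hC3, h3⟩ := q_prod (k := k) (fun _ => 0) (k + 3) A hη2
  have hC10 : 0 ≤ C1 := by linarith
  have hC20 : 0 ≤ C2 := by linarith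
  have hC30 : 0 ≤ C3 := by linarith
  refine ⟨C1 * (C2 + C3), by nlinarith, fun N hN y hy τ ξ hξ hr => ?_⟩
  have H1 := h1 y hy ξ hξ
  have H2 := h2 y hy ξ hξ
  have H3 := h3 y hy ξ hξ
  simp only [pow_zero, Finset.prod_const_one, one_mul] at H1 H3
  set Y : ℝ := 1 + (y ^ (k + 1))⁻¹ / (N : ℝ) ^ (2 * k + 1) with hY
  have hY0 : 0 ≤ Y := by positivity
  have hM1 : ∀ l, 1 ≤ Ml N τ l := fun l => le_max_left _ _
  have hMpos : ∀ l, 0 < Ml N τ l := fun l => lt_of_lt_of_le one_pos (hM1 l)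
  set P1 : ℝ := ∏ l : Fin k, Ml N τ l ^ (k - 1 - l : ℕ) with hP1
  set P2 : ℝ := ∏ l : Fin k, Ml N τ l ^ (k - l : ℕ) with hP2
  have hP10 : 0 ≤ P1 := Finset.prod_nonneg fun l _ => pow_nonneg (hMpos l).le _
  have hP20 : 0 ≤ P2 := Finset.prod_nonneg fun l _ => pow_nonneg (hMpos l).le _
  have hc0 : ∀ l, 0 ≤ min 1 (1 / |ξ l|) := fun l => le_min zero_le_one (by positivity)
  have hc1 : ∀ l, min 1 (1 / |ξ l|) ≤ 1 := fun l => min_le_left _ _
  have hx1 : ∀ l, 1 ≤ max 1 (1 / |ξ l|) := fun l => le_max_left _ _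
  have hxM : ∀ l, max 1 (1 / |ξ l|) ≤ Ml N τ l := fun l => q3_max_le l (hξ l) (hr l)
  set R0 : ℝ := ∏ l, (max 1 (1 / |ξ l|) ^ (((0 : ℕ) : ℝ) + η / 2) * min 1 (1 / |ξ l|) ^ A) with hR0
  set R1 : ℝ := ∏ l, (max 1 (1 / |ξ l|) ^ ((ee1 l : ℝ) + η / 2) * min 1 (1 / |ξ l|) ^ A) with hR1
  have hR00 : 0 ≤ R0 := Finset.prod_nonneg fun l _ =>
    mul_nonneg (Real.rpow_nonneg (by linarith [hx1 l]) _) (pow_nonneg (hc0 l) _)
  have hR10 : 0 ≤ R1 := Finset.prod_nonneg fun l _ =>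
    mul_nonneg (Real.rpow_nonneg (by linarith [hx1 l]) _) (pow_nonneg (hc0 l) _)
  set T : ℝ := ∏ l : Fin k, (Ml N τ l ^ (((k - l : ℕ) : ℝ) + η) * min 1 (1 / |ξ l|) ^ A) with hT
  have hT0 : 0 ≤ T := Finset.prod_nonneg fun l _ =>
    mul_nonneg (Real.rpow_nonneg (hMpos l).le _) (pow_nonneg (hc0 l) _)
  -- second integral
  have I2 : (∫⁻ t : Fin k → ℝ, ENNReal.ofReal (McA hk N (av (τ + t)) * gq y ξ t)) ≤
      ENNReal.ofReal (Y * P1 * (C2 * R1) + Y * P2 * (C3 * R0)) := by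
    have hpt : ∀ t : Fin k → ℝ, ENNReal.ofReal (McA hk N (av (τ + t)) * gq y ξ t) ≤
        ENNReal.ofReal (Y * P1) * ENNReal.ofReal ((∏ l, max 1 (bl y t l) ^ ee1 l) *
          (∏ l, max 1 (bl y t l)⁻¹ ^ (k + 3)) * gq y ξ t) +
        ENNReal.ofReal (Y * P2) * ENNReal.ofReal ((∏ l, max 1 (bl y t l)⁻¹ ^ (k + 3)) * gq y ξ t) := by
      intro t
      have hg := (q3_gq_pos y ξ t).le
      have hD : 0 ≤ ∏ l : Fin k, max 1 (bl y t l)⁻¹ ^ (k + 3) :=
        Finset.prod_nonneg fun l _ => pow_nonneg (le_trans zero_le_one (le_max_left _ _)) _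
      have hB : 0 ≤ ∏ l, max 1 (bl y t l) ^ ee1 l :=
        Finset.prod_nonneg fun l _ => pow_nonneg (le_trans zero_le_one (le_max_left _ _)) _
      rw [← ENNReal.ofReal_mul (mul_nonneg hY0 hP10), ← ENNReal.ofReal_mul (mul_nonneg hY0 hP20),
        ← ENNReal.ofReal_add (by positivity) (by positivity)]
      refine ENNReal.ofReal_le_ofReal ?_
      calc McA hk N (av (τ + t)) * gq y ξ t
          ≤ (Y * (P1 * (∏ l, max 1 (bl y t l) ^ ee1 l) + P2) *
              ∏ l : Fin k, max 1 (bl y t l)⁻¹ ^ (k + 3)) * gq y ξ t :=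
            mul_le_mul_of_nonneg_right (q_mc hk hN hy τ t) hg
        _ = _ := by ring
    have hmeas : ∀ (a : Fin k → ℕ) (E : ℕ), Measurable fun t : Fin k → ℝ =>
        ENNReal.ofReal ((∏ l, max 1 (bl y t l) ^ a l) * (∏ l, max 1 (bl y t l)⁻¹ ^ E) * gq y ξ t) := by
      intro a E
      refine ENNReal.measurable_ofReal.comp ?_
      have hb : ∀ l : Fin k, Measurable fun t : Fin k → ℝ => bl y t l := by
        intro l
        unfold bl
        exact (Real.measurable_exp.comp (measurable_pi_apply l)).div_const _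
      refine Measurable.mul (Measurable.mul ?_ ?_) ?_
      · exact Finset.measurable_fun_prod _ fun l _ => (measurable_const.max (hb l)).pow_const _
      · exact Finset.measurable_fun_prod _ fun l _ => (measurable_const.max (hb l).inv).pow_const _
      · unfold gq
        refine Finset.measurable_fun_prod _ fun l _ => ?_
        refine Real.measurable_exp.comp ?_
        refine Measurable.sub ?_ ?_
        · exact (measurable_const.mul ((hb l).pow_const 2).inv).neg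
        · exact measurable_const.mul ((measurable_const.mul (hb l)).pow_const 2)
    have hm1 := hmeas ee1 (k + 3)
    refine (lintegral_mono hpt).trans ?_
    rw [lintegral_add_left (hm1.const_mul _), lintegral_const_mul' _ _ ENNReal.ofReal_ne_top,
      lintegral_const_mul' _ _ ENNReal.ofReal_ne_top]
    rw [ENNReal.ofReal_add (by positivity) (by positivity), ENNReal.ofReal_mul (mul_nonneg hY0 hP10),
      ENNReal.ofReal_mul (mul_nonneg hY0 hP20)]
    gcongr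
  have hfin : C1 * R0 * (Y * P1 * (C2 * R1) + Y * P2 * (C3 * R0)) ≤ C1 * (C2 + C3) * Y * T := by
    have a1 : P1 * R1 * R0 ≤ T := by
      rw [hP1, hR1, hR0, hT, ← Finset.prod_mul_distrib, ← Finset.prod_mul_distrib]
      refine Finset.prod_le_prod (fun l _ => ?_) fun l _ => ?_
      · have := hx1 l
        have := hMpos l
        have := hc0 l
        positivity
      · refine q3_exp hη (hx1 l) (hxM l) (hc0 l) (hc1 l) A ?_
        rw [hee1]
        simp only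
        have := l.2
        split_ifs <;> omega
    have a2 : P2 * R0 * R0 ≤ T := by
      rw [hP2, hR0, hT, ← Finset.prod_mul_distrib, ← Finset.prod_mul_distrib]
      refine Finset.prod_le_prod (fun l _ => ?_) fun l _ => ?_
      · have := hx1 l
        have := hMpos l
        have := hc0 l
        positivity
      · exact q3_exp hη (hx1 l) (hxM l) (hc0 l) (hc1 l) A (by omega)
    calc C1 * R0 * (Y * P1 * (C2 * R1) + Y * P2 * (C3 * R0))
        = C1 * C2 * Y * (P1 * R1 * R0) + C1 * C3 * Y * (P2 * R0 * R0) := by ring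
      _ ≤ C1 * C2 * Y * T + C1 * C3 * Y * T :=
          add_le_add (mul_le_mul_of_nonneg_left a1 (by positivity))
            (mul_le_mul_of_nonneg_left a2 (by positivity))
      _ = _ := by ring
  calc (∫⁻ t : Fin k → ℝ, ENNReal.ofReal (gq y ξ t)) *
        (∫⁻ t : Fin k → ℝ, ENNReal.ofReal (McA hk N (av (τ + t)) * gq y ξ t))
      ≤ ENNReal.ofReal (C1 * R0) * ENNReal.ofReal (Y * P1 * (C2 * R1) + Y * P2 * (C3 * R0)) :=
        mul_le_mul' H1 I2
    _ = ENNReal.ofReal (C1 * R0 * (Y * P1 * (C2 * R1) + Y * P2 * (C3 * R0))) :=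
        (ENNReal.ofReal_mul (by positivity)).symm
    _ ≤ _ := ENNReal.ofReal_le_ofReal hfin

end

end Pool.Agent.Lib.H85A
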