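import Pool.Agent.Lib.H85A.SD
import Pool.Agent.Lib.H85A.I3B

/-!
# H85A, S1: `hcf` in coordinates, exponents
-/

namespace Pool.Agent.Lib.H85A

open MeasureTheory Matrix NumberField
open Pool.Agent.Lib.H89N Pool.Agent.Lib.H85S Pool.Agent.Lib.H33W Pool.Agent.Lib.H33N
open scoped ENNReal

noncomputable section

variable {n k : ℕ}

/-- PROOF. `ia_rk`. -/
theorem hcf_rk (s : Fin (k + 1) → ℂ) : RK (hcf s : GG (k + 1) ℚ → ℂ) := by
  intro κ hκ x
  unfold hcf
  refine Finset.prod_congr rfl fun i _ => ?_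
  rw [show ia (x * κ) i = ia x i from ia_rk i κ hκ x]

theorem hcf_cont (s : Fin (k + 1) → ℂ) : Continuous (hcf s : GG (k + 1) ℚ → ℂ) := by
  unfold hcf
  refine continuous_finsetProd _ fun i _ => ?_
  exact Continuous.cpow (Complex.continuous_ofReal.comp (ia_cont i)) continuous_const
    (fun g => Complex.ofReal_mem_slitPlane.2 (ia_pos g i))

theorem hcf_bG (s : Fin (k + 1) → ℂ) (σ : UI (k + 1) → ℝ) (t : Fin k → ℝ) :
    hcf s (bG σ t) = ∏ i, (av t i : ℂ) ^ (s i + ((k : ℂ) / 2 - (i : ℕ))) := by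
  have h := ia_iwa σ t (κ := 1) isK_one
  rw [mul_one] at h
  unfold hcf bG
  refine Finset.prod_congr rfl fun i _ => ?_
  rw [h]
  congr 2
  push_cast
  ring

theorem s1_snd {M : Type} [CommMonoid M] {n : ℕ} (f : Fin n → M) : ∏ p : UI n, f p.1.2 = ∏ i, f i ^ (i : ℕ) := by
  have h1 : ∏ p : UI n, f p.1.2 = ∏ p ∈ (Finset.univ : Finset (Fin n × Fin n)).filter (fun p => p.1 < p.2), f p.2 :=
    (Finset.prod_subtype ((Finset.univ : Finset (Fin n × Fin n)).filter (fun p => p.1 < p.2))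
      (by intro x; simp) (fun p => f p.2)).symm
  rw [h1, Finset.prod_filter, Fintype.prod_prod_type_right]
  refine Finset.prod_congr rfl fun j _ => ?_
  simp only
  rw [← Finset.prod_filter, Finset.prod_const]
  congr 1
  rw [show (Finset.univ.filter fun i : Fin n => i < j) = Finset.Iio j by ext; simp, Fin.card_Iio]

theorem s1_fst {M : Type} [CommMonoid M] {n : ℕ} (f : Fin n → M) : ∏ p : UI n, f p.1.1 = ∏ i, f i ^ (n - 1 - (i : ℕ)) := by
  have h1 : ∏ p : UI n, f p.1.1 = ∏ p ∈ (Finset.univ : Finset (Fin n × Fin n)).filter (fun p => p.1 < p.2), f p.1 :=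
    (Finset.prod_subtype ((Finset.univ : Finset (Fin n × Fin n)).filter (fun p => p.1 < p.2))
      (by intro x; simp) (fun p => f p.1)).symm
  rw [h1, Finset.prod_filter, Fintype.prod_prod_type]
  refine Finset.prod_congr rfl fun j _ => ?_
  simp only
  rw [← Finset.prod_filter, Finset.prod_const]
  congr 1
  rw [show (Finset.univ.filter fun i : Fin n => j < i) = Finset.Ioi j by ext; simp, Fin.card_Ioi]

theorem exp_two (t : Fin k → ℝ) : (∏ p : UI (k + 1), av t p.1.1) * (dl t)⁻¹ = ∏ i, av t i ^ (i : ℕ) := by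
  rw [← s1_snd (fun i => av t i)]
  unfold dl
  rw [Finset.prod_div_distrib, inv_div, mul_div_assoc', mul_comm, mul_div_assoc, div_self, mul_one]
  exact (Finset.prod_pos fun p _ => av_pos t _).ne'

theorem s1_log (t : Fin k → ℝ) : ∑ i, Real.log (av t i) = 0 := by
  rw [← Real.log_prod (fun i _ => av_ne t i), av_prod, Real.log_one]

theorem s1_cpow (t : Fin k → ℝ) (i : Fin (k + 1)) (c : ℂ) : (av t i : ℂ) ^ c = Complex.exp ((Real.log (av t i) : ℂ) * c) := by
  rw [Complex.cpow_def_of_ne_zero (by exact_mod_cast av_ne t i), Complex.ofReal_log (av_pos t i).le]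

theorem exp_one (s : Fin (k + 1) → ℂ) (t : Fin k → ℝ) :
    (∏ i, (av t i : ℂ) ^ (s i + ((k : ℂ) / 2 - (i : ℕ)))) * ((∏ p : UI (k + 1), av t p.1.1 : ℝ) : ℂ) * (((dl t)⁻¹ : ℝ) : ℂ) =
      ∏ i, (av t i : ℂ) ^ s i := by
  rw [mul_assoc, ← Complex.ofReal_mul, exp_two, Complex.ofReal_prod, ← Finset.prod_mul_distrib]
  have h1 : ∀ i : Fin (k + 1), (av t i : ℂ) ^ (s i + ((k : ℂ) / 2 - (i : ℕ))) * ((av t i ^ (i : ℕ) : ℝ) : ℂ) =
      (av t i : ℂ) ^ s i * Complex.exp ((Real.log (av t i) : ℂ) * ((k : ℂ) / 2)) := by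
    intro i
    have h0 : (av t i : ℂ) ≠ 0 := by exact_mod_cast av_ne t i
    rw [Complex.ofReal_pow, ← Complex.cpow_natCast, ← Complex.cpow_add _ _ h0, ← s1_cpow, ← Complex.cpow_add _ _ h0]
    congr 1
    ring
  rw [Finset.prod_congr rfl fun i _ => h1 i, Finset.prod_mul_distrib, ← Complex.exp_sum, ← Finset.sum_mul,
    ← Complex.ofReal_sum, s1_log]
  simp

theorem exp_three (t : Fin k → ℝ) : (∏ i, av t i ^ (2 * (i : ℕ))) * dl t = 1 := by
  unfold dl
  rw [Finset.prod_div_distrib, s1_snd (fun i => av t i), s1_fst (fun i => av t i), mul_div_assoc', ← Finset.prod_mul_distrib,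
    ← Finset.prod_div_distrib]
  have h : ∀ i : Fin (k + 1), av t i ^ (2 * (i : ℕ)) * av t i ^ (k + 1 - 1 - (i : ℕ)) / av t i ^ (i : ℕ) = av t i ^ k := by
    intro i
    rw [div_eq_iff (pow_ne_zero _ (av_ne t i)), ← pow_add, ← pow_add]
    congr 1
    have := i.2
    omega
  rw [Finset.prod_congr rfl fun i _ => h i, Finset.prod_pow, av_prod, one_pow]

theorem s1_abs (t : Fin k → ℝ) (i : Fin (k + 1)) : |Real.log (av t i)| ≤ ∑ l, |t l| := by
  refine Fin.lastCases ?_ (fun l => ?_) i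
  · rw [av_last, Real.log_exp, abs_neg]
    exact Finset.abs_sum_le_sum_abs _ _
  · rw [av_cs, Real.log_exp]
    exact Finset.single_le_sum (f := fun l => |t l|) (fun _ _ => abs_nonneg _) (Finset.mem_univ l)

theorem s1_rpow (t : Fin k → ℝ) (i : Fin (k + 1)) (r : ℝ) : av t i ^ r ≤ Real.exp (|r| * ∑ l, |t l|) := by
  rw [Real.rpow_def_of_pos (av_pos t i)]
  refine Real.exp_le_exp.2 ?_
  calc Real.log (av t i) * r ≤ |Real.log (av t i) * r| := le_abs_self _
    _ = |r| * |Real.log (av t i)| := by rw [abs_mul, mul_comm]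
    _ ≤ _ := mul_le_mul_of_nonneg_left (s1_abs t i) (abs_nonneg _)

theorem hcf_norm (s : Fin (k + 1) → ℂ) : ∃ E : ℝ, 0 ≤ E ∧ ∀ (σ : UI (k + 1) → ℝ) (t : Fin k → ℝ), ‖hcf s (bG σ t)‖ ≤ Real.exp (E * ∑ l, |t l|) := by
  refine ⟨∑ i : Fin (k + 1), |(s i + ((k : ℂ) / 2 - (i : ℕ))).re|, Finset.sum_nonneg fun _ _ => abs_nonneg _, fun σ t => ?_⟩
  rw [hcf_bG, norm_prod, Finset.sum_mul, Real.exp_sum]
  refine Finset.prod_le_prod (fun _ _ => norm_nonneg _) fun i _ => ?_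
  rw [Complex.norm_cpow_eq_rpow_re_of_pos (av_pos t i)]
  exact s1_rpow t i _

theorem s1_div (t : Fin k → ℝ) (i j : Fin (k + 1)) : av t i / av t j ≤ Real.exp (2 * ∑ l, |t l|) := by
  have h1 := s1_rpow t i 1
  have h2 := s1_rpow t j (-1)
  rw [Real.rpow_one, abs_one, one_mul] at h1
  rw [Real.rpow_neg_one, abs_neg, abs_one, one_mul] at h2
  rw [div_eq_mul_inv, two_mul, Real.exp_add]
  exact mul_le_mul h1 h2 (inv_nonneg.2 (av_pos t j).le) (Real.exp_pos _).le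

theorem dl_bound (k : ℕ) : ∃ E : ℝ, 0 ≤ E ∧ ∀ t : Fin k → ℝ, dl t ≤ Real.exp (E * ∑ l, |t l|) ∧ (dl t)⁻¹ ≤ Real.exp (E * ∑ l, |t l|) ∧
    (∏ p : UI (k + 1), av t p.1.1) ≤ Real.exp (E * ∑ l, |t l|) := by
  refine ⟨Fintype.card (UI (k + 1)) * 2, by positivity, fun t => ?_⟩
  have hS : 0 ≤ ∑ l, |t l| := Finset.sum_nonneg fun _ _ => abs_nonneg _
  have key : ∀ f : UI (k + 1) → ℝ, (∀ p, 0 ≤ f p) → (∀ p, f p ≤ Real.exp (2 * ∑ l, |t l|)) →
      ∏ p, f p ≤ Real.exp (Fintype.card (UI (k + 1)) * 2 * ∑ l, |t l|) := by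
    intro f h0 h1
    calc ∏ p, f p ≤ ∏ _p : UI (k + 1), Real.exp (2 * ∑ l, |t l|) := Finset.prod_le_prod (fun p _ => h0 p) fun p _ => h1 p
      _ = _ := by
        rw [Finset.prod_const, ← Real.exp_nat_mul, Finset.card_univ, mul_assoc]
  refine ⟨key _ (fun p => (div_pos (av_pos _ _) (av_pos _ _)).le) fun p => s1_div t _ _, ?_, ?_⟩
  · unfold dl
    rw [← Finset.prod_inv_distrib]
    refine key _ (fun p => inv_nonneg.2 (div_pos (av_pos _ _) (av_pos _ _)).le) fun p => ?_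
    rw [inv_div]
    exact s1_div t _ _
  · refine key _ (fun p => (av_pos _ _).le) fun p => ?_
    have h1 := s1_rpow t p.1.1 1
    rw [Real.rpow_one, abs_one, one_mul] at h1
    refine h1.trans (Real.exp_le_exp.2 ?_)
    linarith

end

end Pool.Agent.Lib.H85A
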