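import Pool.Agent.Lib.H85A.QD
import Pool.Agent.Lib.H85A.S1

/-!
# H85A, Q4: the Cauchy-Schwarz inequality
-/

namespace Pool.Agent.Lib.H85A

open MeasureTheory Matrix NumberField
open Pool.Agent.Lib.H89N Pool.Agent.Lib.H85S Pool.Agent.Lib.H33W Pool.Agent.Lib.H33N
open scoped ENNReal

noncomputable section

variable {n k : ℕ}

theorem q4_gq_pos (y : ℝ) (ξ t : Fin k → ℝ) : 0 < gq y ξ t := by
  unfold gq
  exact Finset.prod_pos fun _ _ => Real.exp_pos _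

theorem q4_gq_cont (y : ℝ) (hy : 0 < y) (ξ : Fin k → ℝ) : Continuous fun t : Fin k → ℝ => gq y ξ t := by
  unfold gq bl
  refine continuous_finsetProd _ fun l _ => ?_
  refine Real.continuous_exp.comp ?_
  refine Continuous.sub ?_ ?_
  · refine Continuous.neg (continuous_const.mul (Continuous.inv₀ ?_ ?_))
    · fun_prop
    · intro t
      positivity
  · fun_prop

/-- PROOF. `wg y ξ t ≤ (∏ a_i ^ i) gq y ξ t`: `y² a_l⁻² = b_l⁻²`, `(ξ_l a_l / y)² = (ξ_l b_l)²` for `l < k`, the factor `exp (-π y² a_k⁻²) ≤ 1` is dropped. -/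
theorem wg_le {y : ℝ} (hy : 0 < y) (ξ t : Fin k → ℝ) : 0 ≤ wg y ξ t ∧ wg y ξ t ≤ (∏ i, av t i ^ (i : ℕ)) * gq y ξ t := by
  have hP : 0 ≤ ∏ i, av t i ^ (i : ℕ) := Finset.prod_nonneg fun i _ => pow_nonneg (av_pos t i).le _
  constructor
  · unfold wg
    exact mul_nonneg (mul_nonneg hP (Real.exp_pos _).le) (Real.exp_pos _).le
  · unfold wg gq
    rw [mul_assoc, ← Real.exp_add, ← Real.exp_sum]
    refine mul_le_mul_of_nonneg_left (Real.exp_le_exp.2 ?_) hP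
    rw [Fin.sum_univ_castSucc, Finset.sum_sub_distrib, Finset.sum_neg_distrib, ← Finset.mul_sum,
      ← Finset.mul_sum]
    have h1 : ∀ l : Fin k, (bl y t l ^ 2)⁻¹ = y ^ 2 * (av t l.castSucc ^ 2)⁻¹ := by
      intro l
      rw [av_cs]
      unfold bl
      rw [div_pow, inv_div, div_eq_mul_inv]
    have h2 : ∀ l : Fin k, (ξ l * bl y t l) ^ 2 = (ξ l * av t l.castSucc / y) ^ 2 := by
      intro l
      rw [av_cs]
      unfold bl
      rw [mul_div_assoc]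
    rw [Finset.sum_congr rfl fun l _ => h1 l, Finset.sum_congr rfl fun l _ => h2 l, ← Finset.mul_sum]
    have h3 : 0 ≤ Real.pi * y ^ 2 * (av t (Fin.last k) ^ 2)⁻¹ := by
      have := av_pos t (Fin.last k)
      positivity
    linarith

theorem q4_ofReal_sqrt {a : ℝ} (ha : 0 ≤ a) : ENNReal.ofReal (Real.sqrt a) ^ (2 : ℝ) = ENNReal.ofReal a := by
  rw [ENNReal.ofReal_rpow_of_nonneg (Real.sqrt_nonneg _) (by norm_num)]
  congr 1
  rw [Real.rpow_two, Real.sq_sqrt ha]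

/-- PROOF. `‖∫ F wg‖ ≤ ∫ ‖F‖ wg ≤ ∫⁻ (‖F‖ ∏ a^i gq^(1/2)) gq^(1/2)` (`norm_integral_le_lintegral_norm`/`enorm_integral_le_lintegral_enorm`, `wg_le`) and `ENNReal.lintegral_mul_le_Lp_mul_Lq` with `p = q = 2`. -/
theorem q_cs {F : (Fin k → ℝ) → ℂ} (hF : Continuous F) {y : ℝ} (hy : 0 < y) (ξ : Fin k → ℝ) :
    ENNReal.ofReal (‖∫ t : Fin k → ℝ, F t * (wg y ξ t : ℂ)‖ ^ 2) ≤
      (∫⁻ t : Fin k → ℝ, ENNReal.ofReal (gq y ξ t)) *
        ∫⁻ t : Fin k → ℝ, ENNReal.ofReal (‖F t‖ ^ 2 * (∏ i, av t i ^ (2 * (i : ℕ))) * gq y ξ t) := by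
  set f : (Fin k → ℝ) → ℝ≥0∞ := fun t => ENNReal.ofReal (Real.sqrt (gq y ξ t)) with hf
  set g : (Fin k → ℝ) → ℝ≥0∞ := fun t =>
    ENNReal.ofReal (Real.sqrt (‖F t‖ ^ 2 * (∏ i, av t i ^ (2 * (i : ℕ))) * gq y ξ t)) with hg
  have hgqc := q4_gq_cont y hy ξ
  have hPc : Continuous fun t : Fin k → ℝ => ∏ i, av t i ^ (2 * (i : ℕ)) :=
    continuous_finsetProd _ fun i _ => (av_cont i).pow _
  have hfm : AEMeasurable f volume :=
    (ENNReal.continuous_ofReal.comp (Real.continuous_sqrt.comp hgqc)).aemeasurable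
  have hgm : AEMeasurable g volume :=
    (ENNReal.continuous_ofReal.comp (Real.continuous_sqrt.comp
      (((hF.norm.pow 2).mul hPc).mul hgqc))).aemeasurable
  have key : ‖∫ t : Fin k → ℝ, F t * (wg y ξ t : ℂ)‖ₑ ≤ ∫⁻ t, (f * g) t := by
    refine (enorm_integral_le_lintegral_enorm _).trans (lintegral_mono fun t => ?_)
    have hp : 0 ≤ ∏ i, av t i ^ (i : ℕ) := Finset.prod_nonneg fun i _ => pow_nonneg (av_pos t i).le _
    have hgq := (q4_gq_pos y ξ t).le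
    have h1 : ‖F t * (wg y ξ t : ℂ)‖ ≤ ‖F t‖ * ((∏ i, av t i ^ (i : ℕ)) * gq y ξ t) := by
      rw [norm_mul, Complex.norm_real, Real.norm_of_nonneg (wg_le hy ξ t).1]
      exact mul_le_mul_of_nonneg_left (wg_le hy ξ t).2 (norm_nonneg _)
    have h2 : Real.sqrt (‖F t‖ ^ 2 * (∏ i, av t i ^ (2 * (i : ℕ))) * gq y ξ t) =
        ‖F t‖ * (∏ i, av t i ^ (i : ℕ)) * Real.sqrt (gq y ξ t) := by
      have e : ‖F t‖ ^ 2 * (∏ i, av t i ^ (2 * (i : ℕ))) = (‖F t‖ * (∏ i, av t i ^ (i : ℕ))) ^ 2 := by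
        rw [mul_pow, ← Finset.prod_pow]
        congr 1
        refine Finset.prod_congr rfl fun i _ => ?_
        rw [← pow_mul, mul_comm]
      rw [e, Real.sqrt_mul (sq_nonneg _), Real.sqrt_sq (mul_nonneg (norm_nonneg _) hp)]
    show ‖F t * (wg y ξ t : ℂ)‖ₑ ≤ f t * g t
    rw [hf, hg]
    simp only
    rw [← ENNReal.ofReal_mul (Real.sqrt_nonneg _), h2, ← ofReal_norm]
    refine ENNReal.ofReal_le_ofReal (h1.trans (le_of_eq ?_))
    calc ‖F t‖ * ((∏ i, av t i ^ (i : ℕ)) * gq y ξ t)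
        = ‖F t‖ * (∏ i, av t i ^ (i : ℕ)) * (Real.sqrt (gq y ξ t) * Real.sqrt (gq y ξ t)) := by
          rw [Real.mul_self_sqrt hgq, mul_assoc]
      _ = _ := by ring
  have h22 : (2 : ℝ).HolderConjugate 2 := by
    rw [Real.holderConjugate_iff]
    norm_num
  have hol := ENNReal.lintegral_mul_le_Lp_mul_Lq volume h22 hfm hgm
  have e1 : ∀ t, f t ^ (2 : ℝ) = ENNReal.ofReal (gq y ξ t) := fun t => q4_ofReal_sqrt (q4_gq_pos y ξ t).le
  have e2 : ∀ t, g t ^ (2 : ℝ) = ENNReal.ofReal (‖F t‖ ^ 2 * (∏ i, av t i ^ (2 * (i : ℕ))) * gq y ξ t) := by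
    intro t
    refine q4_ofReal_sqrt (mul_nonneg (mul_nonneg (sq_nonneg _) ?_) (q4_gq_pos y ξ t).le)
    exact Finset.prod_nonneg fun i _ => pow_nonneg (av_pos t i).le _
  rw [lintegral_congr e1, lintegral_congr e2] at hol
  have h3 : ENNReal.ofReal (‖∫ t : Fin k → ℝ, F t * (wg y ξ t : ℂ)‖ ^ 2) =
      ‖∫ t : Fin k → ℝ, F t * (wg y ξ t : ℂ)‖ₑ ^ 2 := by
    rw [ENNReal.ofReal_pow (norm_nonneg _), ofReal_norm]
  rw [h3]
  calc ‖∫ t : Fin k → ℝ, F t * (wg y ξ t : ℂ)‖ₑ ^ 2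
      ≤ ((∫⁻ t : Fin k → ℝ, ENNReal.ofReal (gq y ξ t)) ^ (1 / (2 : ℝ)) *
        (∫⁻ t : Fin k → ℝ, ENNReal.ofReal (‖F t‖ ^ 2 * (∏ i, av t i ^ (2 * (i : ℕ))) * gq y ξ t)) ^ (1 / (2 : ℝ))) ^ 2 :=
        pow_le_pow_left' (key.trans hol) 2
    _ = _ := by
        rw [mul_pow, ← ENNReal.rpow_natCast, ← ENNReal.rpow_mul, ← ENNReal.rpow_natCast, ← ENNReal.rpow_mul]
        norm_num

end

end Pool.Agent.Lib.H85A
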