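import Pool.Agent.Lib.H85A.S3
import Pool.Agent.Lib.H85A.S5

/-!
# H85A, S6: **the exact identity**: the archimedean analogue of the Hecke relation for Whittaker coefficients
-/

namespace Pool.Agent.Lib.H85A

open MeasureTheory Matrix NumberField
open Pool.Agent.Lib.H89N Pool.Agent.Lib.H85S Pool.Agent.Lib.H33W Pool.Agent.Lib.H33N
open scoped ENNReal

noncomputable section

variable {n k : ℕ}

variable {N : ℕ} {m : Fin (k + 1) → ℤ} {W : GG (k + 1) ℚ → ℂ} {s : Fin (k + 1) → ℂ}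

/-- PROOF. Both integrals in `whi_eig` are iterated integrals (`integral_prod`; integrability as in S5). Right: `hcf_bG` and `gk_bG`, the integral over `σ` is `∏_p (a_(p.1.1) / y)` (`g_int`), `exp_one`: `y ^ (-#UI) HX y s * W (aG τ)`. Left: `whi_bG`, `g_ft` with `ξ = xi N m τ`, `exp_two`:
`y ^ (-#UI) ∫ W (aG (τ + t)) wg y ξ t`. -/
theorem s6_gkc (y : ℝ) : Continuous (fun p : (Fin k → ℝ) × (UI (k + 1) → ℝ) => GK y (bG p.2 p.1)) := by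
  have h := s2_cont (k := k) 0 y
  simpa using h

theorem s6_int {y : ℝ} (hy : 0 < y) {F : (Fin k → ℝ) × (UI (k + 1) → ℝ) → ℂ} (hF : Continuous F) {C E : ℝ} (hC : 0 ≤ C) (hE : 0 ≤ E)
    (hb : ∀ (t : Fin k → ℝ) (σ : UI (k + 1) → ℝ), ‖F (t, σ)‖ ≤ C * Real.exp (E * ∑ l, |t l|)) :
    Integrable (fun p : (Fin k → ℝ) × (UI (k + 1) → ℝ) => F p * ((GK y (bG p.2 p.1) * (dl p.1)⁻¹ : ℝ) : ℂ)) := by
  obtain ⟨E2, hE2, h2⟩ := dl_bound k
  refine ((s_dom (k := k) (E + E2) (add_nonneg hE hE2) hy).const_mul C).mono' ?_ (Filter.Eventually.of_forall fun p => ?_)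
  · refine Continuous.aestronglyMeasurable (hF.mul (Complex.continuous_ofReal.comp ?_))
    exact (s6_gkc y).mul ((dl_cont.comp continuous_fst).inv₀ fun p => (dl_pos _).ne')
  · have hg : 0 ≤ GK y (bG p.2 p.1) := (Real.exp_pos _).le
    have hd : 0 ≤ (dl p.1)⁻¹ := inv_nonneg.2 (dl_pos _).le
    rw [norm_mul, Complex.norm_of_nonneg (mul_nonneg hg hd)]
    calc ‖F p‖ * (GK y (bG p.2 p.1) * (dl p.1)⁻¹)
        ≤ (C * Real.exp (E * ∑ l, |p.1 l|)) * (GK y (bG p.2 p.1) * Real.exp (E2 * ∑ l, |p.1 l|)) := by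
          refine mul_le_mul (hb p.1 p.2) (mul_le_mul_of_nonneg_left (h2 p.1).2.1 hg) (mul_nonneg hg hd) (by positivity)
      _ = C * (Real.exp ((E + E2) * ∑ l, |p.1 l|) * GK y (bG p.2 p.1)) := by
          rw [add_mul, Real.exp_add]
          ring

theorem s6_left {y : ℝ} (hy : 0 < y) (h : Whi N m W) (τ t : Fin k → ℝ) :
    ∫ σ : UI (k + 1) → ℝ, W (aG τ * bG σ t) * ((GK y (bG σ t) * (dl t)⁻¹ : ℝ) : ℂ) =
      ((∏ _p : UI (k + 1), y⁻¹ : ℝ) : ℂ) * (W (aG (τ + t)) * (wg y (xi N m τ) t : ℂ)) := by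
  have e : ∀ σ : UI (k + 1) → ℝ, W (aG τ * bG σ t) * ((GK y (bG σ t) * (dl t)⁻¹ : ℝ) : ℂ) =
      (W (aG (τ + t)) * ((Real.exp (-(Real.pi * y ^ 2 * ∑ i, (av t i ^ 2)⁻¹)) * (dl t)⁻¹ : ℝ) : ℂ)) *
      (ee (-∑ l : Fin k, xi N m τ l * σ (pl l)) *
        ((Real.exp (-(Real.pi * y ^ 2 * ∑ p : UI (k + 1), (av t p.1.1 ^ 2)⁻¹ * σ p ^ 2)) : ℝ) : ℂ)) := by
    intro σ
    rw [whi_bG h, gk_bG, Complex.ofReal_mul, Complex.ofReal_mul, Complex.ofReal_mul]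
    ring
  simp only [e]
  rw [integral_const_mul, g_ft hy]
  have h1 : (∏ p : UI (k + 1), (av t p.1.1 / y)) = (∏ p : UI (k + 1), av t p.1.1) * ∏ _p : UI (k + 1), y⁻¹ := by
    rw [← Finset.prod_mul_distrib]
    rfl
  have h2 : wg y (xi N m τ) t = ((∏ p : UI (k + 1), av t p.1.1) * (dl t)⁻¹) * Real.exp (-(Real.pi * y ^ 2 * ∑ i, (av t i ^ 2)⁻¹)) *
    Real.exp (-(Real.pi * ∑ l : Fin k, (xi N m τ l * av t l.castSucc / y) ^ 2)) := by
    rw [exp_two]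
    rfl
  rw [h1, h2]
  push_cast
  ring

theorem s6_right {y : ℝ} (hy : 0 < y) (s : Fin (k + 1) → ℂ) (t : Fin k → ℝ) :
    ∫ σ : UI (k + 1) → ℝ, hcf s (bG σ t) * ((GK y (bG σ t) * (dl t)⁻¹ : ℝ) : ℂ) =
      ((∏ _p : UI (k + 1), y⁻¹ : ℝ) : ℂ) * ((∏ i, (av t i : ℂ) ^ s i) * (Real.exp (-(Real.pi * y ^ 2 * ∑ i, (av t i ^ 2)⁻¹)) : ℂ)) := by
  have e : ∀ σ : UI (k + 1) → ℝ, hcf s (bG σ t) * ((GK y (bG σ t) * (dl t)⁻¹ : ℝ) : ℂ) =
      ((∏ i, (av t i : ℂ) ^ (s i + ((k : ℂ) / 2 - (i : ℕ)))) * ((Real.exp (-(Real.pi * y ^ 2 * ∑ i, (av t i ^ 2)⁻¹)) * (dl t)⁻¹ : ℝ) : ℂ)) *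
        ((Real.exp (-(Real.pi * y ^ 2 * ∑ p : UI (k + 1), (av t p.1.1 ^ 2)⁻¹ * σ p ^ 2)) : ℝ) : ℂ) := by
    intro σ
    rw [hcf_bG, gk_bG, Complex.ofReal_mul, Complex.ofReal_mul, Complex.ofReal_mul]
    ring
  simp only [e]
  rw [integral_const_mul, integral_complex_ofReal, (g_int hy t).2, ← exp_one s t]
  have h1 : (∏ p : UI (k + 1), (av t p.1.1 / y)) = (∏ p : UI (k + 1), av t p.1.1) * ∏ _p : UI (k + 1), y⁻¹ := by
    rw [← Finset.prod_mul_distrib]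
    rfl
  rw [h1, Complex.ofReal_mul, Complex.ofReal_mul]
  push_cast
  ring

/-- PROOF. Both integrals in `whi_eig` are iterated integrals (`integral_prod`; integrability as in S5). Right: `hcf_bG` and `gk_bG`, the integral over `σ` is `∏_p (a_(p.1.1) / y)` (`g_int`), `exp_one`: `y ^ (-#UI) HX y s * W (aG τ)`. Left: `whi_bG`, `g_ft` with `ξ = xi N m τ`, `exp_two`:
`y ^ (-#UI) ∫ W (aG (τ + t)) wg y ξ t`. -/
theorem s_top (μ : Measure (GG (k + 1) ℚ)) [μ.IsHaarMeasure] (h : Whi N m W) (he : EigW μ s W) (τ : Fin k → ℝ) {y : ℝ} (hy : 0 < y) :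
    HX y s * W (aG τ) = ∫ t : Fin k → ℝ, W (aG (τ + t)) * (wg y (xi N m τ) t : ℂ) := by
  have L := whi_eig μ h he τ hy
  obtain ⟨C, E, hC, hE, hb⟩ := whi_gr h τ
  obtain ⟨E1, hE1, hb1⟩ := hcf_norm (k := k) s
  have i1 := s6_int (k := k) hy (F := fun p => W (aG τ * bG p.2 p.1)) (h.cont.comp (continuous_const.mul bG_cont)) hC hE hb
  have i2 := s6_int (k := k) hy (F := fun p => hcf s (bG p.2 p.1)) ((hcf_cont s).comp bG_cont) zero_le_one hE1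
    fun t σ => by rw [one_mul]; exact hb1 σ t
  rw [Measure.volume_eq_prod] at L i1 i2
  rw [integral_prod _ i1, integral_prod _ i2] at L
  simp only [s6_left hy h, s6_right hy] at L
  rw [integral_const_mul, integral_const_mul, mul_assoc] at L
  have hc : ((∏ _p : UI (k + 1), y⁻¹ : ℝ) : ℂ) ≠ 0 := by
    rw [Ne, Complex.ofReal_eq_zero]
    exact (Finset.prod_pos fun _ _ => inv_pos.2 hy).ne'
  exact (mul_left_cancel₀ hc L).symm

end

end Pool.Agent.Lib.H85A
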