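import Pool.Agent.Lib.H85A.Q3
import Pool.Agent.Lib.H85A.Q4
import Pool.Agent.Lib.H85A.S6

/-!
# H85A, Q5: **the bound for the amplified sum of Whittaker coefficients at `aG τ`**
-/

namespace Pool.Agent.Lib.H85A

open MeasureTheory Matrix NumberField
open Pool.Agent.Lib.H89N Pool.Agent.Lib.H85S Pool.Agent.Lib.H33W Pool.Agent.Lib.H33N
open scoped ENNReal

noncomputable section

variable {n k : ℕ}

theorem q5_gq_nonneg (y : ℝ) (ξ t : Fin k → ℝ) : 0 ≤ gq y ξ t :=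
  Finset.prod_nonneg fun _ _ => (Real.exp_pos _).le

theorem q5_gq_cont {y : ℝ} (hy : 0 < y) (ξ : Fin k → ℝ) : Continuous (gq y ξ) := by
  unfold gq
  refine continuous_finsetProd _ fun l _ => ?_
  have hb : Continuous fun t : Fin k → ℝ => bl y t l :=
    (Real.continuous_exp.comp (continuous_apply l)).div_const _
  have hb0 : ∀ t : Fin k → ℝ, bl y t l ^ 2 ≠ 0 := fun t =>
    pow_ne_zero _ (div_pos (Real.exp_pos _) hy).ne'
  exact Real.continuous_exp.comp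
    ((continuous_const.mul ((hb.pow 2).inv₀ hb0)).neg.sub (continuous_const.mul ((continuous_const.mul hb).pow 2)))

/-- PROOF. `‖HX y (s i)‖² ‖W_i (aG τ)‖² = ‖∫ W_i (aG (τ + t)) wg y ξ t‖²` (`s_top`), `ξ = xi N m τ`; `q_cs`; sum over `i` (`lintegral_finsetSum`): `∑_i ‖W_i (aG (τ + t))‖² ≤ Λ McA (av (τ + t)) ∏_p (a_(p.1.1)/a_(p.1.2)/N)`, `∏_p (av (τ + t) ../ av (τ + t) .. / N) = dl (τ + t) / N^(#UI) = dl τ dl t / N^(#UI)` (`dl_add`) and
`(∏ a_i^(2i)) dl t = 1` (`exp_three`). So the sum is at most `Λ (dl τ / N^(#UI)) (∫⁻ gq) (∫⁻ McA (av (τ + t)) gq)`: `q_top`; `|ξ_l| = (|m_l| / N) r_l ≥ r_l / N`. -/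
theorem q_forms (hk : 1 ≤ k) (A : ℕ) {η : ℝ} (hη : 0 < η) : ∃ C : ℝ, 1 ≤ C ∧ ∀ (μ : Measure (GG (k + 1) ℚ)) [μ.IsHaarMeasure] (N : ℕ), 1 ≤ N →
    ∀ (m : Fin (k + 1) → ℤ), (∀ l : Fin k, m l.castSucc ≠ 0) →
    ∀ (r : ℕ) (W : Fin r → GG (k + 1) ℚ → ℂ) (s : Fin r → Fin (k + 1) → ℂ), (∀ i, Whi N m (W i)) → (∀ i, EigW μ (s i) (W i)) →
    ∀ Λ : ℝ, 0 ≤ Λ → (∀ t : Fin k → ℝ, ∑ i, ‖W i (aG t)‖ ^ 2 ≤ Λ * (McA hk N (av t) * ∏ p : UI (k + 1), (av t p.1.1 / av t p.1.2 / (N : ℝ)))) →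
    ∀ (τ : Fin k → ℝ) (y : ℝ), 0 < y →
    ∑ i, ‖HX y (s i)‖ ^ 2 * ‖W i (aG τ)‖ ^ 2 ≤ C * Λ * (1 + (y ^ (k + 1))⁻¹ / (N : ℝ) ^ (2 * k + 1)) *
      (dl τ / (N : ℝ) ^ Fintype.card (UI (k + 1))) * ∏ l : Fin k, (Ml N τ l ^ (((k - l : ℕ) : ℝ) + η) * min 1 (1 / |xi N m τ l|) ^ A) := by
  obtain ⟨C, hC, hq⟩ := q_top hk A hη
  refine ⟨C, hC, ?_⟩
  intro μ _ N hN m hm r W s hW hE Λ hΛ0 hΛ τ y hy
  have hNp : (0 : ℝ) < N := by exact_mod_cast (by omega : 0 < N)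
  have hr : ∀ l : Fin k, 0 < av τ l.castSucc / av τ l.succ := fun l => div_pos (av_pos _ _) (av_pos _ _)
  have habs : ∀ l : Fin k, |xi N m τ l| = |(m l.castSucc : ℝ)| / N * (av τ l.castSucc / av τ l.succ) := by
    intro l
    unfold xi
    rw [abs_mul, abs_div, abs_of_pos hNp, abs_of_pos (hr l)]
  have hm1 : ∀ l : Fin k, (1 : ℝ) ≤ |(m l.castSucc : ℝ)| := by
    intro l
    have h := Int.one_le_abs (hm l)
    exact_mod_cast h
  have hξ0 : ∀ l, xi N m τ l ≠ 0 := by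
    intro l h0
    have h := habs l
    rw [h0, abs_zero] at h
    have h2 : 0 < |(m l.castSucc : ℝ)| / N * (av τ l.castSucc / av τ l.succ) :=
      mul_pos (div_pos (lt_of_lt_of_le one_pos (hm1 l)) hNp) (hr l)
    linarith
  have hξ1 : ∀ l, av τ l.castSucc / av τ l.succ ≤ N * |xi N m τ l| := by
    intro l
    rw [habs l, ← mul_assoc, mul_div_cancel₀ _ hNp.ne']
    exact le_mul_of_one_le_left (hr l).le (hm1 l)
  have h1 := hq N hN y hy τ (xi N m τ) hξ0 hξ1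
  generalize hB : dl τ / (N : ℝ) ^ Fintype.card (UI (k + 1)) = B
  have hB0 : 0 ≤ B := by
    rw [← hB]
    exact (div_pos (dl_pos τ) (pow_pos hNp _)).le
  have h2 : ∀ i, ENNReal.ofReal (‖HX y (s i)‖ ^ 2 * ‖W i (aG τ)‖ ^ 2) ≤
      (∫⁻ t : Fin k → ℝ, ENNReal.ofReal (gq y (xi N m τ) t)) *
        ∫⁻ t : Fin k → ℝ, ENNReal.ofReal (‖W i (aG (τ + t))‖ ^ 2 * (∏ j, av t j ^ (2 * (j : ℕ))) * gq y (xi N m τ) t) := by
    intro i
    have h3 := s_top μ (hW i) (hE i) τ hy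
    rw [← mul_pow, ← norm_mul, h3]
    exact q_cs (F := fun t => W i (aG (τ + t))) ((hW i).cont.comp (aG_cont.comp (continuous_const.add continuous_id))) hy _
  have hcontP : Continuous fun t : Fin k → ℝ => ∏ j, av t j ^ (2 * (j : ℕ)) :=
    continuous_finsetProd _ fun j _ => (av_cont j).pow _
  have h4 : ENNReal.ofReal (∑ i, ‖HX y (s i)‖ ^ 2 * ‖W i (aG τ)‖ ^ 2) ≤
      ENNReal.ofReal (Λ * B) * ((∫⁻ t : Fin k → ℝ, ENNReal.ofReal (gq y (xi N m τ) t)) *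
        ∫⁻ t : Fin k → ℝ, ENNReal.ofReal (McA hk N (av (τ + t)) * gq y (xi N m τ) t)) := by
    rw [ENNReal.ofReal_sum_of_nonneg (fun i _ => by positivity)]
    refine (Finset.sum_le_sum fun i _ => h2 i).trans ?_
    rw [← Finset.mul_sum, ← lintegral_finsetSum]
    · rw [mul_left_comm, ← lintegral_const_mul' _ _ ENNReal.ofReal_ne_top]
      refine mul_le_mul_right (lintegral_mono fun t => ?_) _
      have hP0 : 0 ≤ ∏ j, av t j ^ (2 * (j : ℕ)) := Finset.prod_nonneg fun j _ => pow_nonneg (av_pos _ _).le _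
      rw [← ENNReal.ofReal_sum_of_nonneg (fun i _ => mul_nonneg (mul_nonneg (sq_nonneg _) hP0) (q5_gq_nonneg _ _ _)),
        ← ENNReal.ofReal_mul (mul_nonneg hΛ0 hB0), ← Finset.sum_mul, ← Finset.sum_mul]
      refine ENNReal.ofReal_le_ofReal ?_
      have h5 : ∏ p : UI (k + 1), (av (τ + t) p.1.1 / av (τ + t) p.1.2 / (N : ℝ)) = B * dl t := by
        rw [Finset.prod_div_distrib, Finset.prod_const, Finset.card_univ, ← hB]
        have h6 : ∏ p : UI (k + 1), av (τ + t) p.1.1 / av (τ + t) p.1.2 = dl τ * dl t := dl_add τ t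
        rw [h6]
        ring
      have h7 := hΛ (τ + t)
      rw [h5] at h7
      calc (∑ i, ‖W i (aG (τ + t))‖ ^ 2) * (∏ j, av t j ^ (2 * (j : ℕ))) * gq y (xi N m τ) t
          ≤ (Λ * (McA hk N (av (τ + t)) * (B * dl t))) * (∏ j, av t j ^ (2 * (j : ℕ))) * gq y (xi N m τ) t :=
            mul_le_mul_of_nonneg_right (mul_le_mul_of_nonneg_right h7 hP0) (q5_gq_nonneg _ _ _)
        _ = Λ * B * (McA hk N (av (τ + t)) * gq y (xi N m τ) t) * ((∏ j, av t j ^ (2 * (j : ℕ))) * dl t) := by ring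
        _ = Λ * B * (McA hk N (av (τ + t)) * gq y (xi N m τ) t) := by rw [exp_three, mul_one]
    · intro i _
      refine (ENNReal.measurable_ofReal.comp ?_)
      exact (((((hW i).cont.comp (aG_cont.comp (continuous_const.add continuous_id))).norm.pow 2).mul hcontP).mul
        (q5_gq_cont hy _)).measurable
  have hX0 : 0 ≤ 1 + (y ^ (k + 1))⁻¹ / (N : ℝ) ^ (2 * k + 1) := by positivity
  have hM0 : 0 ≤ ∏ l : Fin k, (Ml N τ l ^ (((k - l : ℕ) : ℝ) + η) * min 1 (1 / |xi N m τ l|) ^ A) := by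
    refine Finset.prod_nonneg fun l _ => mul_nonneg ?_ ?_
    · exact Real.rpow_nonneg (le_trans zero_le_one (le_max_left _ _)) _
    · exact pow_nonneg (le_min zero_le_one (by positivity)) _
  have h8 := h4.trans (mul_le_mul_right h1 (ENNReal.ofReal (Λ * B)))
  rw [← ENNReal.ofReal_mul (mul_nonneg hΛ0 hB0)] at h8
  have h9 := (ENNReal.ofReal_le_ofReal_iff (by positivity)).1 h8
  refine h9.trans (le_of_eq ?_)
  ring

end

end Pool.Agent.Lib.H85A
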