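import Pool.Agent.Lib.H85A.Q5
import Pool.Agent.Lib.H85A.L4
import Pool.Agent.Lib.H33N.W10B

/-!
# H85A, Q6: the pointwise bound in a cell
-/

namespace Pool.Agent.Lib.H85A

open MeasureTheory Matrix NumberField IsDedekindDomain
open Pool.Agent.Lib.H89N Pool.Agent.Lib.H85S Pool.Agent.Lib.H33W Pool.Agent.Lib.H33N
open scoped ENNReal

noncomputable section

variable {n k : ℕ}

theorem q6_uu {g : GG (k + 1) ℚ} (h : IsUU g.1) : ∃ σ : UI (k + 1) → ℝ, g = (upr σ)⁻¹ := by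
  have h1 : (up (cu (g⁻¹ : GG (k + 1) ℚ).1) : GG (k + 1) ℚ) = g⁻¹ := Subtype.ext (upM_cu (isUU_inv h))
  obtain ⟨σ, hσ⟩ := upr_surj (cu (g⁻¹ : GG (k + 1) ℚ).1)
  exact ⟨σ, by rw [← hσ, h1, inv_inv]⟩

theorem q6_ia {t0 : Fin k → ℝ} {τ0 : UI (k + 1) → EE ℚ} {ω z : GG (k + 1) ℚ} (hz : z = up τ0 * aG t0 * ω) (i : Fin (k + 1)) :
    ia z i = av t0 i * ia ω i := by
  obtain ⟨σ', ρ, κ', hκ', rfl⟩ := iwa ω
  have h2 : aG t0 * (upr σ')⁻¹ = (upr (scl t0 σ'))⁻¹ * aG t0 := by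
    rw [mul_inv_eq_iff_eq_mul, mul_assoc, scl_conj t0 σ', inv_mul_cancel_left]
  obtain ⟨σ, hσ⟩ := q6_uu (k := k) (g := up τ0 * (upr (scl t0 σ'))⁻¹) (isUU_mul (isUU_upM τ0) (isUU_inv
    (show IsUU (upr (scl t0 σ') : GG (k + 1) ℚ).1 from isUU_upM fun p : UI (k + 1) => iq (scl t0 σ' p))))
  have h3 : z = (upr σ)⁻¹ * aG (t0 + ρ) * κ' := by
    rw [hz, ← hσ, aG_add]
    calc up τ0 * aG t0 * ((upr σ')⁻¹ * aG ρ * κ') = up τ0 * (aG t0 * (upr σ')⁻¹) * aG ρ * κ' := by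
          simp only [mul_assoc]
      _ = _ := by
          rw [h2]
          simp only [mul_assoc]
  rw [h3, ia_iwa σ (t0 + ρ) hκ', ia_iwa σ' ρ hκ', av_add]

theorem q6_D {Ω : Set (GG (k + 1) ℚ)} (hΩ : IsCompact Ω) :
    ∃ D : ℝ, 1 ≤ D ∧ ∀ ω ∈ Ω, ∀ i, ia ω i ≤ D ∧ (ia ω i)⁻¹ ≤ D := by
  have h1 : ∀ i : Fin (k + 1), ∃ C : ℝ, ∀ ω ∈ Ω, ‖ia ω i‖ ≤ C := fun i =>
    hΩ.exists_bound_of_continuousOn (ia_cont i).continuousOn
  have h2 : ∀ i : Fin (k + 1), ∃ C : ℝ, ∀ ω ∈ Ω, ‖(ia ω i)⁻¹‖ ≤ C := fun i =>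
    hΩ.exists_bound_of_continuousOn ((ia_cont i).inv₀ fun g => (ia_pos g i).ne').continuousOn
  choose C hC using h1
  choose C' hC' using h2
  refine ⟨1 + ∑ i, (|C i| + |C' i|), ?_, fun ω hω i => ?_⟩
  · have : 0 ≤ ∑ i, (|C i| + |C' i|) := Finset.sum_nonneg fun i _ => by positivity
    linarith
  · have h3 : |C i| + |C' i| ≤ ∑ i, (|C i| + |C' i|) :=
      Finset.single_le_sum (f := fun i => |C i| + |C' i|) (fun i _ => by positivity) (Finset.mem_univ i)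
    have h4 := (le_abs_self _).trans (hC i ω hω)
    have h5 := (le_abs_self _).trans (hC' i ω hω)
    have h6 := le_abs_self (C i)
    have h7 := le_abs_self (C' i)
    have h8 := abs_nonneg (C i)
    have h9 := abs_nonneg (C' i)
    constructor <;> linarith

/-- The scalar estimate for one coordinate. -/
theorem q6_one {R N b r μ : ℝ} (hR : 1 ≤ R) (hN : 0 < N) (hb : 0 < b) (hr : 0 < r) (hμ : 0 < μ) (h : b ≤ R * r) (A e : ℕ) {η : ℝ} (hη : 0 < η) :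
    max 1 (N / r) ^ ((e : ℝ) + η) * min 1 (1 / (μ / N * r)) ^ A ≤
      (R ^ ((e : ℝ) + η) * R ^ A) * (max 1 (N / b) ^ e * max 1 (N / b) ^ η * min 1 (N / (b * μ)) ^ A) := by
  have hR0 : 0 < R := by linarith
  have h1 : max 1 (N / r) ≤ R * max 1 (N / b) := by
    refine max_le ?_ ?_
    · have : 1 ≤ max 1 (N / b) := le_max_left _ _
      nlinarith
    · have h2 : N / r ≤ R * (N / b) := by
        rw [← mul_div_assoc, div_le_div_iff₀ hr hb]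
        nlinarith
      exact h2.trans (mul_le_mul_of_nonneg_left (le_max_right _ _) hR0.le)
  have h3 : min 1 (1 / (μ / N * r)) ≤ R * min 1 (N / (b * μ)) := by
    rw [mul_min_of_nonneg _ _ hR0.le, mul_one]
    refine min_le_min hR ?_
    rw [← mul_div_assoc, div_le_div_iff₀ (by positivity) (by positivity)]
    have : 1 * (b * μ) = b * μ := one_mul _
    have h4 : R * N * (μ / N * r) = R * r * μ := by
      field_simp
    rw [h4, this]
    exact mul_le_mul_of_nonneg_right h hμ.le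
  have hM0 : 0 < max 1 (N / b) := lt_of_lt_of_le one_pos (le_max_left _ _)
  have hm0 : 0 ≤ min 1 (1 / (μ / N * r)) := le_min zero_le_one (by positivity)
  have hm1 : 0 ≤ min 1 (N / (b * μ)) := le_min zero_le_one (by positivity)
  calc max 1 (N / r) ^ ((e : ℝ) + η) * min 1 (1 / (μ / N * r)) ^ A
      ≤ (R * max 1 (N / b)) ^ ((e : ℝ) + η) * (R * min 1 (N / (b * μ))) ^ A := by
        refine mul_le_mul (Real.rpow_le_rpow (le_max_of_le_left zero_le_one) h1 (by positivity)) (pow_le_pow_left₀ hm0 h3 A)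
          (by positivity) (by positivity)
    _ = _ := by
        rw [Real.mul_rpow hR0.le hM0.le, mul_pow, Real.rpow_add hM0, Real.rpow_natCast]
        ring

/-- PROOF. `z = (upr σ)⁻¹ * aG τ * κ'` (`iwa`). `‖WX m (f i) (κ, z)‖ = ‖WX m (f i) (κ, aG τ)‖` (`Whi.rk`, `Whi.up`, `‖ee x‖ = 1`), `av τ = ia z` (`ia_iwa`). `z = u diag(a) ω`, `a = at' t`, `ω ∈ Ω`, `ω = (upr σ')⁻¹ aG ρ κ''`: `ia z i = a_i * av ρ i` (uniqueness: `z = u' diag(a) aG ρ κ''` and `ia_iwa`), and `av ρ i = ia ω i ∈ [1/C', C']`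
(`ia_cont`, `ia_pos`, `Ω` compact). So `r_l(τ) = av τ l / av τ (l+1) ∈ [2^(t_l) / C'², C'² 2^(t_l)]` (`at_ratio`), `Ml N τ l ≤ C'² max(1, N/2^(t_l))`, `min(1, 1/|xi|) ≤ C'² min(1, N/(2^(t_l) |m_l|))`, `dl τ ≤ C'' ∏_p (a_(p.1.1) / a_(p.1.2))`. `q_forms` with `Λ = C(ls_wx)`
(`ls_wx` with `Ω = {1}` at `x = aG t`). -/
theorem q_cell (hk : 1 ≤ k) (μ : Measure (GG (k + 1) ℚ)) [μ.IsHaarMeasure] {Ω : Set (GG (k + 1) ℚ)} (hΩ : IsCompact Ω) {T : ℝ} (hT : 0 ≤ T) (A : ℕ)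
    {η : ℝ} (hη : 0 < η) : ∃ C : ℝ, 1 ≤ C ∧ ∀ (N : ℕ) [NeZero N] (F1 : Set (GG (k + 1) ℚ)) (r : ℕ) (f : Fin r → XX (k + 1) N → ℂ)
    (s : Fin r → Fin (k + 1) → ℂ), FamS N μ F1 T r f s → ∀ m : Fin (k + 1) → ℤ, Nz m → ∀ y : ℝ, 0 < y → ∀ (t : Fin k → ℤ) (κ : KG (k + 1) N) (z : GG (k + 1) ℚ),
    InRange Ω (at' t) z → ∑ i, ‖HX y (s i)‖ ^ 2 * ‖WX m (f i) (κ, z)‖ ^ 2 ≤
      C * (1 + (y ^ (k + 1))⁻¹ / (N : ℝ) ^ (2 * k + 1)) * (∏ p : UI (k + 1), (at' t p.1.1 / at' t p.1.2 / (N : ℝ))) *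
        (PM N t * (∏ l : Fin k, max 1 ((N : ℝ) / (2 : ℝ) ^ t l)) ^ η * PX N (fun l => m l.castSucc) t ^ A) := by
  classical
  obtain ⟨C1, hC1, h1⟩ := q_forms (k := k) hk A hη
  obtain ⟨L0, hL0, h2⟩ := ls_wx hk μ (isCompact_singleton (x := (1 : GG (k + 1) ℚ))) hT
  obtain ⟨D, hD1, hD⟩ := q6_D hΩ
  obtain ⟨R, hR⟩ : ∃ R : ℝ, R = D * D := ⟨_, rfl⟩
  have hR1 : 1 ≤ R := by
    rw [hR]
    nlinarith
  have hR0 : 0 < R := by linarith
  obtain ⟨K1, hK1⟩ : ∃ K1 : ℝ, K1 = ∏ l : Fin k, (R ^ (((k - l : ℕ) : ℝ) + η) * R ^ A) := ⟨_, rfl⟩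
  have hK11 : 1 ≤ K1 := by
    rw [hK1]
    calc (1 : ℝ) = ∏ _l : Fin k, (1 : ℝ) := Finset.prod_const_one.symm
      _ ≤ _ := Finset.prod_le_prod (fun _ _ => zero_le_one) fun l _ =>
        one_le_mul_of_one_le_of_one_le (Real.one_le_rpow hR1 (by positivity)) (one_le_pow₀ hR1)
  obtain ⟨K2, hK2⟩ : ∃ K2 : ℝ, K2 = R ^ Fintype.card (UI (k + 1)) := ⟨_, rfl⟩
  have hK21 : 1 ≤ K2 := by
    rw [hK2]
    exact one_le_pow₀ hR1
  refine ⟨C1 * L0 * K2 * K1, ?_, ?_⟩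
  · exact one_le_mul_of_one_le_of_one_le (one_le_mul_of_one_le_of_one_le (one_le_mul_of_one_le_of_one_le hC1 hL0) hK21) hK11
  intro N hNz F1 r f s hF m hm y hy t κ z hz
  have hN : N ≠ 0 := NeZero.ne N
  have hN1 : 1 ≤ N := Nat.one_le_iff_ne_zero.2 hN
  have hN0 : (0 : ℝ) < N := by exact_mod_cast hN1
  obtain ⟨σ, τ, κ', hκ', hzz⟩ := iwa z
  have hW : ∀ i, Whi N m (fun x => WX m (f i) (κ, x)) := fun i => wx_whi hk μ hT hF hm i κ
  have hE : ∀ i, EigW μ (s i) (fun x => WX m (f i) (κ, x)) := fun i => wx_eig μ (hF.inv i) (hF.sph i) hm κ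
  -- from `z` to `aG τ`
  have e1 : ∀ i, ‖WX m (f i) (κ, z)‖ = ‖WX m (f i) (κ, aG τ)‖ := by
    intro i
    have h3 := (hW i).up (fun p => iq (σ p)) z
    have h4 : (up (fun p => iq (σ p)) : GG (k + 1) ℚ) * z = aG τ * κ' := by
      rw [hzz]
      show upr σ * ((upr σ)⁻¹ * aG τ * κ') = aG τ * κ'
      rw [mul_assoc, mul_inv_cancel_left]
    rw [h4] at h3
    have h5 := (hW i).rk κ' hκ' (aG τ)
    have h6 := congrArg norm h3
    rw [norm_mul, ee_norm, one_mul] at h6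
    rw [← h6]
    exact congrArg norm h5
  -- the torus part
  obtain ⟨τ0, ω, hω, hzx⟩ := hz
  obtain ⟨t0, ht0⟩ := av_surj (at_pos t) (at_prod t)
  have hz2 : z = up τ0 * aG t0 * ω := by
    refine Subtype.ext ?_
    rw [hzx]
    show _ = upM τ0 * (aG t0).1 * ω.1
    rw [aG_coe]
    simp only [ht0]
    rfl
  have hav : ∀ i, av τ i = at' t i * ia ω i := by
    intro i
    rw [← ht0 i, ← q6_ia hz2 i, hzz, ia_iwa σ τ hκ']
  have hia : ∀ i, 0 < ia ω i := fun i => ia_pos ω i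
  have hq : ∀ i j : Fin (k + 1), ia ω i / ia ω j ≤ R := by
    intro i j
    rw [hR, div_eq_mul_inv]
    exact mul_le_mul (hD ω hω i).1 (hD ω hω j).2 (inv_nonneg.2 (hia j).le) (by linarith)
  have hrat : ∀ i j : Fin (k + 1), av τ i / av τ j = at' t i / at' t j * (ia ω i / ia ω j) := by
    intro i j
    rw [hav i, hav j, mul_div_mul_comm]
  have hb : ∀ l : Fin k, (2 : ℝ) ^ t l ≤ R * (av τ l.castSucc / av τ l.succ) := by
    intro l
    rw [hrat, at_ratio]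
    have h3 := hq l.succ l.castSucc
    have h4 : 0 < ia ω l.castSucc / ia ω l.succ := div_pos (hia _) (hia _)
    have h5 : 1 ≤ R * (ia ω l.castSucc / ia ω l.succ) := by
      have h6 : ia ω l.succ / ia ω l.castSucc * (ia ω l.castSucc / ia ω l.succ) = 1 := by
        have := (hia l.succ).ne'
        have := (hia l.castSucc).ne'
        field_simp
      rw [← h6]
      exact mul_le_mul_of_nonneg_right h3 h4.le
    have h7 : (0 : ℝ) < (2 : ℝ) ^ t l := by positivity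
    calc (2 : ℝ) ^ t l = (2 : ℝ) ^ t l * 1 := (mul_one _).symm
      _ ≤ (2 : ℝ) ^ t l * (R * (ia ω l.castSucc / ia ω l.succ)) := mul_le_mul_of_nonneg_left h5 h7.le
      _ = _ := by ring
  -- the bound for the sum
  have h3 := h1 μ N hN1 m hm r (fun i x => WX m (f i) (κ, x)) s hW hE L0 (by linarith) (fun u => by
    refine h2 N F1 r f s hF m hm (av u) (av_pos u) (av_prod u) (aG u) ?_ κ
    refine ⟨0, 1, rfl, ?_⟩
    show (aG u).1 = upM (0 : UI (k + 1) → EE ℚ) * Matrix.diagonal (fun i => iq (av u i)) * (1 : Matrix (Fin (k + 1)) (Fin (k + 1)) (EE ℚ))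
    have h4 : upM (0 : UI (k + 1) → EE ℚ) = 1 := by
      ext1 a l
      rcases lt_trichotomy a l with h | h | h
      · rw [upM_lt _ h, Matrix.one_apply_ne h.ne]
        rfl
      · subst h
        rw [upM_eq, Matrix.one_apply_eq]
      · rw [upM_gt _ h, Matrix.one_apply_ne h.ne']
    rw [h4, Matrix.one_mul, Matrix.mul_one, aG_coe]) τ y hy
  simp only [e1]
  refine h3.trans ?_
  -- constants
  obtain ⟨Y, hY⟩ : ∃ Y : ℝ, Y = 1 + (y ^ (k + 1))⁻¹ / (N : ℝ) ^ (2 * k + 1) := ⟨_, rfl⟩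
  have hY0 : 0 ≤ Y := by
    rw [hY]
    positivity
  rw [← hY]
  have hdl : dl τ / (N : ℝ) ^ Fintype.card (UI (k + 1)) ≤ K2 * ∏ p : UI (k + 1), (at' t p.1.1 / at' t p.1.2 / (N : ℝ)) := by
    have h4 : dl τ / (N : ℝ) ^ Fintype.card (UI (k + 1)) = ∏ p : UI (k + 1), (av τ p.1.1 / av τ p.1.2 / (N : ℝ)) := by
      have h5 : ∏ p : UI (k + 1), (av τ p.1.1 / av τ p.1.2 / (N : ℝ)) =
          (∏ p : UI (k + 1), av τ p.1.1 / av τ p.1.2) / ∏ _p : UI (k + 1), (N : ℝ) := Finset.prod_div_distrib _ _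
      rw [h5, Finset.prod_const, Finset.card_univ]
      rfl
    have h5 : K2 * ∏ p : UI (k + 1), (at' t p.1.1 / at' t p.1.2 / (N : ℝ)) =
        ∏ p : UI (k + 1), (R * (at' t p.1.1 / at' t p.1.2 / (N : ℝ))) := by
      rw [Finset.prod_mul_distrib, Finset.prod_const, Finset.card_univ, hK2]
    rw [h4, h5]
    refine Finset.prod_le_prod (fun p _ => ?_) fun p _ => ?_
    · exact div_nonneg (div_nonneg (av_pos _ _).le (av_pos _ _).le) hN0.le
    · rw [hrat]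
      have h6 := hq p.1.1 p.1.2
      have h7 : 0 ≤ at' t p.1.1 / at' t p.1.2 := div_nonneg (at_pos t _).le (at_pos t _).le
      have h8 : R * (at' t p.1.1 / at' t p.1.2 / (N : ℝ)) = at' t p.1.1 / at' t p.1.2 * R / (N : ℝ) := by ring
      rw [h8]
      exact div_le_div_of_nonneg_right (mul_le_mul_of_nonneg_left h6 h7) hN0.le
  have hpr : ∏ l : Fin k, (Ml N τ l ^ (((k - l : ℕ) : ℝ) + η) * min 1 (1 / |xi N m τ l|) ^ A) ≤
      K1 * (PM N t * (∏ l : Fin k, max 1 ((N : ℝ) / (2 : ℝ) ^ t l)) ^ η * PX N (fun l => m l.castSucc) t ^ A) := by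
    have h4 : K1 * (PM N t * (∏ l : Fin k, max 1 ((N : ℝ) / (2 : ℝ) ^ t l)) ^ η * PX N (fun l => m l.castSucc) t ^ A) =
        ∏ l : Fin k, ((R ^ (((k - l : ℕ) : ℝ) + η) * R ^ A) * (max 1 ((N : ℝ) / (2 : ℝ) ^ t l) ^ (k - l : ℕ) *
          max 1 ((N : ℝ) / (2 : ℝ) ^ t l) ^ η * min 1 ((N : ℝ) / ((2 : ℝ) ^ t l * |(m l.castSucc : ℝ)|)) ^ A)) := by
      unfold H33N.PM H33N.PX
      rw [Finset.prod_mul_distrib, ← hK1, Finset.prod_mul_distrib, Finset.prod_mul_distrib, Finset.prod_pow,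
        Real.finsetProd_rpow _ _ fun l _ => le_max_of_le_left zero_le_one]
    rw [h4]
    refine Finset.prod_le_prod (fun l _ => ?_) fun l _ => ?_
    · refine mul_nonneg (Real.rpow_nonneg (le_max_of_le_left zero_le_one) _) (pow_nonneg (le_min zero_le_one (by positivity)) _)
    · have h5 : |xi N m τ l| = |(m l.castSucc : ℝ)| / N * (av τ l.castSucc / av τ l.succ) := by
        unfold xi
        rw [abs_mul, abs_div, abs_of_pos hN0, abs_of_pos (div_pos (av_pos _ _) (av_pos _ _))]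
      rw [h5]
      have h6 : (0 : ℝ) < |(m l.castSucc : ℝ)| := abs_pos.2 (Int.cast_ne_zero.2 (hm l))
      exact q6_one hR1 hN0 (by positivity) (div_pos (av_pos _ _) (av_pos _ _)) h6 (hb l) A (k - l) hη
  have hP0 : 0 ≤ ∏ l : Fin k, (Ml N τ l ^ (((k - l : ℕ) : ℝ) + η) * min 1 (1 / |xi N m τ l|) ^ A) :=
    Finset.prod_nonneg fun l _ => mul_nonneg (Real.rpow_nonneg (le_max_of_le_left zero_le_one) _)
      (pow_nonneg (le_min zero_le_one (by positivity)) _)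
  have hQ0 : 0 ≤ K2 * ∏ p : UI (k + 1), (at' t p.1.1 / at' t p.1.2 / (N : ℝ)) := by
    refine mul_nonneg (by linarith) (Finset.prod_nonneg fun p _ => ?_)
    exact div_nonneg (div_nonneg (at_pos t _).le (at_pos t _).le) hN0.le
  calc C1 * L0 * Y * (dl τ / (N : ℝ) ^ Fintype.card (UI (k + 1))) *
        ∏ l : Fin k, (Ml N τ l ^ (((k - l : ℕ) : ℝ) + η) * min 1 (1 / |xi N m τ l|) ^ A)
      ≤ C1 * L0 * Y * (K2 * ∏ p : UI (k + 1), (at' t p.1.1 / at' t p.1.2 / (N : ℝ))) *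
        (K1 * (PM N t * (∏ l : Fin k, max 1 ((N : ℝ) / (2 : ℝ) ^ t l)) ^ η * PX N (fun l => m l.castSucc) t ^ A)) := by
        have h4 : 0 ≤ C1 * L0 * Y := by positivity
        exact mul_le_mul (mul_le_mul_of_nonneg_left hdl h4) hpr hP0 (mul_nonneg h4 hQ0)
    _ = _ := by ring

end

end Pool.Agent.Lib.H85A
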