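import Pool.Agent.Lib.H85A.Q6
import Pool.Agent.Lib.H33N.D6

/-!
# H85A, Q7: **the mass bound** (the field `m3`)
-/

namespace Pool.Agent.Lib.H85A

open MeasureTheory Matrix NumberField IsDedekindDomain
open Pool.Agent.Lib.H89N Pool.Agent.Lib.H85S Pool.Agent.Lib.H33W Pool.Agent.Lib.H33N
open scoped ENNReal

noncomputable section

variable {n k : ℕ}

/-- PROOF. The end of the proof of `m3_top` (`H33N.D6`): `massW = ∑_κ ∫⁻_D 1_(cell) ‖WX‖²`, sum over the forms under the integral (`sum_const_le`), `q_cell`, `d3_vol` (`(μ.restrict D) (cell) ≤ C ∏ (a_(p.1.2) / a_(p.1.1))`), `kg_card'` and `N^(-#UI)`, `card_UI`, `card_four`. -/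
theorem m3a (hk : 1 ≤ k) (μ : Measure (GG (k + 1) ℚ)) [μ.IsHaarMeasure] {Ω : Set (GG (k + 1) ℚ)} (hΩ : IsCompact Ω) {T : ℝ} (hT : 0 ≤ T) (A : ℕ)
    {η : ℝ} (hη : 0 < η) : ∃ C : ℝ, 1 ≤ C ∧ ∀ (N : ℕ) [NeZero N] (F1 : Set (GG (k + 1) ℚ)) (r : ℕ) (f : Fin r → XX (k + 1) N → ℂ)
    (s : Fin r → Fin (k + 1) → ℂ), FamS N μ F1 T r f s → ∀ m : Fin (k + 1) → ℤ, Nz m → ∀ y : ℝ, 0 < y →
    ∀ (Δ : Subgroup (SLK (k + 1) ℚ)), Δ ≤ UG (k + 1) ℚ → (∀ γ : SLK (k + 1) ℚ, LUc (fun _ => (⊤ : Ideal (𝓞 ℚ))) γ → γ ∈ Δ) →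
    ∀ (D : Set (GG (k + 1) ℚ)), SF Δ D → ∀ t : Fin k → ℤ,
    ∑ i, ENNReal.ofReal (‖HX y (s i)‖ ^ 2) * massW μ D Ω (at' t) m (f i) ≤
      ENNReal.ofReal (C * (1 + (y ^ (k + 1))⁻¹ / (N : ℝ) ^ (2 * k + 1)) * (N : ℝ) ^ (k * (k + 3) / 2) *
        (PM N t * (∏ l : Fin k, max 1 ((N : ℝ) / (2 : ℝ) ^ t l)) ^ η * PX N (fun l => m l.castSucc) t ^ A)) := by
  obtain ⟨C₁, hC₁, h1⟩ := q_cell hk μ hΩ hT A hη
  obtain ⟨C₂, hC₂, h2⟩ := d3_vol μ hΩ
  refine ⟨1 + C₁ * C₂, ?_, ?_⟩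
  · have : 0 < C₁ * C₂ := by positivity
    linarith
  intro N _ F1 r f s hF m hm y hy Δ hΔ hΔ' D hD t
  have hNr : (0 : ℝ) < N := by exact_mod_cast Nat.pos_of_ne_zero (NeZero.ne N)
  have ha : ∀ i, 0 < at' t i := at_pos t
  have h3 := fun κ z hz => h1 N F1 r f s hF m hm y hy t κ z hz
  have hX0 : 0 ≤ 1 + (y ^ (k + 1))⁻¹ / (N : ℝ) ^ (2 * k + 1) := by positivity
  have hPX0 : 0 ≤ PX N (fun l => m l.castSucc) t := by
    unfold PX
    refine Finset.prod_nonneg fun l _ => le_min zero_le_one (by positivity)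
  have hPM0 : 0 ≤ PM N t := by
    unfold Pool.Agent.Lib.H33N.PM
    refine Finset.prod_nonneg fun l _ => pow_nonneg (le_trans zero_le_one (le_max_left _ _)) _
  have hmx0 : 0 ≤ ∏ l : Fin k, max 1 ((N : ℝ) / (2 : ℝ) ^ t l) :=
    Finset.prod_nonneg fun l _ => le_trans zero_le_one (le_max_left _ _)
  have hR0 : 0 ≤ PM N t * (∏ l : Fin k, max 1 ((N : ℝ) / (2 : ℝ) ^ t l)) ^ η * PX N (fun l => m l.castSucc) t ^ A :=
    mul_nonneg (mul_nonneg hPM0 (Real.rpow_nonneg hmx0 _)) (pow_nonneg hPX0 _)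
  generalize 1 + (y ^ (k + 1))⁻¹ / (N : ℝ) ^ (2 * k + 1) = X at h3 hX0 ⊢
  generalize PM N t * (∏ l : Fin k, max 1 ((N : ℝ) / (2 : ℝ) ^ t l)) ^ η * PX N (fun l => m l.castSucc) t ^ A = R at h3 hR0 ⊢
  have hdiv : ∏ p : UI (k + 1), (at' t p.1.1 / at' t p.1.2 / (N : ℝ)) =
      (∏ p : UI (k + 1), at' t p.1.1 / at' t p.1.2) / (N : ℝ) ^ (k * (k + 1) / 2) := by
    rw [Finset.prod_div_distrib, Finset.prod_const, Finset.card_univ, card_UI]
  rw [hdiv] at h3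
  have hPRp : 0 < ∏ p : UI (k + 1), at' t p.1.1 / at' t p.1.2 := Finset.prod_pos fun p _ => div_pos (ha _) (ha _)
  have hPIp : 0 ≤ ∏ p : UI (k + 1), at' t p.1.2 / at' t p.1.1 := Finset.prod_nonneg fun p _ => div_nonneg (ha _).le (ha _).le
  have hPP : (∏ p : UI (k + 1), at' t p.1.1 / at' t p.1.2) * (∏ p : UI (k + 1), at' t p.1.2 / at' t p.1.1) = 1 := by
    rw [← Finset.prod_mul_distrib]
    refine Finset.prod_eq_one fun p _ => ?_
    have h3 := ha p.1.1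
    have h4 := ha p.1.2
    field_simp
  have hvol := h2 hΔ hΔ' hD (at' t) ha (at_prod t)
  rw [Module.finrank_self] at hvol
  simp only [pow_one] at hvol
  generalize (∏ p : UI (k + 1), at' t p.1.1 / at' t p.1.2) = PR at h3 hPRp hPP
  generalize (∏ p : UI (k + 1), at' t p.1.2 / at' t p.1.1) = PI' at hvol hPIp hPP
  obtain ⟨Bd, hBd⟩ : ∃ Bd, Bd = C₁ * X * (PR / (N : ℝ) ^ (k * (k + 1) / 2)) * R := ⟨_, rfl⟩
  rw [← hBd] at h3
  have hBd0 : 0 ≤ Bd := by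
    rw [hBd]
    positivity
  have hpt : ∀ κ z, InRange Ω (at' t) z → ∑ i, ENNReal.ofReal (‖HX y (s i)‖ ^ 2) *
      ENNReal.ofReal (‖WX m (f i) (κ, z)‖ ^ 2) ≤ ENNReal.ofReal Bd := by
    intro κ z hz
    have e : ∀ i, ENNReal.ofReal (‖HX y (s i)‖ ^ 2) * ENNReal.ofReal (‖WX m (f i) (κ, z)‖ ^ 2) =
        ENNReal.ofReal (‖HX y (s i)‖ ^ 2 * ‖WX m (f i) (κ, z)‖ ^ 2) := by
      intro i
      rw [ENNReal.ofReal_mul (sq_nonneg _)]
    rw [Finset.sum_congr rfl fun i _ => e i, ← ENNReal.ofReal_sum_of_nonneg fun i _ =>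
      mul_nonneg (sq_nonneg _) (sq_nonneg _)]
    exact ENNReal.ofReal_le_ofReal (h3 κ z hz)
  -- the integrals
  have hmass : ∑ i, ENNReal.ofReal (‖HX y (s i)‖ ^ 2) * massW μ D Ω (at' t) m (f i) ≤
      ∑ _κ : KG (k + 1) N, ENNReal.ofReal Bd * (μ.restrict D) {z | InRange Ω (at' t) z} := by
    unfold massW
    simp only [Finset.mul_sum]
    rw [Finset.sum_comm]
    refine Finset.sum_le_sum fun κ _ => ?_
    refine (sum_const_le Finset.univ (μ.restrict D) _ _).trans ?_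
    refine le_trans (lintegral_mono (g := {z | InRange Ω (at' t) z}.indicator fun _ => ENNReal.ofReal Bd) fun z => ?_)
      (lintegral_indicator_const_le _ _)
    by_cases hz : z ∈ {z | InRange Ω (at' t) z}
    · simp only [Set.indicator_of_mem hz]
      exact hpt κ z hz
    · simp only [Set.indicator_of_notMem hz, mul_zero, Finset.sum_const_zero]
      exact zero_le
  refine hmass.trans ?_
  rw [Finset.sum_const, Finset.card_univ, nsmul_eq_mul]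
  have hcard := kg_card' (N := N) (k := k)
  calc (Fintype.card (KG (k + 1) N) : ENNReal) * (ENNReal.ofReal Bd * (μ.restrict D) {z | InRange Ω (at' t) z})
      ≤ ENNReal.ofReal ((N : ℝ) ^ (k * (k + 2))) * (ENNReal.ofReal Bd * ENNReal.ofReal (C₂ * PI')) := by
        refine mul_le_mul' ?_ (mul_le_mul_right hvol _)
        rw [← ENNReal.ofReal_natCast]
        exact ENNReal.ofReal_le_ofReal hcard
    _ = ENNReal.ofReal ((N : ℝ) ^ (k * (k + 2)) * (Bd * (C₂ * PI'))) := by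
        rw [← ENNReal.ofReal_mul hBd0, ← ENNReal.ofReal_mul (by positivity)]
    _ ≤ _ := by
        refine ENNReal.ofReal_le_ofReal ?_
        have e1 : (N : ℝ) ^ (k * (k + 2)) * (Bd * (C₂ * PI')) =
            C₁ * C₂ * X * ((N : ℝ) ^ (k * (k + 3) / 2)) * R := by
          rw [hBd, card_four, pow_add]
          have h3 : (N : ℝ) ^ (k * (k + 1) / 2) ≠ 0 := by positivity
          generalize (N : ℝ) ^ (k * (k + 1) / 2) = A₁ at h3
          generalize (N : ℝ) ^ (k * (k + 3) / 2) = A₂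
          calc A₂ * A₁ * (C₁ * X * (PR / A₁) * R * (C₂ * PI'))
              = (C₁ * C₂ * X * A₂ * R) * (PR * PI') * (A₁ / A₁) := by ring
            _ = C₁ * C₂ * X * A₂ * R := by rw [hPP, div_self h3, mul_one, mul_one]
        rw [e1]
        have h5 : 0 ≤ X * ((N : ℝ) ^ (k * (k + 3) / 2)) * R := by positivity
        calc C₁ * C₂ * X * ((N : ℝ) ^ (k * (k + 3) / 2)) * R = (C₁ * C₂) * (X * ((N : ℝ) ^ (k * (k + 3) / 2)) * R) := by ring
          _ ≤ (1 + C₁ * C₂) * (X * ((N : ℝ) ^ (k * (k + 3) / 2)) * R) := mul_le_mul_of_nonneg_right (by linarith) h5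
          _ = _ := by ring

end

end Pool.Agent.Lib.H85A
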