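import Pool.Agent.Lib.H85A.SD
import Pool.Agent.Lib.H33N.L3

/-!
# H85A, QD: definitions of module Q (the sum over the forms of the exact identity)
-/

namespace Pool.Agent.Lib.H85A

open MeasureTheory Matrix NumberField
open Pool.Agent.Lib.H89N Pool.Agent.Lib.H85S Pool.Agent.Lib.H33W Pool.Agent.Lib.H33N
open scoped ENNReal

noncomputable section

variable {n k : ℕ}

/-- The constant `M(a, 1)` of the large sieve inequality. -/
def McA (hk : 1 ≤ k) (N : ℕ) (a : Fin (k + 1) → ℝ) : ℝ := Mc (K := ℚ) (show 2 ≤ k + 1 by omega) (nI N) a 1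

/-- `max(1, N / r_l)`, `r_l = a_l / a_(l+1)`, `a = av τ`. -/
def Ml (N : ℕ) (τ : Fin k → ℝ) (l : Fin k) : ℝ := max 1 (N / (av τ l.castSucc / av τ l.succ))

/-- `b_l = exp(t_l) / y`. -/
def bl (y : ℝ) (t : Fin k → ℝ) (l : Fin k) : ℝ := Real.exp (t l) / y

/-- `∏_l exp(-π b_l⁻² - π ξ_l² b_l²)`. -/
def gq (y : ℝ) (ξ t : Fin k → ℝ) : ℝ := ∏ l : Fin k, Real.exp (-(Real.pi * (bl y t l ^ 2)⁻¹) - Real.pi * (ξ l * bl y t l) ^ 2)

end

end Pool.Agent.Lib.H85A
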