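import Pool.Agent.Lib.H85A.S1
import Pool.Agent.Lib.H85A.I4
import Pool.Agent.Lib.H85A.A1

/-!
# H85A, S2: integrability of the Gaussian kernel on the Borel group
-/

namespace Pool.Agent.Lib.H85A

open MeasureTheory Matrix NumberField
open Pool.Agent.Lib.H89N Pool.Agent.Lib.H85S Pool.Agent.Lib.H33W Pool.Agent.Lib.H33N
open scoped ENNReal

noncomputable section

variable {n k : ℕ}

/-- PROOF. `fro_bG`. -/
theorem gk_bG (y : ℝ) (σ : UI (k + 1) → ℝ) (t : Fin k → ℝ) : GK y (bG σ t) =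
    Real.exp (-(Real.pi * y ^ 2 * ∑ i, (av t i ^ 2)⁻¹)) * Real.exp (-(Real.pi * y ^ 2 * ∑ p : UI (k + 1), (av t p.1.1 ^ 2)⁻¹ * σ p ^ 2)) := by
  unfold GK
  rw [fro_bG, ← Real.exp_add]
  congr 1
  ring

/-- PROOF. `a_core` with `x_l = t_l - log y`, `L = -(k+1) log y`: `y² a_l⁻² = exp (-2 x_l)`, `y² a_k⁻² = exp (-2 (L - ∑ x))`, and `∑ |t_l| ≤ ∑ |x_l| + k |log y|`. -/
theorem t_core (k : ℕ) (B : ℝ) (hB : 0 ≤ B) {y : ℝ} (hy : 0 < y) : ∃ C : ℝ, ∀ t : Fin k → ℝ,
    B * ∑ l, |t l| - Real.pi * y ^ 2 * ∑ i, (av t i ^ 2)⁻¹ ≤ C - ∑ l, |t l| := by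
  obtain ⟨C, hC⟩ := a_core k B hB (-((k + 1) * Real.log y))
  refine ⟨C + (B + 1) * (k * |Real.log y|), fun t => ?_⟩
  have h := hC (fun l => t l - Real.log y)
  have hy2 : y ^ 2 = Real.exp (2 * Real.log y) := by
    rw [two_mul, Real.exp_add, Real.exp_log hy, sq]
  have hs : ∑ l : Fin k, (t l - Real.log y) = ∑ l, t l - k * Real.log y := by
    rw [Finset.sum_sub_distrib, Finset.sum_const, Finset.card_univ, Fintype.card_fin, nsmul_eq_mul]
  have e1 : Real.pi * y ^ 2 * ∑ i, (av t i ^ 2)⁻¹ = Real.pi * (∑ l : Fin k, Real.exp (-2 * (t l - Real.log y)) +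
      Real.exp (-2 * (-((k + 1) * Real.log y) - ∑ l : Fin k, (t l - Real.log y)))) := by
    rw [mul_assoc]
    congr 1
    rw [Fin.sum_univ_castSucc, mul_add, Finset.mul_sum]
    congr 1
    · refine Finset.sum_congr rfl fun l _ => ?_
      rw [av_cs, hy2, ← Real.exp_nat_mul, ← Real.exp_neg, ← Real.exp_add]
      congr 1
      push_cast
      ring
    · rw [av_last, hy2, hs, ← Real.exp_nat_mul, ← Real.exp_neg, ← Real.exp_add]
      congr 1
      push_cast
      ring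
  rw [e1]
  have h2 : ∑ l, |t l| ≤ ∑ l : Fin k, |t l - Real.log y| + k * |Real.log y| := by
    have : ∑ l : Fin k, |t l - Real.log y| + k * |Real.log y| = ∑ l : Fin k, (|t l - Real.log y| + |Real.log y|) := by
      rw [Finset.sum_add_distrib, Finset.sum_const, Finset.card_univ, Fintype.card_fin, nsmul_eq_mul]
    rw [this]
    refine Finset.sum_le_sum fun l _ => ?_
    calc |t l| = |(t l - Real.log y) + Real.log y| := by rw [sub_add_cancel]
      _ ≤ _ := abs_add_le _ _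
  have h3 : B * ∑ l, |t l| ≤ B * (∑ l : Fin k, |t l - Real.log y| + k * |Real.log y|) := mul_le_mul_of_nonneg_left h2 hB
  have h4 : 0 ≤ B * |(-((k + 1) * Real.log y) - ∑ l : Fin k, (t l - Real.log y))| := mul_nonneg hB (abs_nonneg _)
  have h5 : B * (∑ l : Fin k, |t l - Real.log y| + |(-((k + 1) * Real.log y) - ∑ l : Fin k, (t l - Real.log y))|) =
    B * ∑ l : Fin k, |t l - Real.log y| + B * |(-((k + 1) * Real.log y) - ∑ l : Fin k, (t l - Real.log y))| := mul_add _ _ _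
  have h' : B * (∑ l : Fin k, |t l - Real.log y| + |(-((k + 1) * Real.log y) - ∑ l : Fin k, (t l - Real.log y))|) -
      Real.pi * (∑ l : Fin k, Real.exp (-2 * (t l - Real.log y)) +
      Real.exp (-2 * (-((k + 1) * Real.log y) - ∑ l : Fin k, (t l - Real.log y)))) ≤ C - ∑ l : Fin k, |t l - Real.log y| := h
  rw [h5] at h'
  rw [mul_add] at h3
  linarith

theorem s2_exp (c : ℝ) {ι : Type} [Fintype ι] (b : ι → ℝ) (σ : ι → ℝ) :
    Real.exp (-(c * ∑ p, b p * σ p ^ 2)) = ∏ p, Real.exp (-(c * b p) * σ p ^ 2) := by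
  rw [← Real.exp_sum]
  congr 1
  rw [Finset.mul_sum, ← Finset.sum_neg_distrib]
  refine Finset.sum_congr rfl fun p _ => ?_
  ring

/-- PROOF. `integral_fintype_prod_eq_prod` and `integral_gaussian` (`∫ exp (-b x²) = √(π / b)`, `b = π y² a⁻²`). -/
theorem g_int {y : ℝ} (hy : 0 < y) (t : Fin k → ℝ) :
    Integrable (fun σ : UI (k + 1) → ℝ => Real.exp (-(Real.pi * y ^ 2 * ∑ p : UI (k + 1), (av t p.1.1 ^ 2)⁻¹ * σ p ^ 2))) ∧
    ∫ σ : UI (k + 1) → ℝ, Real.exp (-(Real.pi * y ^ 2 * ∑ p : UI (k + 1), (av t p.1.1 ^ 2)⁻¹ * σ p ^ 2)) = ∏ p : UI (k + 1), (av t p.1.1 / y) := by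
  have hb : ∀ p : UI (k + 1), 0 < Real.pi * y ^ 2 * (av t p.1.1 ^ 2)⁻¹ := fun p => by
    have := av_pos t p.1.1
    have := Real.pi_pos
    positivity
  simp only [s2_exp]
  constructor
  · exact Integrable.fintype_prod (f := fun (p : UI (k + 1)) (x : ℝ) => Real.exp (-(Real.pi * y ^ 2 * (av t p.1.1 ^ 2)⁻¹) * x ^ 2))
      fun p => integrable_exp_neg_mul_sq (hb p)
  · rw [integral_fintype_prod_volume_eq_prod (fun (p : UI (k + 1)) (x : ℝ) => Real.exp (-(Real.pi * y ^ 2 * (av t p.1.1 ^ 2)⁻¹) * x ^ 2))]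
    refine Finset.prod_congr rfl fun p _ => ?_
    rw [integral_gaussian]
    have ha := av_pos t p.1.1
    rw [show Real.pi / (Real.pi * y ^ 2 * (av t p.1.1 ^ 2)⁻¹) = (av t p.1.1 / y) ^ 2 by
      have := Real.pi_ne_zero
      field_simp]
    exact Real.sqrt_sq (div_pos ha hy).le

theorem s2_cont (B : ℝ) (y : ℝ) :
    Continuous (fun p : (Fin k → ℝ) × (UI (k + 1) → ℝ) => Real.exp (B * ∑ l, |p.1 l|) * GK y (bG p.2 p.1)) := by
  simp only [gk_bG]
  have h1 : ∀ i : Fin (k + 1), Continuous fun p : (Fin k → ℝ) × (UI (k + 1) → ℝ) => (av p.1 i ^ 2)⁻¹ := fun i =>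
    (((av_cont i).comp continuous_fst).pow 2).inv₀ fun p => pow_ne_zero _ (av_ne _ _)
  refine Continuous.mul (by fun_prop) (Continuous.mul ?_ ?_)
  · refine Real.continuous_exp.comp (Continuous.neg (Continuous.mul continuous_const ?_))
    exact continuous_finsetSum _ fun i _ => h1 i
  · refine Real.continuous_exp.comp (Continuous.neg (Continuous.mul continuous_const ?_))
    exact continuous_finsetSum _ fun q _ => (h1 q.1.1).mul (by fun_prop)

/-- PROOF. `integrable_prod_iff` (continuous integrand): for fixed `t` `g_int`; the integral over `σ` of the norm is `exp (B ∑ |t|) exp (-π y² ∑ a⁻²) ∏ (a_(p.1.1) / y) ≤ y ^ (-#UI) e^C exp (-∑ |t|)` (`dl_bound`, `t_core`), `a_expabs`. -/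
theorem s_dom (B : ℝ) (hB : 0 ≤ B) {y : ℝ} (hy : 0 < y) :
    Integrable (fun p : (Fin k → ℝ) × (UI (k + 1) → ℝ) => Real.exp (B * ∑ l, |p.1 l|) * GK y (bG p.2 p.1)) := by
  have hc := s2_cont (k := k) B y
  rw [Measure.volume_eq_prod, integrable_prod_iff hc.aestronglyMeasurable]
  have e : ∀ (t : Fin k → ℝ) (σ : UI (k + 1) → ℝ), Real.exp (B * ∑ l, |t l|) * GK y (bG σ t) =
      (Real.exp (B * ∑ l, |t l|) * Real.exp (-(Real.pi * y ^ 2 * ∑ i, (av t i ^ 2)⁻¹))) *
        Real.exp (-(Real.pi * y ^ 2 * ∑ p : UI (k + 1), (av t p.1.1 ^ 2)⁻¹ * σ p ^ 2)) := by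
    intro t σ
    rw [gk_bG]
    exact (mul_assoc _ _ _).symm
  constructor
  · refine Filter.Eventually.of_forall fun t => ?_
    simp only [e]
    exact (g_int hy t).1.const_mul _
  · have e2 : ∀ t : Fin k → ℝ, ∫ σ : UI (k + 1) → ℝ, ‖Real.exp (B * ∑ l, |t l|) * GK y (bG σ t)‖ =
        Real.exp (B * ∑ l, |t l|) * Real.exp (-(Real.pi * y ^ 2 * ∑ i, (av t i ^ 2)⁻¹)) * ∏ p : UI (k + 1), (av t p.1.1 / y) := by
      intro t
      rw [← (g_int hy t).2, ← integral_const_mul]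
      refine integral_congr_ae (Filter.Eventually.of_forall fun σ => ?_)
      simp only
      rw [e, Real.norm_of_nonneg (by positivity)]
    simp only [e2]
    obtain ⟨E, hE0, hE⟩ := dl_bound k
    obtain ⟨C, hC⟩ := t_core k (B + E) (add_nonneg hB hE0) hy
    have hdom : Integrable fun t : Fin k → ℝ => ((∏ _p : UI (k + 1), y⁻¹) * Real.exp C) * Real.exp (-∑ l, |t l|) := (a_expabs k).const_mul _
    refine hdom.mono' ?_ (Filter.Eventually.of_forall fun t => ?_)
    · refine Continuous.aestronglyMeasurable ?_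
      have h1 : ∀ i : Fin (k + 1), Continuous fun t : Fin k → ℝ => (av t i ^ 2)⁻¹ := fun i =>
        ((av_cont i).pow 2).inv₀ fun p => pow_ne_zero _ (av_ne _ _)
      refine Continuous.mul (Continuous.mul (by fun_prop) ?_) ?_
      · refine Real.continuous_exp.comp (Continuous.neg (Continuous.mul continuous_const ?_))
        exact continuous_finsetSum _ fun i _ => h1 i
      · exact continuous_finsetProd _ fun q _ => (av_cont _).div_const _
    · have hp : ∏ p : UI (k + 1), (av t p.1.1 / y) = (∏ p : UI (k + 1), av t p.1.1) * ∏ _p : UI (k + 1), y⁻¹ := by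
        rw [← Finset.prod_mul_distrib]
        rfl
      have hpos : 0 ≤ ∏ _p : UI (k + 1), y⁻¹ := Finset.prod_nonneg fun _ _ => (inv_pos.2 hy).le
      have hpos2 : 0 ≤ ∏ p : UI (k + 1), av t p.1.1 := Finset.prod_nonneg fun _ _ => (av_pos _ _).le
      rw [hp, Real.norm_of_nonneg (by positivity)]
      have h3 := (hE t).2.2
      calc Real.exp (B * ∑ l, |t l|) * Real.exp (-(Real.pi * y ^ 2 * ∑ i, (av t i ^ 2)⁻¹)) * ((∏ p : UI (k + 1), av t p.1.1) * ∏ _p : UI (k + 1), y⁻¹)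
          ≤ Real.exp (B * ∑ l, |t l|) * Real.exp (-(Real.pi * y ^ 2 * ∑ i, (av t i ^ 2)⁻¹)) * (Real.exp (E * ∑ l, |t l|) * ∏ _p : UI (k + 1), y⁻¹) := by
            gcongr
        _ = (∏ _p : UI (k + 1), y⁻¹) * Real.exp ((B + E) * ∑ l, |t l| - Real.pi * y ^ 2 * ∑ i, (av t i ^ 2)⁻¹) := by
            rw [sub_eq_add_neg, add_mul, Real.exp_add, Real.exp_add]
            ring
        _ ≤ (∏ _p : UI (k + 1), y⁻¹) * Real.exp (C - ∑ l, |t l|) := by
            exact mul_le_mul_of_nonneg_left (Real.exp_le_exp.2 (hC t)) hpos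
        _ = _ := by
            rw [sub_eq_add_neg, Real.exp_add]
            ring

end

end Pool.Agent.Lib.H85A
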