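import Pool.Agent.Lib.H85A.S2

/-!
# H85A, S3: the Fourier transform of the Gaussian in the unipotent variables
-/

namespace Pool.Agent.Lib.H85A

open MeasureTheory Matrix NumberField
open Pool.Agent.Lib.H89N Pool.Agent.Lib.H85S Pool.Agent.Lib.H33W Pool.Agent.Lib.H33N
open scoped ENNReal

noncomputable section

variable {n k : ℕ}

/-- PROOF. The integrand is `∏_p exp (-2πi ξ'_p σ_p) exp (-π y² a⁻² σ_p²)`, `ξ'_p = ξ l` for `p = pl l` and `0` otherwise (`pl` is injective). `integral_fintype_prod_eq_prod`, and in one variable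
`∫ exp (-2πi ξ x) exp (-π b x²) dx = b^(-1/2) exp (-π ξ² / b)`, `b = (y / a)²` (Mathlib: `fourierIntegral_gaussian`, `fourierIntegral_gaussian_pi`, `integral_cexp_neg_mul_sq_add_real_mul_I`...). -/
theorem s3_inj : Function.Injective (pl : Fin k → UI (k + 1)) := by
  intro a b h
  have h1 : a.castSucc = b.castSucc := congrArg (fun p : UI (k + 1) => p.1.1) h
  exact Fin.castSucc_injective _ h1

theorem s3_one {a y : ℝ} (ha : 0 < a) (hy : 0 < y) (ξ : ℝ) :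
    ∫ x : ℝ, ee (-(ξ * x)) * ((Real.exp (-(Real.pi * y ^ 2 * (a ^ 2)⁻¹) * x ^ 2) : ℝ) : ℂ) =
      ((a / y * Real.exp (-(Real.pi * (ξ * a / y) ^ 2)) : ℝ) : ℂ) := by
  have hb : 0 < Real.pi * y ^ 2 * (a ^ 2)⁻¹ := by
    have := Real.pi_pos
    positivity
  have h := fourierIntegral_gaussian (b := ((Real.pi * y ^ 2 * (a ^ 2)⁻¹ : ℝ) : ℂ)) (by rw [Complex.ofReal_re]; exact hb)
    ((-(2 * Real.pi * ξ) : ℝ) : ℂ)
  have e1 : ∀ x : ℝ, ee (-(ξ * x)) * ((Real.exp (-(Real.pi * y ^ 2 * (a ^ 2)⁻¹) * x ^ 2) : ℝ) : ℂ) =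
      Complex.exp (Complex.I * ((-(2 * Real.pi * ξ) : ℝ) : ℂ) * x) * Complex.exp (-((Real.pi * y ^ 2 * (a ^ 2)⁻¹ : ℝ) : ℂ) * x ^ 2) := by
    intro x
    unfold ee
    congr 1
    · congr 1
      push_cast
      ring
    · push_cast
      rfl
  simp only [e1]
  rw [h]
  have e2 : (Real.pi : ℂ) / ((Real.pi * y ^ 2 * (a ^ 2)⁻¹ : ℝ) : ℂ) = (((a / y) ^ 2 : ℝ) : ℂ) := by
    rw [← Complex.ofReal_div]
    congr 1
    have := Real.pi_ne_zero
    field_simp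
  rw [e2, show (1 / 2 : ℂ) = ((1 / 2 : ℝ) : ℂ) by push_cast; rfl, ← Complex.ofReal_cpow (by positivity), ← Real.sqrt_eq_rpow,
    Real.sqrt_sq (div_pos ha hy).le]
  push_cast
  congr 1
  congr 1
  have h1 : (Real.pi : ℂ) ≠ 0 := by exact_mod_cast Real.pi_ne_zero
  have h2 : (a : ℂ) ≠ 0 := by exact_mod_cast ha.ne'
  have h3 : (y : ℂ) ≠ 0 := by exact_mod_cast hy.ne'
  field_simp
  ring

theorem s3_ee_sum {ι : Type} (s : Finset ι) (f : ι → ℝ) : ee (∑ i ∈ s, f i) = ∏ i ∈ s, ee (f i) := by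
  unfold ee
  rw [← Complex.exp_sum]
  congr 1
  rw [Complex.ofReal_sum, Finset.mul_sum, Finset.sum_mul]

/-- PROOF. The integrand is `∏_p exp (-2πi ξ'_p σ_p) exp (-π y² a⁻² σ_p²)`, `ξ'_p = ξ l` for `p = pl l` and `0` otherwise (`pl` is injective). `integral_fintype_prod_eq_prod`, and in one variable
`∫ exp (-2πi ξ x) exp (-π b x²) dx = b^(-1/2) exp (-π ξ² / b)`, `b = (y / a)²` (Mathlib: `fourierIntegral_gaussian`, `fourierIntegral_gaussian_pi`, `integral_cexp_neg_mul_sq_add_real_mul_I`...). -/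
theorem g_ft {y : ℝ} (hy : 0 < y) (t ξ : Fin k → ℝ) :
    ∫ σ : UI (k + 1) → ℝ, ee (-∑ l : Fin k, ξ l * σ (pl l)) *
        ((Real.exp (-(Real.pi * y ^ 2 * ∑ p : UI (k + 1), (av t p.1.1 ^ 2)⁻¹ * σ p ^ 2)) : ℝ) : ℂ) =
      (((∏ p : UI (k + 1), (av t p.1.1 / y)) * Real.exp (-(Real.pi * ∑ l : Fin k, (ξ l * av t l.castSucc / y) ^ 2)) : ℝ) : ℂ) := by
  classical
  set ξ' : UI (k + 1) → ℝ := Function.extend pl ξ 0 with hξ'
  have hx1 : ∀ l, ξ' (pl l) = ξ l := fun l => s3_inj.extend_apply _ _ _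
  have hx2 : ∀ p, p ∉ Set.range (pl : Fin k → UI (k + 1)) → ξ' p = 0 := fun p hp => by
    rw [hξ', Function.extend_apply' _ _ _ (fun ⟨a, ha⟩ => hp ⟨a, ha⟩)]
    rfl
  have e1 : ∀ σ : UI (k + 1) → ℝ, ∑ l : Fin k, ξ l * σ (pl l) = ∑ p, ξ' p * σ p := fun σ =>
    Fintype.sum_of_injective pl s3_inj _ _ (fun p hp => by rw [hx2 p hp, zero_mul]) fun l => by rw [hx1]
  have e2 : ∑ l : Fin k, (ξ l * av t l.castSucc / y) ^ 2 = ∑ p : UI (k + 1), (ξ' p * av t p.1.1 / y) ^ 2 :=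
    Fintype.sum_of_injective pl s3_inj _ _ (fun p hp => by rw [hx2 p hp, zero_mul, zero_div, zero_pow two_ne_zero]) fun l => by
      rw [hx1]
      rfl
  have e3 : ∀ σ : UI (k + 1) → ℝ, ee (-∑ l : Fin k, ξ l * σ (pl l)) *
        ((Real.exp (-(Real.pi * y ^ 2 * ∑ p : UI (k + 1), (av t p.1.1 ^ 2)⁻¹ * σ p ^ 2)) : ℝ) : ℂ) =
      ∏ p, (ee (-(ξ' p * σ p)) * ((Real.exp (-(Real.pi * y ^ 2 * (av t p.1.1 ^ 2)⁻¹) * σ p ^ 2) : ℝ) : ℂ)) := by
    intro σ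
    rw [e1, s2_exp, Complex.ofReal_prod, Finset.prod_mul_distrib, ← Finset.sum_neg_distrib, s3_ee_sum]
  simp only [e3]
  rw [integral_fintype_prod_volume_eq_prod (fun (p : UI (k + 1)) (x : ℝ) =>
    ee (-(ξ' p * x)) * ((Real.exp (-(Real.pi * y ^ 2 * (av t p.1.1 ^ 2)⁻¹) * x ^ 2) : ℝ) : ℂ))]
  rw [Finset.prod_congr rfl fun p _ => s3_one (av_pos t p.1.1) hy (ξ' p), ← Complex.ofReal_prod, Finset.prod_mul_distrib,
    ← Real.exp_sum, e2, Finset.sum_neg_distrib, Finset.mul_sum]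

end

end Pool.Agent.Lib.H85A
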