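import Pool.Agent.Lib.H85A.I2
import Pool.Agent.Lib.H33N.PD

/-!
# H85A, SD: definitions of module S (Whittaker functions and the Gaussian kernel)
-/

namespace Pool.Agent.Lib.H85A

open MeasureTheory Matrix NumberField
open Pool.Agent.Lib.H89N Pool.Agent.Lib.H85S Pool.Agent.Lib.H33W Pool.Agent.Lib.H33N
open scoped ENNReal

noncomputable section

variable {n k : ℕ}

/-- Right `SO(n)`-invariant Whittaker functions of moderate growth on the torus. -/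
structure Whi (N : ℕ) (m : Fin (k + 1) → ℤ) (W : GG (k + 1) ℚ → ℂ) : Prop where
  cont : Continuous W
  rk : RK W
  up : ∀ (σ : UI (k + 1) → EE ℚ) (y : GG (k + 1) ℚ), W (up σ * y) = ee (sd (thz (k + 1) N m) (upM σ)) * W y
  gr : ∃ C E : ℝ, ∀ t : Fin k → ℝ, ‖W (aG t)‖ ≤ C * Real.exp (E * ∑ l, |t l|)

/-- The equation `W * φ = φ̂(s) W`. -/
def EigW (μ : Measure (GG (k + 1) ℚ)) (s : Fin (k + 1) → ℂ) (W : GG (k + 1) ℚ → ℂ) : Prop :=
  ∀ φ : GG (k + 1) ℚ → ℂ, Continuous φ → HasCompactSupport φ → BiK φ →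
    ∀ x, ∫ y, W (x * y) * φ y ∂μ = (∫ y, hcf s y * φ y ∂μ) * W x

/-- The position `(l, l + 1)`. -/
def pl (l : Fin k) : UI (k + 1) := ⟨(l.castSucc, l.succ), Fin.castSucc_lt_succ⟩

/-- `(m_l / N) (a_l / a_(l+1))`, `a = av τ`. -/
def xi (N : ℕ) (m : Fin (k + 1) → ℤ) (τ : Fin k → ℝ) (l : Fin k) : ℝ :=
  (m l.castSucc : ℝ) / N * (av τ l.castSucc / av τ l.succ)

/-- The weight in `s_top`. -/
def wg (y : ℝ) (ξ : Fin k → ℝ) (t : Fin k → ℝ) : ℝ :=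
  (∏ i, av t i ^ (i : ℕ)) * Real.exp (-(Real.pi * y ^ 2 * ∑ i, (av t i ^ 2)⁻¹)) *
    Real.exp (-(Real.pi * ∑ l : Fin k, (ξ l * av t l.castSucc / y) ^ 2))

end

end Pool.Agent.Lib.H85A
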