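import Pool.Agent.Lib.H85S.TD

/-!
# Maass cusp forms and their spherical parameters (Langlands parameters at the real place): definitions

`GG n ℚ = SL_n(ℝ)`, `rq : ℚ ⊗ ℝ → ℝ` is the coordinate (an isomorphism), `Cusp 𝔫 μ f` means: `f` is a continuous cuspidal function in
`L²(Γ(𝔫) \ SL_n(ℝ))`.
-/

namespace Pool.Agent.Lib.H85A

open MeasureTheory Matrix NumberField IsDedekindDomain
open Pool.Agent.Lib.H89N Pool.Agent.Lib.H85S

noncomputable section

variable {n : ℕ}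

/-- The determinant of the lower right block (rows and columns `≥ j`) of `g gᵀ`. For `g = u diag(a) k` with `u` unipotent upper triangular,
`a_i > 0` and `k ∈ SO(n)` this is `∏_(i ≥ j) a_i²`. -/
def gm (g : GG n ℚ) (j : ℕ) : ℝ :=
  (((g.1 * g.1ᵀ).map rq).submatrix (fun i : {i : Fin n // j ≤ (i : ℕ)} => i.1) (fun i : {i : Fin n // j ≤ (i : ℕ)} => i.1)).det

/-- **The Iwasawa projection**: `ia g i = a_i` for `g = u diag(a) k` (`u` unipotent upper triangular, `a_i > 0`, `k ∈ SO(n)`). -/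
def ia (g : GG n ℚ) (i : Fin n) : ℝ := √(gm g i / gm g (i + 1))

/-- `a(g) ^ (s + ρ) = ∏ a_i ^ (s_i + (n - 1) / 2 - i)` (`i = 0, .., n - 1`). -/
def hcf (s : Fin n → ℂ) (g : GG n ℚ) : ℂ := ∏ i, (ia g i : ℂ) ^ (s i + (((n : ℂ) - 1) / 2 - (i : ℕ)))

/-- `φ` is invariant under left and right translations by `SO(n)`. -/
def BiK (φ : GG n ℚ → ℂ) : Prop := ∀ k : GG n ℚ, k.1 * k.1ᵀ = 1 → ∀ x, φ (k * x) = φ x ∧ φ (x * k) = φ x

/-- `f` is right `SO(n)`-invariant with **spherical parameter** `s ∈ ℂⁿ`, `∑ s_i = 0`: `f * φ = φ̂(s) f` for all continuous bi-`SO(n)`-invariant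
functions `φ` with compact support, where `φ̂(s) = ∫ a(y) ^ (s + ρ) φ(y) dy` is the spherical transform. -/
structure Sph (μ : Measure (GG n ℚ)) (s : Fin n → ℂ) (f : GG n ℚ → ℂ) : Prop where
  sum : ∑ i, s i = 0
  inv : ∀ k : GG n ℚ, k.1 * k.1ᵀ = 1 → ∀ x, f (x * k) = f x
  eig : ∀ φ : GG n ℚ → ℂ, Continuous φ → HasCompactSupport φ → BiK φ →
    ∀ x, ∫ y, f (x * y) * φ y ∂μ = (∫ y, hcf s y * φ y ∂μ) * f x

/-- **Maass cusp forms for `Γ(𝔫)` with spherical parameter `s`.** -/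
structure MaassS (𝔫 : Ideal (𝓞 ℚ)) (μ : Measure (GG n ℚ)) (s : Fin n → ℂ) (f : GG n ℚ → ℂ) : Prop where
  cusp : Cusp 𝔫 μ f
  sph : Sph μ s f

end

end Pool.Agent.Lib.H85A
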