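import Pool.Agent.Lib.H85A.I4

/-!
# H85A, V1: the group `U` is unimodular: inversion
-/

namespace Pool.Agent.Lib.H85A

open MeasureTheory Matrix NumberField IsDedekindDomain
open Pool.Agent.Lib.H89N Pool.Agent.Lib.H85S Pool.Agent.Lib.H33W Pool.Agent.Lib.H33N
open scoped ENNReal

noncomputable section

variable {n k : ℕ}

theorem v1_inv (τ : UI n → ℝ) : ∃ τ' : UI n → ℝ, (upr τ : GG n ℚ)⁻¹ = upr τ' := by
  have h0 : IsUU (upr τ : GG n ℚ).1 := isUU_upM fun p : UI n => iq (τ p)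
  have h : IsUU ((upr τ)⁻¹ : GG n ℚ).1 := isUU_inv h0
  obtain ⟨σ, hσ⟩ := upr_surj (cu ((upr τ)⁻¹ : GG n ℚ).1)
  refine ⟨σ, ?_⟩
  rw [← hσ]
  exact (Subtype.ext (upM_cu h)).symm

/-- The test set: the entries above the diagonal are in `[0, 1]`. -/
def v1_S (n : ℕ) : Set (GG n ℚ) := {g | ∀ p : UI n, rq (g.1 p.1.1 p.1.2) ∈ Set.Icc (0 : ℝ) 1}

theorem v1_meas (n : ℕ) : MeasurableSet (v1_S n) := by
  have h : v1_S n = ⋂ p : UI n, (fun g : GG n ℚ => rq (g.1 p.1.1 p.1.2)) ⁻¹' Set.Icc (0 : ℝ) 1 := by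
    ext g
    simp [v1_S]
  rw [h]
  refine (isClosed_iInter fun p => ?_).measurableSet
  exact isClosed_Icc.preimage (rq_cont.comp (continuous_subtype_val.matrix_elem p.1.1 p.1.2))

theorem v1_entry (σ : UI n → ℝ) (p : UI n) : rq ((upr σ : GG n ℚ).1 p.1.1 p.1.2) = σ p := by
  rw [upr_coe, Matrix.map_apply, rq_iq, upM_lt _ p.2]

/-- The test function. -/
def v1_f (n : ℕ) : GG n ℚ → ℝ≥0∞ := (v1_S n).indicator fun _ => 1

theorem v1_fm (n : ℕ) : Measurable (v1_f n) := measurable_const.indicator (v1_meas n)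

theorem v1_one : ∫⁻ σ : UI n → ℝ, v1_f n (upr σ) = 1 := by
  have h : ∀ σ : UI n → ℝ, v1_f n (upr σ) =
      (Set.pi Set.univ fun _ : UI n => Set.Icc (0 : ℝ) 1).indicator (fun _ => (1 : ℝ≥0∞)) σ := by
    intro σ
    unfold v1_f
    by_cases h1 : σ ∈ Set.pi Set.univ fun _ : UI n => Set.Icc (0 : ℝ) 1
    · rw [Set.indicator_of_mem h1, Set.indicator_of_mem]
      intro p
      rw [v1_entry]
      exact h1 p (Set.mem_univ p)
    · rw [Set.indicator_of_notMem h1, Set.indicator_of_notMem]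
      intro h2
      apply h1
      intro p _
      have := h2 p
      rwa [v1_entry] at this
  rw [lintegral_congr h, lintegral_indicator (MeasurableSet.univ_pi fun _ => measurableSet_Icc), lintegral_const, one_mul,
    Measure.restrict_apply_univ, volume_pi_pi]
  simp

/-- PROOF. Let `A f = ∫⁻ f (upr σ)`, `B f = ∫⁻ f (upr σ)⁻¹`; both are invariant under `f ↦ f (u ·)` and `f ↦ f (· u)` for `u = upr τ` and its inverse (`upr_left`, `upr_right`; `(upr τ)⁻¹ = upr τ'` by `isUU_inv`, `upM_cu`, `upr_surj`). For `ψ` the indicator function of a compact neighbourhood of `1` in `GG n ℚ` (e.g. `{fro ≤ n + 1}`),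
`0 < A ψ < ∞`. `∫⁻ σ, ∫⁻ τ, ψ (upr σ) * f ((upr τ)⁻¹ * upr σ)`: for fixed `σ` the integral over `τ` is `B (f (· upr σ)) = B f`, so it is `A ψ * B f`; interchange (Tonelli), for fixed `τ` substitute `σ ↦ τ σ` (`upr_left`): `∫⁻ σ, ψ (upr τ * upr σ) * f (upr σ)`; interchange again: `∫⁻ σ, f (upr σ) * A (ψ (· upr σ)) = A f * A ψ`. -/
theorem upr_inv {f : GG n ℚ → ℝ≥0∞} (hf : Measurable f) : ∫⁻ σ : UI n → ℝ, f (upr σ)⁻¹ = ∫⁻ σ : UI n → ℝ, f (upr σ) := by
  have hψ := v1_fm n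
  -- measurability in both variables
  have hm1 : Measurable fun q : (UI n → ℝ) × (UI n → ℝ) => v1_f n (upr q.1) * f ((upr q.2)⁻¹ * upr q.1) := by
    refine Measurable.mul (hψ.comp (upr_cont.comp continuous_fst).measurable) (hf.comp ?_)
    exact (((upr_cont.comp continuous_snd).inv).mul (upr_cont.comp continuous_fst)).measurable
  have hm2 : Measurable fun q : (UI n → ℝ) × (UI n → ℝ) => v1_f n (upr q.1 * upr q.2) * f (upr q.2) := by
    refine Measurable.mul (hψ.comp ?_) (hf.comp (upr_cont.comp continuous_snd).measurable)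
    exact ((upr_cont.comp continuous_fst).mul (upr_cont.comp continuous_snd)).measurable
  have hfi : Measurable fun u : GG n ℚ => f u⁻¹ := hf.comp continuous_inv.measurable
  have hψ1 : Measurable fun σ : UI n → ℝ => v1_f n (upr σ) := hψ.comp upr_cont.measurable
  have hψ2 : ∀ σ : UI n → ℝ, Measurable fun τ : UI n → ℝ => v1_f n (upr τ * upr σ) := fun σ =>
    hψ.comp (upr_cont.mul continuous_const).measurable
  have hf2 : ∀ σ : UI n → ℝ, Measurable fun τ : UI n → ℝ => f ((upr τ)⁻¹ * upr σ) := fun σ =>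
    hf.comp ((upr_cont.inv).mul continuous_const).measurable
  -- first computation
  have h1 : ∫⁻ σ : UI n → ℝ, ∫⁻ τ : UI n → ℝ, v1_f n (upr σ) * f ((upr τ)⁻¹ * upr σ) =
      ∫⁻ σ : UI n → ℝ, f (upr σ)⁻¹ := by
    have e : ∀ σ : UI n → ℝ, ∫⁻ τ : UI n → ℝ, v1_f n (upr σ) * f ((upr τ)⁻¹ * upr σ) =
        v1_f n (upr σ) * ∫⁻ τ : UI n → ℝ, f (upr τ)⁻¹ := by
      intro σ
      rw [lintegral_const_mul _ (hf2 σ)]
      congr 1
      obtain ⟨σ', hσ'⟩ := v1_inv σ
      rw [← upr_left σ' hfi]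
      refine lintegral_congr fun τ => ?_
      rw [← hσ', _root_.mul_inv_rev, inv_inv]
    simp only [e]
    rw [lintegral_mul_const _ hψ1, v1_one, one_mul]
  -- second computation
  have h2 : ∫⁻ τ : UI n → ℝ, ∫⁻ σ : UI n → ℝ, v1_f n (upr σ) * f ((upr τ)⁻¹ * upr σ) =
      ∫⁻ τ : UI n → ℝ, ∫⁻ σ : UI n → ℝ, v1_f n (upr τ * upr σ) * f (upr σ) := by
    refine lintegral_congr fun τ => ?_
    obtain ⟨τ', hτ'⟩ := v1_inv τ
    have hF : Measurable fun u : GG n ℚ => v1_f n (upr τ * u) * f u :=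
      (hψ.comp (continuous_const.mul continuous_id).measurable).mul hf
    rw [← upr_left τ' hF]
    refine lintegral_congr fun σ => ?_
    rw [← hτ', mul_inv_cancel_left]
  have h3 : ∫⁻ σ : UI n → ℝ, ∫⁻ τ : UI n → ℝ, v1_f n (upr τ * upr σ) * f (upr σ) =
      ∫⁻ σ : UI n → ℝ, f (upr σ) := by
    refine lintegral_congr fun σ => ?_
    rw [lintegral_mul_const _ (hψ2 σ), upr_right σ hψ, v1_one, one_mul]
  rw [← h1, lintegral_lintegral_swap hm1.aemeasurable, h2, lintegral_lintegral_swap hm2.aemeasurable, h3]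

end

end Pool.Agent.Lib.H85A
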