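import Pool.Agent.Lib.H85A.V1
import Pool.Agent.Lib.H85A.S2
import Pool.Agent.Lib.H85A.S6

/-!
# H85A, V2: the spherical transform of the kernel `z ↦ GK y z⁻¹ = exp(-π y² |z|²)`
-/

namespace Pool.Agent.Lib.H85A

open MeasureTheory Matrix NumberField IsDedekindDomain
open Pool.Agent.Lib.H89N Pool.Agent.Lib.H85S Pool.Agent.Lib.H33W Pool.Agent.Lib.H33N
open scoped ENNReal

noncomputable section

variable {n k : ℕ}

theorem v2_entry (σ : UI (k + 1) → ℝ) (t : Fin k → ℝ) (i l : Fin (k + 1)) :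
    rq ((upr σ * aG t).1 i l) = upM σ i l * av t l := by
  have h2 : (upr σ * aG t).1 = (upM σ).map iq * Matrix.diagonal (fun i => iq (av t i)) := by
    rw [← upr_coe, ← aG_coe]
    rfl
  rw [h2, Matrix.mul_diagonal, Matrix.map_apply, map_mul, rq_iq, rq_iq]

/-- PROOF. The entries of `upr σ * aG t` are `(upM σ)_il a_l`. -/
theorem fro_upr (σ : UI (k + 1) → ℝ) (t : Fin k → ℝ) : fro (upr σ * aG t) =
    ∑ i, av t i ^ 2 + ∑ p : UI (k + 1), av t p.1.2 ^ 2 * σ p ^ 2 := by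
  unfold fro
  simp only [v2_entry]
  have key : ∀ i l : Fin (k + 1), (upM σ i l * av t l) ^ 2 =
      (if i = l then av t i ^ 2 else 0) +
        (if h : i < l then av t l ^ 2 * σ ⟨(i, l), h⟩ ^ 2 else 0) := by
    intro i l
    unfold upM
    rw [Matrix.of_apply]
    by_cases h : i < l
    · rw [dif_pos h, dif_pos h, if_neg h.ne, zero_add, mul_pow, mul_comm]
    · rw [dif_neg h, dif_neg h, add_zero]
      by_cases h' : i = l
      · rw [if_pos h', if_pos h', one_mul, h']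
      · rw [if_neg h', if_neg h', zero_mul, zero_pow two_ne_zero]
  simp only [key, Finset.sum_add_distrib, Finset.sum_ite_eq, Finset.mem_univ, if_true]
  congr 1
  rw [← Fintype.sum_prod_type' (f := fun i l : Fin (k + 1) => if h : i < l then av t l ^ 2 * σ ⟨(i, l), h⟩ ^ 2 else 0)]
  rw [← Fintype.sum_subtype_add_sum_subtype (fun x : Fin (k + 1) × Fin (k + 1) => x.1 < x.2)]
  rw [Finset.sum_eq_zero (s := (Finset.univ : Finset {x : Fin (k + 1) × Fin (k + 1) // ¬x.1 < x.2})), add_zero]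
  · refine Finset.sum_congr rfl fun p _ => ?_
    rw [dif_pos p.2]
  · intro p _
    rw [dif_neg p.2]

theorem v2_gauss {y : ℝ} (hy : 0 < y) (t : Fin k → ℝ) :
    Integrable (fun σ : UI (k + 1) → ℝ => Real.exp (-(Real.pi * y ^ 2 * ∑ p : UI (k + 1), av t p.1.2 ^ 2 * σ p ^ 2))) ∧
    ∫ σ : UI (k + 1) → ℝ, Real.exp (-(Real.pi * y ^ 2 * ∑ p : UI (k + 1), av t p.1.2 ^ 2 * σ p ^ 2)) = ∏ p : UI (k + 1), (y * av t p.1.2)⁻¹ := by
  have hb : ∀ p : UI (k + 1), 0 < Real.pi * y ^ 2 * av t p.1.2 ^ 2 := fun p => by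
    have := av_pos t p.1.2
    have := Real.pi_pos
    positivity
  simp only [s2_exp]
  constructor
  · exact Integrable.fintype_prod (f := fun (p : UI (k + 1)) (x : ℝ) => Real.exp (-(Real.pi * y ^ 2 * av t p.1.2 ^ 2) * x ^ 2))
      fun p => integrable_exp_neg_mul_sq (hb p)
  · rw [integral_fintype_prod_volume_eq_prod (fun (p : UI (k + 1)) (x : ℝ) => Real.exp (-(Real.pi * y ^ 2 * av t p.1.2 ^ 2) * x ^ 2))]
    refine Finset.prod_congr rfl fun p _ => ?_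
    rw [integral_gaussian]
    have ha := av_pos t p.1.2
    rw [show Real.pi / (Real.pi * y ^ 2 * av t p.1.2 ^ 2) = ((y * av t p.1.2)⁻¹) ^ 2 by
      have := Real.pi_ne_zero
      field_simp]
    exact Real.sqrt_sq (inv_pos.2 (mul_pos hy ha)).le

theorem v2_gk (y : ℝ) (σ : UI (k + 1) → ℝ) (t : Fin k → ℝ) :
    GK y (bG σ t)⁻¹ = Real.exp (-(Real.pi * y ^ 2 * fro ((upr σ)⁻¹ * aG t))) := by
  unfold GK bG
  rw [inv_inv]

theorem v2_cont1 (y : ℝ) (t : Fin k → ℝ) :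
    Continuous fun u : GG (k + 1) ℚ => Real.exp (-(Real.pi * y ^ 2 * fro (u * aG t))) := by
  have h : Continuous fun u : GG (k + 1) ℚ => fro (u * aG t) := fro_cont.comp (continuous_id.mul continuous_const)
  fun_prop

/-- PROOF. `upr_inv` for `u ↦ ofReal (exp (-π y² fro (u * aG t)))`, `fro_upr`, and the Gaussian integral (as `g_int`). -/
theorem g_int' {y : ℝ} (hy : 0 < y) (t : Fin k → ℝ) : ∫⁻ σ : UI (k + 1) → ℝ, ENNReal.ofReal (GK y (bG σ t)⁻¹) =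
    ENNReal.ofReal ((∏ p : UI (k + 1), (y * av t p.1.2)⁻¹) * Real.exp (-(Real.pi * y ^ 2 * ∑ i, av t i ^ 2))) := by
  have h1 := upr_inv (n := k + 1) (f := fun u => ENNReal.ofReal (Real.exp (-(Real.pi * y ^ 2 * fro (u * aG t)))))
    (v2_cont1 y t).measurable.ennreal_ofReal
  simp only [v2_gk]
  rw [h1]
  have e : ∀ σ : UI (k + 1) → ℝ, Real.exp (-(Real.pi * y ^ 2 * fro (upr σ * aG t))) =
      Real.exp (-(Real.pi * y ^ 2 * ∑ p : UI (k + 1), av t p.1.2 ^ 2 * σ p ^ 2)) * Real.exp (-(Real.pi * y ^ 2 * ∑ i, av t i ^ 2)) := by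
    intro σ
    rw [fro_upr, ← Real.exp_add]
    congr 1
    ring
  simp only [e]
  obtain ⟨g1, g2⟩ := v2_gauss hy t
  rw [← g2, ← integral_mul_const]
  exact (ofReal_integral_eq_lintegral_ofReal (g1.mul_const _) (Filter.Eventually.of_forall fun σ => by positivity)).symm

theorem v2_gkc (y : ℝ) : Continuous (fun p : (Fin k → ℝ) × (UI (k + 1) → ℝ) => GK y (bG p.2 p.1)⁻¹) :=
  (s5_gk_cont y).comp bG_cont.inv

theorem v2_nonneg (y : ℝ) (z : GG n ℚ) : 0 ≤ GK y z := (Real.exp_pos _).le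

/-- The integral over `σ` as a Bochner integral. -/
theorem v2_int {y : ℝ} (hy : 0 < y) (t : Fin k → ℝ) : Integrable (fun σ : UI (k + 1) → ℝ => GK y (bG σ t)⁻¹) ∧
    ∫ σ : UI (k + 1) → ℝ, GK y (bG σ t)⁻¹ =
      (∏ p : UI (k + 1), (y * av t p.1.2)⁻¹) * Real.exp (-(Real.pi * y ^ 2 * ∑ i, av t i ^ 2)) := by
  have hc0 : Continuous fun σ : UI (k + 1) → ℝ => bG σ t := by
    unfold bG
    exact upr_cont.inv.mul continuous_const
  have hc : Continuous fun σ : UI (k + 1) → ℝ => GK y (bG σ t)⁻¹ := (s5_gk_cont y).comp hc0.inv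
  have h1 := g_int' hy t
  have hpos : 0 ≤ (∏ p : UI (k + 1), (y * av t p.1.2)⁻¹) * Real.exp (-(Real.pi * y ^ 2 * ∑ i, av t i ^ 2)) := by
    refine mul_nonneg (Finset.prod_nonneg fun p _ => ?_) (Real.exp_pos _).le
    exact (inv_pos.2 (mul_pos hy (av_pos t p.1.2))).le
  have hi : Integrable (fun σ : UI (k + 1) → ℝ => GK y (bG σ t)⁻¹) := by
    refine ⟨hc.aestronglyMeasurable, ?_⟩
    rw [hasFiniteIntegral_iff_ofReal (Filter.Eventually.of_forall fun σ => v2_nonneg y _), h1]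
    exact ENNReal.ofReal_lt_top
  refine ⟨hi, ?_⟩
  rw [integral_eq_lintegral_of_nonneg_ae (Filter.Eventually.of_forall fun σ => v2_nonneg y _) hc.aestronglyMeasurable, h1,
    ENNReal.toReal_ofReal hpos]

theorem v2_neg (t : Fin k → ℝ) : ∑ i, (av (-t) i ^ 2)⁻¹ = ∑ i, av t i ^ 2 := by
  refine Finset.sum_congr rfl fun i _ => ?_
  rw [av_neg, inv_pow, inv_inv]

theorem v2_prod {y : ℝ} (t : Fin k → ℝ) :
    ∏ p : UI (k + 1), (y * av t p.1.2)⁻¹ = y⁻¹ ^ Fintype.card (UI (k + 1)) * ∏ p : UI (k + 1), (av t p.1.2)⁻¹ := by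
  rw [← Finset.card_univ, ← Finset.prod_const, ← Finset.prod_mul_distrib]
  refine Finset.prod_congr rfl fun p _ => ?_
  rw [mul_inv]

theorem v2_bound (t : Fin k → ℝ) :
    ∏ p : UI (k + 1), (av t p.1.2)⁻¹ ≤ Real.exp (Fintype.card (UI (k + 1)) * ∑ l, |t l|) := by
  calc ∏ p : UI (k + 1), (av t p.1.2)⁻¹ ≤ ∏ _p : UI (k + 1), Real.exp (∑ l, |t l|) := by
        refine Finset.prod_le_prod (fun p _ => (inv_pos.2 (av_pos t _)).le) fun p _ => ?_
        have h2 := s1_rpow t p.1.2 (-1)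
        rwa [Real.rpow_neg_one, abs_neg, abs_one, one_mul] at h2
    _ = _ := by rw [Finset.prod_const, ← Real.exp_nat_mul, Finset.card_univ]

/-- PROOF. As `s_dom`, with `g_int'`, `t_core` at `-t` (`av_neg`: `∑ av t i ^ 2 = ∑ (av (-t) i ^ 2)⁻¹`). -/
theorem s_dom' (B : ℝ) (hB : 0 ≤ B) {y : ℝ} (hy : 0 < y) :
    Integrable (fun p : (Fin k → ℝ) × (UI (k + 1) → ℝ) => Real.exp (B * ∑ l, |p.1 l|) * GK y (bG p.2 p.1)⁻¹) := by
  have hc : Continuous (fun p : (Fin k → ℝ) × (UI (k + 1) → ℝ) => Real.exp (B * ∑ l, |p.1 l|) * GK y (bG p.2 p.1)⁻¹) := by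
    refine Continuous.mul (by fun_prop) (v2_gkc y)
  rw [Measure.volume_eq_prod, integrable_prod_iff hc.aestronglyMeasurable]
  constructor
  · refine Filter.Eventually.of_forall fun t => ?_
    exact (v2_int hy t).1.const_mul (Real.exp (B * ∑ l, |t l|))
  · have e2 : ∀ t : Fin k → ℝ, ∫ σ : UI (k + 1) → ℝ, ‖Real.exp (B * ∑ l, |t l|) * GK y (bG σ t)⁻¹‖ =
        Real.exp (B * ∑ l, |t l|) * ((∏ p : UI (k + 1), (y * av t p.1.2)⁻¹) * Real.exp (-(Real.pi * y ^ 2 * ∑ i, av t i ^ 2))) := by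
      intro t
      rw [← (v2_int hy t).2, ← integral_const_mul]
      refine integral_congr_ae (Filter.Eventually.of_forall fun σ => ?_)
      simp only
      exact Real.norm_of_nonneg (mul_nonneg (Real.exp_pos _).le (v2_nonneg y _))
    simp only [e2]
    set M : ℝ := (Fintype.card (UI (k + 1)) : ℝ) with hM
    have hM0 : 0 ≤ M := Nat.cast_nonneg _
    obtain ⟨C, hC⟩ := t_core k (B + M) (add_nonneg hB hM0) hy
    have hdom : Integrable fun t : Fin k → ℝ => (y⁻¹ ^ Fintype.card (UI (k + 1)) * Real.exp C) * Real.exp (-∑ l, |t l|) := (a_expabs k).const_mul _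
    refine hdom.mono' ?_ (Filter.Eventually.of_forall fun t => ?_)
    · refine Continuous.aestronglyMeasurable ?_
      have h1 : ∀ i : Fin (k + 1), Continuous fun t : Fin k → ℝ => av t i ^ 2 := fun i => (av_cont i).pow 2
      refine Continuous.mul (by fun_prop) (Continuous.mul ?_ ?_)
      · exact continuous_finsetProd _ fun q _ => (continuous_const.mul (av_cont _)).inv₀ fun t => (mul_pos hy (av_pos t _)).ne'
      · refine Real.continuous_exp.comp (Continuous.neg (Continuous.mul continuous_const ?_))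
        exact continuous_finsetSum _ fun i _ => h1 i
    · have hpos : 0 ≤ y⁻¹ ^ Fintype.card (UI (k + 1)) := pow_nonneg (inv_pos.2 hy).le _
      have hpos2 : 0 ≤ ∏ p : UI (k + 1), (av t p.1.2)⁻¹ := Finset.prod_nonneg fun _ _ => (inv_pos.2 (av_pos _ _)).le
      have h3 := v2_bound t
      have h4 := hC (-t)
      rw [v2_neg] at h4
      simp only [Pi.neg_apply, abs_neg] at h4
      rw [v2_prod, Real.norm_of_nonneg (by positivity)]
      calc Real.exp (B * ∑ l, |t l|) * (y⁻¹ ^ Fintype.card (UI (k + 1)) * (∏ p : UI (k + 1), (av t p.1.2)⁻¹) * Real.exp (-(Real.pi * y ^ 2 * ∑ i, av t i ^ 2)))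
          ≤ Real.exp (B * ∑ l, |t l|) * (y⁻¹ ^ Fintype.card (UI (k + 1)) * Real.exp (M * ∑ l, |t l|) * Real.exp (-(Real.pi * y ^ 2 * ∑ i, av t i ^ 2))) := by
            gcongr
        _ = y⁻¹ ^ Fintype.card (UI (k + 1)) * Real.exp ((B + M) * ∑ l, |t l| - Real.pi * y ^ 2 * ∑ i, av t i ^ 2) := by
            rw [sub_eq_add_neg, add_mul, Real.exp_add, Real.exp_add]
            ring
        _ ≤ y⁻¹ ^ Fintype.card (UI (k + 1)) * Real.exp (C - ∑ l, |t l|) := by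
            exact mul_le_mul_of_nonneg_left (Real.exp_le_exp.2 h4) hpos
        _ = _ := by
            rw [sub_eq_add_neg, Real.exp_add]
            ring

/-- PROOF. `integral_prod`, `hcf_bG` depends only on `t`; the integral over `σ` is `∏_p (a_(p.1.1) / y)` times `exp (-π y² ∑ a⁻²)` (`gk_bG`, `g_int`); `exp_one`. -/
theorem v_val (s : Fin (k + 1) → ℂ) {y : ℝ} (hy : 0 < y) :
    ∫ p : (Fin k → ℝ) × (UI (k + 1) → ℝ), hcf s (bG p.2 p.1) * ((GK y (bG p.2 p.1) * (dl p.1)⁻¹ : ℝ) : ℂ) =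
      ((y⁻¹ ^ Fintype.card (UI (k + 1)) : ℝ) : ℂ) * HX y s := by
  obtain ⟨E1, hE1, hb1⟩ := hcf_norm (k := k) s
  have i2 := s6_int (k := k) hy (F := fun p => hcf s (bG p.2 p.1)) ((hcf_cont s).comp bG_cont) zero_le_one hE1
    fun t σ => by rw [one_mul]; exact hb1 σ t
  rw [Measure.volume_eq_prod] at i2 ⊢
  rw [integral_prod _ i2]
  simp only [s6_right hy]
  rw [integral_const_mul, Finset.prod_const, Finset.card_univ]
  rfl

theorem v2_exp (s : Fin (k + 1) → ℂ) (t : Fin k → ℝ) :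
    (∏ i, (av t i : ℂ) ^ (s i + ((k : ℂ) / 2 - (i : ℕ)))) * ((∏ p : UI (k + 1), (av t p.1.2)⁻¹ : ℝ) : ℂ) * (((dl t)⁻¹ : ℝ) : ℂ) =
      ∏ i, (av t i : ℂ) ^ s i := by
  have h1 := exp_one s t
  have h2 : (∏ p : UI (k + 1), av t p.1.1) * (dl t)⁻¹ = ∏ i, av t i ^ (i : ℕ) := exp_two t
  have h3 : ∏ p : UI (k + 1), (av t p.1.2)⁻¹ = (∏ i, av t i ^ (i : ℕ))⁻¹ := by
    rw [Finset.prod_inv_distrib, s1_snd (fun i => av t i)]
  have h4 := exp_three t
  have h5 : ∏ i, av t i ^ (2 * (i : ℕ)) = (∏ i, av t i ^ (i : ℕ)) * ∏ i, av t i ^ (i : ℕ) := by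
    rw [← Finset.prod_mul_distrib]
    refine Finset.prod_congr rfl fun i _ => ?_
    rw [two_mul, pow_add]
  have hP : (∏ i, av t i ^ (i : ℕ)) ≠ 0 := (Finset.prod_pos fun i _ => pow_pos (av_pos t i) _).ne'
  have h6 : (∏ p : UI (k + 1), (av t p.1.2)⁻¹) * (dl t)⁻¹ = ∏ i, av t i ^ (i : ℕ) := by
    rw [h3]
    rw [h5] at h4
    have hd := (dl_pos t).ne'
    field_simp
    linear_combination -h4
  rw [mul_assoc, ← Complex.ofReal_mul, h6, ← h1, ← h2, mul_assoc, ← Complex.ofReal_mul]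

theorem v2_right {y : ℝ} (hy : 0 < y) (s : Fin (k + 1) → ℂ) (t : Fin k → ℝ) :
    ∫ σ : UI (k + 1) → ℝ, hcf s (bG σ t) * ((GK y (bG σ t)⁻¹ * (dl t)⁻¹ : ℝ) : ℂ) =
      ((y⁻¹ ^ Fintype.card (UI (k + 1)) : ℝ) : ℂ) *
        ((∏ i, (av t i : ℂ) ^ s i) * (Real.exp (-(Real.pi * y ^ 2 * ∑ i, av t i ^ 2)) : ℂ)) := by
  have e : ∀ σ : UI (k + 1) → ℝ, hcf s (bG σ t) * ((GK y (bG σ t)⁻¹ * (dl t)⁻¹ : ℝ) : ℂ) =
      ((∏ i, (av t i : ℂ) ^ (s i + ((k : ℂ) / 2 - (i : ℕ)))) * (((dl t)⁻¹ : ℝ) : ℂ)) * ((GK y (bG σ t)⁻¹ : ℝ) : ℂ) := by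
    intro σ
    rw [hcf_bG, Complex.ofReal_mul]
    ring
  simp only [e]
  rw [integral_const_mul, integral_complex_ofReal, (v2_int hy t).2, ← v2_exp s t, v2_prod, Complex.ofReal_mul, Complex.ofReal_mul]
  ring

theorem v2_int2 {y : ℝ} (hy : 0 < y) {F : (Fin k → ℝ) × (UI (k + 1) → ℝ) → ℂ} (hF : Continuous F) {C E : ℝ} (hC : 0 ≤ C) (hE : 0 ≤ E)
    (hb : ∀ (t : Fin k → ℝ) (σ : UI (k + 1) → ℝ), ‖F (t, σ)‖ ≤ C * Real.exp (E * ∑ l, |t l|)) :
    Integrable (fun p : (Fin k → ℝ) × (UI (k + 1) → ℝ) => F p * ((GK y (bG p.2 p.1)⁻¹ * (dl p.1)⁻¹ : ℝ) : ℂ)) := by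
  obtain ⟨E2, hE2, h2⟩ := dl_bound k
  refine ((s_dom' (k := k) (E + E2) (add_nonneg hE hE2) hy).const_mul C).mono' ?_ (Filter.Eventually.of_forall fun p => ?_)
  · refine Continuous.aestronglyMeasurable (hF.mul (Complex.continuous_ofReal.comp ?_))
    exact (v2_gkc y).mul ((dl_cont.comp continuous_fst).inv₀ fun p => (dl_pos _).ne')
  · have hg : 0 ≤ GK y (bG p.2 p.1)⁻¹ := v2_nonneg y _
    have hd : 0 ≤ (dl p.1)⁻¹ := inv_nonneg.2 (dl_pos _).le
    rw [norm_mul, Complex.norm_of_nonneg (mul_nonneg hg hd)]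
    calc ‖F p‖ * (GK y (bG p.2 p.1)⁻¹ * (dl p.1)⁻¹)
        ≤ (C * Real.exp (E * ∑ l, |p.1 l|)) * (GK y (bG p.2 p.1)⁻¹ * Real.exp (E2 * ∑ l, |p.1 l|)) := by
          refine mul_le_mul (hb p.1 p.2) (mul_le_mul_of_nonneg_left (h2 p.1).2.1 hg) (mul_nonneg hg hd) (by positivity)
      _ = C * (Real.exp ((E + E2) * ∑ l, |p.1 l|) * GK y (bG p.2 p.1)⁻¹) := by
          rw [add_mul, Real.exp_add]
          ring

/-- PROOF. The same with `g_int'`: `∏ a_i ^ (s_i + k/2 - i) * ∏_p a_(p.1.2)⁻¹ * (dl t)⁻¹ = ∏ a_i ^ (s_i)` (`∏_p a_(p.1.2) = ∏ a_i ^ i`, `dl t = ∏ a_i ^ (k - 2i)`, `∏ a_i = 1`), and `t ↦ -t` (`integral_neg_eq_self`): `∫ ∏ a_i ^ (s_i) exp (-π y² ∑ a_i²) = HX y (-s)`. -/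
theorem v_val' (s : Fin (k + 1) → ℂ) {y : ℝ} (hy : 0 < y) :
    ∫ p : (Fin k → ℝ) × (UI (k + 1) → ℝ), hcf s (bG p.2 p.1) * ((GK y (bG p.2 p.1)⁻¹ * (dl p.1)⁻¹ : ℝ) : ℂ) =
      ((y⁻¹ ^ Fintype.card (UI (k + 1)) : ℝ) : ℂ) * HX y (fun i => -s i) := by
  obtain ⟨E1, hE1, hb1⟩ := hcf_norm (k := k) s
  have i2 := v2_int2 (k := k) hy (F := fun p => hcf s (bG p.2 p.1)) ((hcf_cont s).comp bG_cont) zero_le_one hE1
    fun t σ => by rw [one_mul]; exact hb1 σ t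
  rw [Measure.volume_eq_prod] at i2 ⊢
  rw [integral_prod _ i2]
  simp only [v2_right hy]
  rw [integral_const_mul]
  congr 1
  unfold HX
  rw [← integral_neg_eq_self]
  refine integral_congr_ae (Filter.Eventually.of_forall fun t => ?_)
  simp only
  have e1 : ∑ i, av (-t) i ^ 2 = ∑ i, (av t i ^ 2)⁻¹ := by
    have h := v2_neg (-t)
    rw [neg_neg] at h
    exact h.symm
  rw [e1]
  congr 1
  refine Finset.prod_congr rfl fun i _ => ?_
  rw [s1_cpow, s1_cpow, av_neg, Real.log_inv]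
  congr 1
  push_cast
  ring

end

end Pool.Agent.Lib.H85A
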